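import Pool.Agent.Lib.MP_778b46_nt.MB.Va
import Pool.Agent.Lib.MP_778b46_nt.MA.A1

/-! The identity of Vaughan without its trilinear part. -/

set_option autoImplicit false

noncomputable section

namespace Pool.Agent.Lib.MP_778b46_nt.MB

open Complex Finset MeasureTheory
open scoped Real ComplexConjugate
open Pool.Agent.Lib.MP_03e5d0_nt (Sm ex ft bump)
open Pool.Agent.Lib.MP_778b46_nt.MA

/-- The exponential restricted to the integers coprime to `q`. -/
def vbφ (q : ℕ) (x : ℝ) (n : ℕ) : ℂ := if Nat.Coprime n q then ee (n * x) else 0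

theorem vb_norm (q : ℕ) (x : ℝ) (n : ℕ) : ‖vbφ q x n‖ ≤ 1 := by
  unfold vbφ
  split_ifs
  · exact (VA.norm_ee _).le
  · simp

theorem vb_conv (f g : ArithmeticFunction ℝ) (q k : ℕ) (x : ℝ) :
    ∑ n ∈ Ioc 0 k, (((f * g) n : ℝ) : ℂ) * vbφ q x n =
      ∑ d ∈ Ioc 0 k, ((if Nat.Coprime d q then f d else 0 : ℝ) : ℂ) *
        ∑ m ∈ Ioc 0 (k / d), ((if Nat.Coprime m q then g m else 0 : ℝ) : ℂ) *
          ee ((d * m : ℕ) * x) := by
  rw [VA.conv_sum f g (vbφ q x)]
  refine sum_congr rfl fun d _ => ?_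
  rw [mul_sum, mul_sum]
  refine sum_congr rfl fun m _ => ?_
  unfold vbφ
  by_cases h1 : Nat.Coprime d q
  · by_cases h2 : Nat.Coprime m q
    · rw [if_pos h1, if_pos h2, if_pos (Nat.Coprime.mul_left h1 h2)]
    · rw [if_neg h2, if_neg fun h => h2 (Nat.Coprime.coprime_mul_left h)]
      simp
  · rw [if_neg h1, if_neg fun h => h1 (Nat.Coprime.coprime_mul_right h)]
    simp

theorem vb_abs_ite {c : Prop} [Decidable c] {a W : ℝ} (hW : 0 ≤ W) (h : |a| ≤ W) :
    |if c then a else 0| ≤ W := by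
  split_ifs
  · exact h
  · simpa using hW

open Classical in
/-- The part of a convolution cut out by a condition on the two factors. -/
def vbP (p : ℕ → ℕ → Prop) (f g : ArithmeticFunction ℝ) : ArithmeticFunction ℝ :=
  ⟨fun k => ∑ z ∈ k.divisorsAntidiagonal, if p z.1 z.2 then f z.1 * g z.2 else 0, by simp⟩

open Classical in
theorem vbP_apply (p : ℕ → ℕ → Prop) (f g : ArithmeticFunction ℝ) (k : ℕ) :
    vbP p f g k = ∑ z ∈ k.divisorsAntidiagonal, if p z.1 z.2 then f z.1 * g z.2 else 0 := rfl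

theorem vbP_add (p : ℕ → ℕ → Prop) (f g : ArithmeticFunction ℝ) :
    f * g = vbP (fun d c => ¬ p d c) f g + vbP p f g := by
  ext k
  rw [ArithmeticFunction.add_apply, vbP_apply, vbP_apply, ← sum_add_distrib,
    ArithmeticFunction.mul_apply]
  refine sum_congr rfl fun z _ => ?_
  by_cases h : p z.1 z.2 <;> simp [h]

theorem vbP_abs (p : ℕ → ℕ → Prop) (f g : ArithmeticFunction ℝ) (hf : ∀ n, |f n| ≤ 1)
    (hg : ∀ n, |g n| ≤ ArithmeticFunction.vonMangoldt n) (n : ℕ) :
    |vbP p f g n| ≤ Real.log n := by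
  classical
  rw [vbP_apply, ← ArithmeticFunction.vonMangoldt_sum,
    ← Nat.sum_divisorsAntidiagonal' (fun _ y => ArithmeticFunction.vonMangoldt y)]
  refine (abs_sum_le_sum_abs _ _).trans (sum_le_sum fun x _ => ?_)
  refine vb_abs_ite ArithmeticFunction.vonMangoldt_nonneg ?_
  rw [abs_mul]
  exact (mul_le_of_le_one_left (abs_nonneg _) (hf _)).trans (hg _)

theorem vbP_zero {Z : ℝ} (f g : ArithmeticFunction ℝ) {n : ℕ} (h : Z < n) :
    vbP (fun d c => ¬ big Z d c) f g n = 0 := by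
  rw [vbP_apply]
  refine sum_eq_zero fun z hz => if_neg (not_not.2 ?_)
  have e := (Nat.mem_divisorsAntidiagonal.1 hz).1
  have h1 := Nat.lt_pow_succ_log_self (b := 2) (by norm_num) z.1
  have h2 := Nat.lt_pow_succ_log_self (b := 2) (by norm_num) z.2
  have h3 : n ≤ 2 ^ (Nat.log 2 z.1 + Nat.log 2 z.2 + 2) := by
    rw [← e]
    refine (Nat.mul_le_mul h1.le h2.le).trans (le_of_eq ?_)
    rw [← pow_add]
    congr 1
    omega
  unfold big
  refine h.trans_le ?_
  exact_mod_cast h3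

theorem vb_cq (X P : ℝ) (q m : ℕ) : cq X P q m = if Nat.Coprime m q then
    (vbP (big (X / √P)) (VA.cut P (ArithmeticFunction.moebius : ArithmeticFunction ℝ))
      (VA.cut P ArithmeticFunction.vonMangoldt) *
        (ArithmeticFunction.zeta : ArithmeticFunction ℝ)) m else 0 := by
  unfold cq
  split_ifs with h
  · rw [ArithmeticFunction.mul_apply]
    refine sum_congr rfl fun x hx => ?_
    rw [ArithmeticFunction.natCoe_apply, ArithmeticFunction.zeta_apply,
      if_neg (Nat.right_ne_zero_of_mem_divisorsAntidiagonal hx), Nat.cast_one, mul_one,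
      vbP_apply]
    refine sum_congr rfl fun z _ => ?_
    rw [VA.cut_apply, VA.cut_apply, ArithmeticFunction.intCoe_apply]
    by_cases h1 : (z.1 : ℝ) ≤ P <;> by_cases h2 : (z.2 : ℝ) ≤ P <;>
      by_cases h3 : big (X / √P) z.1 z.2 <;> simp [h1, h2, h3]
  · rfl

theorem vb_w1 {x : ℝ} (h : w1 x ≠ 0) : 1 / 4 < x := by
  by_contra hc
  refine h ?_
  rw [w1, w0, MP_03e5d0_nt.bump_eq_zero, zero_mul]
  rw [le_abs]
  right
  linarith [not_lt.1 hc]

/-- Sharp cutoff. -/
theorem gq_cut {X P x : ℝ} (hP : 1 ≤ P) (hPX : P ^ 2 ≤ X) (h : Mn X P x) {q k : ℕ} (hq : 1 ≤ q)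
    (hk : (k : ℝ) ≤ X) :
    ‖∑ m ∈ Ioc 0 k, (((if Nat.Coprime m q then ArithmeticFunction.vonMangoldt m else 0) +
      cq X P q m : ℝ) : ℂ) * ee (m * x)‖ ≤
      3000 * 2 ^ q.primeFactors.card * (X / √P) * (3 + Real.log X) ^ 3 := by
  have hPX' : P ≤ X := by nlinarith
  have hX1 : 1 ≤ X := hP.trans hPX'
  have hs1 : 1 ≤ √P := Real.one_le_sqrt.2 hP
  have hs2 : √P * √P = P := Real.mul_self_sqrt (by linarith)
  have hs3 : √P ≤ P := by nlinarith
  set Z := X / √P with hZ
  set L := 3 + Real.log X with hLdef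
  have hlX := Real.log_nonneg hX1
  have hL : 1 ≤ L := by linarith
  have hPZ : P ≤ Z := by
    rw [hZ, le_div_iff₀ (by linarith)]
    nlinarith
  have hZ0 : 0 ≤ Z := by linarith
  have hZ2 : Z ^ 2 = X ^ 2 / P := by rw [hZ, div_pow, Real.sq_sqrt (by linarith)]
  have hE : 7 * X / P ≤ 7 * Z := by
    rw [hZ, mul_div_assoc]
    exact mul_le_mul_of_nonneg_left
      (div_le_div_of_nonneg_left (by linarith) (by linarith) hs3) (by norm_num)
  have hw : (1 : ℝ) ≤ 2 ^ q.primeFactors.card := one_le_pow₀ (by norm_num)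
  set w : ℝ := 2 ^ q.primeFactors.card with hwdef
  have hlk : Real.log k ≤ Real.log X := by
    rcases Nat.eq_zero_or_pos k with rfl | hk0
    · simpa using hlX
    · exact Real.log_le_log (by exact_mod_cast hk0) hk
  set M1 := VA.cut P (ArithmeticFunction.moebius : ArithmeticFunction ℝ) with hM1
  set L1 := VA.cut P ArithmeticFunction.vonMangoldt with hL1'
  have hM : ∀ n, |M1 n| ≤ 1 := fun n => by
    rw [hM1, VA.cut_apply]
    exact vb_abs_ite zero_le_one (VA.abs_mu_le n)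
  have hLa : ∀ n, |L1 n| ≤ ArithmeticFunction.vonMangoldt n := fun n => by
    rw [hL1', VA.cut_apply]
    exact vb_abs_ite ArithmeticFunction.vonMangoldt_nonneg
      (abs_of_nonneg ArithmeticFunction.vonMangoldt_nonneg).le
  have hlg : ∀ n ∈ Ioc 0 k, Real.log n ≤ L := fun n hn => by
    linarith [VA.log_natCast_mono (mem_Ioc.1 hn).2]
  have s0 : ‖∑ n ∈ Ioc 0 k, ((L1 n : ℝ) : ℂ) * vbφ q x n‖ ≤ Z * L := by
    refine (norm_sum_le _ _).trans ?_
    have h1 : ∀ n ∈ Ioc 0 k, ‖((L1 n : ℝ) : ℂ) * vbφ q x n‖ ≤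
        if n ∈ Ioc 0 ⌊P⌋₊ then L else 0 := by
      intro n hn
      rw [norm_mul, Complex.norm_real, Real.norm_eq_abs]
      refine (mul_le_of_le_one_right (abs_nonneg _) (vb_norm q x n)).trans ?_
      split_ifs with h
      · exact (hLa n).trans (ArithmeticFunction.vonMangoldt_le_log.trans (hlg n hn))
      · rw [hL1', VA.cut_apply, if_neg, abs_zero]
        intro h2
        exact h (mem_Ioc.2 ⟨(mem_Ioc.1 hn).1, Nat.le_floor h2⟩)
    refine (sum_le_sum h1).trans ?_
    rw [← sum_filter, sum_const, nsmul_eq_mul]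
    refine mul_le_mul_of_nonneg_right ?_ (by linarith)
    have h2 : ((Ioc 0 k).filter fun n => n ∈ Ioc 0 ⌊P⌋₊).card ≤ ⌊P⌋₊ := by
      refine (card_le_card (t := Ioc 0 ⌊P⌋₊) fun n hn => (mem_filter.1 hn).2).trans ?_
      simp
    have h3 : (((Ioc 0 k).filter fun n => n ∈ Ioc 0 ⌊P⌋₊).card : ℝ) ≤ (⌊P⌋₊ : ℕ) := by
      exact_mod_cast h2
    linarith [Nat.floor_le (a := P) (by linarith)]
  have s1 : ‖∑ n ∈ Ioc 0 k, (((M1 * ArithmeticFunction.log) n : ℝ) : ℂ) * vbφ q x n‖ ≤
      264 * w * 1 * (7 * Z) * L ^ 2 := by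
    rw [vb_conv]
    refine le_trans (le_of_eq ?_) (one_cop_log hP hPX' h hq hk hE
      (fun d => if Nat.Coprime d q then M1 d else 0)
      (fun d _ => vb_abs_ite zero_le_one (hM d)) zero_le_one fun d hd => ?_)
    · congr 1
      refine sum_congr rfl fun d _ => ?_
      congr 1
      rw [sum_filter]
      refine sum_congr rfl fun m _ => ?_
      split_ifs
      · rw [ArithmeticFunction.log_apply]
      · simp
    · rw [hM1, VA.cut_apply, if_neg (show ¬ (d : ℝ) ≤ P by linarith), ite_self]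
  have s2 : ‖∑ n ∈ Ioc 0 k, (((vbP (fun d c => ¬ big Z d c) M1 L1 *
      (ArithmeticFunction.zeta : ArithmeticFunction ℝ)) n : ℝ) : ℂ) * vbφ q x n‖ ≤
      88 * w * L * (7 * Z) * L := by
    rw [vb_conv]
    refine le_trans (le_of_eq ?_) (one_cop hP hPX' h hq hk hE
      (fun d => if Nat.Coprime d q then vbP (fun d c => ¬ big Z d c) M1 L1 d else 0)
      (fun d hd => vb_abs_ite (by linarith) ((vbP_abs _ _ _ hM hLa d).trans (hlg d hd)))
      (by linarith) fun d hd => ?_)
    · congr 1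
      refine sum_congr rfl fun d _ => ?_
      congr 1
      rw [sum_filter]
      refine sum_congr rfl fun m hm => ?_
      split_ifs
      · rw [ArithmeticFunction.natCoe_apply, ArithmeticFunction.zeta_apply,
          if_neg (mem_Ioc.1 hm).1.ne']
        simp
      · simp
    · rw [vbP_zero _ _ (by linarith), ite_self]
  have s3 : ‖∑ n ∈ Ioc 0 k, (((((ArithmeticFunction.moebius : ArithmeticFunction ℝ) - M1) *
      ((ArithmeticFunction.vonMangoldt - L1) *
        (ArithmeticFunction.zeta : ArithmeticFunction ℝ))) n : ℝ) : ℂ) * vbφ q x n‖ ≤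
      12 * L * L ^ 2 * (3 * Z) := by
    obtain ⟨b, r, hr, r1, r2, r3, r4⟩ := mn_approx hP hPX' h one_pos
    rw [Nat.cast_one, mul_one] at r1 r4
    have hr' : (0 : ℝ) < r := by exact_mod_cast hr
    have hk0 : (0 : ℝ) ≤ k := Nat.cast_nonneg k
    have hk2 : (k : ℝ) ^ 2 ≤ X ^ 2 := by gcongr
    have hXP : 0 ≤ X ^ 2 / P := by positivity
    have e2 : (k : ℝ) ^ 2 / P ≤ (3 * Z) ^ 2 := by
      rw [mul_pow, hZ2]
      linarith [div_le_div_of_nonneg_right hk2 (show 0 ≤ P by linarith)]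
    have e1 : (k : ℝ) ^ 2 / r ≤ (3 * Z) ^ 2 :=
      (div_le_div_of_nonneg_left (by positivity) (by linarith) r1.le).trans e2
    have e3 : (k : ℝ) * r ≤ (3 * Z) ^ 2 := by
      rw [mul_pow, hZ2]
      have a1 : (k : ℝ) * r ≤ X * (7 * X / P) := mul_le_mul hk r2 hr'.le (by linarith)
      have a2 : X * (7 * X / P) = 7 * (X ^ 2 / P) := by ring
      linarith
    have e4 : 1 + Real.log r ≤ L := by
      have a1 : (r : ℝ) ≤ 7 * X := r2.trans (div_le_self (by linarith) hP)
      have a2 := Real.log_le_log hr' a1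
      rw [Real.log_mul (by norm_num) (by linarith)] at a2
      have a3 : Real.log 7 ≤ 2 := by
        rw [Real.log_le_iff_le_exp (by norm_num), show (2 : ℝ) = 1 + 1 by norm_num, Real.exp_add]
        nlinarith [Real.exp_one_gt_d9]
      linarith
    rw [vb_conv]
    simp only [Nat.cast_mul]
    refine VA.typeTwo_le hr r3 r4 (U := P) (by linarith) (by linarith) (by linarith) e1 e2 e3
      (by linarith) e4 _ _ (fun m => vb_abs_ite zero_le_one ?_) (fun m hm => ?_)
      (fun n hn => vb_abs_ite (by linarith) ?_) fun n hn => ?_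
    · rw [hM1, VA.sub_cut_apply]
      split_ifs
      · simp
      · exact VA.abs_mu_le m
    · rw [hM1, VA.sub_cut_apply, if_pos hm, ite_self]
    · rw [mul_comm]
      refine (VA.abs_mul_le_log _ _ VA.abs_zeta_le (fun k => ?_) n).trans (hlg n hn)
      rw [hL1', VA.sub_cut_apply]
      split_ifs
      · simp
      · exact (abs_of_nonneg ArithmeticFunction.vonMangoldt_nonneg).le
    · rw [ArithmeticFunction.mul_apply, sum_eq_zero, ite_self]
      intro z hz
      have h1 : (z.1 : ℝ) ≤ n := by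
        exact_mod_cast Nat.divisor_le (Nat.fst_mem_divisors_of_mem_antidiagonal hz)
      rw [hL1', VA.sub_cut_apply, if_pos (h1.trans hn), zero_mul]
  have hid : ArithmeticFunction.vonMangoldt + vbP (big Z) M1 L1 *
      (ArithmeticFunction.zeta : ArithmeticFunction ℝ) = L1 + M1 * ArithmeticFunction.log +
      -(vbP (fun d c => ¬ big Z d c) M1 L1 * (ArithmeticFunction.zeta : ArithmeticFunction ℝ)) +
      ((ArithmeticFunction.moebius : ArithmeticFunction ℝ) - M1) *
        ((ArithmeticFunction.vonMangoldt - L1) *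
          (ArithmeticFunction.zeta : ArithmeticFunction ℝ)) := by
    linear_combination VA.vaughan_id M1 L1 -
      (ArithmeticFunction.zeta : ArithmeticFunction ℝ) * vbP_add (big Z) M1 L1
  have e : ∑ m ∈ Ioc 0 k, (((if Nat.Coprime m q then ArithmeticFunction.vonMangoldt m else 0) +
      cq X P q m : ℝ) : ℂ) * ee (m * x) =
      ∑ n ∈ Ioc 0 k, ((L1 n : ℝ) : ℂ) * vbφ q x n +
      ∑ n ∈ Ioc 0 k, (((M1 * ArithmeticFunction.log) n : ℝ) : ℂ) * vbφ q x n -
      ∑ n ∈ Ioc 0 k, (((vbP (fun d c => ¬ big Z d c) M1 L1 *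
        (ArithmeticFunction.zeta : ArithmeticFunction ℝ)) n : ℝ) : ℂ) * vbφ q x n +
      ∑ n ∈ Ioc 0 k, (((((ArithmeticFunction.moebius : ArithmeticFunction ℝ) - M1) *
        ((ArithmeticFunction.vonMangoldt - L1) *
          (ArithmeticFunction.zeta : ArithmeticFunction ℝ))) n : ℝ) : ℂ) * vbφ q x n := by
    rw [← sum_add_distrib, ← sum_sub_distrib, ← sum_add_distrib]
    refine sum_congr rfl fun n _ => ?_
    have h := congrArg (fun f : ArithmeticFunction ℝ => f n) hid
    simp only [ArithmeticFunction.add_apply, ArithmeticFunction.neg_apply] at h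
    rw [vb_cq]
    unfold vbφ
    split_ifs
    · rw [h]
      push_cast
      ring
    · simp
  rw [e]
  refine (norm_add_le _ _).trans ((add_le_add ((norm_sub_le _ _).trans
    (add_le_add ((norm_add_le _ _).trans (add_le_add s0 s1)) s2)) s3).trans ?_)
  have a1 : Z * L ≤ Z * L ^ 3 := mul_le_mul_of_nonneg_left (by nlinarith [sq_nonneg L]) hZ0
  have a2 : w * (Z * L ^ 2) ≤ w * (Z * L ^ 3) := mul_le_mul_of_nonneg_left
    (mul_le_mul_of_nonneg_left (pow_le_pow_right₀ hL (by norm_num)) hZ0) (by linarith)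
  have a3 : Z * L ^ 3 ≤ w * (Z * L ^ 3) := le_mul_of_one_le_left (by positivity) hw
  have a4 : 0 ≤ Z * L ^ 3 := by positivity
  nlinarith

theorem gq_le : ∃ C : ℝ, 0 ≤ C ∧ ∀ (X P x : ℝ) (q : ℕ), 16 ≤ X → 1 ≤ P → P ^ 2 ≤ X → Mn X P x →
    1 ≤ q → (q : ℝ) ≤ √X →
    ‖a1S X x + CC X P q x‖ ≤ C * 2 ^ q.primeFactors.card * (X / √P) * (3 + Real.log X) ^ 3 := by
  obtain ⟨K, hK, hL⟩ := a1_lip
  refine ⟨(1 + K) * 3000 + 2, by positivity, fun X P x q hX hP hPX h hq hqX => ?_⟩
  have hX0 : 0 < X := by linarith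
  have hPX' : P ≤ X := by nlinarith
  have hN : (⌊X⌋₊ : ℝ) ≤ X := Nat.floor_le hX0.le
  have hlX := Real.log_nonneg (show 1 ≤ X by linarith)
  have hw : (1 : ℝ) ≤ 2 ^ q.primeFactors.card := one_le_pow₀ (by norm_num)
  have hZ0 : 0 ≤ X / √P := by positivity
  have b3 : √X ≤ X / √P := by
    rw [le_div_iff₀ (by positivity), ← Real.sqrt_mul hX0.le]
    exact Real.sqrt_le_iff.2 ⟨hX0.le, by nlinarith⟩
  have b4 : √X ≤ X / 4 := Real.sqrt_le_iff.2 ⟨by positivity, by nlinarith⟩
  have h1 := VA.abel_le (fun n => ((w1 (n / X) : ℝ) : ℂ))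
    (fun m => (((if Nat.Coprime m q then ArithmeticFunction.vonMangoldt m else 0) +
      cq X P q m : ℝ) : ℂ) * ee (m * x)) ⌊X⌋₊
    fun k hk => gq_cut hP hPX h hq ((Nat.cast_le.2 hk).trans hN)
  have h2 : ‖((w1 ((⌊X⌋₊ : ℕ) / X) : ℝ) : ℂ)‖ + ∑ k ∈ range ⌊X⌋₊,
      ‖((w1 ((k + 1 : ℕ) / X) : ℝ) : ℂ) - ((w1 (k / X) : ℝ) : ℂ)‖ ≤ 1 + K := by
    refine add_le_add ?_ ?_
    · rw [Complex.norm_real, Real.norm_of_nonneg (a1_w1_mem _).1]
      exact (a1_w1_mem _).2
    · refine (sum_le_card_nsmul _ _ (K / X) fun k _ => ?_).trans ?_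
      · rw [← Complex.ofReal_sub, Complex.norm_real, Real.norm_eq_abs]
        refine (hL _ _).trans (le_of_eq ?_)
        rw [← sub_div]
        push_cast
        rw [add_sub_cancel_left, abs_of_pos (by positivity), mul_one_div]
      · rw [card_range, nsmul_eq_mul, ← mul_div_assoc, div_le_iff₀ hX0]
        nlinarith
  have h3 := h1.trans (mul_le_mul_of_nonneg_right h2 (by positivity))
  have h4 : ‖∑ m ∈ Ioc 0 ⌊X⌋₊, ((w1 (m / X) * (MA.lp m -
      if Nat.Coprime m q then ArithmeticFunction.vonMangoldt m else 0) : ℝ) : ℂ) * ee (m * x)‖ ≤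
      2 * √X * Real.log X := by
    refine (norm_sum_le _ _).trans ((sum_le_sum fun m _ => ?_).trans
      (VA.sum_sub_lp_le (by linarith) hN))
    rw [norm_mul, a1_ee, VA.norm_ee, mul_one, Complex.norm_real, Real.norm_eq_abs, abs_mul]
    by_cases h0 : w1 (m / X) = 0
    · rw [h0, abs_zero, zero_mul]
      exact abs_nonneg _
    · refine (mul_le_of_le_one_left (abs_nonneg _) ?_).trans ?_
      · rw [abs_of_nonneg (a1_w1_mem _).1]
        exact (a1_w1_mem _).2
      · split_ifs with hc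
        · rw [abs_sub_comm]
          exact le_rfl
        · have a1 := vb_w1 h0
          rw [lt_div_iff₀ hX0] at a1
          have a2 : q < m := by exact_mod_cast (show (q : ℝ) < m by linarith)
          rw [MA.lp, if_neg fun hp : m.Prime =>
            hc (hp.coprime_iff_not_dvd.2 (Nat.not_dvd_of_pos_of_lt hq a2)), sub_zero, abs_zero]
          exact abs_nonneg _
  have e : a1S X x + CC X P q x = ∑ m ∈ Ioc 0 ⌊X⌋₊, ((w1 (m / X) : ℝ) : ℂ) *
      ((((if Nat.Coprime m q then ArithmeticFunction.vonMangoldt m else 0) +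
        cq X P q m : ℝ) : ℂ) * ee (m * x)) + ∑ m ∈ Ioc 0 ⌊X⌋₊, ((w1 (m / X) * (MA.lp m -
      if Nat.Coprime m q then ArithmeticFunction.vonMangoldt m else 0) : ℝ) : ℂ) *
        ee (m * x) := by
    rw [a1S, CC, ← sum_add_distrib, ← sum_add_distrib]
    refine sum_congr (Finset.Icc_add_one_left_eq_Ioc 0 _) fun n _ => ?_
    rw [a1f, a1_ee]
    push_cast
    ring
  rw [e]
  refine (norm_add_le _ _).trans ((add_le_add h3 h4).trans ?_)
  have c1 : Real.log X ≤ (3 + Real.log X) ^ 3 := by nlinarith [sq_nonneg (Real.log X)]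
  have c2 : √X * Real.log X ≤ X / √P * (3 + Real.log X) ^ 3 := mul_le_mul b3 c1 hlX hZ0
  have c3 : X / √P * (3 + Real.log X) ^ 3 ≤
      2 ^ q.primeFactors.card * (X / √P * (3 + Real.log X) ^ 3) :=
    le_mul_of_one_le_left (by positivity) hw
  nlinarith

end Pool.Agent.Lib.MP_778b46_nt.MB
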