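import Pool.Agent.Lib.MP_778b46_nt.MB.Defs

/-! The trilinear part as a sum over dyadic boxes. -/

set_option autoImplicit false

noncomputable section

namespace Pool.Agent.Lib.MP_778b46_nt.MB

open Complex Finset MeasureTheory
open scoped Real ComplexConjugate
open Pool.Agent.Lib.MP_03e5d0_nt (Sm ex ft bump)
open Pool.Agent.Lib.MP_778b46_nt.MA

theorem vc_fin {α κ : Type} {s : Finset α} {e : α → κ} (he : Set.InjOn e s) {F : κ → ℂ}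
    (h : ∀ t, F t ≠ 0 → ∃ a ∈ s, e a = t) : ∑ a ∈ s, F (e a) = ∑ᶠ t, F t := by
  classical
  rw [← sum_image he, finsum_eq_sum_of_support_subset F fun t ht => ?_]
  exact mem_coe.2 (mem_image.2 (h t ht))

theorem vc_left {N : ℕ} {F : ℕ × ℕ × ℕ → ℂ}
    (h : ∀ t, F t ≠ 0 → t.1 * t.2.1 * t.2.2 ∈ Icc 1 N) :
    ∑ m ∈ Icc 1 N, ∑ x ∈ m.divisorsAntidiagonal, ∑ z ∈ x.1.divisorsAntidiagonal,
      F (z.1, z.2, x.2) = ∑ᶠ t, F t := by
  simp_rw [sum_sigma']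
  refine vc_fin (e := fun p : Σ _ : ℕ, Σ _ : ℕ × ℕ, ℕ × ℕ => (p.2.2.1, p.2.2.2, p.2.1.2)) ?_
    fun t ht => ?_
  · rintro ⟨m, ⟨x1, x2⟩, z1, z2⟩ h1 ⟨m', ⟨x1', x2'⟩, z1', z2'⟩ h2 e
    simp only [mem_coe, mem_sigma, Nat.mem_divisorsAntidiagonal, Prod.mk.injEq] at h1 h2 e
    obtain ⟨rfl, rfl, rfl⟩ := e
    obtain ⟨-, ⟨rfl, -⟩, rfl, -⟩ := h1
    obtain ⟨-, ⟨rfl, -⟩, rfl, -⟩ := h2
    rfl
  · have h1 := h t ht
    have h2 : t.1 * t.2.1 * t.2.2 ≠ 0 := by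
      have := (mem_Icc.1 h1).1
      omega
    exact ⟨⟨_, (t.1 * t.2.1, t.2.2), t.1, t.2.1⟩, mem_sigma.2 ⟨h1, mem_sigma.2
      ⟨Nat.mem_divisorsAntidiagonal.2 ⟨rfl, h2⟩,
        Nat.mem_divisorsAntidiagonal.2 ⟨rfl, left_ne_zero_of_mul h2⟩⟩⟩, rfl⟩

theorem vc_dy {i d : ℕ} (h : d ∈ dy (2 ^ i)) : Nat.log 2 d = i :=
  Nat.log_eq_of_pow_le_of_lt_pow (mem_Ico.1 h).1 (pow_succ' 2 i ▸ (mem_Ico.1 h).2)

theorem vc_dy' {d : ℕ} (h : d ≠ 0) : d ∈ dy (2 ^ Nat.log 2 d) :=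
  mem_Ico.2 ⟨Nat.pow_log_le_self 2 h, pow_succ' 2 (Nat.log 2 d) ▸ Nat.lt_pow_succ_log_self one_lt_two d⟩

theorem vc_right {S : Finset (ℕ × ℕ × ℕ)} {F : ℕ × ℕ × ℕ → ℂ}
    (h : ∀ t, F t ≠ 0 → t.1 * t.2.1 * t.2.2 ≠ 0 ∧
      (Nat.log 2 t.1, Nat.log 2 t.2.1, Nat.log 2 t.2.2) ∈ S) :
    ∑ e ∈ S, ∑ d ∈ dy (2 ^ e.1), ∑ c ∈ dy (2 ^ e.2.1), ∑ n ∈ dy (2 ^ e.2.2), F (d, c, n) =
      ∑ᶠ t, F t := by
  simp_rw [← sum_product', sum_sigma']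
  refine vc_fin (e := fun p : Σ _ : ℕ × ℕ × ℕ, ℕ × ℕ × ℕ => p.2) ?_ fun t ht => ?_
  · rintro ⟨⟨i, j, l⟩, t⟩ h1 ⟨⟨i', j', l'⟩, t'⟩ h2 e
    simp only [mem_coe, mem_sigma, mem_product] at h1 h2 e
    subst e
    rw [← vc_dy h1.2.1, ← vc_dy h1.2.2.1, ← vc_dy h1.2.2.2, ← vc_dy h2.2.1, ← vc_dy h2.2.2.1,
      ← vc_dy h2.2.2.2]
  · obtain ⟨h1, h2⟩ := h t ht
    simp only [ne_eq, mul_eq_zero, not_or] at h1
    exact ⟨⟨_, t⟩, mem_sigma.2 ⟨h2, mem_product.2 ⟨vc_dy' h1.1.1,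
      mem_product.2 ⟨vc_dy' h1.1.2, vc_dy' h1.2⟩⟩⟩, rfl⟩

theorem vc_ee {X : ℝ} (hX : X ≠ 0) (q a m : ℕ) (j : ℤ) (y : ℝ) :
    ee (m * (a / q + j + y / (2 * π * X))) = ac q a m * ex y (m / X) := by
  have h1 : ee (m * (y / (2 * π * X))) = ex y (m / X) := by
    have : (X : ℂ) ≠ 0 := ofReal_ne_zero.2 hX
    have : (π : ℂ) ≠ 0 := ofReal_ne_zero.2 Real.pi_ne_zero
    rw [ee, ex]
    push_cast
    congr 1
    field_simp
  rw [mul_add, mul_add, ee_add, ee_add, h1, ← mul_div_assoc, ac,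
    show (m : ℝ) * j = ((m * j : ℤ) : ℝ) by push_cast; rfl, ee_int, mul_one]

theorem cc_box {X P : ℝ} (hX : 2 ≤ X) (hP : 1 ≤ P) (hPX : P ≤ X) : ∃ S : Finset (ℕ × ℕ × ℕ),
    (S.card : ℝ) ≤ (1 + 2 * Real.log X) ^ 3 ∧ (∀ e ∈ S, (tb X P e).Ok X P) ∧
    ∀ (q a : ℕ) (j : ℤ) (y : ℝ), CC X P q (a / q + j + y / (2 * π * X)) =
      (Real.log X : ℝ) * ∑ e ∈ S, tri X (tb X P e) q a y := by
  classical
  have hX0 : 0 < X := by linarith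
  have hL : 0 < Real.log X := Real.log_pos (by linarith)
  have hs : 0 < √P := Real.sqrt_pos.2 (by linarith)
  set K := range (Nat.log 2 ⌊X⌋₊ + 1) with hK
  refine ⟨(K ×ˢ K ×ˢ K).filter fun e => (2 : ℝ) ^ e.1 ≤ P ∧ (2 : ℝ) ^ e.2.1 ≤ P ∧
    X / √P < 2 ^ (e.1 + e.2.1 + 2) ∧ X ≤ 32 * ((2 : ℝ) ^ e.1 * 2 ^ e.2.1 * 2 ^ e.2.2) ∧
    (2 : ℝ) ^ e.1 * 2 ^ e.2.1 * 2 ^ e.2.2 ≤ X, ?_, fun e he => ?_, fun q a j y => ?_⟩
  · have h1 : ((2 ^ Nat.log 2 ⌊X⌋₊ : ℕ) : ℝ) ≤ X := (Nat.cast_le.2 (Nat.pow_log_le_self 2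
      (Nat.floor_pos.2 (by linarith)).ne')).trans (Nat.floor_le hX0.le)
    have h2 := Real.log_le_log (by positivity) h1
    rw [Nat.cast_pow, Real.log_pow, Nat.cast_ofNat] at h2
    have h3 : (K.card : ℝ) ≤ 1 + 2 * Real.log X := by
      rw [hK, card_range]
      push_cast
      nlinarith [Real.log_two_gt_d9, (Nat.cast_nonneg (Nat.log 2 ⌊X⌋₊) : (0 : ℝ) ≤ _)]
    calc _ ≤ ((K ×ˢ K ×ˢ K).card : ℝ) := Nat.cast_le.2 (card_filter_le _ _)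
      _ = (K.card : ℝ) ^ 3 := by simp only [card_product]; push_cast; ring
      _ ≤ _ := by gcongr
  · obtain ⟨h1, h2, h3, h4, h5⟩ := (mem_filter.1 he).2
    refine ⟨Nat.one_le_two_pow, Nat.one_le_two_pow, Nat.one_le_two_pow, by simpa [tb] using h1,
      by simpa [tb] using h2, ?_, by simpa [tb] using h4, by simpa [tb] using h5, fun n => ?_,
      fun n => ?_, fun n => by simp [tb]⟩
    · have h6 : (2 : ℝ) ^ e.2.2 ≤ 4 * √P := by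
        rw [div_lt_iff₀ hs, pow_add, pow_add] at h3
        refine le_of_mul_le_mul_left ?_ (show (0 : ℝ) < 2 ^ e.1 * 2 ^ e.2.1 by positivity)
        nlinarith
      simp only [tb, Nat.cast_pow, Nat.cast_ofNat]
      calc _ ≤ (4 * √P) ^ 2 := by gcongr
        _ = _ := by rw [mul_pow, Real.sq_sqrt (by linarith)]; norm_num
    · simp only [tb]
      split_ifs
      · rw [norm_intCast]
        exact_mod_cast ArithmeticFunction.abs_moebius_le_one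
      · simp
    · simp only [tb]
      split_ifs with h
      · rw [norm_real, Real.norm_of_nonneg (div_nonneg ArithmeticFunction.vonMangoldt_nonneg hL.le),
          div_le_one hL]
        refine ArithmeticFunction.vonMangoldt_le_log.trans ?_
        rcases Nat.eq_zero_or_pos n with rfl | hn
        · simpa using hL.le
        · exact Real.log_le_log (by exact_mod_cast hn) (h.trans hPX)
      · simp
  let F : ℕ × ℕ × ℕ → ℂ := fun t => if Nat.Coprime (t.1 * t.2.1 * t.2.2) q ∧ (t.1 : ℝ) ≤ P ∧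
    (t.2.1 : ℝ) ≤ P ∧ big (X / √P) t.1 t.2.1 then (ArithmeticFunction.moebius t.1 : ℂ) *
      (ArithmeticFunction.vonMangoldt t.2.1 : ℝ) * ((w1 ((t.1 * t.2.1 * t.2.2 : ℕ) / X) : ℂ) *
        ac q a (t.1 * t.2.1 * t.2.2) * ex y ((t.1 * t.2.1 * t.2.2 : ℕ) / X)) else 0
  have hF : ∀ t, F t ≠ 0 → ((t.1 : ℝ) ≤ P ∧ (t.2.1 : ℝ) ≤ P ∧ big (X / √P) t.1 t.2.1) ∧
      X / 4 < (t.1 * t.2.1 * t.2.2 : ℕ) ∧ ((t.1 * t.2.1 * t.2.2 : ℕ) : ℝ) < X := by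
    intro t ht
    obtain ⟨h1, h2⟩ := ite_ne_right_iff.1 ht
    have h3 : ¬_ := fun h => h2 (by rw [wt_w1.supp _ h]; simp)
    rw [not_or, not_le, not_le, lt_div_iff₀ hX0, div_lt_one hX0] at h3
    exact ⟨h1.2, by linarith [h3.1], h3.2⟩
  have h0 : ∀ t, F t ≠ 0 → t.1 * t.2.1 * t.2.2 ∈ Icc 1 ⌊X⌋₊ := fun t ht => mem_Icc.2
    ⟨Nat.cast_pos.1 ((by positivity : 0 < X / 4).trans (hF t ht).2.1), Nat.le_floor (hF t ht).2.2.le⟩
  rw [mul_sum]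
  refine ((sum_congr rfl fun m _ => ?_).trans (vc_left h0)).trans
    ((vc_right fun t ht => ?_).symm.trans (sum_congr rfl fun e he => ?_))
  · rw [vc_ee hX0.ne', cq]
    split_ifs with h
    · push_cast
      simp only [sum_mul]
      refine sum_congr rfl fun x hx => sum_congr rfl fun z hz => ?_
      simp only [F, (Nat.mem_divisorsAntidiagonal.1 hz).1, (Nat.mem_divisorsAntidiagonal.1 hx).1,
        eq_true h, true_and]
      split_ifs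
      · push_cast
        ring
      · simp
    · rw [zero_mul, ofReal_zero, zero_mul]
      refine (sum_eq_zero fun x hx => sum_eq_zero fun z hz => ?_).symm
      simp only [F, (Nat.mem_divisorsAntidiagonal.1 hz).1, (Nat.mem_divisorsAntidiagonal.1 hx).1,
        eq_false h, false_and, if_false]
  · obtain ⟨d, c, n⟩ := t
    obtain ⟨⟨h1, h2, h3⟩, h4, h5⟩ := hF _ ht
    obtain ⟨h6, h7⟩ := mem_Icc.1 (h0 _ ht)
    simp only at h1 h2 h3 h4 h5 h6 h7 ⊢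
    have h8 : d * c * n ≠ 0 := by omega
    have h9 : ∀ {u}, u ∣ d * c * n → Nat.log 2 u ∈ K ∧ (2 : ℝ) ^ Nat.log 2 u ≤ u ∧
        (u : ℝ) ≤ 2 * 2 ^ Nat.log 2 u := fun {u} hu => by
      have := mem_Ico.1 (vc_dy' (ne_zero_of_dvd_ne_zero h8 hu))
      exact ⟨mem_range.2 (Nat.lt_succ_of_le (Nat.log_mono_right ((Nat.le_of_dvd h6 hu).trans h7))),
        by exact_mod_cast this.1, by exact_mod_cast this.2.le⟩
    obtain ⟨k1, k2, k3⟩ := h9 (u := d) ⟨c * n, by ring⟩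
    obtain ⟨k4, k5, k6⟩ := h9 (u := c) ⟨d * n, by ring⟩
    obtain ⟨k7, k8, k9⟩ := h9 (u := n) ⟨d * c, by ring⟩
    push_cast at h4 h5
    refine ⟨h8, mem_filter.2 ⟨mem_product.2 ⟨k1, mem_product.2 ⟨k4, k7⟩⟩, k2.trans h1, k5.trans h2,
      h3, ?_, le_trans (by gcongr) h5.le⟩⟩
    have : (d : ℝ) * c * n ≤ 2 * 2 ^ Nat.log 2 d * (2 * 2 ^ Nat.log 2 c) * (2 * 2 ^ Nat.log 2 n) := by
      gcongr
    simp only
    linarith
  · simp only [mul_sum, tri]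
    refine sum_congr rfl fun d hd => sum_congr rfl fun c hc => sum_congr rfl fun n _ => ?_
    have h1 : big (X / √P) d c := by
      rw [big, vc_dy hd, vc_dy hc]
      exact (mem_filter.1 he).2.2.2.1
    have h2 : ((Real.log X : ℝ) : ℂ) ≠ 0 := ofReal_ne_zero.2 hL.ne'
    simp only [F, tb, h1, and_true, ite_and, ofReal_div]
    split_ifs <;> first | (field_simp; done) | simp

end Pool.Agent.Lib.MP_778b46_nt.MB
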