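import Pool.Agent.Lib.MP_778b46_nt.MB.Td
import Pool.Agent.Lib.MP_778b46_nt.MB.Vb
import Pool.Agent.Lib.MP_778b46_nt.MB.Vc
import Pool.Agent.Lib.MP_2a1a00_nt.Div

/-! The mean square of the contribution of the minor arcs, for exponents up to `5 / 12`. -/

set_option autoImplicit false

noncomputable section

namespace Pool.Agent.Lib.MP_778b46_nt.MB

open Complex Finset MeasureTheory
open scoped Real ComplexConjugate
open Pool.Agent.Lib.MP_03e5d0_nt (Sm ex ft bump)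
open Pool.Agent.Lib.MP_778b46_nt.MA

theorem mi_red {b : ℤ} {q : ℕ} (hq : 0 < q) (h : IsCoprime b (q : ℤ)) :
    ∃ a ∈ cop q, ∃ j : ℤ, (b : ℝ) / q = a / q + j := by
  have hqz : (0 : ℤ) < q := by exact_mod_cast hq
  have hq' : (0 : ℝ) < q := by exact_mod_cast hq
  have ha : (((b % q).toNat : ℕ) : ℤ) = b % q := Int.toNat_of_nonneg (Int.emod_nonneg _ hqz.ne')
  have hd := Int.emod_add_mul_ediv b q
  refine ⟨(b % q).toNat, mem_filter.2 ⟨mem_range.2 ?_, ?_⟩, b / q, ?_⟩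
  · have := Int.emod_lt_of_pos b hqz
    omega
  · rw [← Nat.isCoprime_iff_coprime, ha, show b % q = b + q * (-(b / q)) by linarith]
    exact h.add_mul_left_left _
  · have h5 : (((b % q).toNat : ℕ) : ℝ) + q * (b / q : ℤ) = b := by
      rw [← ha] at hd
      exact_mod_cast hd
    rw [div_eq_iff hq'.ne', add_mul, div_mul_cancel₀ _ hq'.ne']
    linarith

theorem mn_of {X P H x : ℝ} (hP : 1 ≤ P) (hPH : P ≤ H) (hX : P * H ≤ X) (h : a1M X P H x ≠ 1) :
    Mn X P x := by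
  intro r b hr hrP
  by_contra hc
  have hpi := Real.pi_pos
  have hX0 : 0 ≤ X := by nlinarith
  set s : ℚ := Rat.divInt b r with hs
  have h1 : s.den ≤ r := Nat.le_of_dvd hr (Int.natCast_dvd_natCast.1 (Rat.den_dvd b r))
  have h2 : (s.num : ℝ) / s.den = b / r := by
    rw [← Rat.cast_def, hs, Rat.cast_divInt, Int.cast_natCast]
  obtain ⟨a, ha, j, hj⟩ := mi_red s.den_pos (Int.isCoprime_iff_gcd_eq_one.2 s.reduced)
  have h3 : (0 : ℝ) < s.den := by exact_mod_cast s.den_pos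
  have h4 : (s.den : ℝ) ≤ r := by exact_mod_cast h1
  refine h ((a1M_cases hP hPH hX x).2 ⟨s.den, a⟩ (mem_sigma.2
    ⟨mem_Icc.2 ⟨s.den_pos, Nat.le_floor (h4.trans hrP)⟩, ha⟩) ?_)
  have h5 := VA.nd_le (x - a / s.den) j
  rw [sub_sub, ← hj, h2] at h5
  show 2 * π * X * VA.nd (x - a / s.den) ≤ H / s.den
  rw [le_div_iff₀ h3]
  have h6 := mul_le_mul h5 h4 h3.le (abs_nonneg _)
  have h7 := mul_le_mul_of_nonneg_left h6 (show 0 ≤ 2 * π * X by positivity)
  linarith [not_lt.1 hc]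

/-- Every minor point lies on a minor part of an arc of level `√X`. -/
theorem mn_cover {X P x : ℝ} (hX : 4 ≤ X) (h0 : 0 ≤ x) (h1 : x ≤ 1) (h : Mn X P x) :
    ∃ q ∈ Icc 1 ⌊√X⌋₊, ∃ a ∈ cop q, ∃ j ∈ Icc (-1 : ℤ) 1,
      2 * π * X * (x - a / q - j) ∈ arc X P q := by
  have hpi := Real.pi_pos
  have hs : 2 ≤ √X := Real.le_sqrt_of_sq_le (by linarith)
  have hX0 : 0 < 2 * π * X := by positivity
  obtain ⟨b, q, hq, a1, a2, a3⟩ := VA.dirichlet x (Q := √X) (by linarith)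
  obtain ⟨a, ha, j, hj⟩ := mi_red hq a2
  have q1 : (1 : ℝ) ≤ q := by exact_mod_cast hq
  have a4 : |x - b / q| ≤ 1 / 2 :=
    a3.trans (one_div_le_one_div_of_le (by norm_num) (by nlinarith))
  have a5 : (a : ℝ) / q ≤ 1 :=
    (div_le_one (by linarith)).2 (Nat.cast_le.2 (mem_range.1 (mem_filter.1 ha).1).le)
  have a6 : (0 : ℝ) ≤ a / q := by positivity
  refine ⟨q, mem_Icc.2 ⟨hq, Nat.le_floor a1⟩, a, ha, j, ?_, ?_⟩
  · rw [hj, abs_le] at a4
    have b1 : (j : ℝ) < (2 : ℤ) := by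
      push_cast
      linarith [a4.1]
    have b2 : ((-2 : ℤ) : ℝ) < j := by
      push_cast
      linarith [a4.2]
    rw [Int.cast_lt] at b1 b2
    exact mem_Icc.2 ⟨by omega, by omega⟩
  · rw [sub_sub, ← hj]
    refine ⟨?_, fun hP => ?_⟩
    · rw [abs_mul, abs_of_pos hX0]
      refine (mul_le_mul_of_nonneg_left a3 hX0.le).trans ?_
      have e : 2 * π * X * (1 / (q * √X)) = 2 * π * √X / q := by
        nth_rewrite 1 [← Real.mul_self_sqrt (show 0 ≤ X by linarith)]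
        field_simp
      rw [e]
      gcongr
      linarith [Real.pi_lt_d2]
    · rw [abs_mul, abs_of_pos hX0]
      exact (h q b hq hP).trans_eq (by ring)

theorem mi_aff {h : ℝ → ℝ} (hi : Integrable h) (h0 : ∀ y, 0 ≤ h y) {κ : ℝ} (hκ : 0 < κ) (c : ℝ) :
    IntervalIntegrable (fun x => h (κ * (x - c))) volume 0 1 ∧
      ∫ x in (0 : ℝ)..1, h (κ * (x - c)) ≤ κ⁻¹ * ∫ y, h y := by
  have h1 : Integrable fun x => h (κ * (x - c)) := (hi.comp_mul_left' hκ.ne').comp_sub_right c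
  refine ⟨h1.intervalIntegrable, ?_⟩
  rw [intervalIntegral.integral_of_le zero_le_one]
  refine (setIntegral_le_integral h1 (Filter.Eventually.of_forall fun x => h0 _)).trans_eq ?_
  rw [integral_sub_right_eq_self (fun x => h (κ * x)) c, Measure.integral_comp_mul_left,
    abs_of_pos (inv_pos.2 hκ), smul_eq_mul]

/-- The fourth powers of the trilinear sums on all arcs through `x`. -/
def miT (X P : ℝ) (B : Tr) (x : ℝ) : ℝ :=
  ∑ q ∈ Icc 1 ⌊√X⌋₊, ∑ a ∈ cop q, ∑ j ∈ Icc (-1 : ℤ) 1,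
    (arc X P q).indicator (fun y => ‖tri X B q a y‖ ^ 4) (2 * π * X * (x - (a / q + j)))

theorem mi_ind (X P : ℝ) (B : Tr) (q a : ℕ) (y : ℝ) :
    0 ≤ (arc X P q).indicator (fun y => ‖tri X B q a y‖ ^ 4) y :=
  Set.indicator_nonneg (fun _ _ => by positivity) y

theorem miT_nonneg (X P : ℝ) (B : Tr) (x : ℝ) : 0 ≤ miT X P B x :=
  sum_nonneg fun _ _ => sum_nonneg fun _ _ => sum_nonneg fun _ _ => mi_ind _ _ _ _ _ _

theorem miT_int {X : ℝ} (hX : 0 < X) (P : ℝ) (B : Tr) :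
    IntervalIntegrable (miT X P B) volume 0 1 ∧ ∫ x in (0 : ℝ)..1, miT X P B x ≤
      X⁻¹ * ∑ q ∈ Icc 1 ⌊√X⌋₊, ∑ a ∈ cop q, ∫ y in arc X P q, ‖tri X B q a y‖ ^ 4 := by
  have hpi := Real.pi_gt_three
  have k := fun (q a : ℕ) (j : ℤ) => mi_aff ((integrable_indicator_iff (arc_meas X P q)).2
    (arc_int X P q (g := fun y => ‖tri X B q a y‖ ^ 4) ((tri_cont X B q a).norm.pow 4))) (mi_ind X P B q a)
    (show 0 < 2 * π * X by positivity) (a / q + j)
  have i1 := fun q a : ℕ => IntervalIntegrable.sum (Icc (-1 : ℤ) 1) fun j _ => (k q a j).1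
  simp only [Finset.sum_fn] at i1
  have i2 := fun q : ℕ => IntervalIntegrable.sum (cop q) fun a _ => i1 q a
  simp only [Finset.sum_fn] at i2
  have i3 := IntervalIntegrable.sum (Icc 1 ⌊√X⌋₊) fun q _ => i2 q
  simp only [Finset.sum_fn] at i3
  refine ⟨i3, ?_⟩
  unfold miT
  rw [intervalIntegral.integral_finsetSum fun q _ => i2 q, mul_sum]
  refine sum_le_sum fun q _ => ?_
  rw [intervalIntegral.integral_finsetSum fun a _ => i1 q a, mul_sum]
  refine sum_le_sum fun a _ => ?_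
  rw [intervalIntegral.integral_finsetSum fun j _ => (k q a j).1]
  refine (sum_le_card_nsmul _ _ _ fun j _ => (k q a j).2).trans ?_
  rw [integral_indicator (arc_meas X P q), show (Icc (-1 : ℤ) 1).card = 3 from rfl, nsmul_eq_mul,
    ← mul_assoc]
  refine mul_le_mul_of_nonneg_right ?_ (integral_nonneg fun _ => by positivity)
  rw [mul_inv, ← mul_assoc, ← div_eq_mul_inv]
  refine mul_le_of_le_one_left (inv_nonneg.2 hX.le) ((div_le_one (by positivity)).2 ?_)
  push_cast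
  linarith

theorem mi_two {q : ℕ} (hq : q ≠ 0) : 2 ^ q.primeFactors.card ≤ q.divisors.card := by
  rw [Nat.card_divisors hq]
  exact pow_card_le_prod _ _ _ fun p hp => Nat.succ_le_succ
    ((Nat.prime_of_mem_primeFactors hp).factorization_pos_of_dvd hq (Nat.dvd_of_mem_primeFactors hp))

theorem mi_pt {m s g c B D : ℝ} (hm : |m| ≤ 1) (hs : 0 ≤ s) (h : s ≤ g + c) (hg : g ≤ B)
    (hc : 0 ≤ c) (hD : c ^ 4 ≤ D) : m ^ 2 * s ^ 4 ≤ 4 * B ^ 2 * s ^ 2 + 16 * D := by
  refine (mul_le_of_le_one_left (by positivity) ((sq_le_one_iff_abs_le_one m).2 hm)).trans ?_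
  have h0 : 0 ≤ D := le_trans (by positivity) hD
  rcases le_total s (2 * B) with k | k
  · have := mul_le_mul_of_nonneg_right (pow_le_pow_left₀ hs k 2) (sq_nonneg s)
    linarith
  · have := pow_le_pow_left₀ hs (show s ≤ 2 * c by linarith) 4
    have : 0 ≤ 4 * B ^ 2 * s ^ 2 := by positivity
    linarith

theorem mi_pars {X : ℝ} (hX0 : 0 < X) :
    ∫ x in (0 : ℝ)..1, ‖a1S X x‖ ^ 2 ≤ X * Real.log X ^ 2 := by
  have h1 := VA.parseval (Icc 1 ⌊X⌋₊) (fun n : ℕ => (n : ℤ)) Nat.cast_injective.injOn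
    fun n => (a1f X n : ℂ)
  simp only [Int.cast_natCast] at h1
  refine h1.trans_le ((sum_le_card_nsmul _ _ (Real.log X ^ 2) fun n hn => ?_).trans ?_)
  · have a1 : (n : ℝ) ≤ X := (Nat.cast_le.2 (mem_Icc.1 hn).2).trans (Nat.floor_le hX0.le)
    have a2 := Real.log_le_log (by exact_mod_cast (mem_Icc.1 hn).1) a1
    have a3 : 0 ≤ lp n := VA.lp_nonneg n
    rw [Complex.norm_real, a1f, Real.norm_of_nonneg (mul_nonneg a3 (a1_w1_mem _).1)]
    exact pow_le_pow_left₀ (mul_nonneg a3 (a1_w1_mem _).1)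
      ((mul_le_of_le_one_right a3 (a1_w1_mem _).2).trans ((VA.lp_le_log n).trans a2)) 2
  · rw [Nat.card_Icc, nsmul_eq_mul, Nat.add_sub_cancel]
    exact mul_le_mul_of_nonneg_right (Nat.floor_le hX0.le) (by positivity)

theorem minor_int {ε : ℝ} (hε : 0 < ε) : ∃ C : ℝ, 0 ≤ C ∧ ∀ X P H : ℝ, 64 ≤ X → 1 ≤ P → P ≤ H →
    P * H ≤ X → P ≤ X ^ (5 / 12 : ℝ) →
    ∫ x in (0 : ℝ)..1, (1 - a1M X P H x) ^ 2 * ‖a1S X x‖ ^ 4 ≤ C * X ^ (3 + ε) / P := by
  have hδ : 0 < ε / 17 := by positivity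
  obtain ⟨C1, p1, h1⟩ := gq_le
  obtain ⟨C2, p2, h2⟩ := MP_2a1a00_nt.card_divisors_le _ hδ
  obtain ⟨C3, p3, h3⟩ := tri_all hδ
  have pK : 0 ≤ 3 + 1 / (ε / 17) := by positivity
  refine ⟨4 * (C1 * C2) ^ 2 * (3 + 1 / (ε / 17)) ^ 8 + 16 * 8 ^ 4 * (3 + 1 / (ε / 17)) ^ 16 * C3,
    by positivity, fun X P H hX hP hPH hHX h5 => ?_⟩
  have hX0 : 0 < X := by linarith
  have hpi := Real.pi_pos
  have hP2 : P ^ 2 ≤ X := by nlinarith
  obtain ⟨S, s1, s2, s3⟩ := cc_box (X := X) (P := P) (by linarith) hP (by nlinarith)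
  have l0 : 0 ≤ Real.log X := Real.log_nonneg (by linarith)
  have u1 : 1 ≤ X ^ (ε / 17) := Real.one_le_rpow (by linarith) hδ.le
  have l1 : 3 + Real.log X ≤ (3 + 1 / (ε / 17)) * X ^ (ε / 17) := by
    have := Real.log_le_rpow_div hX0.le hδ
    rw [add_mul, one_div_mul_eq_div]
    linarith
  have e1 : X ^ (3 + ε) = X ^ 3 * (X ^ (ε / 17)) ^ 17 := by
    rw [Real.rpow_add hX0, ← Real.rpow_mul_natCast hX0.le]
    norm_num
  have e2 : X ^ (4 + ε / 17) = X ^ 4 * X ^ (ε / 17) := by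
    rw [Real.rpow_add hX0]
    norm_num
  have c2 := a1S_cont X
  have c4 : Continuous (a1M X P H) :=
    continuous_finsetSum _ fun ω _ => (a1K_cont X _).comp (by fun_prop)
  have i1 := IntervalIntegrable.sum S fun e _ => (miT_int hX0 P (tb X P e)).1
  simp only [Finset.sum_fn] at i1
  have i2 : IntervalIntegrable (fun x => ‖a1S X x‖ ^ 2) volume 0 1 :=
    Continuous.intervalIntegrable (by fun_prop) _ _
  have key : ∀ x ∈ Set.Icc (0 : ℝ) 1, (1 - a1M X P H x) ^ 2 * ‖a1S X x‖ ^ 4 ≤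
      4 * (C1 * (C2 * X ^ (ε / 17)) * (X / √P) * (3 + Real.log X) ^ 3) ^ 2 * ‖a1S X x‖ ^ 2 +
        16 * (Real.log X ^ 4 * (S.card : ℝ) ^ 3) * ∑ e ∈ S, miT X P (tb X P e) x := by
    intro x hx
    by_cases hM : a1M X P H x = 1
    · have := sum_nonneg fun e (_ : e ∈ S) => miT_nonneg X P (tb X P e) x
      rw [hM, sub_self, zero_pow two_ne_zero, zero_mul]
      positivity
    have m1 := mn_of hP hPH hHX hM
    obtain ⟨q, hq, a, ha, j, hj, hy⟩ := mn_cover (by linarith) hx.1 hx.2 m1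
    have q1 := (mem_Icc.1 hq).1
    have q2 : (q : ℝ) ≤ √X := (Nat.cast_le.2 (mem_Icc.1 hq).2).trans (Nat.floor_le (Real.sqrt_nonneg _))
    have q3 : (2 : ℝ) ^ q.primeFactors.card ≤ C2 * X ^ (ε / 17) := by
      refine le_trans (by exact_mod_cast mi_two (by omega)) ((h2 q).trans ?_)
      have : √X ≤ X := Real.sqrt_le_iff.2 ⟨hX0.le, by nlinarith⟩
      gcongr
      linarith
    rw [sub_sub] at hy
    have e3 := s3 q a j (2 * π * X * (x - (a / q + j)))
    rw [mul_div_cancel_left₀ _ (by positivity), add_sub_cancel] at e3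
    rw [mul_assoc 16]
    refine mi_pt (a1M_cases hP hPH hHX x).1 (norm_nonneg _) (norm_le_add_norm_add _ (CC X P q x))
      ((h1 X P x q (by linarith) hP hP2 m1 q1 q2).trans (by gcongr)) (norm_nonneg _) ?_
    rw [e3, norm_mul, Complex.norm_real, Real.norm_of_nonneg l0, mul_pow,
      mul_assoc (Real.log X ^ 4)]
    have n1 := norm_sum_le S fun e => tri X (tb X P e) q a (2 * π * X * (x - (a / q + j)))
    refine mul_le_mul_of_nonneg_left ((pow_le_pow_left₀ (norm_nonneg _) n1 4).trans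
      ((pow_sum_le_card_mul_sum_pow (fun _ _ => norm_nonneg _) 3).trans ?_)) (pow_nonneg l0 4)
    refine mul_le_mul_of_nonneg_left (sum_le_sum fun e _ => ?_) (pow_nonneg (Nat.cast_nonneg _) 3)
    refine le_trans ?_ (single_le_sum (fun _ _ => sum_nonneg fun _ _ => sum_nonneg fun _ _ =>
      mi_ind _ _ _ _ _ _) hq)
    refine le_trans ?_ (single_le_sum (fun _ _ => sum_nonneg fun _ _ => mi_ind _ _ _ _ _ _) ha)
    refine le_trans ?_ (single_le_sum (fun _ _ => mi_ind _ _ _ _ _ _) hj)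
    rw [Set.indicator_of_mem hy]
  refine (intervalIntegral.integral_mono_on zero_le_one
    (Continuous.intervalIntegrable (by fun_prop) _ _) ((i2.const_mul _).add (i1.const_mul _))
    key).trans ?_
  rw [intervalIntegral.integral_add (i2.const_mul _) (i1.const_mul _),
    intervalIntegral.integral_const_mul, intervalIntegral.integral_const_mul,
    intervalIntegral.integral_finsetSum fun e _ => (miT_int hX0 P (tb X P e)).1]
  have b1 := mi_pars hX0
  have b2 := sum_le_card_nsmul S _ (X⁻¹ * (C3 * X ^ (4 + ε / 17) / P)) fun e he =>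
    (miT_int hX0 P (tb X P e)).2.trans (mul_le_mul_of_nonneg_left
      (h3 X P _ hX hP h5 (s2 e he)) (inv_nonneg.2 hX0.le))
  rw [nsmul_eq_mul, e2] at b2
  rw [e1]
  generalize X ^ (ε / 17) = u at *
  generalize 3 + 1 / (ε / 17) = K at *
  have l2 : Real.log X ≤ K * u := by linarith
  have s4 : (S.card : ℝ) ≤ 8 * (K * u) ^ 3 := by
    refine s1.trans ((pow_le_pow_left₀ (by linarith) (show _ ≤ 2 * (K * u) by linarith) 3).trans_eq ?_)
    ring
  have u0 : 0 ≤ u := by linarith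
  have u2 : u ^ 10 ≤ u ^ 17 := pow_le_pow_right₀ u1 (by norm_num)
  calc _ ≤ 4 * (C1 * (C2 * u) * (X / √P) * (K * u) ^ 3) ^ 2 * (X * (K * u) ^ 2) +
        16 * ((K * u) ^ 4 * (8 * (K * u) ^ 3) ^ 3) *
          ((8 * (K * u) ^ 3) * (X⁻¹ * (C3 * (X ^ 4 * u) / P))) := by
        refine add_le_add (mul_le_mul (by gcongr) (b1.trans (by gcongr))
          (intervalIntegral.integral_nonneg zero_le_one fun _ _ => sq_nonneg _) (by positivity))
          (mul_le_mul (by gcongr) (b2.trans (by gcongr)) (sum_nonneg fun e _ =>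
            intervalIntegral.integral_nonneg zero_le_one fun _ _ => miT_nonneg _ _ _ _)
            (by positivity))
    _ = 4 * (C1 * C2) ^ 2 * K ^ 8 * (X ^ 3 / √P ^ 2) * u ^ 10 +
        16 * 8 ^ 4 * K ^ 16 * C3 * (X ^ 3 * u ^ 17) / P := by
        field_simp
    _ ≤ 4 * (C1 * C2) ^ 2 * K ^ 8 * (X ^ 3 / √P ^ 2) * u ^ 17 +
        16 * 8 ^ 4 * K ^ 16 * C3 * (X ^ 3 * u ^ 17) / P := by gcongr
    _ = _ := by
        rw [Real.sq_sqrt (by linarith)]
        ring

theorem minor4 {ε : ℝ} (hε : 0 < ε) : ∃ C : ℝ, 0 ≤ C ∧ ∀ X P H : ℝ, 64 ≤ X → 1 ≤ P → P ≤ H →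
    P * H ≤ X → P ≤ X ^ (5 / 12 : ℝ) → ∀ S : Finset ℕ,
      ∑ m ∈ S, ‖(RR X m : ℂ) - R1 X P H m‖ ^ 2 ≤ C * X ^ (3 + ε) / P := by
  obtain ⟨C, hC, h⟩ := minor_int hε
  refine ⟨C, hC, fun X P H hX hP hPH hHX h5 S => le_trans ?_ (h X P H hX hP hPH hHX h5)⟩
  have hX0 : 0 < X := by linarith
  have c1 := VA.continuous_ee
  have c2 := a1S_cont X
  have c3 := a1K_cont X
  have c4 : Continuous (a1M X P H) := continuous_finsetSum _ fun ω _ => (c3 _).comp (by fun_prop)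
  set F : ℝ → ℂ := fun x => ((1 - a1M X P H x : ℝ) : ℂ) * (a1S X x * a1S X x) with hF
  have c5 : Continuous F := by
    simp only [hF]
    fun_prop
  have e : ∀ m ∈ S, ‖(RR X m : ℂ) - R1 X P H m‖ ^ 2 =
      ‖∫ x in (0 : ℝ)..1, F x * VA.ee (-(m * x))‖ ^ 2 := by
    intro m _
    have e1 : R1 X P H m = ∫ x in (0 : ℝ)..1,
        (a1M X P H x : ℂ) * (a1S X x * a1S X x * VA.ee (-(m * x))) := by
      simp only [a1M, Complex.ofReal_sum, sum_mul]
      rw [intervalIntegral.integral_finsetSum fun ω _ => Continuous.intervalIntegrable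
        (by have := c3 (H / ω.1); fun_prop) _ _, VA.frs, sum_sigma, R1, mul_sum]
      refine sum_congr rfl fun q hq => ?_
      rw [mul_sum]
      have hq' : (1 : ℝ) ≤ q := by exact_mod_cast (mem_Icc.1 hq).1
      exact sum_congr rfl fun c _ => a1_arc (div_pos (by linarith) (by linarith))
        ((div_le_self (by linarith) hq').trans (by nlinarith)) q c m
    rw [e1, a1_RR hX0, ← intervalIntegral.integral_sub
      (Continuous.intervalIntegrable (by fun_prop) _ _)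
      (Continuous.intervalIntegrable (by fun_prop) _ _)]
    congr 2
    refine intervalIntegral.integral_congr fun x _ => ?_
    simp only [hF]
    push_cast
    ring
  rw [sum_congr rfl e]
  refine (a1_bessel F c5 S).trans_eq (intervalIntegral.integral_congr fun x _ => ?_)
  simp only [hF]
  rw [norm_mul, norm_mul, mul_pow, Complex.norm_real, Real.norm_eq_abs, sq_abs]
  ring

end Pool.Agent.Lib.MP_778b46_nt.MB
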