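import Pool.Agent.Lib.MP_778b46_nt.MB.Defs
import Pool.Agent.Lib.MP_c03ca8_nt.Q.LSMul

/-! Mean values for the characters of one modulus. -/

set_option autoImplicit false

noncomputable section

namespace Pool.Agent.Lib.MP_778b46_nt.MB

open Complex Finset MeasureTheory
open scoped Real ComplexConjugate
open Pool.Agent.Lib.MP_03e5d0_nt (Sm ex ft bump)
open Pool.Agent.Lib.MP_778b46_nt.MA

theorem schur_b {ι κ : Type} (A : Finset ι) (K : Finset κ) (e : ι → κ → ℂ) (D : ι → ι → ℝ) (R : ℝ)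
    (hsym : ∀ a a', D a a' = D a' a)
    (hD : ∀ a ∈ A, ∀ a' ∈ A, ‖∑ k ∈ K, e a k * conj (e a' k)‖ ≤ D a a')
    (hrow : ∀ a ∈ A, ∑ a' ∈ A, D a a' ≤ R) (c : ι → ℂ) :
    ∑ k ∈ K, ‖∑ a ∈ A, c a * e a k‖ ^ 2 ≤ R * ∑ a ∈ A, ‖c a‖ ^ 2 := by
  have h4 : ((∑ k ∈ K, ‖∑ a ∈ A, c a * e a k‖ ^ 2 : ℝ) : ℂ) = ∑ a ∈ A, ∑ a' ∈ A,
      c a * conj (c a') * ∑ k ∈ K, e a k * conj (e a' k) := by
    have : ∀ k ∈ K, ((‖∑ a ∈ A, c a * e a k‖ ^ 2 : ℝ) : ℂ) = ∑ a ∈ A, ∑ a' ∈ A,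
        c a * conj (c a') * (e a k * conj (e a' k)) := by
      intro k _
      rw [ofReal_pow, ← Complex.mul_conj', map_sum, sum_mul_sum]
      refine sum_congr rfl fun a _ => sum_congr rfl fun a' _ => ?_
      rw [map_mul]
      ring
    rw [ofReal_sum, sum_congr rfl this, sum_comm]
    refine sum_congr rfl fun a _ => ?_
    rw [sum_comm]
    exact sum_congr rfl fun a' _ => (mul_sum _ _ _).symm
  have h5 : ∑ k ∈ K, ‖∑ a ∈ A, c a * e a k‖ ^ 2 ≤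
      ∑ a ∈ A, ∑ a' ∈ A, (‖c a‖ ^ 2 * D a a' / 2 + ‖c a'‖ ^ 2 * D a' a / 2) := by
    refine (Real.le_norm_self _).trans ?_
    rw [← Complex.norm_real, h4]
    refine (norm_sum_le _ _).trans (sum_le_sum fun a ha => ?_)
    refine (norm_sum_le _ _).trans (sum_le_sum fun a' ha' => ?_)
    rw [norm_mul, norm_mul, Complex.norm_conj, hsym a' a]
    have hD0 : 0 ≤ D a a' := (norm_nonneg _).trans (hD a ha a' ha')
    refine (mul_le_mul_of_nonneg_left (hD a ha a' ha') (by positivity)).trans ?_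
    nlinarith [mul_nonneg hD0 (sq_nonneg (‖c a‖ - ‖c a'‖))]
  refine h5.trans ?_
  simp only [sum_add_distrib]
  rw [sum_comm (f := fun a a' => ‖c a'‖ ^ 2 * D a' a / 2), ← sum_add_distrib, mul_sum]
  refine sum_le_sum fun a ha => ?_
  rw [← sum_add_distrib]
  have : ∑ a' ∈ A, (‖c a‖ ^ 2 * D a a' / 2 + ‖c a‖ ^ 2 * D a a' / 2) =
      ‖c a‖ ^ 2 * ∑ a' ∈ A, D a a' := by
    rw [mul_sum]
    exact sum_congr rfl fun a' _ => by ring
  rw [this, mul_comm R]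
  exact mul_le_mul_of_nonneg_left (hrow a ha) (sq_nonneg _)

theorem schur_a {ι κ : Type} (A : Finset ι) (K : Finset κ) (e : ι → κ → ℂ) (D : ι → ι → ℝ) (R : ℝ)
    (hR : 0 ≤ R) (hsym : ∀ a a', D a a' = D a' a)
    (hD : ∀ a ∈ A, ∀ a' ∈ A, ‖∑ k ∈ K, e a k * conj (e a' k)‖ ≤ D a a')
    (hrow : ∀ a ∈ A, ∑ a' ∈ A, D a a' ≤ R) (γ : κ → ℂ) :
    ∑ a ∈ A, ‖∑ k ∈ K, γ k * e a k‖ ^ 2 ≤ R * ∑ k ∈ K, ‖γ k‖ ^ 2 := by
  have h6 := schur_b A K e D R hsym hD hrow fun a => conj (∑ k ∈ K, γ k * e a k)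
  simp only [Complex.norm_conj] at h6
  have h1 : ((∑ a ∈ A, ‖∑ k ∈ K, γ k * e a k‖ ^ 2 : ℝ) : ℂ) =
      ∑ k ∈ K, γ k * ∑ a ∈ A, conj (∑ k ∈ K, γ k * e a k) * e a k := by
    simp only [mul_sum]
    rw [sum_comm, ofReal_sum]
    refine sum_congr rfl fun a _ => ?_
    rw [ofReal_pow, ← Complex.conj_mul']
    generalize conj (∑ k ∈ K, γ k * e a k) = z
    rw [mul_sum]
    exact sum_congr rfl fun k _ => by ring
  have h2 : ∑ a ∈ A, ‖∑ k ∈ K, γ k * e a k‖ ^ 2 ≤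
      ∑ k ∈ K, ‖γ k‖ * ‖∑ a ∈ A, conj (∑ k ∈ K, γ k * e a k) * e a k‖ := by
    refine (Real.le_norm_self _).trans ?_
    rw [← Complex.norm_real, h1]
    refine (norm_sum_le _ _).trans (le_of_eq ?_)
    simp only [norm_mul]
  have h3 := sum_mul_sq_le_sq_mul_sq K (fun k => ‖γ k‖)
    fun k => ‖∑ a ∈ A, conj (∑ k ∈ K, γ k * e a k) * e a k‖
  have hS0 : 0 ≤ ∑ a ∈ A, ‖∑ k ∈ K, γ k * e a k‖ ^ 2 := sum_nonneg fun _ _ => sq_nonneg _
  have hC0 : 0 ≤ ∑ k ∈ K, ‖γ k‖ ^ 2 := sum_nonneg fun _ _ => sq_nonneg _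
  have h7 := pow_le_pow_left₀ hS0 h2 2
  have h8 := mul_le_mul_of_nonneg_left h6 hC0
  generalize ∑ a ∈ A, ‖∑ k ∈ K, γ k * e a k‖ ^ 2 = S at *
  generalize ∑ k ∈ K, ‖γ k‖ ^ 2 = C at *
  rcases hS0.eq_or_lt with h | h
  · rw [← h]
    positivity
  · refine le_of_mul_le_mul_right (a := S) ?_ h
    nlinarith

theorem sc_conj_ex (t y : ℝ) : conj (ex t y) = ex t (-y) := by
  simp only [ex, ← Complex.exp_conj, map_mul, conj_I, conj_ofReal, ofReal_neg]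
  ring_nf

theorem sc_conj_chi {q : ℕ} (χ : DirichletCharacter ℂ q) {x : ZMod q} (hx : IsUnit x) :
    conj (χ x) = χ x⁻¹ := by
  rw [starRingEnd_apply, MulChar.star_apply', MulChar.inv_apply_eq_inv']
  refine (eq_inv_of_mul_eq_one_left ?_).symm
  rw [← map_mul, ZMod.inv_mul_of_unit x hx, map_one]

open Classical in
theorem sc_char {q : ℕ} [NeZero q] (x x' : ZMod q) :
    ‖∑ χ : DirichletCharacter ℂ q, χ x * conj (χ x')‖ ≤ if x = x' then (q : ℝ) else 0 := by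
  by_cases h : IsUnit x'
  · rw [sum_congr rfl fun χ _ => (mul_comm _ _).trans (congrArg (· * χ x) (sc_conj_chi χ h)),
      DirichletCharacter.sum_char_inv_mul_char_eq ℂ h]
    simp only [eq_comm (a := x')]
    split_ifs
    · rw [Complex.norm_natCast]
      exact_mod_cast Nat.totient_le q
    · simp
  · simp only [MulChar.map_nonunit _ h, map_zero, mul_zero, sum_const_zero, norm_zero]
    split_ifs
    · exact Nat.cast_nonneg _
    · exact le_rfl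

theorem sc_tel (y : ℝ) (N : ℕ) : (ex 1 y - 1) * ∑ t ∈ Icc (-(N : ℤ)) N, ex t y =
    ex (N + 1) y - ex (-N) y := by
  induction N with
  | zero => simp [ex]
  | succ N ih =>
    have e : Icc (-((N + 1 : ℕ) : ℤ)) ((N + 1 : ℕ) : ℤ) =
        insert (-((N : ℤ) + 1)) (insert ((N : ℤ) + 1) (Icc (-(N : ℤ)) N)) := by
      ext t
      simp only [mem_Icc, mem_insert]
      omega
    rw [e, sum_insert (by simp only [mem_Icc, mem_insert]; omega),
      sum_insert (by simp only [mem_Icc]; omega), mul_add, mul_add, ih]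
    have a1 : ex (-(N : ℝ)) y = ex 1 y * ex (-((N : ℝ) + 1)) y := by
      rw [← MP_03e5d0_nt.ex_add']
      congr 1
      ring
    push_cast
    rw [a1, MP_03e5d0_nt.ex_add' (N + 1) 1]
    ring

theorem sc_geom (T : ℝ) {y : ℝ} (h0 : 0 < |y|) (h3 : |y| ≤ 3) :
    ‖∑ t ∈ II T, ex t y‖ ≤ π / |y| := by
  have hpi := Real.pi_gt_three
  have h4 := congrArg norm (sc_tel y ⌊T⌋₊)
  have h5 : ‖ex (⌊T⌋₊ + 1) y - ex (-⌊T⌋₊) y‖ ≤ 2 := by
    refine (norm_sub_le _ _).trans ?_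
    rw [MP_03e5d0_nt.norm_ex, MP_03e5d0_nt.norm_ex]
    norm_num
  have h6 : ‖ex 1 y - 1‖ = 2 * |Real.sin (y / 2)| := by
    rw [ex, ofReal_one, mul_one, Complex.norm_exp_I_mul_ofReal_sub_one, Real.norm_eq_abs, abs_mul,
      abs_two]
  have h7 : 2 / π * |y / 2| ≤ |Real.sin (y / 2)| :=
    Real.mul_abs_le_abs_sin (by rw [abs_div, abs_two]; linarith)
  rw [abs_div, abs_two] at h7
  rw [norm_mul, h6] at h4
  rw [le_div_iff₀ h0, II]
  have h8 : |y| ≤ π * |Real.sin (y / 2)| := by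
    have := mul_le_mul_of_nonneg_left h7 Real.pi_pos.le
    rwa [show π * (2 / π * (|y| / 2)) = |y| by field_simp] at this
  have h9 := mul_le_mul_of_nonneg_left h8 (norm_nonneg (∑ t ∈ Icc (-(⌊T⌋₊ : ℤ)) ⌊T⌋₊, ex t y))
  nlinarith

theorem sc_side {ι : Type} (S : Finset ι) (θ : ι → ℝ) (y : ℝ) {δ : ℝ} (hδ : 0 < δ)
    (h1 : ∀ j ∈ S, δ ≤ |y - θ j|) (h2 : ∀ j ∈ S, |y - θ j| ≤ 3)
    (h3 : ∀ j ∈ S, ∀ j' ∈ S, j ≠ j' → δ ≤ |θ j - θ j'|)
    (h4 : (∀ j ∈ S, θ j ≤ y) ∨ ∀ j ∈ S, y ≤ θ j) :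
    ∑ j ∈ S, |y - θ j|⁻¹ ≤ δ⁻¹ * (1 + Real.log (1 + 3 / δ)) := by
  have hd : ∀ j ∈ S, ∀ j' ∈ S, |(|y - θ j|) - (|y - θ j'|)| = |θ j - θ j'| := by
    intro j hj j' hj'
    rcases h4 with h4 | h4
    · rw [abs_of_nonneg (sub_nonneg.2 (h4 j hj)), abs_of_nonneg (sub_nonneg.2 (h4 j' hj')),
        abs_sub_comm]
      congr 1
      ring
    · rw [abs_of_nonpos (sub_nonpos.2 (h4 j hj)), abs_of_nonpos (sub_nonpos.2 (h4 j' hj'))]
      congr 1
      ring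
  have h5 := MP_c03ca8_nt.Q.lsadd_harm S (fun j => |y - θ j| / δ) (Y := 3 / δ) (by positivity)
    (fun j hj => (one_le_div hδ).2 (h1 j hj))
    (fun j hj => div_le_div_of_nonneg_right (h2 j hj) hδ.le) fun j hj j' hj' hne => by
      rw [← sub_div, abs_div, abs_of_pos hδ, hd j hj j' hj']
      exact (one_le_div hδ).2 (h3 j hj j' hj' hne)
  refine le_trans (le_of_eq ?_) (mul_le_mul_of_nonneg_left h5 (inv_nonneg.2 hδ.le))
  rw [mul_sum]
  refine sum_congr rfl fun j _ => ?_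
  rw [inv_div, div_eq_mul_inv, inv_mul_cancel_left₀ hδ.ne']

/-- The kernel of well spaced points. -/
theorem sp_row {q : ℕ} [NeZero q] {ι : Type} (A : Finset ι) (x : ι → ZMod q) (θ : ι → ℝ) {T δ : ℝ}
    (hT : 0 ≤ T) (hδ : 0 < δ) (h1 : ∀ j ∈ A, ∀ j' ∈ A, |θ j - θ j'| ≤ 3)
    (h2 : ∀ j ∈ A, ∀ j' ∈ A, j ≠ j' → x j = x j' → δ ≤ |θ j - θ j'|) :
    ∃ D : ι → ι → ℝ, (∀ a a', D a a' = D a' a) ∧
      (∀ a ∈ A, ∀ a' ∈ A, ‖∑ w ∈ box q T, (w.1 (x a) * ex (ht w) (θ a)) *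
        conj (w.1 (x a') * ex (ht w) (θ a'))‖ ≤ D a a') ∧
      ∀ a ∈ A, ∑ a' ∈ A, D a a' ≤ q * (2 * T + 1 + 7 / δ * (1 + Real.log (1 + 3 / δ))) := by
  classical
  refine ⟨fun a a' => (if x a = x a' then (q : ℝ) else 0) *
    (if a = a' then 2 * T + 1 else π / |θ a - θ a'|), fun a a' => ?_, fun a ha a' ha' => ?_,
    fun a ha => ?_⟩
  · simp only [eq_comm (a := x a), eq_comm (a := a), abs_sub_comm (θ a)]
  · have e : ∑ w ∈ box q T, (w.1 (x a) * ex (ht w) (θ a)) * conj (w.1 (x a') * ex (ht w) (θ a')) =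
        (∑ χ : DirichletCharacter ℂ q, χ (x a) * conj (χ (x a'))) *
          ∑ t ∈ II T, ex t (θ a - θ a') := by
      rw [sum_box, sum_mul_sum]
      refine sum_congr rfl fun χ _ => sum_congr rfl fun t _ => ?_
      rw [map_mul, sc_conj_ex, sub_eq_add_neg, MP_03e5d0_nt.ex_add]
      simp only [ht, toAdd_ofAdd]
      ring
    rw [e, norm_mul]
    beta_reduce
    by_cases hx : x a = x a'
    · refine mul_le_mul (by convert sc_char (x a) (x a')) ?_ (norm_nonneg _) (by positivity)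
      split_ifs with h
      · refine (norm_sum_le _ _).trans ?_
        simp only [MP_03e5d0_nt.norm_ex, sum_const, nsmul_eq_mul, mul_one]
        exact card_II hT
      · exact sc_geom T (hδ.trans_le (h2 a ha a' ha' h hx)) (h1 a ha a' ha')
    · have := sc_char (x a) (x a')
      rw [if_neg hx] at this
      rw [if_neg hx, le_antisymm this (norm_nonneg _), zero_mul, zero_mul]
  · set B := (A.erase a).filter fun j => x a = x j with hB
    have hm : ∀ j ∈ B, j ∈ A ∧ a ≠ j ∧ x a = x j := fun j hj =>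
      ⟨mem_of_mem_erase (mem_filter.1 hj).1, (ne_of_mem_erase (mem_filter.1 hj).1).symm,
        (mem_filter.1 hj).2⟩
    have hs : ∀ S ⊆ B, ((∀ j ∈ S, θ j ≤ θ a) ∨ ∀ j ∈ S, θ a ≤ θ j) →
        ∑ j ∈ S, |θ a - θ j|⁻¹ ≤ δ⁻¹ * (1 + Real.log (1 + 3 / δ)) := fun S hS h =>
      sc_side S θ (θ a) hδ (fun j hj => h2 a ha j (hm j (hS hj)).1 (hm j (hS hj)).2.1
        (hm j (hS hj)).2.2) (fun j hj => h1 a ha j (hm j (hS hj)).1)
        (fun j hj j' hj' hne => h2 j (hm j (hS hj)).1 j' (hm j' (hS hj')).1 hne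
          ((hm j (hS hj)).2.2.symm.trans (hm j' (hS hj')).2.2)) h
    have s1 := hs (B.filter fun j => θ j ≤ θ a) (filter_subset _ _)
      (Or.inl fun j hj => (mem_filter.1 hj).2)
    have s2 := hs (B.filter fun j => ¬ θ j ≤ θ a) (filter_subset _ _)
      (Or.inr fun j hj => (not_le.1 (mem_filter.1 hj).2).le)
    have s3 := sum_filter_add_sum_filter_not B (fun j => θ j ≤ θ a) fun j => |θ a - θ j|⁻¹
    have e : ∑ a' ∈ A.erase a, (if x a = x a' then (q : ℝ) else 0) *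
        (if a = a' then 2 * T + 1 else π / |θ a - θ a'|) =
        q * (π * ∑ j ∈ B, |θ a - θ j|⁻¹) := by
      rw [hB, sum_filter, mul_sum, mul_sum]
      refine sum_congr rfl fun j hj => ?_
      rw [if_neg (ne_of_mem_erase hj).symm]
      split_ifs
      · rw [div_eq_mul_inv]
      · simp
    rw [← add_sum_erase _ _ ha, e]
    beta_reduce
    rw [if_pos rfl, if_pos rfl, ← mul_add]
    refine mul_le_mul_of_nonneg_left (add_le_add le_rfl ?_) (Nat.cast_nonneg _)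
    have hL : 0 ≤ δ⁻¹ * (1 + Real.log (1 + 3 / δ)) := by
      have := Real.log_nonneg (le_add_of_nonneg_right (a := 1) (show 0 ≤ 3 / δ by positivity))
      positivity
    have hp := Real.pi_lt_d2
    have := mul_le_mul_of_nonneg_left (s3 ▸ add_le_add s1 s2) Real.pi_pos.le
    rw [div_eq_mul_inv 7, mul_assoc]
    nlinarith

theorem sc_log {q u v : ℕ} {Y : ℝ} (hu : 0 < u) (hv : 0 < v) (hu' : (u : ℝ) ≤ Y)
    (hv' : (v : ℝ) ≤ Y) (hne : u ≠ v) (h : (u : ZMod q) = v) :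
    q / Y ≤ |Real.log u - Real.log v| := by
  wlog hlt : v < u generalizing u v
  · rw [abs_sub_comm]
    exact this hv hu hv' hu' hne.symm h.symm (by omega)
  have hu0 : (0 : ℝ) < u := by exact_mod_cast hu
  have hv0 : (0 : ℝ) < v := by exact_mod_cast hv
  have h1 : q ≤ u - v := Nat.le_of_dvd (by omega)
    ((Nat.modEq_iff_dvd' hlt.le).1 ((ZMod.natCast_eq_natCast_iff _ _ _).1 h.symm))
  have h2 : (q : ℝ) ≤ u - v := by
    rw [← Nat.cast_sub hlt.le]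
    exact_mod_cast h1
  have h3 := Real.log_le_sub_one_of_pos (div_pos hv0 hu0)
  rw [Real.log_div hv0.ne' hu0.ne'] at h3
  refine le_trans ?_ (le_abs_self _)
  have h4 : (q : ℝ) / Y ≤ (u - v) / u :=
    div_le_div₀ (le_trans (Nat.cast_nonneg _) h2) h2 hu0 hu'
  rw [sub_div, div_self hu0.ne'] at h4
  linarith

theorem sc_near {u v M c : ℝ} (hM : 0 < M) (hc : 0 < c) (hu : M ≤ u) (hu' : u ≤ c * M) (hv : M ≤ v)
    (hv' : v ≤ c * M) : |Real.log u - Real.log v| ≤ Real.log c := by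
  have a1 := Real.log_le_log hM hu
  have a2 := Real.log_le_log hM hv
  have a3 := Real.log_le_log (hM.trans_le hu) hu'
  have a4 := Real.log_le_log (hM.trans_le hv) hv'
  rw [Real.log_mul hc.ne' hM.ne'] at a3 a4
  exact abs_le.2 ⟨by linarith, by linarith⟩

theorem sc_fin {q : ℕ} [NeZero q] {T Y : ℝ} (hY : 0 < Y) :
    q * (2 * T + 1 + 7 / (q / Y) * (1 + Real.log (1 + 3 / (q / Y)))) ≤
      q * (2 * T + 1) + 7 * Y * (1 + Real.log (1 + 3 * Y)) := by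
  have hq : (1 : ℝ) ≤ q := by exact_mod_cast NeZero.one_le
  have h1 : 3 / ((q : ℝ) / Y) ≤ 3 * Y := by
    rw [div_div_eq_mul_div]
    exact div_le_self (by positivity) hq
  have h2 := Real.log_le_log (by positivity) (add_le_add (le_refl 1) h1)
  rw [mul_add, ← mul_assoc, show (q : ℝ) * (7 / (q / Y)) = 7 * Y by field_simp]
  exact add_le_add le_rfl (mul_le_mul_of_nonneg_left (by linarith) (by positivity))

theorem mv1 {q : ℕ} [NeZero q] {T M : ℝ} (hT : 0 ≤ T) (hM : 0 < M) (J : Finset ℕ)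
    (hJ : ∀ n ∈ J, M ≤ n ∧ (n : ℝ) ≤ 16 * M) (a : ℕ → ℂ) :
    ∑ w ∈ box q T, ‖dp J a w‖ ^ 2 ≤
      (q * (2 * T + 1) + 112 * M * (1 + Real.log (1 + 48 * M))) * ∑ n ∈ J, ‖a n‖ ^ 2 := by
  have hq : (0 : ℝ) < q := by exact_mod_cast NeZero.pos q
  have hp : ∀ n ∈ J, 0 < n := fun n hn => by exact_mod_cast hM.trans_le (hJ n hn).1
  have h16 : Real.log 16 ≤ 3 := by
    rw [show (16 : ℝ) = 2 ^ 4 by norm_num, Real.log_pow]
    have := Real.log_two_lt_d9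
    push_cast
    linarith
  obtain ⟨D, d1, d2, d3⟩ := sp_row J (fun n => (n : ZMod q)) (fun n => Real.log n)
    (δ := q / (16 * M)) hT (by positivity)
    (fun j hj j' hj' => (sc_near hM (by norm_num) (hJ j hj).1 (hJ j hj).2 (hJ j' hj').1
      (hJ j' hj').2).trans h16)
    fun j hj j' hj' hne h => sc_log (hp j hj) (hp j' hj') (hJ j hj).2 (hJ j' hj').2 hne h
  refine schur_b J (box q T) (fun n w => ev w n) D _ d1 (fun n hn m hm => ?_) (fun n hn => ?_) a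
  · simp only [ev, if_neg (hp n hn).ne', if_neg (hp m hm).ne']
    exact d2 n hn m hm
  · refine (d3 n hn).trans ((sc_fin (by positivity)).trans (le_of_eq ?_))
    ring_nf

theorem mvfr {q : ℕ} [NeZero q] {T M : ℝ} (hT : 0 ≤ T) (hM : 0 < M) (J : Finset ℕ)
    (hJ : ∀ n ∈ J, M ≤ n ∧ (n : ℝ) ≤ 2 * M) (r : Gq q → ℂ) :
    ∑ p ∈ cp J, ‖∑ w ∈ box q T, r w * (ev w p.1 * conj (ev w p.2))‖ ^ 2 ≤
      (q * (2 * T + 1) + 28 * M ^ 2 * (1 + Real.log (1 + 12 * M ^ 2))) *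
        ∑ w ∈ box q T, ‖r w‖ ^ 2 := by
  classical
  have hq : (0 : ℝ) < q := by exact_mod_cast NeZero.pos q
  have hp : ∀ n ∈ J, 0 < n := fun n hn => by exact_mod_cast hM.trans_le (hJ n hn).1
  set A := (cp J).filter fun p => IsUnit (p.2 : ZMod q) with hA
  have hm : ∀ p ∈ A, p.1 ∈ J ∧ p.2 ∈ J ∧ Nat.Coprime p.1 p.2 ∧ IsUnit (p.2 : ZMod q) := by
    intro p h
    obtain ⟨h1, h2⟩ := mem_filter.1 h
    obtain ⟨h3, h4⟩ := mem_filter.1 h1
    exact ⟨(mem_product.1 h3).1, (mem_product.1 h3).2, h4, h2⟩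
  have hb : ∀ n ∈ J, ∀ m ∈ J, ((n * m : ℕ) : ℝ) ≤ 4 * M ^ 2 := fun n hn m hm => by
    have := mul_le_mul (hJ n hn).2 (hJ m hm).2 (Nat.cast_nonneg _) (by positivity)
    push_cast
    linarith
  obtain ⟨D, d1, d2, d3⟩ := sp_row A (fun p => (p.1 : ZMod q) * (p.2 : ZMod q)⁻¹)
    (fun p => Real.log p.1 - Real.log p.2) (δ := q / (4 * M ^ 2)) hT (by positivity)
    (fun j hj j' hj' => by
      obtain ⟨a1, a2, -⟩ := hm j hj
      obtain ⟨b1, b2, -⟩ := hm j' hj'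
      have c1 := abs_le.1 (sc_near hM two_pos (hJ _ a1).1 (hJ _ a1).2 (hJ _ a2).1 (hJ _ a2).2)
      have c2 := abs_le.1 (sc_near hM two_pos (hJ _ b1).1 (hJ _ b1).2 (hJ _ b2).1 (hJ _ b2).2)
      have := Real.log_two_lt_d9
      exact abs_le.2 ⟨by linarith [c1.1, c2.2], by linarith [c1.2, c2.1]⟩)
    fun j hj j' hj' hne h => by
      obtain ⟨a1, a2, a3, a4⟩ := hm j hj
      obtain ⟨b1, b2, b3, b4⟩ := hm j' hj'
      have hne' : j.1 * j'.2 ≠ j'.1 * j.2 := by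
        intro e
        have d1 : j.2 ∣ j'.2 := a3.symm.dvd_of_dvd_mul_left ⟨j'.1, by rw [e, mul_comm]⟩
        have d2 : j'.2 ∣ j.2 := b3.symm.dvd_of_dvd_mul_left ⟨j.1, by rw [← e, mul_comm]⟩
        have e1 : j.2 = j'.2 := Nat.dvd_antisymm d1 d2
        rw [← e1] at e
        exact hne (Prod.ext (Nat.eq_of_mul_eq_mul_right (hp _ a2) e) e1)
      have hz : ((j.1 * j'.2 : ℕ) : ZMod q) = (j'.1 * j.2 : ℕ) := by
        push_cast
        linear_combination (j.2 : ZMod q) * j'.2 * h -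
          (j.1 : ZMod q) * j'.2 * ZMod.inv_mul_of_unit _ a4 +
          (j'.1 : ZMod q) * j.2 * ZMod.inv_mul_of_unit _ b4
      refine (sc_log (Nat.mul_pos (hp _ a1) (hp _ b2)) (Nat.mul_pos (hp _ b1) (hp _ a2))
        (hb _ a1 _ b2) (hb _ b1 _ a2) hne' hz).trans (le_of_eq ?_)
      have n0 : ∀ n ∈ J, (n : ℝ) ≠ 0 := fun n hn => (hM.trans_le (hJ n hn).1).ne'
      rw [Nat.cast_mul, Nat.cast_mul, Real.log_mul (n0 _ a1) (n0 _ b2),
        Real.log_mul (n0 _ b1) (n0 _ a2)]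
      congr 1
      ring
  have he : ∀ p ∈ A, ∀ w : Gq q, ev w p.1 * conj (ev w p.2) =
      w.1 ((p.1 : ZMod q) * (p.2 : ZMod q)⁻¹) * ex (ht w) (Real.log p.1 - Real.log p.2) := by
    intro p h w
    obtain ⟨a1, a2, -, a4⟩ := hm p h
    rw [ev, ev, if_neg (hp _ a1).ne', if_neg (hp _ a2).ne', map_mul, map_mul, sc_conj_ex,
      sc_conj_chi _ a4, sub_eq_add_neg, MP_03e5d0_nt.ex_add]
    ring
  have hL : 0 ≤ Real.log (1 + 12 * M ^ 2) := Real.log_nonneg (by nlinarith)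
  refine le_trans (le_of_eq (sum_filter_of_ne fun p _ h => ?_).symm)
    (schur_a A (box q T) (fun p w => ev w p.1 * conj (ev w p.2)) D _ (by positivity) d1
      (fun p h p' h' => ?_) (fun p h => ?_) r)
  · by_contra hu
    refine h ?_
    simp [ev, MulChar.map_nonunit _ hu]
  · simp only [he p h, he p' h']
    exact d2 p h p' h'
  · refine (d3 p h).trans ((sc_fin (by positivity)).trans (le_of_eq ?_))
    ring_nf

end Pool.Agent.Lib.MP_778b46_nt.MB
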