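import Pool.Agent.Lib.MP_778b46_nt.MB.Kb
import Pool.Agent.Lib.MP_778b46_nt.MB.Sc
import Pool.Agent.Lib.MP_778b46_nt.MA.LVe

/-! The large value inequality of Halasz and Montgomery. -/

set_option autoImplicit false

noncomputable section

namespace Pool.Agent.Lib.MP_778b46_nt.MB

open Complex Finset MeasureTheory
open scoped Real ComplexConjugate
open Pool.Agent.Lib.MP_03e5d0_nt (Sm ex ft bump)
open Pool.Agent.Lib.MP_778b46_nt.MA

theorem hm_gen {ι : Type} (S : Finset ι) (f : ι → ℕ → ℂ) {M R : ℝ} {Z : ℕ} (hM : 0 < M)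
    (hZ : 2 * M ≤ Z) (D : ι → ι → ℝ) (hR : 0 ≤ R) (hsym : ∀ i i', D i i' = D i' i)
    (hD : ∀ i ∈ S, ∀ i' ∈ S,
      ‖∑ n ∈ Ioc 0 Z, (w1 (n / (8 / 3 * M)) : ℂ) * (f i n * conj (f i' n))‖ ≤ D i i')
    (hrow : ∀ i ∈ S, ∑ i' ∈ S, D i i' ≤ R) (J : Finset ℕ)
    (hJ : ∀ n ∈ J, M ≤ n ∧ (n : ℝ) ≤ 2 * M) (a : ℕ → ℂ) :
    ∑ i ∈ S, ‖∑ n ∈ J, a n * f i n‖ ^ 2 ≤ R * ∑ n ∈ J, ‖a n‖ ^ 2 := by
  classical
  have h := schur_a S (Ioc 0 Z) (fun i n => (w0 (n / (8 / 3 * M)) : ℂ) * f i n) D R hR hsym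
    (fun i hi i' hi' => le_trans (le_of_eq (congrArg norm (sum_congr rfl fun n _ => by
      rw [map_mul, conj_ofReal, w1, ofReal_mul]
      ring))) (hD i hi i' hi')) hrow fun n => if n ∈ J then a n else 0
  have hsub : J ⊆ Ioc 0 Z := fun n hn => mem_Ioc.2
    ⟨Nat.cast_pos.1 (hM.trans_le (hJ n hn).1), Nat.cast_le.1 ((hJ n hn).2.trans hZ)⟩
  have e1 : ∀ i, ∑ n ∈ Ioc 0 Z, (if n ∈ J then a n else 0) *
      ((w0 (n / (8 / 3 * M)) : ℂ) * f i n) = ∑ n ∈ J, a n * f i n := fun i => by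
    simp only [ite_mul, zero_mul]
    rw [sum_ite_mem, inter_eq_right.2 hsub]
    refine sum_congr rfl fun n hn => ?_
    rw [w0_one ((le_div_iff₀ (by positivity)).2 (by linarith [(hJ n hn).1]))
      ((div_le_iff₀ (by positivity)).2 (by linarith [(hJ n hn).2])), ofReal_one, one_mul]
  have e2 : ∑ n ∈ Ioc 0 Z, ‖if n ∈ J then a n else 0‖ ^ 2 = ∑ n ∈ J, ‖a n‖ ^ 2 := by
    rw [← sum_subset hsub fun n _ hn => by rw [if_neg hn, norm_zero, zero_pow two_ne_zero]]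
    exact sum_congr rfl fun n hn => by rw [if_pos hn]
  simpa only [e1, e2] using h

theorem hm_sum : ∃ c : ℝ, 0 ≤ c ∧ ∀ s : Finset ℤ, ∑ k ∈ s, 1 / (1 + |(k : ℝ)|) ^ 2 ≤ c := by
  have h : Summable fun k : ℤ => 1 / (1 + |(k : ℝ)|) ^ 2 := by
    refine Summable.of_nonneg_of_le (fun k => by positivity) (fun k => ?_)
      ((Real.summable_one_div_int_add_rpow (1 / 2) 2).2 one_lt_two)
    have h1 : (k : ℝ) + 1 / 2 ≠ 0 := fun e => by
      have : (2 * k + 1 : ℤ) = 0 := by exact_mod_cast (by linarith : (2 * k + 1 : ℝ) = 0)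
      omega
    rw [Real.rpow_two]
    refine one_div_le_one_div_of_le (by positivity) (pow_le_pow_left₀ (abs_nonneg _) ?_ 2)
    have h2 := abs_add_le (k : ℝ) (1 / 2)
    rw [abs_of_pos (a := (1 / 2 : ℝ)) one_half_pos] at h2
    linarith
  exact ⟨_, tsum_nonneg fun k => by positivity,
    fun s => h.sum_le_tsum s fun k _ => by positivity⟩

open Classical in
/-- A family with classes and integer heights. -/
theorem hm_ker : ∃ c : ℝ, 0 ≤ c ∧ ∀ {ι κ : Type} (S : Finset ι) (f : ι → ℕ → ℂ) (cl : ι → κ)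
    (t : ι → ℤ) (C K M : ℝ) (J : Finset ℕ) (a : ℕ → ℂ), 0 ≤ C → 0 ≤ K → 0 < M →
    (∀ i ∈ S, ∀ i' ∈ S, cl i = cl i' → t i = t i' → i = i') →
    (∀ i ∈ S, ∀ i' ∈ S, ∀ (N : ℝ) (Z : ℕ), 0 < N → N ≤ Z →
      ‖∑ n ∈ Ioc 0 Z, (w1 (n / N) : ℂ) * (f i n * conj (f i' n))‖ ≤
        C * K + if cl i = cl i' then C * N / (1 + |(t i : ℝ) - t i'|) ^ 2 else 0) →
    (∀ n ∈ J, M ≤ n ∧ (n : ℝ) ≤ 2 * M) →
    ∑ i ∈ S, ‖∑ n ∈ J, a n * f i n‖ ^ 2 ≤ c * C * (M + S.card * K) * ∑ n ∈ J, ‖a n‖ ^ 2 := by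
  obtain ⟨c, hc, h⟩ := hm_sum
  refine ⟨1 + 8 / 3 * c, by positivity, fun S f cl t C K M J a hC hK hM hi hk hJ => ?_⟩
  have hZ := Nat.le_ceil (8 / 3 * M)
  refine hm_gen S f hM (Z := ⌈8 / 3 * M⌉₊) (by linarith) (fun i i' => C * K +
    if cl i = cl i' then C * (8 / 3 * M) / (1 + |(t i : ℝ) - t i'|) ^ 2 else 0) (by positivity)
    (fun i i' => ?_) (fun i h1 i' h2 => hk i h1 i' h2 _ _ (by positivity) hZ) (fun i h1 => ?_)
    J hJ a
  · rw [abs_sub_comm]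
    simp only [eq_comm (a := cl i)]
  · rw [sum_add_distrib, sum_const, nsmul_eq_mul, ← sum_filter]
    have h2 := h ((S.filter fun i' => cl i = cl i').image fun i' => t i - t i')
    rw [sum_image fun x hx y hy e => hi x (mem_filter.1 hx).1 y (mem_filter.1 hy).1
      ((mem_filter.1 hx).2.symm.trans (mem_filter.1 hy).2) (sub_right_injective e)] at h2
    have h3 := mul_le_mul_of_nonneg_left h2 (show 0 ≤ C * (8 / 3 * M) by positivity)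
    simp only [mul_sum, mul_one_div, Int.cast_sub] at h3
    have h4 : 0 ≤ c * (C * (S.card * K)) := by positivity
    have h5 : 0 ≤ C * M := by positivity
    nlinarith

theorem hm_box {ε : ℝ} (hε : 0 < ε) : ∃ C : ℝ, 0 ≤ C ∧ ∀ (q : ℕ) [NeZero q] (T M : ℝ)
    (W : Finset (Gq q)) (J : Finset ℕ) (a : ℕ → ℂ), 0 ≤ T → 0 < M → W ⊆ box q T →
    (∀ n ∈ J, M ≤ n ∧ (n : ℝ) ≤ 2 * M) →
    ∑ w ∈ W, ‖dp J a w‖ ^ 2 ≤
      C * (M + W.card * (q * (1 + 2 * T)) ^ (1 / 2 + ε)) * ∑ n ∈ J, ‖a n‖ ^ 2 := by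
  obtain ⟨C, hC, h⟩ := kb hε
  obtain ⟨c, hc, hk⟩ := hm_ker
  refine ⟨c * C, by positivity, fun q _ T M W J a hT hM hW hJ => ?_⟩
  refine hk W ev (fun w => w.1) ht C _ M J a hC (by positivity) hM
    (fun w _ w' _ h1 h2 => Prod.ext h1 h2) (fun w hw w' hw' N Z hN hZ => ?_) hJ
  have h1 := h q (w * w'⁻¹).1 N (ht (w * w'⁻¹)) Z hN hZ
  have h2 : ((ht (w * w'⁻¹) : ℤ) : ℝ) = ht w - ht w' := by
    rw [ht_mul, ht_inv]
    push_cast
    ring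
  rw [sum_congr rfl (g := fun n : ℕ => (w1 (n / N) : ℂ) * (ev w n * conj (ev w' n)))
    fun n hn => by rw [← inv_ev, ← mul_ev, ev, if_neg (mem_Ioc.1 hn).1.ne'], h2] at h1
  refine h1.trans (add_le_add (mul_le_mul_of_nonneg_left ?_ hC) (le_of_eq ?_))
  · have h3 := abs_sub (ht w : ℝ) (ht w')
    have h4 := (mem_box hT).1 (hW hw)
    have h5 := (mem_box hT).1 (hW hw')
    gcongr
    linarith
  · by_cases e : w.1 = w'.1
    · rw [if_pos e, if_pos (show (w * w'⁻¹).1 = 1 from mul_inv_eq_one.2 e)]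
    · rw [if_neg e, if_neg fun k : (w * w'⁻¹).1 = 1 => e (mul_inv_eq_one.1 k)]

theorem hm_chr {c c' : ℕ} [NeZero c] [NeZero c'] {ψ : DirichletCharacter ℂ c}
    {ψ' : DirichletCharacter ℂ c'} (h : ψ.IsPrimitive) (h' : ψ'.IsPrimitive) :
    ∃ ξ : DirichletCharacter ℂ (c * c'), (ξ = 1 ↔ (⟨c, ψ⟩ : GX.Ch) = ⟨c', ψ'⟩) ∧
      ∀ n : ℕ, ξ n = ψ n * conj (ψ' n) := by
  refine ⟨DirichletCharacter.changeLevel (dvd_mul_right c c') ψ *
    (DirichletCharacter.changeLevel (dvd_mul_left c' c) ψ')⁻¹, ?_, fun n => ?_⟩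
  · rw [mul_inv_eq_one]
    constructor
    · intro e
      have h1 := congrArg DirichletCharacter.conductor e
      rw [DirichletCharacter.conductor_changeLevel, DirichletCharacter.conductor_changeLevel,
        h, h'] at h1
      subst h1
      rw [DirichletCharacter.changeLevel_injective _ e]
    · intro e
      cases e
      rfl
  · by_cases hn : n.Coprime (c * c')
    · have h1 : IsCoprime (n : ℤ) ((c * c' : ℕ) : ℤ) := Nat.isCoprime_iff_coprime.2 hn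
      have h2 := ψ.changeLevel_eq_cast_of_dvd' (dvd_mul_right c c') h1
      have h3 := ψ'.changeLevel_eq_cast_of_dvd' (dvd_mul_left c' c) h1
      simp only [Int.cast_natCast] at h2 h3
      rw [MulChar.mul_apply, ← MulChar.star_apply', h2, h3]
      rfl
    · rw [MulChar.map_nonunit _ (mt (ZMod.isUnit_iff_coprime n _).1 hn)]
      rw [Nat.coprime_mul_iff_right, not_and_or] at hn
      rcases hn with hn | hn
      · rw [ψ.map_nonunit (mt (ZMod.isUnit_iff_coprime n _).1 hn), zero_mul]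
      · rw [ψ'.map_nonunit (mt (ZMod.isUnit_iff_coprime n _).1 hn), map_zero, mul_zero]

theorem hm_pow (t t' : ℝ) {n : ℕ} (hn : 0 < n) :
    (n : ℂ) ^ (-(-((t : ℂ) * I))) * conj ((n : ℂ) ^ (-(-((t' : ℂ) * I)))) =
      ex (t - t') (Real.log n) := by
  have h : (n : ℂ) ≠ 0 := Nat.cast_ne_zero.2 hn.ne'
  rw [cpow_def_of_ne_zero h, cpow_def_of_ne_zero h, ← Complex.exp_conj, ← Complex.exp_add, ex,
    ← natCast_log]
  congr 1
  simp only [neg_neg, map_mul, conj_ofReal, conj_I, ofReal_sub]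
  ring

/-- Four dyadic ranges. -/
theorem hm_cut {ι : Type} {S : Finset ι} {f : ι → ℕ → ℂ} {C K : ℝ} (hC : 0 ≤ C) (hK : 0 ≤ K)
    (h : ∀ (M : ℝ) (J : Finset ℕ) (a : ℕ → ℂ), 0 < M → (∀ n ∈ J, M ≤ n ∧ (n : ℝ) ≤ 2 * M) →
      ∑ i ∈ S, ‖∑ n ∈ J, a n * f i n‖ ^ 2 ≤ C * (M + K) * ∑ n ∈ J, ‖a n‖ ^ 2)
    {M G : ℝ} {Z : ℕ} {a : ℕ → ℂ} (hM : 0 < M)
    (h1 : ∀ l ∈ Ioc 0 Z, a l ≠ 0 → M / 16 < l ∧ (l : ℝ) ≤ M) (h2 : ∀ l ∈ Ioc 0 Z, ‖a l‖ ≤ G) :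
    ∑ i ∈ S, ‖∑ l ∈ Ioc 0 Z, a l * f i l‖ ^ 2 ≤ 4 * C * (M + K) * M * G ^ 2 := by
  have h3 : ∀ l : ℕ, ∃ s ∈ range 4, M / 16 < l → (l : ℝ) ≤ M →
      M / 2 ^ (s + 1) ≤ l ∧ (l : ℝ) ≤ 2 * (M / 2 ^ (s + 1)) := fun l => by
    by_cases k1 : (l : ℝ) ≤ M / 8
    · exact ⟨3, by simp, fun _ _ => ⟨by linarith, by linarith⟩⟩
    by_cases k2 : (l : ℝ) ≤ M / 4
    · exact ⟨2, by simp, fun _ _ => ⟨by linarith, by linarith⟩⟩
    by_cases k3 : (l : ℝ) ≤ M / 2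
    · exact ⟨1, by simp, fun _ _ => ⟨by linarith, by linarith⟩⟩
    · exact ⟨0, by simp, fun _ _ => ⟨by linarith, by linarith⟩⟩
  choose g hg hg' using h3
  set B := (Ioc 0 Z).filter fun l => a l ≠ 0 with hB
  have h4 : ∀ i, ‖∑ l ∈ Ioc 0 Z, a l * f i l‖ ^ 2 ≤
      4 * ∑ s ∈ range 4, ‖∑ l ∈ B.filter fun l => g l = s, a l * f i l‖ ^ 2 := fun i => by
    rw [← sum_filter_of_ne (p := fun l => a l ≠ 0) fun l _ h => left_ne_zero_of_mul h, ← hB,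
      ← sum_fiberwise_of_maps_to (t := range 4) (g := g) fun l _ => hg l]
    refine (pow_le_pow_left₀ (norm_nonneg _) (norm_sum_le _ _) 2).trans
      (sq_sum_le_card_mul_sum_sq.trans (le_of_eq ?_))
    simp
  have h5 : ∑ l ∈ B, ‖a l‖ ^ 2 ≤ M * G ^ 2 := by
    refine (sum_le_card_nsmul _ _ (G ^ 2) fun l hl =>
      pow_le_pow_left₀ (norm_nonneg _) (h2 l (mem_filter.1 hl).1) 2).trans ?_
    rw [nsmul_eq_mul]
    refine mul_le_mul_of_nonneg_right (le_trans ?_ (Nat.floor_le hM.le)) (sq_nonneg G)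
    have : B ⊆ Ioc 0 ⌊M⌋₊ := fun l hl => mem_Ioc.2 ⟨(mem_Ioc.1 (mem_filter.1 hl).1).1,
      Nat.le_floor (h1 l (mem_filter.1 hl).1 (mem_filter.1 hl).2).2⟩
    exact_mod_cast (card_le_card this).trans (by simp)
  refine (sum_le_sum fun i _ => h4 i).trans ?_
  rw [← mul_sum, sum_comm]
  have h6 : ∑ s ∈ range 4, ∑ i ∈ S, ‖∑ l ∈ B.filter fun l => g l = s, a l * f i l‖ ^ 2 ≤
      ∑ s ∈ range 4, C * (M + K) * ∑ l ∈ B.filter fun l => g l = s, ‖a l‖ ^ 2 := by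
    refine sum_le_sum fun s _ => (h (M / 2 ^ (s + 1)) _ a (by positivity) fun l hl => ?_).trans ?_
    · obtain ⟨k1, rfl⟩ := mem_filter.1 hl
      obtain ⟨k2, k3⟩ := h1 l (mem_filter.1 k1).1 (mem_filter.1 k1).2
      exact hg' l k2 k3
    · have : M / 2 ^ (s + 1) ≤ M := div_le_self hM.le (one_le_pow₀ one_le_two)
      gcongr
  rw [← mul_sum, sum_fiberwise_of_maps_to fun l _ => hg l] at h6
  have h7 := mul_le_mul_of_nonneg_left h5 (show 0 ≤ C * (M + K) by positivity)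
  linarith

theorem hm_IB {ε : ℝ} (hε : 0 < ε) : ∃ C : ℝ, 0 ≤ C ∧ ∀ (R : ℕ) (A : Finset ℕ) (H : ℝ), 1 ≤ R →
    (R : ℝ) ≤ H → A ⊆ Ico R (2 * R) → Hm (IB A H) fz C (H ^ (1 + ε)) := by
  obtain ⟨C, hC, h⟩ := kb (half_pos hε)
  obtain ⟨c, hc, hk⟩ := hm_ker
  have hL : (1 : ℝ) ≤ 12 ^ (1 / 2 + ε / 2) := Real.one_le_rpow (by norm_num) (by positivity)
  refine ⟨4 * (c * (C * 12 ^ (1 / 2 + ε / 2))), by positivity,
    fun R A H hR hRH hA S hS M G Z a hM h1 h2 => ?_⟩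
  have hR1 : (1 : ℝ) ≤ R := by exact_mod_cast hR
  have hH : 0 < H := by linarith
  have hmem : ∀ i ∈ S, R ≤ i.1.1 ∧ i.1.1 < 2 * R ∧ i.1.2.IsPrimitive ∧ |(i.2 : ℝ)| ≤ H / R := by
    intro i hi
    obtain ⟨k1, k2⟩ := mem_sigma.1 (hS hi)
    obtain ⟨k3, k4⟩ := mem_sigma.1 k1
    obtain ⟨k5, k6⟩ := mem_Ico.1 (hA k3)
    have k7 : (R : ℝ) ≤ i.1.1 := by exact_mod_cast k5
    refine ⟨k5, k6, by simpa [MP_c03ca8_nt.Q.prim] using k4, (lve_II (div_nonneg hH.le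
      (by linarith)) k2).trans (div_le_div_of_nonneg_left hH.le (by linarith) k7)⟩
  refine hm_cut (by positivity) (by positivity) (fun M J a hM hJ => ?_) hM h1 h2
  refine hk S fz (fun i => i.1) (fun i => i.2) _ _ M J a (by positivity) (by positivity) hM
    (fun i _ i' _ k1 k2 => Sigma.ext k1 (heq_of_eq k2)) (fun i hi i' hi' N Z hN hZ => ?_) hJ
  obtain ⟨k1, k2, k3, k4⟩ := hmem i hi
  obtain ⟨l1, l2, l3, l4⟩ := hmem i' hi'
  obtain ⟨⟨q, ψ⟩, t⟩ := i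
  obtain ⟨⟨q', ψ'⟩, t'⟩ := i'
  dsimp only at k1 k2 k3 k4 l1 l2 l3 l4 ⊢
  have : NeZero q := ⟨by omega⟩
  have : NeZero q' := ⟨by omega⟩
  obtain ⟨ξ, e1, e2⟩ := hm_chr k3 l3
  have h3 := h (q * q') ξ N (t - t') Z hN hZ
  rw [sum_congr rfl (g := fun n : ℕ => (w1 (n / N) : ℂ) *
    (fz ⟨⟨q, ψ⟩, t⟩ n * conj (fz ⟨⟨q', ψ'⟩, t'⟩ n))) fun n hn => by
      rw [e2, ← hm_pow _ _ (mem_Ioc.1 hn).1, fz, fz, map_mul]
      ring] at h3
  refine h3.trans (add_le_add ?_ ?_)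
  · have m1 : (q : ℝ) ≤ 2 * R := by exact_mod_cast k2.le
    have m2 : (q' : ℝ) ≤ 2 * R := by exact_mod_cast l2.le
    have m3 : |(t : ℝ) - t'| ≤ 2 * (H / R) := by linarith [abs_sub (t : ℝ) t']
    have m4 : ((q * q' : ℕ) : ℝ) * (1 + |(t : ℝ) - t'|) ≤ 12 * H ^ (2 : ℝ) := by
      calc ((q * q' : ℕ) : ℝ) * (1 + |(t : ℝ) - t'|)
          ≤ (2 * R) * (2 * R) * (1 + 2 * (H / R)) := by
            push_cast
            gcongr
        _ = 4 * (R * R) + 8 * (R * H) := by field_simp; ring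
        _ ≤ 4 * (H * H) + 8 * (H * H) := by gcongr
        _ = _ := by rw [Real.rpow_two]; ring
    rw [mul_assoc]
    refine mul_le_mul_of_nonneg_left ((Real.rpow_le_rpow (by positivity) m4
      (by positivity)).trans (le_of_eq ?_)) hC
    rw [Real.mul_rpow (by norm_num) (by positivity), ← Real.rpow_mul hH.le]
    congr 2
    ring
  · by_cases e : ξ = 1
    · rw [if_pos e, if_pos (e1.1 e)]
      have := le_mul_of_one_le_right hC hL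
      gcongr
    · rw [if_neg e, if_neg (mt e1.2 e)]

end Pool.Agent.Lib.MP_778b46_nt.MB
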