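import Pool.Agent.Lib.MP_778b46_nt.MB.Wb
import Pool.Agent.Lib.MP_778b46_nt.MB.Hm
import Pool.Agent.Lib.MP_778b46_nt.MA.LW

/-! Mean squares of the polynomials over the primes for every exponent below `5 / 12`. -/

set_option autoImplicit false

noncomputable section

namespace Pool.Agent.Lib.MP_778b46_nt.MB

open Complex Finset MeasureTheory
open scoped Real ComplexConjugate
open Pool.Agent.Lib.MP_03e5d0_nt (Sm ex ft bump)
open Pool.Agent.Lib.MP_778b46_nt.MA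
open Pool.Agent.Lib.MP_778b46_nt.GX
open ArithmeticFunction (moebius vonMangoldt zeta)

theorem lw_mass2 : ∃ C : ℝ, 0 ≤ C ∧ ∀ X P H : ℝ, 2 ≤ X → 1 ≤ P → P ≤ H → H ≤ X ^ (9 / 20 : ℝ) →
    mass P H (fun _ ψ t => DD X (cf ψ) t) ≤ C * X ^ 2 * Real.log X ^ 4 := by
  obtain ⟨C0, hC, h⟩ := fam_IB
  obtain ⟨L, hw⟩ := wg_w0
  refine ⟨10 * (2 * C0 * 45), by positivity, fun X P H hX hP hPH hH => ?_⟩
  obtain ⟨u, hu, hXu, hHu⟩ := lw_root (N := 20) (h := 9) (by norm_num) (by norm_num)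
    (by linarith) hH
  have hX0 : 0 < X := by linarith
  have hl : 2 / 3 ≤ Real.log X := by
    linarith [Real.log_le_log (by norm_num) hX, Real.log_two_gt_d9]
  have hHX : H ≤ X := hHu.trans ((pow_le_pow_right₀ hu (by norm_num)).trans hXu.ge)
  refine (mass_blocks (B := 2 * C0 * 45 * X ^ 2 * Real.log X ^ 2) hP hPH (by positivity) _
    fun R A hR hRH hA => ?_).trans ?_
  · have hR1 : (1 : ℝ) ≤ R := by exact_mod_cast hR
    have k := h R A H (11 * u) (-1) hR hRH hA ((lw_log hu hR1 9 (hRH.trans hHu)).trans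
      (by norm_num)) _ Subset.rfl fun i _ _ => by linarith [abs_nonneg (i.2 : ℝ)]
    have k1 := ls_smooth k.ls hC k.D1 (G := Real.log X) hX0 ⌊X⌋₊
      (fun n => (w0 (n / X) : ℂ) * lp n) (fun n hn h0 => ?_) fun n hn => ?_
    · simp only [norm_DD hX0, ← mul_assoc]
      refine k1.trans ?_
      have k2 : 4 * H * R * (11 * u) ≤ 44 * X := by
        have : 0 ≤ H := by linarith
        calc _ ≤ 4 * u ^ 9 * u ^ 9 * (11 * u) := by gcongr; exact hRH.trans hHu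
          _ = 44 * u ^ 19 := by ring
          _ ≤ _ := by
            rw [hXu]
            exact mul_le_mul_of_nonneg_left (pow_le_pow_right₀ hu (by norm_num)) (by norm_num)
      calc _ ≤ 2 * C0 * (X + 44 * X) * X * Real.log X ^ 2 := by gcongr
        _ = _ := by ring
    · have k1 : n.Prime := by
        by_contra hc
        exact h0 (by simp [MA.lp, hc])
      have k2 : (n : ℝ) ≤ X := (Nat.le_floor_iff hX0.le).1 (mem_Ioc.1 hn).2
      refine ⟨k1.two_le, ?_, k2⟩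
      by_contra hc
      exact h0 (by rw [hw.zero _ (Or.inl (by rw [div_le_iff₀ hX0]; linarith))]; simp)
    · have k2 : (n : ℝ) ≤ X := (Nat.le_floor_iff hX0.le).1 (mem_Ioc.1 hn).2
      rw [norm_mul, norm_real, norm_real, Real.norm_eq_abs, Real.norm_eq_abs]
      refine (mul_le_of_le_one_left (abs_nonneg _) (hw.le _)).trans ?_
      unfold MA.lp
      split_ifs
      · rw [abs_of_nonneg (Real.log_natCast_nonneg n)]
        exact Real.log_le_log (by exact_mod_cast (mem_Ioc.1 hn).1) k2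
      · rw [abs_zero]; linarith
  · have k1 := Real.log_le_log (by linarith) hHX
    calc _ ≤ 10 * Real.log X ^ 2 * (2 * C0 * 45 * X ^ 2 * Real.log X ^ 2) :=
          mul_le_mul_of_nonneg_right (by nlinarith) (by positivity)
      _ = _ := by ring

theorem wc_mono {ι : Type} {I S : Finset ι} {f : ι → ℕ → ℂ} {C κ κ' : ℝ} (h : Hm I f C κ)
    (hC : 0 ≤ C) (hS : S ⊆ I) (hκ : κ ≤ κ') : Hm S f C κ' := by
  intro T hT M G Z a hM h1 h2
  refine (h T (hT.trans hS) M G Z a hM h1 h2).trans ?_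
  gcongr

theorem wc_pow {u δ : ℝ} (hu : 0 < u) (hδu : 1 ≤ δ * u) (j k : ℕ) :
    u ^ k ≤ δ ^ j * u ^ (k + j) := by
  calc _ ≤ (δ * u) ^ j * u ^ k := le_mul_of_one_le_left (by positivity) (one_le_pow₀ hδu)
    _ = _ := by ring

theorem wc_mid {m V : ℕ} (hm : 1 ≤ m) {X u D β δ : ℝ} (hu : 20 ≤ u) (hX : X = u ^ (12 * m + 14))
    (hD0 : 0 ≤ D) (hD : D ≤ u ^ (10 * m + 3))
    (hβ : D * β ^ 2 * (V : ℝ) ^ 2 ≤ u ^ (15 * m + 15)) (hδ : 0 < δ) (hδu : 1 ≤ δ * u) :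
    Mid (5 * m + 1) X D β (u ^ (5 * m + 1)) δ V := by
  intro M hM hMD h
  have hu0 : 0 < u := by linarith
  have hu1 : 1 ≤ u := by linarith
  have h1 : u ^ (9 * m + 9) ≤ M := by
    refine le_of_mul_le_mul_left (a := u ^ (15 * m + 15)) ?_ (by positivity)
    calc _ = u ^ (24 * m + 24) := by ring
      _ ≤ δ ^ 4 * u ^ (24 * m + 24 + 4) := wc_pow hu0 hδu _ _
      _ = δ ^ 4 * X ^ 2 := by rw [hX]; ring
      _ ≤ _ := h.trans (mul_le_mul_of_nonneg_right hβ hM.le)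
  rcases le_total (D * (6 * M) ^ 4) (X ^ 4) with h2 | h2
  · refine ⟨3, by omega, h2, ?_⟩
    calc _ ≤ (u ^ (10 * m + 3)) ^ (3 + 1) * u ^ (5 * m + 1) := by gcongr
      _ = u ^ (45 * m + 13) := by ring
      _ ≤ δ ^ 16 * u ^ (45 * m + 13 + 16) := wc_pow hu0 hδu _ _
      _ ≤ δ ^ 16 * u ^ ((9 * m + 9) * 5) :=
          mul_le_mul_of_nonneg_left (pow_le_pow_right₀ hu1 (by omega)) (by positivity)
      _ ≤ _ := by
          rw [pow_mul]
          gcongr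
  · have h3 : u ^ (38 * m + 49) ≤ M ^ 4 := by
      refine le_of_mul_le_mul_left (a := u ^ (10 * m + 7)) ?_ (by positivity)
      calc _ = X ^ 4 := by rw [hX]; ring
        _ ≤ u ^ (10 * m + 3) * (u * M) ^ 4 := h2.trans (by gcongr; linarith)
        _ = _ := by ring
    refine ⟨4, by omega, ?_, ?_⟩
    · calc _ ≤ u ^ (10 * m + 3) * (u * u ^ (10 * m + 3)) ^ (4 + 1) := by
            gcongr
            · linarith
            · exact hMD.trans hD
        _ = u ^ (60 * m + 23) := by ring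
        _ ≤ u ^ ((12 * m + 14) * (4 + 1)) := pow_le_pow_right₀ hu1 (by omega)
        _ = _ := by rw [hX, pow_mul]
    · calc _ ≤ (u ^ (10 * m + 3)) ^ (4 + 1) * u ^ (5 * m + 1) := by gcongr
        _ = u ^ (55 * m + 16) := by ring
        _ ≤ δ ^ 20 * u ^ (55 * m + 16 + 20) := wc_pow hu0 hδu _ _
        _ ≤ δ ^ 20 * u ^ (38 * m + 49 + (9 * m + 9) * 2) :=
            mul_le_mul_of_nonneg_left (pow_le_pow_right₀ hu1 (by omega)) (by positivity)
        _ ≤ δ ^ 20 * (M ^ 4 * M ^ 2) := by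
            rw [pow_add, pow_mul]
            gcongr
        _ = _ := by ring

theorem wc_block {m : ℕ} (hm : 1 ≤ m) : ∃ C : ℝ, 0 ≤ C ∧ ∀ (X u H δ E : ℝ) (R : ℕ) (A : Finset ℕ),
    5 * m + 20 ≤ u → X = u ^ (12 * m + 14) → H ≤ u ^ (5 * m) → 0 < δ → δ ≤ 1 → 1 ≤ δ * u →
    1 + Real.log X ≤ E → (∀ n : ℕ, (n : ℝ) ≤ (X ^ 3) ^ (5 * m + 1 + 1) →
      (n.divisors.card : ℝ) ^ (2 * (5 * m + 1 + 1)) ≤ E) → 1 ≤ R → (R : ℝ) ≤ H →
    A ⊆ Ico R (2 * R) →
    ∑ i ∈ IB A H, ‖sml (δ ^ (12 * m + 14) * X) (DD X (cf i.1.2) i.2)‖ ^ 2 ≤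
      C * E ^ 6 * δ ^ 2 * X ^ 2 := by
  classical
  obtain ⟨C0, hC0, h⟩ := fam_IB
  obtain ⟨C1, hC1, h'⟩ := ls_IB (B := 6 ^ (5 * m + 1 + 1)) (one_le_pow₀ (by norm_num))
  obtain ⟨L, hw⟩ := wg_w0
  have hm1 : (1 : ℝ) ≤ m := by exact_mod_cast hm
  obtain ⟨C2, hC2, h''⟩ := hm_IB (ε := 1 / (5 * m)) (by positivity)
  obtain ⟨C, hC, hc⟩ := lw_core2 (5 * m + 1) C0 C1 C2 L hC0 hC1 hC2 hw.L1
  refine ⟨2 * C + 4627, by positivity, ?_⟩
  intro X u H δ E R A hu hXu hHu hδ hδ1 hδu hE hτ hR hRH hA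
  have hm0 : (0 : ℝ) ≤ m := Nat.cast_nonneg m
  have hu1 : 1 ≤ u := by linarith
  have hu0 : 0 < u := by linarith
  have hR1 : (1 : ℝ) ≤ R := by exact_mod_cast hR
  have hH0 : 0 ≤ H := by linarith
  have hX1 : 1 ≤ X := (one_le_pow₀ hu1).trans hXu.ge
  have hX0 : 0 < X := by linarith
  have hE1 : 1 ≤ E := by linarith [Real.log_nonneg hX1]
  have hA1 : ∀ c ∈ A, 1 ≤ c := fun c hc => hR.trans (mem_Ico.1 (hA hc)).1
  have hδ4 : δ ^ 4 ≤ 1 := pow_le_one₀ hδ.le hδ1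
  obtain ⟨M, hM1, hM2⟩ : ∃ M : ℕ, 2312 / δ ^ 4 ≤ M ∧ (M : ℝ) ≤ 2312 / δ ^ 4 + 1 :=
    ⟨_, Nat.le_ceil _, (Nat.ceil_lt_add_one (by positivity)).le⟩
  have hM0 : (1 : ℝ) ≤ M := le_trans (by rw [le_div_iff₀ (by positivity)]; linarith) hM1
  obtain ⟨V, hV1, hV2⟩ : ∃ V : ℕ, u ^ 2 ≤ V ∧ (V : ℝ) ≤ 2 * u ^ 2 :=
    ⟨_, Nat.le_ceil _, (Nat.ceil_lt_add_one (by positivity)).le.trans (by
      linarith [one_le_pow₀ (n := 2) hu1])⟩
  have hV0 : (1 : ℝ) ≤ V := (one_le_pow₀ hu1).trans hV1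
  have hLg : 1 + Real.log (2 * R) ≤ u ^ 2 := by
    refine (lw_log hu1 hR1 _ (hRH.trans hHu)).trans ?_
    rw [sq]
    exact mul_le_mul_of_nonneg_right (by push_cast; linarith) hu0.le
  set S := (IB A H).filter fun i => ¬ (i.1.1 = 1 ∧ |(i.2 : ℝ)| ≤ M) with hS
  have hD : 4 * H * R * u ^ 2 ≤ u ^ (10 * m + 3) := by
    calc _ ≤ u * u ^ (5 * m) * u ^ (5 * m) * u ^ 2 := by
          gcongr
          · linarith
          · exact hRH.trans hHu
      _ = _ := by ring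
  have hδ4' : ∀ k : ℕ, u ^ k ≤ δ ^ 4 * u ^ (k + 4) := fun k => by
    calc _ ≤ (δ * u) ^ 4 * u ^ k := le_mul_of_one_le_left (by positivity) (one_le_pow₀ hδu)
      _ = _ := by ring
  have hβ : 4 * H * R * u ^ 2 * (34 * √(2 * R) * u ^ 2 * (H / R)) ^ 2 * (V : ℝ) ^ 2 ≤
      u ^ (15 * m + 15) := by
    calc _ = 4624 * H ^ 3 * u ^ 6 * (√(2 * R) ^ 2 / R) * (V : ℝ) ^ 2 := by
          field_simp; ring
      _ = 9248 * H ^ 3 * u ^ 6 * (V : ℝ) ^ 2 := by
          rw [Real.sq_sqrt (by positivity)]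
          field_simp; ring
      _ ≤ 9248 * (u ^ (5 * m)) ^ 3 * u ^ 6 * (2 * u ^ 2) ^ 2 := by gcongr
      _ = 36992 * u ^ (15 * m + 10) := by ring
      _ ≤ u ^ 5 * u ^ (15 * m + 10) := by
          gcongr
          exact le_trans (by norm_num)
            (pow_le_pow_left₀ (by norm_num) (show (20 : ℝ) ≤ u by linarith) 5)
      _ = _ := by ring
  have hκ : H ^ (1 + 1 / (5 * m : ℝ)) ≤ u ^ (5 * m + 1) := by
    refine (Real.rpow_le_rpow hH0 hHu (by positivity)).trans (le_of_eq ?_)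
    rw [← Real.rpow_natCast, ← Real.rpow_mul hu0.le, ← Real.rpow_natCast]
    congr 1
    push_cast
    field_simp
  obtain ⟨Bad, hB1, hB2⟩ := hc _ S fz (fun i => eta M i.1.1 i.2) w0 X _ _ _ δ E V
    (h R A H (u ^ 2) M hR hRH hA hLg S (filter_subset _ _)
      fun i hi e => not_le.1 fun k => (mem_filter.1 hi).2 ⟨e, k⟩)
    (h' R A H (u ^ 2) hR hRH hA hLg S (filter_subset _ _))
    (wc_mono (h'' R A H hR hRH hA) hC2 (filter_subset _ _) hκ) (by positivity) hw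
    (by exact_mod_cast hV0)
    (by
      calc 8 * (V : ℝ) ≤ u * u ^ 2 := by nlinarith [one_le_pow₀ (n := 2) hu1]
        _ = u ^ 3 := by ring
        _ ≤ X := (pow_le_pow_right₀ hu1 (by omega)).trans hXu.ge) hδ hδ1
    (by
      have k4 : (S.card : ℝ) ≤ (IB A H).card := by exact_mod_cast card_filter_le _ _
      calc _ ≤ R * (4 * H) * 1 := by
            rw [mul_one]
            exact k4.trans (lw_card hR hRH hA)
        _ ≤ R * (4 * H) * (3 * u ^ 2) := by gcongr; linarith [one_le_pow₀ (n := 2) hu1]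
        _ = _ := by ring)
    (hD.trans (by
      calc u ^ (10 * m + 3) ≤ u ^ (2 * (5 * m + 1 + 1)) := pow_le_pow_right₀ hu1 (by omega)
        _ = (u ^ 2) ^ (5 * m + 1 + 1) := pow_mul _ _ _
        _ ≤ _ := by gcongr))
    (hD.trans ((hδ4' _).trans (mul_le_mul_of_nonneg_left
      ((pow_le_pow_right₀ hu1 (by omega)).trans hXu.ge) (by positivity))))
    (hβ.trans ((hδ4' _).trans (mul_le_mul_of_nonneg_left
      ((pow_le_pow_right₀ hu1 (show _ ≤ (12 * m + 14) * 2 by omega)).trans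
        (by rw [hXu, pow_mul])) (by positivity))))
    (wc_mid hm (by linarith) hXu (by positivity) hD hβ hδ hδu)
    (by
      refine (sum_le_sum_of_subset_of_nonneg (filter_subset _ _) fun _ _ _ => by positivity).trans
        ((IB_one hA1 H (fun c t => eta M c t ^ 2) (fun _ _ => by positivity)
          fun c t hc => by simp [MA.eta, hc]).trans ((eta_sum (by exact_mod_cast hM0) H).trans ?_))
      rw [div_le_iff₀ (by positivity)] at hM1 ⊢
      linarith) hE hτ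
  have hY : ∀ T : Finset (Σ _ : Ch, ℤ),
      ∑ i ∈ T, ‖sml (δ ^ (12 * m + 14) * X) (DD X (cf i.1.2) i.2)‖ ^ 2 ≤
      T.card * (δ ^ (12 * m + 14) * X) ^ 2 := fun T => by
    rw [← nsmul_eq_mul]
    exact sum_le_card_nsmul _ _ _ fun i _ => (sml_le _ _).2
  have h81 : ∀ c : ℝ, 0 ≤ c → c * E ^ 3 / δ ^ (4 * (5 * m + 1) + 5) * (δ ^ (12 * m + 14) * X) ^ 2 ≤
      c * E ^ 6 * δ ^ 2 * X ^ 2 := fun c hc => by
    calc _ = c * E ^ 3 * δ ^ (4 * m + 19) * X ^ 2 := by field_simp; ring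
      _ ≤ _ := by
        have := pow_le_pow_of_le_one hδ.le hδ1 (show 2 ≤ 4 * m + 19 by omega)
        gcongr
        norm_num
  rw [← sum_filter_add_sum_filter_not (IB A H) fun i => i.1.1 = 1 ∧ |(i.2 : ℝ)| ≤ M, ← hS,
    ← sum_inter_add_sum_sdiff S Bad]
  have b1 := (hY _).trans ((mul_le_mul_of_nonneg_right ((lw_low hA1 H M).trans
    (show _ ≤ 4627 * E ^ 3 / δ ^ (4 * (5 * m + 1) + 5) from ?_)) (by positivity)).trans
      (h81 _ (by norm_num)))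
  · have b2 := (hY (S ∩ Bad)).trans ((mul_le_mul_of_nonneg_right (le_trans (by
      exact_mod_cast card_le_card inter_subset_right) hB1) (by positivity)).trans (h81 _ hC))
    have b3 := (sum_le_sum fun i _ => (sml_le (δ ^ (12 * m + 14) * X) _).1.trans
      (le_of_eq (by rw [norm_DD hX0]))).trans hB2
    linarith
  · have k1 : 1 ≤ 1 / δ ^ 4 := by rw [le_div_iff₀ (by positivity)]; linarith
    calc _ ≤ 4627 * 1 / δ ^ 4 := by
          rw [show 2312 / δ ^ 4 = 2312 * (1 / δ ^ 4) by ring] at hM2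
          rw [mul_div_assoc]
          linarith
      _ ≤ _ := div_le_div₀ (by positivity) (by gcongr; exact one_le_pow₀ hE1) (by positivity)
          (pow_le_pow_of_le_one hδ.le hδ1 (by omega))

theorem wc_par {m : ℕ} (hm1 : 1 ≤ m) {κ : ℝ} (h0 : 0 < κ) (h1 : κ ≤ 1) :
    ∃ C : ℝ, 0 ≤ C ∧ ∀ X P H u : ℝ, 2 ≤ X →
    1 ≤ P → P ≤ H → H ≤ X ^ (9 / 20 : ℝ) → 1 ≤ u → X = u ^ (12 * m + 14) → H ≤ u ^ (5 * m) →
    mass P H (fun _ ψ t => sml ((u ^ (-κ)) ^ (12 * m + 14) * X) (DD X (cf ψ) t)) ≤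
      C * (X ^ 2 * u ^ (-κ)) := by
  obtain ⟨C1, hC1, hm⟩ := lw_mass2
  obtain ⟨C2, hC2, hb⟩ := wc_block hm1
  obtain ⟨j, hj⟩ : ∃ j : ℕ, j = 5 * m + 1 + 1 := ⟨_, rfl⟩
  obtain ⟨N, hN⟩ : ∃ N : ℕ, N = 12 * m + 14 := ⟨_, rfl⟩
  rw [← hj, ← hN] at hb
  rw [← hN]
  have hj0 : (0 : ℝ) < j := by rw [hj]; positivity
  have hN0 : (0 : ℝ) < N := by rw [hN]; positivity
  obtain ⟨C3, hC3, hd⟩ := MP_2a1a00_nt.card_divisors_le (κ / 10 / (6 * j ^ 2 * N)) (by positivity)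
  obtain ⟨Z, hZ0, hZ⟩ : ∃ Z : ℝ, 0 ≤ Z ∧ ∀ u : ℝ, 0 ≤ u → u ≤ 5 * m + 20 → u ^ N ≤ Z :=
    ⟨_, by positivity, fun u h h' => pow_le_pow_left₀ h h' N⟩
  refine ⟨C1 * Z ^ 5 + 2 * C2 * (C3 ^ (2 * j) + 1 + N * (10 / κ)) ^ 7, by positivity,
    fun X P H u hX hP hPH hH hu hXu hHu => ?_⟩
  have hX1 : 1 ≤ X := by linarith
  have hX0 : 0 < X := by linarith
  have hu0 : 0 < u := by linarith
  have huX : u ≤ X := (le_self_pow₀ hu (by omega)).trans hXu.ge
  have hδu : 1 ≤ u ^ (-κ) * u := by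
    rw [← Real.rpow_add_one hu0.ne']
    exact Real.one_le_rpow hu (by linarith)
  have hδ0 : 0 < u ^ (-κ) := by positivity
  rw [add_mul]
  rcases le_total u (5 * m + 20) with hu2 | hu2
  · refine le_add_of_le_of_nonneg (le_trans ?_ ((hm X P H hX hP hPH hH).trans ?_)) (by positivity)
    · exact sum_le_sum fun c _ => sum_le_sum fun ψ _ => sum_le_sum fun t _ => (sml_le _ _).1
    · have k1 : X ≤ Z := hXu.le.trans (hZ u hu0.le hu2)
      have k2 : Real.log X ≤ Z := by linarith [Real.log_le_sub_one_of_pos hX0]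
      have k3 := Real.log_nonneg hX1
      have k4 : 1 ≤ u ^ (-κ) * Z := hδu.trans (by gcongr; linarith)
      calc _ ≤ C1 * X ^ 2 * Z ^ 4 * (u ^ (-κ) * Z) :=
            le_trans (by gcongr) (le_mul_of_one_le_right (by positivity) k4)
        _ = _ := by ring
  refine le_add_of_nonneg_of_le (by positivity) ?_
  have hHX : H ≤ X := hHu.trans ((pow_le_pow_right₀ hu (by omega)).trans hXu.ge)
  have hx1 : 1 ≤ u ^ (κ / 10) := Real.one_le_rpow hu (by positivity)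
  have hE : 1 + Real.log X ≤ (C3 ^ (2 * j) + 1 + N * (10 / κ)) * u ^ (κ / 10) := by
    have k1 := Real.log_le_rpow_div hu0.le (show 0 < κ / 10 by positivity)
    rw [show u ^ (κ / 10) / (κ / 10) = 10 / κ * u ^ (κ / 10) by field_simp] at k1
    have k2 : 0 ≤ C3 ^ (2 * j) * u ^ (κ / 10) := by positivity
    have k3 := mul_le_mul_of_nonneg_left k1 hN0.le
    rw [hXu, Real.log_pow]
    linarith
  have hb' := fun R A k2 => hb X u H (u ^ (-κ)) _ R A hu2 hXu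
    hHu hδ0 (Real.rpow_le_one_of_one_le_of_nonpos hu (by linarith)) hδu hE k2
  refine le_trans (mass_blocks hP hPH (by positivity)
    (fun _ ψ t => sml ((u ^ (-κ)) ^ N * X) (DD X (cf ψ) t))
    fun R A => hb' R A fun n hn => ?_) ?_
  · calc _ ≤ (C3 * ((X ^ 3) ^ j) ^ (κ / 10 / (6 * j ^ 2 * N))) ^ (2 * j) :=
          pow_le_pow_left₀ (by positivity) ((hd n).trans (by gcongr)) _
      _ = C3 ^ (2 * j) * u ^ (κ / 10) := by
          rw [mul_pow, hXu, ← pow_mul, ← pow_mul, ← Real.rpow_natCast u, ← Real.rpow_mul hu0.le,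
            ← Real.rpow_natCast (u ^ _), ← Real.rpow_mul hu0.le]
          congr 2; push_cast; field_simp; ring
      _ ≤ _ := by gcongr; linarith [show 0 ≤ N * (10 / κ) by positivity]
  · have k1 := Real.log_le_log (by linarith) hHX
    have e3 : (u ^ (κ / 10)) ^ 7 * (u ^ (-κ)) ^ 2 ≤ u ^ (-κ) := by
      simp only [← Real.rpow_natCast, ← Real.rpow_mul hu0.le, ← Real.rpow_add hu0]
      exact Real.rpow_le_rpow_of_exponent_le hu (by push_cast; linarith)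
    generalize C3 ^ (2 * j) + 1 + N * (10 / κ) = C4 at hE ⊢
    have k2 : 0 ≤ C4 := by
      by_contra hc
      nlinarith [Real.log_nonneg hX1]
    calc _ ≤ 2 * (C4 * u ^ (κ / 10)) * (C2 * (C4 * u ^ (κ / 10)) ^ 6 *
          (u ^ (-κ)) ^ 2 * X ^ 2) := by gcongr; linarith
      _ = 2 * C2 * C4 ^ 7 * (X ^ 2 * ((u ^ (κ / 10)) ^ 7 * (u ^ (-κ)) ^ 2)) := by ring
      _ ≤ _ := by gcongr

theorem lw_small2 {θ : ℝ} (hθ : θ < 5 / 12) : ∃ K : ℝ, 40 ≤ K ∧ ∀ κ : ℝ, 0 < κ → κ ≤ 1 →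
    ∃ C : ℝ, 0 ≤ C ∧ ∀ X P H : ℝ, 2 ≤ X → 1 ≤ P → P ≤ H → H ≤ X ^ θ →
      mass P H (fun _ ψ t => sml (X ^ (1 - κ)) (DD X (cf ψ) t)) ≤ C * X ^ (2 - κ / K) := by
  obtain ⟨m, hm⟩ := exists_nat_ge (3 + 6 / (5 - 12 * θ))
  have h4 : 0 < 5 - 12 * θ := by linarith
  have h5 : 0 < 6 / (5 - 12 * θ) := by positivity
  have h6 : 6 ≤ m * (5 - 12 * θ) := by
    rw [← div_le_iff₀ h4]
    linarith
  have hm1 : 1 ≤ m := by exact_mod_cast (show (1 : ℝ) ≤ m by linarith)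
  refine ⟨12 * m + 14, by linarith, fun κ h0 h1 => ?_⟩
  obtain ⟨C, hC, h⟩ := wc_par hm1 h0 h1
  refine ⟨C, hC, fun X P H hX hP hPH hH => ?_⟩
  have hX1 : 1 ≤ X := by linarith
  obtain ⟨u, hu, hXu, hHu⟩ := lw_root (N := 12 * m + 14) (h := 5 * m) (by omega)
    (by push_cast; linarith) hX1 hH
  have hu0 : 0 < u := by linarith
  have e0 : ∀ a : ℝ, X ^ a = u ^ ((12 * m + 14) * a) := fun a => by
    rw [hXu, ← Real.rpow_natCast, ← Real.rpow_mul hu0.le]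
    push_cast
    rfl
  have e1 : X ^ (1 - κ) = (u ^ (-κ)) ^ (12 * m + 14) * X := by
    rw [sub_eq_neg_add, Real.rpow_add_one (by linarith), e0, ← Real.rpow_natCast,
      ← Real.rpow_mul hu0.le]
    congr 2; push_cast; ring
  have e2 : X ^ (2 - κ / (12 * m + 14)) = X ^ 2 * u ^ (-κ) := by
    rw [sub_eq_add_neg, Real.rpow_add (by linarith), Real.rpow_two, e0]
    congr 2
    field_simp
  rw [e1, e2]
  exact h X P H u hX hP hPH
    (hH.trans (Real.rpow_le_rpow_of_exponent_le hX1 (by linarith))) hu hXu hHu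

end Pool.Agent.Lib.MP_778b46_nt.MB
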