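import Pool.Agent.Lib.MP_778b46_nt.MA.O1

/-!
Minor arcs for the binary Goldbach problem beyond the bound of Vinogradov and Vaughan: definitions.
-/

set_option autoImplicit false

noncomputable section

namespace Pool.Agent.Lib.MP_778b46_nt.MB

open Complex Finset MeasureTheory
open scoped Real ComplexConjugate
open Pool.Agent.Lib.MP_03e5d0_nt (ex bump)
open Pool.Agent.Lib.MP_778b46_nt.MA

/-- The group of pairs formed by a character modulo `q` and an integer height. -/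
abbrev Gq (q : ℕ) := DirichletCharacter ℂ q × Multiplicative ℤ

/-- The height. -/
def ht {q : ℕ} (w : Gq q) : ℤ := Multiplicative.toAdd w.2

/-- The function `n ↦ χ n * n ^ (i t)` on the positive integers. -/
def ev {q : ℕ} (w : Gq q) (n : ℕ) : ℂ :=
  if n = 0 then 0 else w.1 (n : ZMod q) * ex (ht w) (Real.log n)

/-- The pairs of height at most `T`. -/
def box (q : ℕ) (T : ℝ) : Finset (Gq q) := univ ×ˢ (II T).map Multiplicative.ofAdd.toEmbedding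

/-- A Dirichlet polynomial. -/
def dp {q : ℕ} (J : Finset ℕ) (b : ℕ → ℂ) (w : Gq q) : ℂ := ∑ n ∈ J, b n * ev w n

open Classical in
/-- The number of solutions of `w₁ w₂ = w₃ w₄` in `W`. -/
def en {q : ℕ} (W : Finset (Gq q)) : ℕ := W.mulEnergy W

/-- The kernel of a set of pairs. -/
def rho {q : ℕ} (W : Finset (Gq q)) (n m : ℕ) : ℂ := ∑ w ∈ W, ev w n * conj (ev w m)

/-- The function on the arc around `a / q` with coefficients `c` on `W`. -/
def FF {q : ℕ} [NeZero q] (a : ℕ) (W : Finset (Gq q)) (c : Gq q → ℂ) (y : ℝ) : ℂ :=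
  (2 * π : ℂ)⁻¹ * ∑ w ∈ W, gc w.1 q a * c w * MM w1 y (-(I * (ht w : ℂ)))

/-- A dyadic range. -/
def dy (M : ℕ) : Finset ℕ := Ico M (2 * M)

/-- The coprime pairs. -/
def cp (J : Finset ℕ) : Finset (ℕ × ℕ) := (J ×ˢ J).filter fun p => Nat.Coprime p.1 p.2

/-- The `n` with `g n` in the dyadic range of `N`. -/
def jg (N g : ℕ) : Finset ℕ := (range (2 * N)).filter fun n => N ≤ g * n ∧ g * n < 2 * N

/-- Three dyadic ranges with coefficients. -/
structure Tr where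
  M1 : ℕ
  M2 : ℕ
  M3 : ℕ
  b1 : ℕ → ℂ
  b2 : ℕ → ℂ
  b3 : ℕ → ℂ

/-- The sizes of the ranges and of the coefficients. -/
structure Tr.Ok (B : Tr) (X P : ℝ) : Prop where
  p1 : 1 ≤ B.M1
  p2 : 1 ≤ B.M2
  p3 : 1 ≤ B.M3
  m1 : (B.M1 : ℝ) ≤ P
  m2 : (B.M2 : ℝ) ≤ P
  m3 : (B.M3 : ℝ) ^ 2 ≤ 16 * P
  lo : X ≤ 32 * ((B.M1 : ℝ) * B.M2 * B.M3)
  up : (B.M1 : ℝ) * B.M2 * B.M3 ≤ X
  n1 : ∀ n, ‖B.b1 n‖ ≤ 1
  n2 : ∀ n, ‖B.b2 n‖ ≤ 1
  n3 : ∀ n, ‖B.b3 n‖ ≤ 1

/-- The trilinear exponential sum at `a / q + y / (2 π X)`, over the integers coprime to `q`. -/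
def tri (X : ℝ) (B : Tr) (q a : ℕ) (y : ℝ) : ℂ :=
  ∑ d ∈ dy B.M1, ∑ c ∈ dy B.M2, ∑ n ∈ dy B.M3,
    if Nat.Coprime (d * c * n) q then B.b1 d * B.b2 c * B.b3 n *
      ((w1 ((d * c * n : ℕ) / X) : ℂ) * ac q a (d * c * n) * ex y ((d * c * n : ℕ) / X)) else 0

/-- The product of the three Dirichlet polynomials. -/
def pp (B : Tr) {q : ℕ} (w : Gq q) : ℂ :=
  dp (dy B.M1) B.b1 w * dp (dy B.M2) B.b2 w * dp (dy B.M3) B.b3 w

/-- The coefficients of the expansion of the trilinear sum. -/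
def cw (X : ℝ) (B : Tr) {q : ℕ} (w : Gq q) : ℂ := ex (-(ht w : ℝ)) (Real.log X) * pp B w

/-- The pairs of height between `T₁ - 1` and `T₂`. -/
def W0 (q : ℕ) (T₁ T₂ : ℝ) : Finset (Gq q) := (box q T₂).filter fun w => T₁ ≤ 1 + |(ht w : ℝ)|

/-- The weighted square sum of level `q`. -/
def ms (B : Tr) (q : ℕ) (T : ℝ) : ℝ :=
  ∑ w ∈ box q T, ((w.1.conductor : ℝ) / q) ^ 2 * ‖pp B w‖ ^ 2

/-- The part of the arc of level `√X` around a fraction of denominator `q` that is minor. -/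
def arc (X P : ℝ) (q : ℕ) : Set ℝ := {y | |y| ≤ 7 * √X / q ∧ ((q : ℝ) ≤ P → P < q * |y|)}

/-- The points of the minor arcs. -/
def Mn (X P x : ℝ) : Prop :=
  ∀ (r : ℕ) (b : ℤ), 0 < r → (r : ℝ) ≤ P → P < 2 * π * X * r * |x - b / r|

/-- The dyadic box of `(d, c)` reaches beyond `Z`. -/
def big (Z : ℝ) (d c : ℕ) : Prop := Z < 2 ^ (Nat.log 2 d + Nat.log 2 c + 2)

open Classical in
/-- The coefficients of the part of the identity of Vaughan that is neither of type one nor of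
type two. -/
def cq (X P : ℝ) (q m : ℕ) : ℝ :=
  if Nat.Coprime m q then ∑ x ∈ m.divisorsAntidiagonal, ∑ z ∈ x.1.divisorsAntidiagonal,
    if (z.1 : ℝ) ≤ P ∧ (z.2 : ℝ) ≤ P ∧ big (X / √P) z.1 z.2 then
      (ArithmeticFunction.moebius z.1 : ℝ) * ArithmeticFunction.vonMangoldt z.2 else 0
  else 0

/-- The exponential sum with these coefficients. -/
def CC (X P : ℝ) (q : ℕ) (x : ℝ) : ℂ :=
  ∑ m ∈ Icc 1 ⌊X⌋₊, ((cq X P q m * w1 (m / X) : ℝ) : ℂ) * ee (m * x)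

/-- The box with exponents `e`. -/
def tb (X P : ℝ) (e : ℕ × ℕ × ℕ) : Tr where
  M1 := 2 ^ e.1
  M2 := 2 ^ e.2.1
  M3 := 2 ^ e.2.2
  b1 := fun d => if (d : ℝ) ≤ P then (ArithmeticFunction.moebius d : ℂ) else 0
  b2 := fun c => if (c : ℝ) ≤ P then
    ((ArithmeticFunction.vonMangoldt c / Real.log X : ℝ) : ℂ) else 0
  b3 := fun _ => 1

/-- One on `[4/15, 14/15]`, zero outside `(1/4, 19/20)`. -/
def w2 (x : ℝ) : ℝ := bump 20 (60 * x - 36)

/-- The Mellin coefficients of `w1`. -/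
def al (k : ℤ) : ℂ := (2 * π : ℂ)⁻¹ * MM w1 0 (-(I * k))

/-- A large value inequality for sparse subsets of a family, with kernel of size `κ`. -/
def Hm {ι : Type} (I : Finset ι) (f : ι → ℕ → ℂ) (C κ : ℝ) : Prop :=
  ∀ S ⊆ I, ∀ (M G : ℝ) (Z : ℕ) (a : ℕ → ℂ), 0 < M →
    (∀ l ∈ Ioc 0 Z, a l ≠ 0 → M / 16 < l ∧ (l : ℝ) ≤ M) → (∀ l ∈ Ioc 0 Z, ‖a l‖ ≤ G) →
    ∑ i ∈ S, ‖∑ l ∈ Ioc 0 Z, a l * f i l‖ ^ 2 ≤ C * (M + S.card * κ) * M * G ^ 2

variable {q : ℕ}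

theorem ht_mul (w w' : Gq q) : ht (w * w') = ht w + ht w' := rfl

theorem ht_inv (w : Gq q) : ht w⁻¹ = -ht w := rfl

theorem ev_mul (w : Gq q) (m n : ℕ) : ev w (m * n) = ev w m * ev w n := by
  unfold ev
  by_cases hm : m = 0
  · simp [hm]
  by_cases hn : n = 0
  · simp [hn]
  rw [if_neg (mul_ne_zero hm hn), if_neg hm, if_neg hn, Nat.cast_mul, Nat.cast_mul, map_mul,
    Real.log_mul (by exact_mod_cast hm) (by exact_mod_cast hn), MP_03e5d0_nt.ex_add]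
  ring

theorem mul_ev (w w' : Gq q) (n : ℕ) : ev (w * w') n = ev w n * ev w' n := by
  unfold ev
  split_ifs
  · simp
  · rw [ht_mul, Int.cast_add, MP_03e5d0_nt.ex_add', Prod.fst_mul, MulChar.mul_apply]
    ring

theorem inv_ev (w : Gq q) (n : ℕ) : ev w⁻¹ n = conj (ev w n) := by
  unfold ev
  split_ifs
  · simp
  · rw [ht_inv, map_mul, Prod.fst_inv, ← MulChar.star_apply']
    congr 1
    simp only [ex, ← Complex.exp_conj, map_mul, conj_I, conj_ofReal, Int.cast_neg, ofReal_neg]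
    ring_nf

theorem norm_ev (w : Gq q) (n : ℕ) : ‖ev w n‖ ≤ 1 := by
  unfold ev
  split_ifs
  · simp
  · rw [norm_mul, MP_03e5d0_nt.norm_ex, mul_one]
    exact DirichletCharacter.norm_le_one _ _

theorem mem_box {T : ℝ} (hT : 0 ≤ T) {w : Gq q} : w ∈ box q T ↔ |(ht w : ℝ)| ≤ T := by
  rw [← mem_II hT, box, mem_product, mem_map_equiv]
  simp [ht]

theorem card_box [NeZero q] {T : ℝ} (hT : 0 ≤ T) : ((box q T).card : ℝ) ≤ q * (2 * T + 1) := by
  rw [box, card_product, card_map, card_univ, Nat.cast_mul]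
  refine mul_le_mul ?_ (card_II hT) (Nat.cast_nonneg _) (Nat.cast_nonneg _)
  rw [← Nat.card_eq_fintype_card, DirichletCharacter.card_eq_totient_of_hasEnoughRootsOfUnity]
  exact_mod_cast Nat.totient_le q

theorem sum_box {M : Type} [AddCommMonoid M] (T : ℝ) (g : Gq q → M) :
    ∑ w ∈ box q T, g w =
      ∑ χ : DirichletCharacter ℂ q, ∑ t ∈ II T, g (χ, Multiplicative.ofAdd t) := by
  rw [box, sum_product]
  simp

theorem norm_dp {M : ℕ} {b : ℕ → ℂ} (hb : ∀ n, ‖b n‖ ≤ 1) (w : Gq q) : ‖dp (dy M) b w‖ ≤ M := by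
  refine (norm_sum_le _ _).trans ((sum_le_card_nsmul _ _ 1 fun n _ => ?_).trans ?_)
  · rw [norm_mul]
    exact mul_le_one₀ (hb n) (norm_nonneg _) (norm_ev w n)
  · rw [dy, Nat.card_Ico, nsmul_one, show 2 * M - M = M by omega]

theorem en_le (W : Finset (Gq q)) : en W ≤ W.card ^ 3 := by
  classical
  unfold en mulEnergy
  refine le_trans (card_le_card_of_injOn (t := (W ×ˢ W) ×ˢ W) (fun z => (z.1, z.2.1))
    (fun z hz => ?_) fun z hz z' hz' e => ?_) (le_of_eq (by simp only [card_product]; ring))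
  · have := mem_product.1 (mem_filter.1 (mem_coe.1 hz)).1
    exact mem_coe.2 (mem_product.2 ⟨this.1, (mem_product.1 this.2).1⟩)
  · have h1 := (mem_filter.1 (mem_coe.1 hz)).2
    have h2 := (mem_filter.1 (mem_coe.1 hz')).2
    obtain ⟨e1, e2⟩ := Prod.mk.inj e
    refine Prod.ext e1 (Prod.ext e2 ?_)
    rw [← e1, ← e2, h1] at h2
    exact mul_left_cancel h2

end Pool.Agent.Lib.MP_778b46_nt.MB
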