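import Pool.Agent.Lib.MP_778b46_nt.MB.Defs

/-! The energy of a set of large values: algebraic steps. -/

set_option autoImplicit false

noncomputable section

namespace Pool.Agent.Lib.MP_778b46_nt.MB

open Complex Finset MeasureTheory
open scoped Real ComplexConjugate
open Pool.Agent.Lib.MP_03e5d0_nt (Sm ex ft bump)
open Pool.Agent.Lib.MP_778b46_nt.MA

variable {q : ℕ}

theorem ea_sq {ι : Type} (S : Finset ι) (φ : ι → Gq q) (J : Finset ℕ) (b : ℕ → ℂ) :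
    ((∑ i ∈ S, ‖dp J b (φ i)‖ ^ 2 : ℝ) : ℂ) =
      ∑ n ∈ J, ∑ m ∈ J, b n * conj (b m) * ∑ i ∈ S, ev (φ i) n * conj (ev (φ i) m) := by
  have h1 : ∀ i, ((‖dp J b (φ i)‖ ^ 2 : ℝ) : ℂ) =
      ∑ n ∈ J, ∑ m ∈ J, b n * conj (b m) * (ev (φ i) n * conj (ev (φ i) m)) := by
    intro i
    rw [ofReal_pow, ← mul_conj', dp, map_sum, sum_mul_sum]
    refine sum_congr rfl fun n _ => sum_congr rfl fun m _ => ?_
    rw [map_mul]
    ring
  rw [ofReal_sum, sum_congr rfl fun i _ => h1 i, sum_comm]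
  refine sum_congr rfl fun n _ => ?_
  rw [sum_comm]
  refine sum_congr rfl fun m _ => ?_
  rw [mul_sum]

theorem ea_two (W : Finset (Gq q)) (n m : ℕ) :
    ∑ z ∈ W ×ˢ W, ev (z.1 * z.2⁻¹) n * conj (ev (z.1 * z.2⁻¹) m) =
      rho W n m * conj (rho W n m) := by
  rw [rho, map_sum, sum_mul_sum, sum_product]
  refine sum_congr rfl fun w _ => sum_congr rfl fun w' _ => ?_
  simp only [mul_ev, inv_ev, map_mul, conj_conj]
  ring

theorem ea_three (W : Finset (Gq q)) (n m : ℕ) :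
    ∑ z ∈ (W ×ˢ W) ×ˢ W, ev (z.1.1 * z.1.2⁻¹ * z.2) n * conj (ev (z.1.1 * z.1.2⁻¹ * z.2) m) =
      rho W n m * conj (rho W n m) * rho W n m := by
  rw [← ea_two, rho, sum_mul_sum, sum_product]
  refine sum_congr rfl fun w _ => sum_congr rfl fun w' _ => ?_
  simp only [mul_ev, map_mul]
  ring

theorem en_cube (W : Finset (Gq q)) (J : Finset ℕ) {b : ℕ → ℂ} {U : ℝ} (hU : 0 ≤ U)
    (hb : ∀ n, ‖b n‖ ≤ 1) (h : ∀ w ∈ W, U ≤ ‖dp J b w‖) :
    en W * U ^ 2 ≤ ∑ n ∈ J, ∑ m ∈ J, ‖rho W n m‖ ^ 3 := by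
  classical
  set φ : (Gq q × Gq q) × Gq q → Gq q := fun z => z.1.1 * z.1.2⁻¹ * z.2 with hφ
  have h1 : en W ≤ (((W ×ˢ W) ×ˢ W).filter fun z => φ z ∈ W).card := by
    unfold en mulEnergy
    refine card_le_card_of_injOn (fun z => (z.1, z.2.1)) (fun z hz => ?_) fun z hz z' hz' e => ?_
    · obtain ⟨h2, h3⟩ := mem_filter.1 (mem_coe.1 hz)
      have h4 := mem_product.1 h2
      refine mem_coe.2 (mem_filter.2 ⟨mem_product.2 ⟨h4.1, (mem_product.1 h4.2).1⟩, ?_⟩)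
      have h5 : z.1.1 * z.1.2⁻¹ * z.2.1 = z.2.2 := by
        rw [mul_right_comm, h3, mul_comm z.1.2, mul_inv_cancel_right]
      show z.1.1 * z.1.2⁻¹ * z.2.1 ∈ W
      rw [h5]
      exact (mem_product.1 h4.2).2
    · have h1 := (mem_filter.1 (mem_coe.1 hz)).2
      have h2 := (mem_filter.1 (mem_coe.1 hz')).2
      obtain ⟨e1, e2⟩ := Prod.mk.inj e
      refine Prod.ext e1 (Prod.ext e2 ?_)
      rw [← e1, ← e2, h1] at h2
      exact mul_left_cancel h2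
  have h2 : (en W : ℝ) * U ^ 2 ≤ ∑ z ∈ (W ×ˢ W) ×ˢ W, ‖dp J b (φ z)‖ ^ 2 := by
    calc (en W : ℝ) * U ^ 2
        ≤ ((((W ×ˢ W) ×ˢ W).filter fun z => φ z ∈ W).card : ℝ) * U ^ 2 :=
          mul_le_mul_of_nonneg_right (by exact_mod_cast h1) (sq_nonneg U)
      _ ≤ ∑ z ∈ ((W ×ˢ W) ×ˢ W).filter fun z => φ z ∈ W, ‖dp J b (φ z)‖ ^ 2 := by
          rw [← nsmul_eq_mul]
          exact card_nsmul_le_sum _ _ _ fun z hz =>
            pow_le_pow_left₀ hU (h _ (mem_filter.1 hz).2) 2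
      _ ≤ _ := sum_le_sum_of_subset_of_nonneg (filter_subset _ _) fun _ _ _ => sq_nonneg _
  refine h2.trans ((Real.le_norm_self _).trans ?_)
  rw [← norm_real, ea_sq]
  refine (norm_sum_le _ _).trans (sum_le_sum fun n _ => (norm_sum_le _ _).trans
    (sum_le_sum fun m _ => ?_))
  rw [hφ, ea_three, norm_mul, norm_mul, norm_mul, norm_mul, norm_conj, norm_conj]
  calc _ ≤ 1 * (‖rho W n m‖ * ‖rho W n m‖ * ‖rho W n m‖) :=
        mul_le_mul_of_nonneg_right (mul_le_one₀ (hb n) (norm_nonneg _) (hb m)) (by positivity)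
    _ = _ := by ring

theorem ea_rho (W : Finset (Gq q)) (g n m : ℕ) : ‖rho W (g * n) (g * m)‖ ≤ ‖rho W n m‖ := by
  by_cases hg : g ≠ 0 ∧ IsUnit (g : ZMod q)
  · refine le_of_eq (congrArg _ (sum_congr rfl fun w _ => ?_))
    have h1 : ‖ev w g‖ = 1 := by
      rw [ev, if_neg hg.1, norm_mul, MP_03e5d0_nt.norm_ex, mul_one]
      exact w.1.unit_norm_eq_one hg.2.unit
    have h2 : ev w g * conj (ev w g) = 1 := by
      rw [mul_conj', h1]
      simp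
    rw [ev_mul, ev_mul, map_mul]
    linear_combination (ev w n * conj (ev w m)) * h2
  · have h1 : ∀ w : Gq q, ev w g = 0 := by
      intro w
      unfold ev
      split_ifs with h0
      · rfl
      · rw [w.1.map_nonunit fun hu => hg ⟨h0, hu⟩, zero_mul]
    have h2 : rho W (g * n) (g * m) = 0 :=
      sum_eq_zero fun w _ => by rw [ev_mul, h1, zero_mul, zero_mul]
    rw [h2, norm_zero]
    exact norm_nonneg _

theorem en_gcd (W : Finset (Gq q)) (N : ℕ) :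
    ∑ n ∈ dy N, ∑ m ∈ dy N, ‖rho W n m‖ ^ 3 ≤
      ∑ g ∈ Icc 1 (2 * N), ∑ p ∈ cp (jg N g), ‖rho W p.1 p.2‖ ^ 3 := by
  have hd : ∀ n ∈ dy N, 0 < n ∧ N ≤ n ∧ n < 2 * N := by
    intro n hn
    have := mem_Ico.1 hn
    omega
  have hm : ∀ x ∈ dy N ×ˢ dy N, Nat.gcd x.1 x.2 ∈ Icc 1 (2 * N) := by
    intro x hx
    obtain ⟨h1, _, h3⟩ := hd _ (mem_product.1 hx).1
    exact mem_Icc.2 ⟨Nat.gcd_pos_of_pos_left _ h1, (Nat.gcd_le_left _ h1).trans h3.le⟩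
  rw [← sum_product (f := fun x : ℕ × ℕ => ‖rho W x.1 x.2‖ ^ 3), ← sum_fiberwise_of_maps_to hm]
  refine sum_le_sum fun g hg => ?_
  have hg0 : 0 < g := (mem_Icc.1 hg).1
  have hsub : ((dy N ×ˢ dy N).filter fun x => Nat.gcd x.1 x.2 = g) ⊆
      (cp (jg N g)).image fun p => (g * p.1, g * p.2) := by
    intro x hx
    obtain ⟨h1, h2⟩ := mem_filter.1 hx
    have hj : ∀ n ∈ dy N, g ∣ n → n / g ∈ jg N g := by
      intro n hn hgn
      obtain ⟨_, h4, h5⟩ := hd n hn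
      refine mem_filter.2 ⟨mem_range.2 ((Nat.div_le_self _ _).trans_lt h5), ?_⟩
      rw [Nat.mul_div_cancel' hgn]
      exact ⟨h4, h5⟩
    have d1 : g ∣ x.1 := h2 ▸ Nat.gcd_dvd_left _ _
    have d2 : g ∣ x.2 := h2 ▸ Nat.gcd_dvd_right _ _
    refine mem_image.2 ⟨(x.1 / g, x.2 / g), mem_filter.2 ⟨mem_product.2
      ⟨hj _ (mem_product.1 h1).1 d1, hj _ (mem_product.1 h1).2 d2⟩, ?_⟩, ?_⟩
    · have := Nat.coprime_div_gcd_div_gcd (m := x.1) (n := x.2) (h2 ▸ hg0)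
      rwa [h2] at this
    · rw [Nat.mul_div_cancel' d1, Nat.mul_div_cancel' d2]
  refine (sum_le_sum_of_subset_of_nonneg hsub fun _ _ _ => by positivity).trans ?_
  rw [sum_image fun p _ p' _ e => Prod.ext (Nat.eq_of_mul_eq_mul_left hg0 (Prod.mk.inj e).1)
    (Nat.eq_of_mul_eq_mul_left hg0 (Prod.mk.inj e).2)]
  exact sum_le_sum fun p _ => pow_le_pow_left₀ (norm_nonneg _) (ea_rho W g p.1 p.2) 3

theorem holder3 {ι : Type} (S : Finset ι) (r a : ι → ℝ) (hr : ∀ i, 0 ≤ r i) :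
    (∑ i ∈ S, r i * a i ^ 2) ^ 3 ≤ (∑ i ∈ S, r i) * (∑ i ∈ S, r i ^ 2) * ∑ i ∈ S, a i ^ 6 := by
  have hs : ∀ i, √(r i) ^ 2 = r i := fun i => Real.sq_sqrt (hr i)
  have h1 : (∑ i ∈ S, r i * a i ^ 2) ^ 2 ≤
      (∑ i ∈ S, √(r i) * r i) * ∑ i ∈ S, √(r i) * a i ^ 4 :=
    sum_sq_le_sum_mul_sum_of_sq_le_mul S (fun i _ => mul_nonneg (Real.sqrt_nonneg _) (hr i))
      (fun i _ => by positivity) fun i _ => le_of_eq (by
        linear_combination (-(r i * a i ^ 4)) * hs i)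
  have h2 : (∑ i ∈ S, √(r i) * r i) ^ 2 ≤ (∑ i ∈ S, r i) * ∑ i ∈ S, r i ^ 2 :=
    sum_sq_le_sum_mul_sum_of_sq_le_mul S (fun i _ => hr i) (fun i _ => sq_nonneg _)
      fun i _ => le_of_eq (by rw [mul_pow, hs])
  have h3 : (∑ i ∈ S, √(r i) * a i ^ 4) ^ 2 ≤ (∑ i ∈ S, a i ^ 6) * ∑ i ∈ S, r i * a i ^ 2 :=
    sum_sq_le_sum_mul_sum_of_sq_le_mul S (fun i _ => by positivity)
      (fun i _ => mul_nonneg (hr i) (sq_nonneg _)) fun i _ => le_of_eq (by rw [mul_pow, hs]; ring)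
  have hX : 0 ≤ ∑ i ∈ S, r i := sum_nonneg fun i _ => hr i
  have hY : 0 ≤ ∑ i ∈ S, r i ^ 2 := sum_nonneg fun i _ => sq_nonneg _
  have hZ : 0 ≤ ∑ i ∈ S, a i ^ 6 := sum_nonneg fun i _ => by positivity
  have hT : 0 ≤ ∑ i ∈ S, r i * a i ^ 2 := sum_nonneg fun i _ => mul_nonneg (hr i) (sq_nonneg _)
  generalize ∑ i ∈ S, r i * a i ^ 2 = T at *
  generalize ∑ i ∈ S, r i = X at *
  generalize ∑ i ∈ S, r i ^ 2 = Y at *
  generalize ∑ i ∈ S, a i ^ 6 = Z at *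
  generalize ∑ i ∈ S, √(r i) * r i = A at *
  generalize ∑ i ∈ S, √(r i) * a i ^ 4 = B at *
  rcases hT.eq_or_lt with rfl | hT'
  · rw [zero_pow (by norm_num)]
    positivity
  · refine le_of_mul_le_mul_right ?_ hT'
    calc T ^ 3 * T = (T ^ 2) ^ 2 := by ring
      _ ≤ (A * B) ^ 2 := pow_le_pow_left₀ (sq_nonneg _) h1 2
      _ = A ^ 2 * B ^ 2 := by ring
      _ ≤ (X * Y) * (Z * T) := mul_le_mul h2 h3 (sq_nonneg _) (mul_nonneg hX hY)
      _ = _ := by ring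

theorem en_two {T : ℝ} (hT : 0 ≤ T) {W : Finset (Gq q)} (hW : W ⊆ box q T) (J : Finset ℕ) :
    (∑ n ∈ J, ∑ m ∈ J, ‖rho W n m‖ ^ 2) ^ 3 ≤
      (W.card : ℝ) ^ 2 * en W * ∑ v ∈ box q (2 * T), ‖dp J (fun _ => 1) v‖ ^ 6 := by
  classical
  set φ : Gq q × Gq q → Gq q := fun z => z.1 * z.2⁻¹ with hφ
  have hm : ∀ z ∈ W ×ˢ W, φ z ∈ box q (2 * T) := by
    intro z hz
    have h1 := (mem_box hT).1 (hW (mem_product.1 hz).1)
    have h2 := (mem_box hT).1 (hW (mem_product.1 hz).2)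
    refine (mem_box (by linarith)).2 ?_
    show |((ht (z.1 * z.2⁻¹) : ℤ) : ℝ)| ≤ 2 * T
    rw [ht_mul, ht_inv, Int.cast_add, Int.cast_neg]
    refine (abs_add_le _ _).trans ?_
    rw [abs_neg]
    linarith
  have h1 : ∑ n ∈ J, ∑ m ∈ J, ‖rho W n m‖ ^ 2 =
      ∑ z ∈ W ×ˢ W, ‖dp J (fun _ => 1) (φ z)‖ ^ 2 := by
    refine ofReal_injective ?_
    rw [ea_sq, ofReal_sum]
    refine sum_congr rfl fun n _ => ?_
    rw [ofReal_sum]
    refine sum_congr rfl fun m _ => ?_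
    rw [hφ, ea_two, map_one, one_mul, one_mul, mul_conj', ofReal_pow]
  let r : Gq q → ℕ := fun v => ((W ×ˢ W).filter fun z => φ z = v).card
  have h2 : ∑ z ∈ W ×ˢ W, ‖dp J (fun _ => 1) (φ z)‖ ^ 2 =
      ∑ v ∈ box q (2 * T), (r v : ℝ) * ‖dp J (fun _ => 1) v‖ ^ 2 := by
    rw [← sum_fiberwise_of_maps_to hm]
    refine sum_congr rfl fun v _ => ?_
    rw [← nsmul_eq_mul, ← sum_const]
    exact sum_congr rfl fun z hz => by rw [(mem_filter.1 hz).2]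
  have h3 : ∑ v ∈ box q (2 * T), r v = W.card ^ 2 := by
    rw [← card_eq_sum_card_fiberwise hm, card_product, sq]
  have h4 : ∑ v ∈ box q (2 * T), r v ^ 2 ≤ en W := by
    have h5 : ∑ v ∈ box q (2 * T), r v ^ 2 =
        (((W ×ˢ W) ×ˢ (W ×ˢ W)).filter fun p => φ p.1 = φ p.2).card := by
      rw [card_eq_sum_card_fiberwise (f := fun p => φ p.1) (t := box q (2 * T))
        fun p hp => hm _ (mem_product.1 (mem_filter.1 (mem_coe.1 hp)).1).1]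
      refine sum_congr rfl fun v _ => ?_
      rw [sq, ← card_product]
      congr 1
      ext p
      simp only [mem_product, mem_filter]
      constructor
      · rintro ⟨⟨a1, a2⟩, a3, a4⟩
        exact ⟨⟨⟨a1, a3⟩, a2.trans a4.symm⟩, a2⟩
      · rintro ⟨⟨⟨a1, a3⟩, a4⟩, a2⟩
        exact ⟨⟨a1, a2⟩, a3, a4.symm.trans a2⟩
    rw [h5]
    unfold en mulEnergy
    refine card_le_card_of_injOn (fun p => ((p.1.1, p.2.1), (p.2.2, p.1.2))) (fun p hp => ?_)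
      fun p _ p' _ e => ?_
    · obtain ⟨h6, h7⟩ := mem_filter.1 (mem_coe.1 hp)
      simp only [mem_product] at h6
      refine mem_coe.2 (mem_filter.2 ⟨?_, ?_⟩)
      · simp only [mem_product]
        exact ⟨⟨h6.1.1, h6.2.1⟩, h6.2.2, h6.1.2⟩
      · have h8 : p.1.1 * p.1.2⁻¹ = p.2.1 * p.2.2⁻¹ := h7
        rw [← div_eq_mul_inv, ← div_eq_mul_inv] at h8
        exact div_eq_div_iff_mul_eq_mul.1 h8
    · simp only [Prod.mk.injEq] at e
      exact Prod.ext (Prod.ext e.1.1 e.2.2) (Prod.ext e.1.2 e.2.1)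
  rw [h1, h2]
  refine (holder3 _ (fun v => (r v : ℝ)) _ fun v => Nat.cast_nonneg _).trans ?_
  refine mul_le_mul_of_nonneg_right (mul_le_mul ?_ ?_ (sum_nonneg fun _ _ => sq_nonneg _)
    (sq_nonneg _)) (sum_nonneg fun _ _ => by positivity)
  · exact_mod_cast h3.le
  · exact_mod_cast h4

end Pool.Agent.Lib.MP_778b46_nt.MB
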