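import Pool.Agent.Lib.MP_778b46_nt.MB.Sc
import Pool.Agent.Lib.MP_778b46_nt.GX.Z4c
import Pool.Agent.Lib.MP_2a1a00_nt.Div

/-! The energy of a set of large values: mean values. -/

set_option autoImplicit false

noncomputable section

namespace Pool.Agent.Lib.MP_778b46_nt.MB

open Complex Finset MeasureTheory
open scoped Real ComplexConjugate
open Pool.Agent.Lib.MP_03e5d0_nt (Sm ex ft bump)
open Pool.Agent.Lib.MP_778b46_nt.MA

theorem eb_dp {q : ℕ} (S T : Finset ℕ) (a b : ℕ → ℂ) (w : Gq q) :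
    dp S a w * dp T b w = dp (image₂ (· * ·) S T) (GX.cv S T a b) w :=
  GX.cv_sum S T _ a b (ev w) (ev_mul w) fun _ hm _ hn => mem_image₂_of_mem hm hn

theorem eb_log {δ Z : ℝ} (hδ : 0 < δ) (hZ : 1 ≤ Z) :
    1 + Real.log (1 + 6 * Z) ≤ (7 + 1 / δ) * Z ^ δ := by
  have h1 : Real.log (1 + 6 * Z) ≤ Real.log 7 + Real.log Z := by
    rw [← Real.log_mul (by norm_num) (by linarith)]
    exact Real.log_le_log (by linarith) (by linarith)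
  have h2 : Real.log 7 ≤ 7 - 1 := Real.log_le_sub_one_of_pos (by norm_num)
  have h3 : Real.log Z ≤ Z ^ δ / δ := Real.log_le_rpow_div (by linarith) hδ
  have h4 : 1 ≤ Z ^ δ := Real.one_le_rpow hZ hδ.le
  have h5 : (7 + 1 / δ) * Z ^ δ = 7 * Z ^ δ + Z ^ δ / δ := by ring
  linarith

theorem eb_main (e : ℕ) {ε : ℝ} (hε : 0 < ε) : ∃ C : ℝ, 0 ≤ C ∧ ∀ (q : ℕ) [NeZero q] (T Y : ℝ)
    (K : Finset ℕ) (d : ℕ → ℂ), 0 ≤ T → 1 / 8 ≤ Y → (∀ n ∈ K, Y ≤ n ∧ (n : ℝ) ≤ 8 * Y) →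
    (∀ n, 0 < n → ‖d n‖ ≤ (n.divisors.card : ℝ) ^ e) →
    ∑ v ∈ box q T, ‖dp K d v‖ ^ 2 ≤ C * (8 * Y) ^ ε * (q * (2 * T + 1) + Y) * Y := by
  have hδ : 0 < ε / (2 * e + 1) := by positivity
  set δ := ε / (2 * e + 1) with hδe
  obtain ⟨C, hC, hτ⟩ := MP_2a1a00_nt.card_divisors_le δ hδ
  refine ⟨112 * (7 + 1 / δ) * 8 * C ^ (2 * e), by positivity,
    fun q _ T Y K d hT hY hK hd => ?_⟩
  have hY0 : 0 < Y := by linarith
  have hZ : 1 ≤ 8 * Y := by linarith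
  have hp : 1 ≤ (8 * Y) ^ δ := Real.one_le_rpow hZ hδ.le
  have hL := eb_log hδ hZ
  have hL1 : 1 ≤ (7 + 1 / δ) * (8 * Y) ^ δ :=
    one_le_mul_of_one_le_of_one_le (by linarith [one_div_pos.2 hδ]) hp
  rw [show 6 * (8 * Y) = 48 * Y by ring] at hL
  have hc : (K.card : ℝ) ≤ 8 * Y := by
    have h1 : K ⊆ Ioc 0 ⌊8 * Y⌋₊ := fun n hn =>
      mem_Ioc.2 ⟨by exact_mod_cast hY0.trans_le (hK n hn).1, Nat.le_floor (hK n hn).2⟩
    have h2 := card_le_card h1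
    rw [Nat.card_Ioc, Nat.sub_zero] at h2
    exact (Nat.cast_le.2 h2).trans (Nat.floor_le (by linarith))
  have hs : ∑ n ∈ K, ‖d n‖ ^ 2 ≤ 8 * Y * (C * (8 * Y) ^ δ) ^ (2 * e) := by
    refine (sum_le_card_nsmul _ _ ((C * (8 * Y) ^ δ) ^ (2 * e)) fun n hn => ?_).trans ?_
    · have h1 : 0 < n := by exact_mod_cast hY0.trans_le (hK n hn).1
      have h2 : (n.divisors.card : ℝ) ≤ C * (8 * Y) ^ δ :=
        (hτ n).trans (mul_le_mul_of_nonneg_left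
          (Real.rpow_le_rpow (Nat.cast_nonneg _) (hK n hn).2 hδ.le) hC)
      rw [mul_comm 2 e, pow_mul]
      exact pow_le_pow_left₀ (norm_nonneg _)
        ((hd n h1).trans (pow_le_pow_left₀ (Nat.cast_nonneg _) h2 e)) 2
    · rw [nsmul_eq_mul]
      exact mul_le_mul_of_nonneg_right hc (by positivity)
  have hq : 0 ≤ (q : ℝ) * (2 * T + 1) := by positivity
  have hf : q * (2 * T + 1) + 112 * Y * (1 + Real.log (1 + 48 * Y)) ≤
      112 * ((7 + 1 / δ) * (8 * Y) ^ δ) * (q * (2 * T + 1) + Y) := by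
    have h1 := mul_le_mul_of_nonneg_left hL hY0.le
    have h2 := mul_le_mul_of_nonneg_left hL1 hq
    linarith
  have he : (8 * Y) ^ ε = (8 * Y) ^ δ * ((8 * Y) ^ δ) ^ (2 * e) := by
    rw [← pow_succ', ← Real.rpow_natCast, ← Real.rpow_mul (by linarith)]
    congr 1
    rw [hδe]
    push_cast
    field_simp
  refine (mv1 hT hY0 K (fun n hn => ⟨(hK n hn).1, by linarith [(hK n hn).2]⟩) d).trans
    ((mul_le_mul hf hs (by positivity) (by positivity)).trans (le_of_eq ?_))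
  rw [he, mul_pow]
  ring

theorem en_six {ε : ℝ} (hε : 0 < ε) : ∃ C : ℝ, 0 ≤ C ∧ ∀ (q : ℕ) [NeZero q] (T M : ℝ)
    (J : Finset ℕ), 0 ≤ T → 1 / 2 ≤ M → (∀ n ∈ J, M ≤ n ∧ (n : ℝ) ≤ 2 * M) →
    ∑ v ∈ box q T, ‖dp J (fun _ => 1) v‖ ^ 6 ≤
      C * (2 * M) ^ ε * (q * (2 * T + 1) + M ^ 3) * M ^ 3 := by
  obtain ⟨C, hC, h⟩ := eb_main 2 (div_pos hε (by norm_num : (0 : ℝ) < 3))
  refine ⟨C, hC, fun q _ T M J hT hM hJ => ?_⟩
  have hM0 : 0 < M := by linarith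
  have h1 : ∀ n : ℕ, 0 < n → ‖(fun _ : ℕ => (1 : ℂ)) n‖ ≤ (n.divisors.card : ℝ) ^ 0 :=
    fun n _ => by simp
  have hK : ∀ n : ℕ, n ∈ image₂ (· * ·) (image₂ (· * ·) J J) J →
      M ^ 3 ≤ (n : ℝ) ∧ (n : ℝ) ≤ 8 * M ^ 3 := by
    intro n hn
    obtain ⟨x, hx, c, hc, rfl⟩ := mem_image₂.1 hn
    obtain ⟨a, ha, b, hb, rfl⟩ := mem_image₂.1 hx
    obtain ⟨a1, a2⟩ := hJ a ha
    obtain ⟨b1, b2⟩ := hJ b hb
    obtain ⟨c1, c2⟩ := hJ c hc
    push_cast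
    constructor
    · calc M ^ 3 = M * M * M := by ring
        _ ≤ _ := by gcongr
    · calc (a : ℝ) * b * c ≤ 2 * M * (2 * M) * (2 * M) := by gcongr
        _ = _ := by ring
  have h2 := h q T (M ^ 3) _ (GX.cv (image₂ (· * ·) J J) J (GX.cv J J (fun _ => 1) fun _ => 1)
    fun _ => 1) hT (by
      calc (1 / 8 : ℝ) = (1 / 2) ^ 3 := by norm_num
        _ ≤ M ^ 3 := by gcongr) hK
    (GX.cv_le _ _ _ _ 1 0 (GX.cv_le _ _ _ _ 0 0 h1 h1) h1)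
  have e : (8 * M ^ 3) ^ (ε / 3) = (2 * M) ^ ε := by
    rw [show 8 * M ^ 3 = (2 * M) ^ (3 : ℕ) by ring, ← Real.rpow_natCast,
      ← Real.rpow_mul (by positivity)]
    congr 1
    push_cast
    ring
  rw [e] at h2
  refine le_of_eq_of_le (sum_congr rfl fun v _ => ?_) h2
  rw [← eb_dp, ← eb_dp, norm_mul, norm_mul]
  ring

open Classical in
theorem eb_en {q : ℕ} {W B : Finset (Gq q)} (hm : ∀ x ∈ W ×ˢ W, x.1 * x.2 ∈ B) :
    ∃ r : Gq q → ℕ, en W = ∑ v ∈ B, r v ^ 2 ∧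
      ∀ f : Gq q → ℂ, ∑ x ∈ W ×ˢ W, f (x.1 * x.2) = ∑ v ∈ B, (r v : ℂ) * f v := by
  refine ⟨fun v => ((W ×ˢ W).filter fun x => x.1 * x.2 = v).card, ?_, fun f => ?_⟩
  · refine (mulEnergy_eq_sum_sq' W W).trans (sum_subset (fun v hv => ?_) fun v _ hv => ?_)
    · obtain ⟨a, ha, b, hb, rfl⟩ := mem_mul.1 hv
      exact hm (a, b) (mem_product.2 ⟨ha, hb⟩)
    · refine pow_eq_zero_iff two_ne_zero |>.2 (card_eq_zero.2 (filter_eq_empty_iff.2 ?_))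
      rintro x hx rfl
      exact hv (mul_mem_mul (mem_product.1 hx).1 (mem_product.1 hx).2)
  · rw [← sum_fiberwise_of_maps_to hm]
    refine sum_congr rfl fun v _ => ?_
    rw [← nsmul_eq_mul, ← sum_const]
    exact sum_congr rfl fun x hx => by rw [(mem_filter.1 hx).2]

theorem en_four {q : ℕ} [NeZero q] {T M : ℝ} (hT : 0 ≤ T) (hM : 0 < M) {W : Finset (Gq q)}
    (hW : W ⊆ box q T) (J : Finset ℕ) (hJ : ∀ n ∈ J, M ≤ n ∧ (n : ℝ) ≤ 2 * M) :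
    ∑ p ∈ cp J, ‖rho W p.1 p.2‖ ^ 4 ≤
      (q * (4 * T + 1) + 28 * M ^ 2 * (1 + Real.log (1 + 12 * M ^ 2))) * en W := by
  have hm : ∀ x ∈ W ×ˢ W, x.1 * x.2 ∈ box q (2 * T) := by
    intro x hx
    obtain ⟨h1, h2⟩ := mem_product.1 hx
    have h3 := (mem_box hT).1 (hW h1)
    have h4 := (mem_box hT).1 (hW h2)
    rw [mem_box (by linarith), ht_mul, Int.cast_add]
    exact (abs_add_le _ _).trans (by linarith)
  obtain ⟨r, e, hr⟩ := eb_en hm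
  have h := mvfr (q := q) (by linarith : 0 ≤ 2 * T) hM J hJ fun v => (r v : ℂ)
  have e1 : ∑ v ∈ box q (2 * T), ‖(r v : ℂ)‖ ^ 2 = en W := by
    rw [e]
    push_cast
    exact sum_congr rfl fun v _ => by rw [Complex.norm_natCast]
  rw [e1, show 2 * (2 * T) = 4 * T by ring] at h
  refine le_of_eq_of_le (sum_congr rfl fun p _ => ?_) h
  have e2 : rho W p.1 p.2 * rho W p.1 p.2 =
      ∑ v ∈ box q (2 * T), (r v : ℂ) * (ev v p.1 * conj (ev v p.2)) := by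
    rw [rho, sum_mul_sum, ← sum_product', ← hr fun v => ev v p.1 * conj (ev v p.2)]
    refine sum_congr rfl fun x _ => ?_
    rw [mul_ev, mul_ev, map_mul]
    ring
  rw [← e2, norm_mul]
  ring

/-- The mean value of a product of two dyadic polynomials. -/
theorem mv2 {ε : ℝ} (hε : 0 < ε) : ∃ C : ℝ, 0 ≤ C ∧ ∀ (q : ℕ) [NeZero q] (T : ℝ) (M N : ℕ)
    (a b : ℕ → ℂ), 0 ≤ T → 1 ≤ M → 1 ≤ N → (∀ n, ‖a n‖ ≤ 1) → (∀ n, ‖b n‖ ≤ 1) →
    ∑ w ∈ box q T, ‖dp (dy M) a w * dp (dy N) b w‖ ^ 2 ≤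
      C * ((M : ℝ) * N) ^ ε * (q * (2 * T + 1) + M * N) * (M * N) := by
  obtain ⟨C, hC, h⟩ := eb_main 1 hε
  refine ⟨C * 8 ^ ε, by positivity, fun q _ T M N a b hT hM hN ha hb => ?_⟩
  have hM1 : (1 : ℝ) ≤ M := by exact_mod_cast hM
  have hN1 : (1 : ℝ) ≤ N := by exact_mod_cast hN
  have hMN : (1 : ℝ) ≤ (M : ℝ) * N := one_le_mul_of_one_le_of_one_le hM1 hN1
  have hK : ∀ n : ℕ, n ∈ image₂ (· * ·) (dy M) (dy N) →
      (M : ℝ) * N ≤ (n : ℝ) ∧ (n : ℝ) ≤ 8 * ((M : ℝ) * N) := by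
    intro n hn
    obtain ⟨x, hx, y, hy, rfl⟩ := mem_image₂.1 hn
    rw [dy, mem_Ico] at hx hy
    have x1 : (M : ℝ) ≤ x := by exact_mod_cast hx.1
    have x2 : (x : ℝ) ≤ 2 * M := by exact_mod_cast hx.2.le
    have y1 : (N : ℝ) ≤ y := by exact_mod_cast hy.1
    have y2 : (y : ℝ) ≤ 2 * N := by exact_mod_cast hy.2.le
    push_cast
    constructor
    · gcongr
    · calc (x : ℝ) * y ≤ 2 * M * (2 * N) := by gcongr
        _ ≤ _ := by linarith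
  have h2 := h q T ((M : ℝ) * N) _ (GX.cv (dy M) (dy N) a b) hT (by linarith) hK
    (GX.cv_le _ _ _ _ 0 0 (fun n _ => by simpa using ha n) fun n _ => by simpa using hb n)
  rw [Real.mul_rpow (by norm_num) (by linarith), ← mul_assoc C] at h2
  exact le_of_eq_of_le (sum_congr rfl fun v _ => by rw [eb_dp]) h2

end Pool.Agent.Lib.MP_778b46_nt.MB
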