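import Pool.Agent.Lib.MP_778b46_nt.MB.Ea
import Pool.Agent.Lib.MP_778b46_nt.MB.Eb

/-! The energy of a set of large values. -/

set_option autoImplicit false

noncomputable section

namespace Pool.Agent.Lib.MP_778b46_nt.MB

open Complex Finset MeasureTheory
open scoped Real ComplexConjugate
open Pool.Agent.Lib.MP_03e5d0_nt (Sm ex ft bump)
open Pool.Agent.Lib.MP_778b46_nt.MA

theorem ec_alg {S3 S2 S4 R E K M A S a b : ℝ} (h3 : 0 ≤ S3) (h4 : 0 ≤ S4)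
    (hR : 0 ≤ R) (hE : 0 ≤ E) (hM : 0 ≤ M) (hA : 0 ≤ A) (ha0 : 0 ≤ a) (hb0 : 0 ≤ b)
    (k1 : S2 ^ 3 ≤ R ^ 2 * E * (A * (5 * K + M ^ 3) * M ^ 3)) (k2 : S3 ≤ R * S2)
    (k3 : S3 ^ 2 ≤ S2 * S4) (k4 : S4 ≤ S * E) (ha : a ^ 6 = 6 * A * R ^ 2 * E ^ 4 * S ^ 3)
    (hb : b ^ 3 = 6 * A * R ^ 5 * E * K) : S3 ≤ max a b * M := by
  rcases le_total K (M ^ 3) with h | h
  · refine le_trans (le_of_pow_le_pow_left₀ (n := 6) (by norm_num) (mul_nonneg ha0 hM) ?_)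
      (mul_le_mul_of_nonneg_right (le_max_left _ _) hM)
    have k5 : S2 ^ 3 ≤ R ^ 2 * E * (A * (6 * M ^ 3) * M ^ 3) := k1.trans (by gcongr; linarith)
    calc S3 ^ 6 = (S3 ^ 2) ^ 3 := by ring
      _ ≤ (S2 * S4) ^ 3 := by gcongr
      _ = S2 ^ 3 * S4 ^ 3 := mul_pow _ _ _
      _ ≤ (R ^ 2 * E * (A * (6 * M ^ 3) * M ^ 3)) * (S * E) ^ 3 := by gcongr
      _ = (a * M) ^ 6 := by rw [mul_pow a, ha]; ring
  · refine le_trans (le_of_pow_le_pow_left₀ (n := 3) (by norm_num) (mul_nonneg hb0 hM) ?_)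
      (mul_le_mul_of_nonneg_right (le_max_right _ _) hM)
    have k5 : S2 ^ 3 ≤ R ^ 2 * E * (A * (6 * K) * M ^ 3) := k1.trans (by gcongr; linarith)
    calc S3 ^ 3 ≤ (R * S2) ^ 3 := by gcongr
      _ = R ^ 3 * S2 ^ 3 := mul_pow _ _ _
      _ ≤ R ^ 3 * (R ^ 2 * E * (A * (6 * K) * M ^ 3)) := by gcongr
      _ = (b * M) ^ 3 := by rw [mul_pow b, hb]; ring

theorem ec_rho {q : ℕ} (W : Finset (Gq q)) (n m : ℕ) : ‖rho W n m‖ ≤ W.card := by
  refine (norm_sum_le _ _).trans ((sum_le_card_nsmul _ _ 1 fun w _ => ?_).trans ?_)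
  · rw [norm_mul, Complex.norm_conj]
    exact mul_le_one₀ (norm_ev w n) (norm_nonneg _) (norm_ev w m)
  · rw [nsmul_one]

theorem ec_cp {q : ℕ} (W : Finset (Gq q)) (J : Finset ℕ) :
    ∑ p ∈ cp J, ‖rho W p.1 p.2‖ ^ 2 ≤ ∑ n ∈ J, ∑ m ∈ J, ‖rho W n m‖ ^ 2 := by
  rw [← sum_product']
  exact sum_le_sum_of_subset_of_nonneg (filter_subset _ _) fun _ _ _ => by positivity

theorem ec_k2 {q : ℕ} (W : Finset (Gq q)) (J : Finset ℕ) :
    ∑ p ∈ cp J, ‖rho W p.1 p.2‖ ^ 3 ≤ W.card * ∑ n ∈ J, ∑ m ∈ J, ‖rho W n m‖ ^ 2 := by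
  refine le_trans ?_ (mul_le_mul_of_nonneg_left (ec_cp W J) (Nat.cast_nonneg _))
  rw [mul_sum]
  refine sum_le_sum fun p _ => ?_
  rw [pow_succ']
  exact mul_le_mul_of_nonneg_right (ec_rho W _ _) (by positivity)

theorem ec_k3 {q : ℕ} (W : Finset (Gq q)) (J : Finset ℕ) :
    (∑ p ∈ cp J, ‖rho W p.1 p.2‖ ^ 3) ^ 2 ≤
      (∑ n ∈ J, ∑ m ∈ J, ‖rho W n m‖ ^ 2) * ∑ p ∈ cp J, ‖rho W p.1 p.2‖ ^ 4 := by
  refine le_trans ?_ (mul_le_mul_of_nonneg_right (ec_cp W J) (by positivity))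
  exact sum_sq_le_sum_mul_sum_of_sq_le_mul _ (fun _ _ => by positivity) (fun _ _ => by positivity)
    fun _ _ => le_of_eq (by ring)

theorem ec_harm (n : ℕ) : ∑ g ∈ Icc 1 n, (g : ℝ)⁻¹ ≤ 1 + Real.log n := by
  have h := harmonic_le_one_add_log n
  rw [harmonic_eq_sum_Icc] at h
  push_cast at h
  exact h

theorem ec_log {e x : ℝ} (he : 0 < e) (hx : 1 ≤ x) :
    1 + Real.log (1 + 12 * x ^ 2) ≤ (1 + 2 * 4 ^ e / e) * x ^ e := by
  have h1 : Real.log (1 + 12 * x ^ 2) ≤ Real.log ((4 * x) ^ 2) :=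
    Real.log_le_log (by positivity) (by nlinarith)
  have h2 := Real.log_le_rpow_div (x := 4 * x) (by positivity) he
  have h3 : 1 ≤ x ^ e := Real.one_le_rpow hx he.le
  rw [Real.log_pow] at h1
  rw [Real.mul_rpow (by norm_num) (by positivity)] at h2
  have h4 : (1 + 2 * 4 ^ e / e) * x ^ e = x ^ e + 2 * (4 ^ e * x ^ e / e) := by ring
  rw [h4]
  push_cast at h1
  linarith

theorem ec_jg {N g n : ℕ} (hg : 1 ≤ g) (hn : n ∈ jg N g) :
    (N : ℝ) / g ≤ n ∧ (n : ℝ) ≤ 2 * ((N : ℝ) / g) := by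
  obtain ⟨h1, h2⟩ := (mem_filter.1 hn).2
  have hg' : (0 : ℝ) < g := by exact_mod_cast hg
  rw [div_le_iff₀' hg', ← mul_div_assoc, le_div_iff₀' hg']
  exact ⟨by exact_mod_cast h1, by exact_mod_cast h2.le⟩

theorem ec_end {E U m N L A R K S a b : ℝ} (hE : 0 ≤ E) (hN : 0 ≤ N) (hL : 1 ≤ L) (hA : 0 ≤ A)
    (hR : 0 ≤ R) (hK : 0 ≤ K) (hS : 0 ≤ S) (hm : 6 * A * 28 ^ 3 * L ^ 9 ≤ m)
    (ha : a ^ 6 = 6 * A * R ^ 2 * E ^ 4 * (28 * L * S) ^ 3) (hb : b ^ 3 = 6 * A * R ^ 5 * E * K)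
    (h : E * U ^ 2 ≤ max a b * N * L) :
    E ^ 2 * U ^ 12 ≤ m * R ^ 2 * N ^ 6 * S ^ 3 ∨ E ^ 2 * U ^ 6 ≤ m * R ^ 5 * K * N ^ 3 := by
  have hL0 : 0 ≤ L := zero_le_one.trans hL
  have hm0 : 0 ≤ m := le_trans (by positivity) hm
  rcases hE.eq_or_lt with rfl | hE'
  · left
    rw [zero_pow two_ne_zero, zero_mul]
    positivity
  rcases le_total b a with hab | hab
  · left
    rw [max_eq_left hab] at h
    refine le_of_mul_le_mul_left ?_ (pow_pos hE' 4)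
    calc E ^ 4 * (E ^ 2 * U ^ 12) = (E * U ^ 2) ^ 6 := by ring
      _ ≤ (a * N * L) ^ 6 := by gcongr
      _ = E ^ 4 * (6 * A * 28 ^ 3 * L ^ 9 * R ^ 2 * N ^ 6 * S ^ 3) := by
        rw [mul_pow, mul_pow, ha]; ring
      _ ≤ _ := by gcongr
  · right
    rw [max_eq_right hab] at h
    refine le_of_mul_le_mul_left ?_ hE'
    have h1 : 6 * A * L ^ 3 ≤ m := by
      refine le_trans ?_ hm
      have : L ^ 3 ≤ 28 ^ 3 * L ^ 9 := (pow_le_pow_right₀ hL (by norm_num)).trans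
        (le_mul_of_one_le_left (by positivity) (by norm_num))
      rw [mul_assoc (6 * A)]
      gcongr
    calc E * (E ^ 2 * U ^ 6) = (E * U ^ 2) ^ 3 := by ring
      _ ≤ (b * N * L) ^ 3 := by gcongr
      _ = E * (6 * A * L ^ 3 * R ^ 5 * K * N ^ 3) := by rw [mul_pow, mul_pow, hb]; ring
      _ ≤ _ := by gcongr

theorem energy {ε : ℝ} (hε : 0 < ε) : ∃ C : ℝ, 0 ≤ C ∧ ∀ (q : ℕ) [NeZero q] (T U : ℝ) (N : ℕ)
    (W : Finset (Gq q)) (b : ℕ → ℂ), 1 ≤ T → 1 ≤ N → W ⊆ box q T → (∀ n, ‖b n‖ ≤ 1) → 0 ≤ U →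
    (∀ w ∈ W, U ≤ ‖dp (dy N) b w‖) →
    (en W : ℝ) ^ 2 * U ^ 12 ≤
        C * (N : ℝ) ^ ε * (W.card : ℝ) ^ 2 * (N : ℝ) ^ 6 * (q * T + (N : ℝ) ^ 2) ^ 3 ∨
      (en W : ℝ) ^ 2 * U ^ 6 ≤ C * (N : ℝ) ^ ε * (W.card : ℝ) ^ 5 * (q * T) * (N : ℝ) ^ 3 := by
  have he : 0 < ε / 10 := by positivity
  obtain ⟨C, hC, h6⟩ := en_six he
  refine ⟨6 * (C * 2 ^ (ε / 10)) * 28 ^ 3 * (1 + 2 * 4 ^ (ε / 10) / (ε / 10)) ^ 9, by positivity,
    fun q _ T U N W b hT hN hW hb hU hw => ?_⟩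
  have hN' : (1 : ℝ) ≤ N := by exact_mod_cast hN
  have hq : (1 : ℝ) ≤ q := by exact_mod_cast NeZero.pos q
  have hK : (q : ℝ) ≤ q * T := le_mul_of_one_le_right (by positivity) hT
  have hT0 : 0 ≤ T := zero_le_one.trans hT
  obtain ⟨L, hL⟩ : ∃ L, L = 1 + Real.log (1 + 12 * (N : ℝ) ^ 2) := ⟨_, rfl⟩
  have hL1 : 1 ≤ L := by
    rw [hL]
    exact le_add_of_nonneg_right (Real.log_nonneg (le_add_of_nonneg_right (by positivity)))
  obtain ⟨A, hA⟩ : ∃ A, A = C * (2 * (N : ℝ)) ^ (ε / 10) := ⟨_, rfl⟩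
  have hA0 : 0 ≤ A := by rw [hA]; positivity
  obtain ⟨a, ha0, ha⟩ : ∃ a : ℝ, 0 ≤ a ∧ a ^ 6 = 6 * A * (W.card : ℝ) ^ 2 * (en W : ℝ) ^ 4 *
      (28 * L * (q * T + (N : ℝ) ^ 2)) ^ 3 :=
    ⟨_, by positivity, Real.rpow_inv_natCast_pow (by positivity) (by norm_num)⟩
  obtain ⟨c, hc0, hc⟩ : ∃ c : ℝ, 0 ≤ c ∧ c ^ 3 = 6 * A * (W.card : ℝ) ^ 5 * en W * (q * T) :=
    ⟨_, by positivity, Real.rpow_inv_natCast_pow (by positivity) (by norm_num)⟩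
  refine ec_end (by positivity) (by positivity) hL1 hA0 (by positivity) (by positivity)
    (by positivity) ?_ ha hc ?_
  · have h1 : L ≤ _ := hL ▸ ec_log he hN'
    have h2 : (N : ℝ) ^ ε = (N : ℝ) ^ (ε / 10) * ((N : ℝ) ^ (ε / 10)) ^ 9 := by
      rw [← pow_succ', ← Real.rpow_mul_natCast (by positivity)]
      congr 1
      push_cast
      ring
    rw [hA, Real.mul_rpow (by norm_num) (by positivity), h2]
    refine le_trans (mul_le_mul_of_nonneg_left (pow_le_pow_left₀ (by positivity) h1 9)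
      (by positivity)) (le_of_eq (by rw [mul_pow]; ring))
  · refine (en_cube W _ hU hb hw).trans ((en_gcd W N).trans ?_)
    have h1 : ∀ g ∈ Icc 1 (2 * N), ∑ p ∈ cp (jg N g), ‖rho W p.1 p.2‖ ^ 3 ≤
        max a c * N * (g : ℝ)⁻¹ := by
      intro g hg
      obtain ⟨g1, g2⟩ := mem_Icc.1 hg
      have g3 : (1 : ℝ) ≤ g := by exact_mod_cast g1
      have g4 : (g : ℝ) ≤ 2 * N := by exact_mod_cast g2
      have m1 : 1 / 2 ≤ (N : ℝ) / g := by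
        rw [div_le_div_iff₀ (by norm_num) (by positivity)]
        linarith
      have m2 : (N : ℝ) / g ≤ N := div_le_self (by positivity) g3
      have m3 : 0 < (N : ℝ) / g := by positivity
      rw [mul_assoc, ← div_eq_mul_inv]
      refine ec_alg (by positivity) (by positivity) (by positivity) (by positivity)
        m3.le hA0 ha0 hc0 ((en_two hT0 hW _).trans ?_) (ec_k2 W _) (ec_k3 W _)
        ((en_four hT0 m3 hW _ fun n hn => ec_jg g1 hn).trans ?_) ha hc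
      · refine mul_le_mul_of_nonneg_left
          ((h6 q (2 * T) _ _ (by positivity) m1 fun n hn => ec_jg g1 hn).trans ?_) (by positivity)
        have k1 : (q : ℝ) * (2 * (2 * T) + 1) ≤ 5 * (q * T) := by linarith
        rw [hA]
        gcongr
      · refine mul_le_mul_of_nonneg_right ?_ (by positivity)
        have k1 : 28 * ((N : ℝ) / g) ^ 2 * (1 + Real.log (1 + 12 * ((N : ℝ) / g) ^ 2)) ≤
            28 * (N : ℝ) ^ 2 * L := by
          have : 0 ≤ Real.log (1 + 12 * ((N : ℝ) / g) ^ 2) :=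
            Real.log_nonneg (le_add_of_nonneg_right (by positivity))
          rw [hL]
          gcongr
        have k2 : q * T ≤ L * (q * T) := le_mul_of_one_le_left (by positivity) hL1
        nlinarith
    refine (sum_le_sum h1).trans ?_
    rw [← mul_sum]
    refine mul_le_mul_of_nonneg_left ((ec_harm _).trans ?_)
      (mul_nonneg (ha0.trans (le_max_left _ _)) (by positivity))
    rw [hL]
    gcongr
    push_cast
    nlinarith

end Pool.Agent.Lib.MP_778b46_nt.MB
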