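import Pool.Agent.Lib.MP_778b46_nt.MB.Ec
import Pool.Agent.Lib.MP_778b46_nt.MB.Hm

/-! The energy of a set where three polynomials are large. -/

set_option autoImplicit false

noncomputable section

namespace Pool.Agent.Lib.MP_778b46_nt.MB

open Complex Finset MeasureTheory
open scoped Real ComplexConjugate
open Pool.Agent.Lib.MP_03e5d0_nt (Sm ex ft bump)
open Pool.Agent.Lib.MP_778b46_nt.MA

theorem expo_log {x p k m1 m2 n u1 u2 u3 r e l : ℝ} (hl : 0 ≤ l)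
    (s1 : p ≤ l + k) (s2 : 2 * k ≤ l + x) (s4 : m1 + m2 + n ≤ x) (s5 : 12 * p ≤ 5 * x)
    (h1 : r + 2 * u1 ≤ l + k + m1) (h2 : r + 2 * u2 ≤ l + k + m2)
    (h3 : r + 2 * u2 + 2 * u3 ≤ l + 2 * x - 2 * m1) (h4 : r + 2 * u1 + 2 * u3 ≤ l + 2 * x - 2 * m2)
    (h5 : r + 2 * u1 ≤ l + 2 * m1 ∨ 4 * u1 ≤ l + 2 * m1 + k)
    (h6 : r + 2 * u2 ≤ l + 2 * m2 ∨ 4 * u2 ≤ l + 2 * m2 + k) (h7 : e ≤ 3 * r)
    (h8 : 2 * e + 12 * u3 ≤ l + 2 * r + 6 * n + 3 * k ∨ 2 * e + 6 * u3 ≤ l + 5 * r + k + 3 * n) :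
    e + 2 * (u1 + u2 + u3) + p ≤ 5 * l + r + k + 2 * x := by
  rcases h5 with h5 | h5
  · linarith
  rcases h6 with h6 | h6
  · linarith
  rcases h8 with h8 | h8 <;> linarith

theorem expo {X P K M1 M2 N U1 U2 U3 R E Λ : ℝ} (hX : 0 < X) (hP : 0 < P) (hK : 0 < K)
    (hM1 : 0 < M1) (hM2 : 0 < M2) (hN : 0 < N) (hU1 : 0 < U1) (hU2 : 0 < U2) (hU3 : 0 < U3)
    (hR : 0 < R) (hE : 0 ≤ E) (hΛ : 1 ≤ Λ) (s1 : P ≤ Λ * K) (s2 : K ^ 2 ≤ Λ * X)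
    (s4 : M1 * M2 * N ≤ X) (s5 : P ^ 12 ≤ X ^ 5)
    (h1 : R * U1 ^ 2 ≤ Λ * K * M1) (h2 : R * U2 ^ 2 ≤ Λ * K * M2)
    (h3 : R * (U2 * U3) ^ 2 ≤ Λ * (X / M1) ^ 2) (h4 : R * (U1 * U3) ^ 2 ≤ Λ * (X / M2) ^ 2)
    (h5 : R * U1 ^ 2 ≤ Λ * M1 ^ 2 ∨ U1 ^ 4 ≤ Λ * M1 ^ 2 * K)
    (h6 : R * U2 ^ 2 ≤ Λ * M2 ^ 2 ∨ U2 ^ 4 ≤ Λ * M2 ^ 2 * K) (h7 : E ≤ R ^ 3)
    (h8 : E ^ 2 * U3 ^ 12 ≤ Λ * R ^ 2 * N ^ 6 * K ^ 3 ∨ E ^ 2 * U3 ^ 6 ≤ Λ * R ^ 5 * K * N ^ 3) :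
    E * (U1 * U2 * U3) ^ 2 ≤ Λ ^ 5 * R * K * X ^ 2 / P := by
  have hL : 0 < Λ := by linarith
  rcases hE.eq_or_lt with rfl | hE
  · rw [zero_mul]
    positivity
  have a1 := Real.log_le_log (by positivity) s1
  have a2 := Real.log_le_log (by positivity) s2
  have a4 := Real.log_le_log (by positivity) s4
  have a5 := Real.log_le_log (by positivity) s5
  have b1 := Real.log_le_log (by positivity) h1
  have b2 := Real.log_le_log (by positivity) h2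
  have b3 := Real.log_le_log (by positivity) h3
  have b4 := Real.log_le_log (by positivity) h4
  have b5 := h5.imp (Real.log_le_log (by positivity)) (Real.log_le_log (by positivity))
  have b6 := h6.imp (Real.log_le_log (by positivity)) (Real.log_le_log (by positivity))
  have b7 := Real.log_le_log (by positivity) h7
  have b8 := h8.imp (Real.log_le_log (by positivity)) (Real.log_le_log (by positivity))
  refine (Real.log_le_log_iff (by positivity) (by positivity)).1 ?_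
  simp (disch := positivity) only [Real.log_mul, Real.log_pow, Real.log_div, Nat.cast_ofNat]
    at a1 a2 a4 a5 b1 b2 b3 b4 b5 b6 b7 b8 ⊢
  have := expo_log (Real.log_nonneg hΛ) a1 a2 a4 a5 b1 b2 (u1 := Real.log U1) (u2 := Real.log U2)
    (u3 := Real.log U3) (by linarith) (by linarith) b5 b6 b7 b8
  linarith

theorem er_card {ι : Type} {W S : Finset ι} (hW : W ⊆ S) {f : ι → ℂ} {U : ℝ} (hU : 0 ≤ U)
    (h : ∀ w ∈ W, U ≤ ‖f w‖) : W.card * U ^ 2 ≤ ∑ w ∈ S, ‖f w‖ ^ 2 := by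
  refine le_trans ?_ (sum_le_sum_of_subset_of_nonneg hW fun _ _ _ => by positivity)
  rw [← nsmul_eq_mul]
  exact card_nsmul_le_sum _ _ _ fun w hw => pow_le_pow_left₀ hU (h w hw) 2

theorem er_sq {M : ℕ} {b : ℕ → ℂ} (hb : ∀ n, ‖b n‖ ≤ 1) : ∑ n ∈ dy M, ‖b n‖ ^ 2 ≤ M := by
  refine (sum_le_card_nsmul _ _ 1 fun n _ => pow_le_one₀ (norm_nonneg _) (hb n)).trans ?_
  rw [dy, Nat.card_Ico, nsmul_one, show 2 * M - M = M by omega]

theorem er_dy {M n : ℕ} (h : n ∈ dy M) : (M : ℝ) ≤ n ∧ (n : ℝ) ≤ 2 * M := by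
  obtain ⟨h1, h2⟩ := mem_Ico.1 h
  exact ⟨by exact_mod_cast h1, by exact_mod_cast h2.le⟩

theorem er_five {q : ℕ} {T : ℝ} (hT : 1 ≤ T) : (q : ℝ) * (2 * (2 * T) + 1) ≤ 5 * (q * T) := by
  nlinarith [(Nat.cast_nonneg q : (0 : ℝ) ≤ q)]

theorem er_one {κ X T U : ℝ} (hκ : 0 < κ) {q M : ℕ} [NeZero q] {W : Finset (Gq q)} {b : ℕ → ℂ}
    (hX : 1 ≤ X) (hT : 1 ≤ T) (hM : 1 ≤ M) (h1 : (M : ℝ) ≤ X) (h2 : M ≤ 2 * X ^ κ * (q * T))
    (hW : W ⊆ box q (2 * T)) (hb : ∀ n, ‖b n‖ ≤ 1) (hU : 0 ≤ U)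
    (h : ∀ w ∈ W, U ≤ ‖dp (dy M) b w‖) :
    W.card * U ^ 2 ≤ (5 + 224 * (49 + 1 / κ)) * (X ^ κ) ^ 2 * (q * T) * M := by
  have hM' : (1 : ℝ) ≤ M := by exact_mod_cast hM
  have hY : 1 ≤ X ^ κ := Real.one_le_rpow hX hκ.le
  have hK : 0 ≤ q * T := by positivity
  have a1 := mv1 (q := q) (T := 2 * T) (M := M) (by linarith) (by linarith) (dy M)
    (fun n hn => ⟨(er_dy hn).1, by linarith [(er_dy hn).2]⟩) b
  have a2 : Real.log (1 + 48 * M) ≤ Real.log (49 * X) :=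
    Real.log_le_log (by positivity) (by linarith)
  have a3 : Real.log 49 ≤ 49 - 1 := Real.log_le_sub_one_of_pos (by norm_num)
  have a4 := Real.log_le_rpow_div (show 0 ≤ X by linarith) hκ
  rw [Real.log_mul (by norm_num) (by positivity)] at a2
  have a5 : 1 + Real.log (1 + 48 * M) ≤ (49 + 1 / κ) * X ^ κ := by
    rw [add_mul, one_div, inv_mul_eq_div]
    linarith
  have a6 : 0 ≤ 1 + Real.log (1 + 48 * M) := by
    linarith [Real.log_nonneg (show (1 : ℝ) ≤ 1 + 48 * M by linarith)]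
  have a7 : (M : ℝ) * (1 + Real.log (1 + 48 * M)) ≤
      2 * X ^ κ * (q * T) * ((49 + 1 / κ) * X ^ κ) := mul_le_mul h2 a5 a6 (by positivity)
  have a8 : q * T ≤ (X ^ κ) ^ 2 * (q * T) := le_mul_of_one_le_left hK (one_le_pow₀ hY)
  refine (er_card hW hU h).trans (a1.trans (mul_le_mul ?_ (er_sq hb) (by positivity) (by positivity)))
  linarith [er_five (q := q) hT]

theorem er_two {κ : ℝ} (hκ : 0 < κ) : ∃ C : ℝ, 0 ≤ C ∧ ∀ {X T U V Z : ℝ} {q M N : ℕ} [NeZero q]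
    {W : Finset (Gq q)} {a b : ℕ → ℂ}, 1 ≤ X → 1 ≤ T → 1 ≤ M → 1 ≤ N → (M : ℝ) * N ≤ Z → Z ≤ X →
    q * T ≤ 2 * X ^ κ * Z → W ⊆ box q (2 * T) → (∀ n, ‖a n‖ ≤ 1) → (∀ n, ‖b n‖ ≤ 1) → 0 ≤ U →
    0 ≤ V → (∀ w ∈ W, U ≤ ‖dp (dy M) a w‖) → (∀ w ∈ W, V ≤ ‖dp (dy N) b w‖) →
    W.card * (U * V) ^ 2 ≤ C * (X ^ κ) ^ 2 * Z ^ 2 := by
  obtain ⟨C, hC, h⟩ := mv2 hκ
  refine ⟨11 * C, by positivity, fun {X T U V Z q M N} _ {W a b} hX hT hM hN h1 h2 h3 hW ha hb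
    hU hV h4 h5 => ?_⟩
  have hY : 1 ≤ X ^ κ := Real.one_le_rpow hX hκ.le
  have hZ : 0 ≤ Z := le_trans (by positivity) h1
  have a1 : ((M : ℝ) * N) ^ κ ≤ X ^ κ := Real.rpow_le_rpow (by positivity) (h1.trans h2) hκ.le
  have a2 : (q : ℝ) * (2 * (2 * T) + 1) + M * N ≤ 11 * X ^ κ * Z := by
    linarith [er_five (q := q) hT, le_mul_of_one_le_left hZ hY]
  refine (er_card hW (mul_nonneg hU hV) fun w hw => ?_).trans
    ((h q (2 * T) M N a b (by linarith) hM hN ha hb).trans ?_)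
  · rw [norm_mul]
    exact mul_le_mul (h4 w hw) (h5 w hw) hV (norm_nonneg _)
  · calc _ ≤ C * X ^ κ * (11 * X ^ κ * Z) * Z := by gcongr
      _ = _ := by ring

theorem er_hm {κ : ℝ} (hκ : 0 < κ) : ∃ C : ℝ, 0 ≤ C ∧ ∀ {X T U : ℝ} {q M : ℕ} [NeZero q]
    {W : Finset (Gq q)} {b : ℕ → ℂ}, 1 ≤ X → 1 ≤ T → 1 ≤ M → q * T ≤ 2 * X ^ (1 / 2 + κ) →
    W ⊆ box q (2 * T) → 0 < W.card → (∀ n, ‖b n‖ ≤ 1) → 0 ≤ U →
    (∀ w ∈ W, U ≤ ‖dp (dy M) b w‖) →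
    W.card * U ^ 2 ≤ C * X ^ κ * (M : ℝ) ^ 2 ∨ U ^ 4 ≤ C * X ^ κ * (M : ℝ) ^ 2 * (q * T) := by
  have hε : 0 < κ / (1 + 2 * κ) := by positivity
  obtain ⟨C, hC, h⟩ := hm_box hε
  refine ⟨2 * C + 200 * C ^ 2, by positivity, fun {X T U q M} _ {W b} hX hT hM h1 hW hR hb hU
    h2 => ?_⟩
  have hM' : (1 : ℝ) ≤ M := by exact_mod_cast hM
  have hR' : (0 : ℝ) < W.card := by exact_mod_cast hR
  have hq : (0 : ℝ) < q := by exact_mod_cast NeZero.pos q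
  have hY : 1 ≤ X ^ κ := Real.one_le_rpow hX hκ.le
  have a0 : (q : ℝ) * (1 + 2 * (2 * T)) ≤ 5 * (q * T) := by linarith [er_five (q := q) hT]
  have a1 := (er_card Subset.rfl hU h2).trans ((h q (2 * T) M W (dy M) b (by linarith)
    (by linarith) hW fun n hn => er_dy hn).trans
      (mul_le_mul_of_nonneg_left (er_sq hb) (by positivity)))
  have a2 : ((q : ℝ) * (1 + 2 * (2 * T))) ^ (2 * (κ / (1 + 2 * κ))) ≤ 10 * X ^ κ := by
    refine (Real.rpow_le_rpow (by positivity) (a0.trans (show _ ≤ 10 * X ^ (1 / 2 + κ) by linarith))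
      (by positivity)).trans ?_
    rw [Real.mul_rpow (by norm_num) (by positivity), ← Real.rpow_mul (by linarith),
      show (1 / 2 + κ) * (2 * (κ / (1 + 2 * κ))) = κ by field_simp]
    refine mul_le_mul_of_nonneg_right (Real.rpow_le_self_of_one_le (by norm_num) ?_) (by linarith)
    rw [← mul_div_assoc, div_le_one (by positivity)]
    linarith
  have a3 : (((q : ℝ) * (1 + 2 * (2 * T))) ^ (1 / 2 + κ / (1 + 2 * κ))) ^ 2 ≤
      5 * (q * T) * (10 * X ^ κ) := by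
    rw [← Real.rpow_natCast, ← Real.rpow_mul (by positivity),
      show (1 / 2 + κ / (1 + 2 * κ)) * ((2 : ℕ) : ℝ) = 1 + 2 * (κ / (1 + 2 * κ)) by push_cast; ring,
      Real.rpow_add (by positivity), Real.rpow_one]
    exact mul_le_mul a0 a2 (by positivity) (by positivity)
  have a4 : 0 ≤ ((q : ℝ) * (1 + 2 * (2 * T))) ^ (1 / 2 + κ / (1 + 2 * κ)) := by positivity
  generalize ((q : ℝ) * (1 + 2 * (2 * T))) ^ (1 / 2 + κ / (1 + 2 * κ)) = Z at a1 a3 a4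
  rcases le_total (W.card * Z) (M : ℝ) with h3 | h3
  · left
    calc _ ≤ C * (M + M) * M := a1.trans (by gcongr)
      _ = 2 * C * 1 * (M : ℝ) ^ 2 := by ring
      _ ≤ _ := by
          gcongr
          exact le_add_of_nonneg_right (by positivity)
  · right
    have a5 : U ^ 2 ≤ 2 * C * Z * M := by
      refine le_of_mul_le_mul_left (a1.trans ?_) hR'
      calc _ ≤ C * (W.card * Z + W.card * Z) * M := by gcongr
        _ = _ := by ring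
    calc U ^ 4 = (U ^ 2) ^ 2 := by ring
      _ ≤ (2 * C * Z * M) ^ 2 := pow_le_pow_left₀ (by positivity) a5 2
      _ = 4 * C ^ 2 * (M : ℝ) ^ 2 * Z ^ 2 := by ring
      _ ≤ 4 * C ^ 2 * (M : ℝ) ^ 2 * (5 * (q * T) * (10 * X ^ κ)) := by gcongr
      _ = 200 * C ^ 2 * X ^ κ * (M : ℝ) ^ 2 * (q * T) := by ring
      _ ≤ _ := by
          gcongr
          exact le_add_of_nonneg_left (by positivity)

theorem er {κ : ℝ} (hκ : 0 < κ) : ∃ C : ℝ, 0 ≤ C ∧ ∀ (X P T U1 U2 U3 : ℝ) (B : Tr) (q : ℕ)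
    [NeZero q] (W : Finset (Gq q)), 1 ≤ X → 1 ≤ P → P ≤ X ^ (5 / 12 : ℝ) → B.Ok X P → 1 ≤ T →
    P * X ^ (-κ) ≤ 2 * (q * T) → q * T ≤ 2 * X ^ (1 / 2 + κ) → W ⊆ box q (2 * T) →
    0 < U1 → 0 < U2 → 0 < U3 → (∀ w ∈ W, U1 ≤ ‖dp (dy B.M1) B.b1 w‖) →
    (∀ w ∈ W, U2 ≤ ‖dp (dy B.M2) B.b2 w‖) → (∀ w ∈ W, U3 ≤ ‖dp (dy B.M3) B.b3 w‖) →
    en W * (U1 * U2 * U3) ^ 2 ≤ C * X ^ (30 * κ) * W.card * (q * T) * X ^ 2 / P := by
  obtain ⟨C2, hC2, t2⟩ := er_two hκ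
  obtain ⟨C3, hC3, t3⟩ := er_hm hκ
  obtain ⟨C4, hC4, t4⟩ := energy hκ
  have hC1 : 0 ≤ 5 + 224 * (49 + 1 / κ) := by positivity
  obtain ⟨C, hC⟩ : ∃ C, C = 4 + (5 + 224 * (49 + 1 / κ)) + C2 + C3 + 34 ^ 3 * C4 := ⟨_, rfl⟩
  have C0 : 0 ≤ C := by rw [hC]; positivity
  refine ⟨C ^ 5, by positivity, fun X P T U1 U2 U3 B q _ W hX hP hPX hB hT k1 k2 hW u1 u2 u3
    v1 v2 v3 => ?_⟩
  have X0 : 0 < X := by linarith
  have hq : (0 : ℝ) < q := by exact_mod_cast NeZero.pos q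
  have hK : 0 < q * T := by positivity
  rcases W.eq_empty_or_nonempty with rfl | hne
  · have := en_le (∅ : Finset (Gq q))
    rw [card_empty, zero_pow (by norm_num), Nat.le_zero] at this
    simp [this]
  have hR := card_pos.2 hne
  have hY : 1 ≤ X ^ κ := Real.one_le_rpow hX hκ.le
  have hL : ∀ (c : ℝ) (j : ℕ), c ≤ C → j ≤ 6 → c * (X ^ κ) ^ j ≤ C * (X ^ κ) ^ 6 := fun c j h1 h2 =>
    mul_le_mul h1 (pow_le_pow_right₀ hY h2) (by positivity) C0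
  have p1 : (1 : ℝ) ≤ B.M1 := by exact_mod_cast hB.p1
  have p2 : (1 : ℝ) ≤ B.M2 := by exact_mod_cast hB.p2
  have p3 : (1 : ℝ) ≤ B.M3 := by exact_mod_cast hB.p3
  have s1 : P ≤ 2 * X ^ κ * (q * T) := by
    rw [Real.rpow_neg X0.le, ← div_eq_mul_inv, div_le_iff₀ (by positivity)] at k1
    linarith
  have s2 : X ^ (1 / 2 : ℝ) * X ^ (1 / 2 : ℝ) = X := by
    rw [← Real.rpow_add X0, add_halves, Real.rpow_one]
  have s3 : P ≤ X ^ (1 / 2 : ℝ) := hPX.trans (Real.rpow_le_rpow_of_exponent_le hX (by norm_num))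
  have s4 : P ≤ X := s3.trans (Real.rpow_le_self_of_one_le hX (by norm_num))
  have s5 : q * T ≤ 2 * X ^ κ * X ^ (1 / 2 : ℝ) := by
    rw [Real.rpow_add X0] at k2
    linarith
  have s6 : ∀ M : ℝ, 1 ≤ M → M ≤ P → X / M ≤ X ∧ q * T ≤ 2 * X ^ κ * (X / M) := fun M h1 h2 => by
    refine ⟨div_le_self X0.le h1, s5.trans (mul_le_mul_of_nonneg_left ?_ (by positivity))⟩
    rw [le_div_iff₀ (by linarith)]
    exact (mul_le_mul_of_nonneg_left (h2.trans s3) (by positivity)).trans s2.le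
  have s7 : (B.M3 : ℝ) ^ κ ≤ X ^ κ := by
    refine Real.rpow_le_rpow (by positivity) (le_trans ?_ hB.up) hκ.le
    exact le_mul_of_one_le_left (by positivity) (one_le_mul_of_one_le_of_one_le p1 p2)
  have e : C ^ 5 * X ^ (30 * κ) = (C * (X ^ κ) ^ 6) ^ 5 := by
    rw [mul_pow, ← pow_mul, mul_comm 30 κ, Real.rpow_mul X0.le, ← Real.rpow_natCast (X ^ κ)]
    norm_num
  rw [e]
  refine expo (M1 := B.M1) (M2 := B.M2) (N := B.M3) X0 (by linarith) hK (by linarith) (by linarith)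
    (by linarith) u1 u2 u3 (by exact_mod_cast hR) (by positivity) ?_ ?_ ?_ hB.up ?_ ?_ ?_ ?_ ?_ ?_ ?_
    (by exact_mod_cast en_le W) ?_
  · simpa using hL 1 0 (by linarith) (by norm_num)
  · refine s1.trans (mul_le_mul_of_nonneg_right ?_ hK.le)
    simpa using hL 2 1 (by linarith) (by norm_num)
  · calc (q * T) ^ 2 ≤ (2 * X ^ κ * X ^ (1 / 2 : ℝ)) ^ 2 := pow_le_pow_left₀ hK.le s5 2
      _ = 4 * (X ^ κ) ^ 2 * (X ^ (1 / 2 : ℝ) * X ^ (1 / 2 : ℝ)) := by ring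
      _ ≤ _ := by
          rw [s2]
          exact mul_le_mul_of_nonneg_right (hL 4 2 (by linarith) (by norm_num)) X0.le
  · refine (pow_le_pow_left₀ (by linarith) hPX 12).trans (le_of_eq ?_)
    rw [← Real.rpow_natCast, ← Real.rpow_mul X0.le, ← Real.rpow_natCast]
    norm_num
  · refine (er_one hκ hX hT hB.p1 (hB.m1.trans s4) (hB.m1.trans s1) hW hB.n1 u1.le v1).trans ?_
    gcongr ?_ * _ * _
    exact hL _ 2 (by linarith) (by norm_num)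
  · refine (er_one hκ hX hT hB.p2 (hB.m2.trans s4) (hB.m2.trans s1) hW hB.n2 u2.le v2).trans ?_
    gcongr ?_ * _ * _
    exact hL _ 2 (by linarith) (by norm_num)
  · refine (t2 hX hT hB.p2 hB.p3 ?_ (s6 _ p1 hB.m1).1 (s6 _ p1 hB.m1).2 hW hB.n2 hB.n3 u2.le u3.le
      v2 v3).trans (mul_le_mul_of_nonneg_right (hL _ 2 (by linarith) (by norm_num)) (sq_nonneg _))
    rw [le_div_iff₀ (by linarith)]
    linarith [hB.up]
  · refine (t2 hX hT hB.p1 hB.p3 ?_ (s6 _ p2 hB.m2).1 (s6 _ p2 hB.m2).2 hW hB.n1 hB.n3 u1.le u3.le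
      v1 v3).trans (mul_le_mul_of_nonneg_right (hL _ 2 (by linarith) (by norm_num)) (sq_nonneg _))
    rw [le_div_iff₀ (by linarith)]
    linarith [hB.up]
  · have h1 := hL C3 1 (by linarith) (by norm_num)
    rw [pow_one] at h1
    exact (t3 hX hT hB.p1 k2 hW hR hB.n1 u1.le v1).imp (fun h => h.trans (by gcongr))
      fun h => h.trans (by gcongr)
  · have h1 := hL C3 1 (by linarith) (by norm_num)
    rw [pow_one] at h1
    exact (t3 hX hT hB.p2 k2 hW hR hB.n2 u2.le v2).imp (fun h => h.trans (by gcongr))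
      fun h => h.trans (by gcongr)
  · refine (t4 q (2 * T) U3 B.M3 W B.b3 (by linarith) hB.p3 hW hB.n3 u3.le v3).imp
      (fun h => h.trans ?_) fun h => h.trans ?_
    · have h1 : q * (2 * T) + (B.M3 : ℝ) ^ 2 ≤ 34 * X ^ κ * (q * T) := by
        linarith [hB.m3, le_mul_of_one_le_left hK.le hY]
      calc _ ≤ C4 * X ^ κ * (W.card : ℝ) ^ 2 * (B.M3 : ℝ) ^ 6 * (34 * X ^ κ * (q * T)) ^ 3 := by
            gcongr
        _ = 34 ^ 3 * C4 * (X ^ κ) ^ 4 * (W.card : ℝ) ^ 2 * (B.M3 : ℝ) ^ 6 * (q * T) ^ 3 := by ring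
        _ ≤ _ := by
            gcongr ?_ * _ * _ * _
            exact hL _ 4 (by linarith) (by norm_num)
    · calc _ ≤ C4 * X ^ κ * (W.card : ℝ) ^ 5 * (q * (2 * T)) * (B.M3 : ℝ) ^ 3 := by gcongr
        _ = 2 * C4 * (X ^ κ) ^ 1 * (W.card : ℝ) ^ 5 * (q * T) * (B.M3 : ℝ) ^ 3 := by ring
        _ ≤ _ := by
            gcongr ?_ * _ * _ * _
            exact hL _ 1 (by linarith) (by norm_num)

end Pool.Agent.Lib.MP_778b46_nt.MB
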