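import Pool.Agent.Lib.MP_778b46_nt.MB.Defs
import Pool.Agent.Lib.MP_778b46_nt.MA.O3
import Pool.Agent.Lib.MP_778b46_nt.MA.O5

/-! The singular integral as a series of pure powers. -/

set_option autoImplicit false

noncomputable section

namespace Pool.Agent.Lib.MP_778b46_nt.MB

open Complex Finset MeasureTheory
open scoped Real ComplexConjugate
open Pool.Agent.Lib.MP_03e5d0_nt (Sm ex ft bump)
open Pool.Agent.Lib.MP_778b46_nt.MA

theorem wt_w2 : Wt w2 := by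
  refine ⟨(o1_smooth _).comp ((contDiff_const.mul contDiff_id).sub contDiff_const),
    fun x hx => MP_03e5d0_nt.bump_eq_zero ?_⟩
  rcases hx with hx | hx
  · exact le_abs.2 (Or.inr (by linarith))
  · exact le_abs.2 (Or.inl (by linarith))

theorem al_bd (j : ℕ) : ∃ C : ℝ, 0 ≤ C ∧ ∀ k : ℤ, ‖al k‖ ≤ C / (1 + |(k : ℝ)|) ^ j := by
  obtain ⟨C, hC, h⟩ := mm_bd wt_w1 j
  refine ⟨‖(2 * π : ℂ)⁻¹‖ * C, by positivity, fun k => ?_⟩
  have h1 := h 0 (-(I * k)) (by simp) (by simp)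
  rw [abs_zero, add_zero, show (-(I * k)).im = -(k : ℝ) by simp, abs_neg, div_pow, one_pow,
    mul_one_div] at h1
  rw [al, norm_mul, mul_div_assoc]
  exact mul_le_mul_of_nonneg_left h1 (norm_nonneg _)

theorem gs_w1 {x : ℝ} (h : w1 x ≠ 0) : 1 / 4 < x ∧ x < 7 / 8 := by
  by_contra hx
  rw [not_and_or, not_lt, not_lt] at hx
  refine h ?_
  rw [w1, show w0 x = 0 from MP_03e5d0_nt.bump_eq_zero ?_, mul_zero]
  rcases hx with hx | hx
  · exact le_abs.2 (Or.inr (by linarith))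
  · exact le_abs.2 (Or.inl (by linarith))

theorem gg_zero (s s' : ℂ) {ν : ℝ} (h : ν ≤ 1 / 2 ∨ 7 / 4 ≤ ν) : GG w1 s s' ν = 0 := by
  rw [GG, ← integral_zero ℝ ℂ]
  congr 1
  funext x
  by_cases h1 : w1 x = 0
  · simp [gs, h1]
  by_cases h2 : w1 (ν - x) = 0
  · simp [gs, h2]
  have a := gs_w1 h1
  have b := gs_w1 h2
  rcases h with h | h <;> linarith [a.1, a.2, b.1, b.2]

theorem gs_al : Summable fun k : ℤ => ‖al k‖ := by
  obtain ⟨C, hC, h⟩ := al_bd 2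
  have hs : Summable fun n : ℤ => 1 / (n : ℝ) ^ 2 := Real.summable_one_div_int_pow.2 one_lt_two
  refine ((hs.mul_left C).of_norm_bounded_eventually ?_ : Summable al).norm
  filter_upwards [Filter.eventually_cofinite_ne 0] with n hn
  refine (h n).trans ?_
  have h4 : (0 : ℝ) < (n : ℝ) ^ 2 := by positivity
  rw [mul_one_div]
  refine div_le_div_of_nonneg_left hC h4 ?_
  rw [← sq_abs]
  exact pow_le_pow_left₀ (abs_nonneg _) (by linarith) 2

theorem gs_norm (k : ℤ) (z : ℝ) : ‖gs w2 (I * k) z‖ ≤ 4 * |w2 z| :=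
  (norm_gs_le wt_w2 (by simp) z).trans
    (mul_le_mul_of_nonneg_right (o5_pow (by simp)) (abs_nonneg _))

theorem gs_log {x : ℝ} (h1 : 1 / 16 ≤ x) (h2 : x ≤ 2) : |Real.log x| ≤ 4 := by
  have h3 := Real.log_le_log (by norm_num) h1
  have h4 := Real.log_le_sub_one_of_pos (show 0 < x by linarith)
  rw [one_div, Real.log_inv, show (16 : ℝ) = 2 ^ 4 by norm_num, Real.log_pow] at h3
  have := Real.log_two_lt_d9
  push_cast at h3
  exact abs_le.2 ⟨by linarith, by linarith⟩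

theorem gs_one (t : ℤ) {l : ℝ} (h1 : 1 / 4 ≤ l) (h2 : l ≤ 2) (z : ℝ) :
    HasSum (fun k : ℤ => al k * (((l⁻¹ : ℝ) : ℂ) * ex ((k - t : ℤ) : ℝ) (Real.log l) *
      gs w2 (I * (k - t : ℤ)) z)) (w2 z * gs w1 (-(I * t)) (l * z)) := by
  by_cases hz : w2 z = 0
  · simp [gs, hz]
  have hz' : 1 / 4 < z ∧ z < 1 := by
    by_contra hx
    rw [not_and_or, not_lt, not_lt] at hx
    exact hz (wt_w2.supp z hx)
  have hl : 0 < l := by linarith
  have h0 : 0 < z := by linarith [hz'.1]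
  have h := (mm_series wt_w1 0 (mul_pos hl h0) (gs_log (by nlinarith [hz'.1])
    (by nlinarith [hz'.2]))).mul_right
      (w2 z * cexp ((-(I * t) - 1) * (Real.log (l * z) : ℝ)))
  have e3 : (w1 (l * z) : ℂ) * ex 0 (l * z) *
      (w2 z * cexp ((-(I * t) - 1) * (Real.log (l * z) : ℝ))) =
      w2 z * gs w1 (-(I * t)) (l * z) := by
    rw [gs, ex]
    simp only [ofReal_zero, mul_zero, zero_mul, Complex.exp_zero, mul_one]
    ring
  rw [e3] at h
  refine h.congr_fun fun k => ?_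
  have e : ((l⁻¹ : ℝ) : ℂ) = cexp (-(Real.log l : ℝ)) := by
    rw [← ofReal_neg, ← ofReal_exp, Real.exp_neg, Real.exp_log hl]
  have e2 : cexp (-(Real.log l : ℝ)) * cexp (I * ((k - t : ℤ) : ℝ) * (Real.log l : ℝ)) *
      cexp ((I * (k - t : ℤ) - 1) * (Real.log z : ℝ)) =
      cexp (I * (k : ℝ) * (Real.log l + Real.log z : ℝ)) *
        cexp ((-(I * t) - 1) * (Real.log l + Real.log z : ℝ)) := by
    simp only [← Complex.exp_add]
    congr 1
    push_cast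
    ring
  rw [e, al, gs, ex, ex, Real.log_mul hl.ne' h0.ne']
  linear_combination (2 * π : ℂ)⁻¹ * MM w1 0 (-(I * k)) * w2 z * e2

theorem gs_prod {f g : ℤ → ℂ} {a b : ℂ} (hf : HasSum f a) (hg : HasSum g b) (c : ℂ) :
    ∑' p : ℤ × ℤ, c * (f p.1 * g p.2) = c * (a * b) :=
  ((hf.mul hg (summable_mul_of_summable_norm hf.summable.norm hg.summable.norm)).mul_left
    c).tsum_eq

theorem gs_two {l z : ℝ} (hl : 0 < l) (s s' : ℂ) :
    w2 z * gs w1 s (l * z) * (w2 (6 / 5 - z) * gs w1 s' (l * (6 / 5 - z))) =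
      gs w1 s (l * z) * gs w1 s' (l * (6 / 5 - z)) := by
  by_cases h1 : w1 (l * z) = 0
  · simp [gs, h1]
  by_cases h2 : w1 (l * (6 / 5 - z)) = 0
  · simp [gs, h2]
  obtain ⟨a1, a2⟩ := gs_w1 h1
  obtain ⟨b1, b2⟩ := gs_w1 h2
  have c1 : 4 / 15 < z := by
    by_contra hc
    nlinarith [mul_nonneg hl.le (sub_nonneg.2 (not_lt.1 hc))]
  have c2 : z < 14 / 15 := by
    by_contra hc
    nlinarith [mul_nonneg hl.le (sub_nonneg.2 (not_lt.1 hc))]
  rw [show w2 z = 1 from MP_03e5d0_nt.bump_eq_one (abs_le.2 ⟨by linarith, by linarith⟩),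
    show w2 (6 / 5 - z) = 1 from MP_03e5d0_nt.bump_eq_one (abs_le.2 ⟨by linarith, by linarith⟩)]
  simp

theorem gg_series {ν : ℝ} (h1 : 1 / 2 ≤ ν) (h2 : ν ≤ 7 / 4) (t t' : ℤ) :
    HasSum (fun p : ℤ × ℤ => al p.1 * al p.2 * ((6 / 5 / ν : ℝ) *
      ex ((p.1 + p.2 - (t + t') : ℤ) : ℝ) (Real.log (ν / (6 / 5))) *
        GG w2 (I * (p.1 - t : ℤ)) (I * (p.2 - t' : ℤ)) (6 / 5)))
      (GG w1 (-(I * t)) (-(I * t')) ν) := by
  obtain ⟨l, hl⟩ : ∃ l, l = ν / (6 / 5) := ⟨_, rfl⟩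
  have l1 : 1 / 4 ≤ l := by
    rw [hl]
    linarith
  have l2 : l ≤ 2 := by
    rw [hl]
    linarith
  have l0 : 0 < l := by linarith
  have lc : (l : ℂ) ≠ 0 := ofReal_ne_zero.2 l0.ne'
  have e0 : 6 / 5 / ν = l⁻¹ := by rw [hl, inv_div]
  have e1 : ν = l * (6 / 5) := by
    rw [hl]
    ring
  rw [← hl, e0]
  obtain ⟨A, hA⟩ : ∃ A : ℤ × ℤ → ℂ, ∀ p, A p = al p.1 * al p.2 * ((l⁻¹ : ℝ) *
      ex ((p.1 + p.2 - (t + t') : ℤ) : ℝ) (Real.log l)) := ⟨_, fun _ => rfl⟩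
  have nA : ∀ p, ‖A p‖ = ‖al p.1‖ * ‖al p.2‖ * |l⁻¹| := fun p => by
    rw [hA]
    simp only [norm_mul, MP_03e5d0_nt.norm_ex, mul_one, norm_real, Real.norm_eq_abs]
  have hi := fun p : ℤ × ℤ =>
    (o5_int wt_w2 (I * (p.1 - t : ℤ)) (I * (p.2 - t' : ℤ)) (6 / 5)).const_mul (A p)
  have hb := ((o5_int0 wt_w2 (6 / 5)).abs.const_mul 16)
  have hs := hasSum_integral_of_summable_integral_norm hi (by
    refine ((gs_al.mul_of_nonneg gs_al (fun _ => norm_nonneg _) fun _ => norm_nonneg _).mul_right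
      (|l⁻¹| * ∫ x, 16 * |w2 x * w2 (6 / 5 - x)|)).of_nonneg_of_le
      (fun p => integral_nonneg fun _ => norm_nonneg _) fun p => ?_
    rw [← mul_assoc, ← nA, ← integral_const_mul]
    refine integral_mono (hi p).norm (hb.const_mul _) fun x => ?_
    have a := gs_norm (p.1 - t) x
    have b := gs_norm (p.2 - t') (6 / 5 - x)
    simp only [norm_mul, abs_mul]
    refine mul_le_mul_of_nonneg_left ?_ (norm_nonneg _)
    calc _ ≤ 4 * |w2 x| * (4 * |w2 (6 / 5 - x)|) := by gcongr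
      _ = _ := by ring)
  have pt : ∀ z : ℝ, ∑' p : ℤ × ℤ, A p * (gs w2 (I * (p.1 - t : ℤ)) z *
      gs w2 (I * (p.2 - t' : ℤ)) (6 / 5 - z)) =
      l * (gs w1 (-(I * t)) (l * z) * gs w1 (-(I * t')) (ν - l * z)) := fun z => by
    have h := gs_prod (gs_one t l1 l2 z) (gs_one t' l1 l2 (6 / 5 - z)) l
    rw [gs_two l0, mul_sub, ← e1] at h
    rw [← h]
    refine tsum_congr fun p => ?_
    rw [hA, show ((p.1 + p.2 - (t + t') : ℤ) : ℝ) = ((p.1 - t : ℤ) : ℝ) + ((p.2 - t' : ℤ) : ℝ) by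
      push_cast; ring]
    simp only [MP_03e5d0_nt.ex_add', ofReal_inv]
    field_simp
  simp only [pt, integral_const_mul] at hs
  rw [Measure.integral_comp_mul_left
    (fun x => gs w1 (-(I * t)) x * gs w1 (-(I * t')) (ν - x)) l, abs_of_pos (inv_pos.2 l0),
    real_smul, ofReal_inv, mul_inv_cancel_left₀ lc] at hs
  refine hs.congr_fun fun p => ?_
  rw [hA, GG]
  ring

end Pool.Agent.Lib.MP_778b46_nt.MB
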