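import Pool.Agent.Lib.MP_778b46_nt.MB.My
import Pool.Agent.Lib.MP_778b46_nt.MA.F1
import Pool.Agent.Lib.MP_2a1a00_nt.Div

/-! Smooth character sums with a twist, by Poisson summation. -/

set_option autoImplicit false

noncomputable section

namespace Pool.Agent.Lib.MP_778b46_nt.MB

open Complex Finset MeasureTheory
open scoped Real ComplexConjugate
open Pool.Agent.Lib.MP_03e5d0_nt (Sm ex ft bump)
open Pool.Agent.Lib.MP_778b46_nt.MA

open scoped FourierTransform in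
theorem kb_ft (s : ℂ) {a : ℝ} (ha : 0 < a) (ξ : ℝ) :
    𝓕 (fun x => gs w1 s (x * a)) ξ = (a⁻¹ : ℝ) * MM w1 (-(2 * π * ξ / a)) s := by
  rw [Real.fourier_real_eq_integral_exp_smul, MM]
  have e := Measure.integral_comp_mul_right (fun v : ℝ => gs w1 s v * ex (-(2 * π * ξ / a)) v) a
  rw [abs_of_pos (inv_pos.2 ha), real_smul] at e
  rw [← e]
  refine integral_congr_ae (ae_of_all _ fun v => ?_)
  have h : (a : ℂ) ≠ 0 := ofReal_ne_zero.2 ha.ne'
  simp only [smul_eq_mul, ex]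
  rw [mul_comm]
  congr 2
  push_cast
  field_simp

theorem kb_class {s : ℂ} (h0 : 0 ≤ s.re) (h2 : s.re ≤ 2) {a : ℝ} (ha : 0 < a) (x : ℝ) :
    HasSum (fun h : ℤ => (a⁻¹ : ℝ) * MM w1 (-(2 * π * h / a)) s * ee (x * h))
      (∑' k : ℤ, gs w1 s ((x + k) * a)) := by
  obtain ⟨C, hC, bd⟩ := mm_y wt_w1 2
  have hs : Summable fun n : ℤ => 1 / (n : ℝ) ^ 2 := Real.summable_one_div_int_pow.2 one_lt_two
  have sm : Summable fun n : ℤ => FourierTransform.fourier (fun x => gs w1 s (x * a)) (n : ℝ) := by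
    refine (hs.mul_left (a⁻¹ * (C * ((1 + |s.im|) * a) ^ 2))).of_norm_bounded_eventually ?_
    filter_upwards [Filter.eventually_cofinite_ne 0] with n hn
    have h1 : (0 : ℝ) < |(n : ℝ)| := abs_pos.2 (Int.cast_ne_zero.2 hn)
    rw [kb_ft s ha, norm_mul, norm_real, Real.norm_of_nonneg (by positivity), mul_assoc a⁻¹]
    refine mul_le_mul_of_nonneg_left ((bd _ s h0 h2).trans ?_) (by positivity)
    rw [mul_assoc C, ← sq_abs (n : ℝ), mul_one_div, ← div_pow]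
    refine mul_le_mul_of_nonneg_left (pow_le_pow_left₀ (by positivity) ?_ 2) hC
    rw [abs_neg, abs_div, abs_mul, abs_of_pos ha, abs_of_pos (by positivity : 0 < 2 * π),
      div_le_div_iff₀ (by positivity) h1, mul_assoc (1 + |s.im|)]
    refine mul_le_mul_of_nonneg_left ?_ (by positivity)
    rw [mul_add, mul_div_cancel₀ _ ha.ne']
    nlinarith [Real.pi_gt_three]
  have hcs : HasCompactSupport fun x => gs w1 s (x * a) :=
    (gs_hcs wt_w1 s).comp_homeomorph (Homeomorph.mulRight₀ a ha.ne')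
  have po := Real.tsum_eq_tsum_fourier_of_rpow_decay_of_summable (f := fun x => gs w1 s (x * a))
    ((gs_smooth wt_w1 s).continuous.comp (by fun_prop)) one_lt_two
    ((Asymptotics.isBigO_zero _ _).congr' (by
      rw [← Filter.coclosedCompact_eq_cocompact]
      exact (hasCompactSupport_iff_eventuallyEq.1 hcs).symm) Filter.EventuallyEq.rfl) sm x
  have nf : ∀ (n : ℤ) (x : UnitAddCircle), ‖fourier n x‖ = 1 := fun n x => Circle.norm_coe _
  have sm' : Summable fun n : ℤ => FourierTransform.fourier (fun x => gs w1 s (x * a)) (n : ℝ) *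
      fourier n (x : UnitAddCircle) :=
    sm.norm.of_norm_bounded fun n => by rw [norm_mul, nf, mul_one]
  rw [po]
  convert sm'.hasSum using 2 with n
  rw [kb_ft s ha, fourier_coe_apply, ee]
  congr 2
  push_cast
  ring

/-- Poisson summation in the residue classes modulo `q`. -/
theorem kb_poisson {q : ℕ} [NeZero q] (ψ : DirichletCharacter ℂ q) {M : ℝ} (τ : ℝ) {Z : ℕ}
    (hM : 0 < M) (hZ : M ≤ Z) :
    HasSum (fun h : ℤ => (M / q : ℝ) * ex τ (Real.log M) * GS ψ q h *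
      MM w1 (-(2 * π * M * h / q)) (1 + I * τ))
      (∑ n ∈ Ioc 0 Z, (w1 (n / M) : ℂ) * (ψ (n : ZMod q) * ex τ (Real.log n))) := by
  have hq : (0 : ℝ) < q := Nat.cast_pos.2 (Nat.pos_of_ne_zero (NeZero.ne q))
  have ha : 0 < q / M := div_pos hq hM
  obtain ⟨F, hF⟩ : ∃ F : ℤ → ℂ, F = fun m : ℤ =>
      ψ (m : ZMod q) * ex τ (Real.log M) * gs w1 (1 + I * τ) (m / M) := ⟨_, rfl⟩
  have z : ∀ m ∉ (Ioc 0 Z).map Nat.castEmbedding, F m = 0 := fun m hm => by
    rw [hF]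
    simp only
    rw [gs_zero wt_w1, mul_zero]
    by_cases h : m ≤ 0
    · have h1 : (m : ℝ) ≤ 0 := by exact_mod_cast h
      exact Or.inl ((div_nonpos_of_nonpos_of_nonneg h1 hM.le).trans (by norm_num))
    · lift m to ℕ using by omega
      have h1 : Z < m := by
        by_contra h1
        exact hm (mem_map_of_mem _ (mem_Ioc.2 ⟨by omega, by omega⟩))
      have h2 : (Z : ℝ) ≤ m := by exact_mod_cast h1.le
      exact Or.inr ((one_le_div hM).2 (hZ.trans h2))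
  have e0 : ∑ n ∈ Ioc 0 Z, (w1 (n / M) : ℂ) * (ψ (n : ZMod q) * ex τ (Real.log n)) =
      ∑' m, F m := by
    rw [tsum_eq_sum z, sum_map]
    refine sum_congr rfl fun n hn => ?_
    have h1 : (n : ℝ) ≠ 0 := Nat.cast_ne_zero.2 (mem_Ioc.1 hn).1.ne'
    simp only [hF, Nat.castEmbedding_apply, Int.cast_natCast, gs]
    rw [show Real.log n = Real.log M + Real.log (n / M) by rw [Real.log_div h1 hM.ne']; ring,
      MP_03e5d0_nt.ex_add, add_sub_cancel_left, ex.eq_1 τ (Real.log (n / M))]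
    ring
  let e : Fin q × ℤ ≃ ℤ := (Equiv.prodComm _ _).trans (Int.divModEquiv q).symm
  have he : ∀ (r : Fin q) (k : ℤ), e (r, k) = (r : ℕ) + k * q := fun _ _ => add_comm _ _
  have e1 : ∑' m, F m = ∑ r ∈ range q, ψ (r : ZMod q) * ex τ (Real.log M) *
      ∑' k : ℤ, gs w1 (1 + I * τ) ((r / q + k) * (q / M)) := by
    rw [← e.tsum_eq, sum_range, ← tsum_fintype (L := SummationFilter.unconditional _)]
    refine (e.summable_iff.2 (summable_of_ne_finset_zero z)).tsum_prod.trans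
      (tsum_congr fun r => ?_)
    rw [← tsum_mul_left]
    refine tsum_congr fun k => ?_
    rw [Function.comp_apply, he, hF]
    simp only [Int.cast_add, Int.cast_mul, Int.cast_natCast, ZMod.natCast_self, mul_zero, add_zero]
    congr 2
    field_simp
  rw [e0, e1]
  refine (congrArg (HasSum · _) (funext fun h => ?_)).mpr
    (hasSum_sum fun r (_ : r ∈ range q) =>
      (kb_class (s := 1 + I * τ) (by simp) (by simp) ha (r / q)).mul_left
        (ψ (r : ZMod q) * ex τ (Real.log M)))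
  rw [GS, f0_sum, mul_sum, sum_mul]
  refine sum_congr rfl fun r hr => ?_
  rw [ZMod.val_cast_of_lt (mem_range.1 hr), inv_div,
    show 2 * π * h / (q / M) = 2 * π * M * h / q by field_simp,
    show (r : ℝ) / q * h = r * h / q by ring]
  ring

theorem kb_min {Z : ℝ} (hZ : 0 ≤ Z) (T : Finset ℕ) (hT : 0 ∉ T) :
    ∑ k ∈ T, min 1 ((Z / k) ^ 2) ≤ 3 * Z := by
  rw [← sum_filter_add_sum_filter_not T fun k => k ≤ ⌊Z⌋₊]
  have h1 : ∑ k ∈ T with k ≤ ⌊Z⌋₊, min 1 ((Z / k) ^ 2) ≤ Z := by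
    refine (sum_le_card_nsmul _ _ 1 fun k _ => min_le_left _ _).trans ?_
    have h : (T.filter fun k => k ≤ ⌊Z⌋₊) ⊆ Ioc 0 ⌊Z⌋₊ := fun k hk =>
      mem_Ioc.2 ⟨Nat.pos_of_ne_zero fun e => hT (e ▸ (mem_filter.1 hk).1), (mem_filter.1 hk).2⟩
    have h' := card_le_card h
    rw [Nat.card_Ioc, Nat.sub_zero] at h'
    rw [nsmul_one]
    exact (Nat.cast_le.2 h').trans (Nat.floor_le hZ)
  have h2 : ∑ k ∈ T with ¬k ≤ ⌊Z⌋₊, min 1 ((Z / k) ^ 2) ≤ 2 * Z := by
    have h : (T.filter fun k => ¬k ≤ ⌊Z⌋₊) ⊆ Ioo ⌊Z⌋₊ (T.sup id + 1) := fun k hk =>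
      mem_Ioo.2 ⟨not_le.1 (mem_filter.1 hk).2,
        Nat.lt_succ_of_le (le_sup (f := id) (mem_filter.1 hk).1)⟩
    refine (sum_le_sum fun k _ => min_le_right _ _).trans
      ((sum_le_sum_of_subset_of_nonneg h fun _ _ _ => sq_nonneg _).trans ?_)
    simp only [div_pow, div_eq_mul_inv (Z ^ 2), ← mul_sum]
    refine (mul_le_mul_of_nonneg_left (sum_Ioo_inv_sq_le _ _) (sq_nonneg Z)).trans ?_
    rw [← mul_div_assoc, div_le_iff₀ (by positivity)]
    nlinarith [Nat.lt_floor_add_one Z]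
  linarith

theorem kb_mul {g : ℕ} (hg : 0 < g) {Y : ℝ} (hY : 0 ≤ Y) (S : Finset ℤ) (hS : 0 ∉ S) :
    ∑ h ∈ S with g ∣ h.natAbs, min 1 ((Y / |(h : ℝ)|) ^ 2) ≤ 6 * (Y / g) := by
  have hg' : (0 : ℝ) < g := Nat.cast_pos.2 hg
  have e : ∑ h ∈ S with g ∣ h.natAbs, min 1 ((Y / |(h : ℝ)|) ^ 2) =
      ∑ h ∈ S with g ∣ h.natAbs, (fun k : ℕ => min 1 ((Y / g / k) ^ 2)) (h.natAbs / g) := by
    refine sum_congr rfl fun h hh => ?_
    simp only
    rw [div_div, ← Nat.cast_mul, Nat.mul_div_cancel' (mem_filter.1 hh).2, Nat.cast_natAbs,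
      Int.cast_abs]
  rw [e, sum_comp (fun k : ℕ => min 1 ((Y / g / k) ^ 2)) fun h : ℤ => h.natAbs / g]
  have h0 : 0 ∉ (S.filter fun h => g ∣ h.natAbs).image fun h : ℤ => h.natAbs / g := by
    intro h
    obtain ⟨h, hh, e⟩ := mem_image.1 h
    have h1 := Nat.mul_div_cancel' (mem_filter.1 hh).2
    rw [e, mul_zero, eq_comm, Int.natAbs_eq_zero] at h1
    exact hS (h1 ▸ (mem_filter.1 hh).1)
  have h1 := kb_min (div_nonneg hY hg'.le) _ h0
  refine (sum_le_sum (g := fun k : ℕ => 2 * min 1 ((Y / g / k) ^ 2)) fun k _ => ?_).trans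
    (by rw [← mul_sum]; linarith)
  rw [nsmul_eq_mul]
  refine mul_le_mul_of_nonneg_right ?_ (le_min zero_le_one (sq_nonneg _))
  have h2 : ((S.filter fun h => g ∣ h.natAbs).filter fun h : ℤ => h.natAbs / g = k) ⊆
      {((g * k : ℕ) : ℤ), -((g * k : ℕ) : ℤ)} := fun h hh => by
    have h3 := Nat.mul_div_cancel' (mem_filter.1 (mem_filter.1 hh).1).2
    rw [(mem_filter.1 hh).2] at h3
    rw [h3, mem_insert, mem_singleton]
    exact Int.natAbs_eq h
  exact_mod_cast (card_le_card h2).trans card_le_two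

theorem kb_gcd {q : ℕ} (hq : 0 < q) {Y : ℝ} (hY : 0 ≤ Y) (S : Finset ℤ) (hS : 0 ∉ S) :
    ∑ h ∈ S, (Nat.gcd q h.natAbs : ℝ) * min 1 ((Y / |(h : ℝ)|) ^ 2) ≤ 6 * q.divisors.card * Y := by
  have h1 : ∀ h ∈ S, (Nat.gcd q h.natAbs : ℝ) * min 1 ((Y / |(h : ℝ)|) ^ 2) ≤
      ∑ g ∈ q.divisors, if g ∣ h.natAbs then g * min 1 ((Y / |(h : ℝ)|) ^ 2) else 0 := fun h _ => by
    refine le_trans (le_of_eq ?_) (single_le_sum (fun g _ => ?_)
      (Nat.mem_divisors.2 ⟨Nat.gcd_dvd_left q h.natAbs, hq.ne'⟩))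
    · rw [if_pos (Nat.gcd_dvd_right _ _)]
    · split_ifs
      · positivity
      · exact le_rfl
  refine (sum_le_sum h1).trans ?_
  rw [sum_comm]
  refine (sum_le_card_nsmul _ _ (6 * Y) fun g hg => ?_).trans (le_of_eq (by rw [nsmul_eq_mul]; ring))
  have hg0 := Nat.pos_of_mem_divisors hg
  have hg' : (0 : ℝ) < g := Nat.cast_pos.2 hg0
  rw [← sum_filter, ← mul_sum]
  refine (mul_le_mul_of_nonneg_left (kb_mul hg0 hY S hS) hg'.le).trans (le_of_eq ?_)
  field_simp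

theorem kb_tot (g m : ℕ) : Nat.totient (g * m) ≤ g * Nat.totient m := by
  induction g using induction_on_primes with
  | zero => simp
  | one => simp
  | prime_mul p a hp ih =>
    rw [mul_assoc, mul_assoc]
    refine le_trans ?_ (Nat.mul_le_mul_left p ih)
    by_cases h : p ∣ a * m
    · exact (Nat.totient_mul_of_prime_of_dvd hp h).le
    · rw [Nat.totient_mul_of_prime_of_not_dvd hp h]
      exact Nat.mul_le_mul_right _ (Nat.sub_le _ _)

theorem kb_gs {q : ℕ} [NeZero q] (ψ : DirichletCharacter ℂ q) (h : ℤ) :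
    ‖GS ψ q h‖ ≤ Nat.gcd q h.natAbs * √q := by
  have hq := Nat.pos_of_ne_zero (NeZero.ne q)
  have h1 := kb_tot (Nat.gcd q h.natAbs) (qd q h.natAbs)
  have h2 : Nat.gcd q h.natAbs * qd q h.natAbs = q := Nat.mul_div_cancel' (Nat.gcd_dvd_left _ _)
  have h3 : 0 < qd q h.natAbs := Nat.pos_of_mul_pos_left (h2.symm ▸ hq)
  rw [h2] at h1
  refine (gs_bd ψ dvd_rfl h).1.trans (mul_le_mul ?_ (Real.sqrt_le_sqrt (Nat.cast_le.2
    (Nat.le_of_dvd hq ψ.conductor_dvd_level))) (Real.sqrt_nonneg _) (Nat.cast_nonneg _))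
  rw [div_le_iff₀ (Nat.cast_pos.2 (Nat.totient_pos.2 h3))]
  exact_mod_cast h1

open Classical in
theorem kb {ε : ℝ} (hε : 0 < ε) : ∃ C : ℝ, 0 ≤ C ∧ ∀ (q : ℕ) [NeZero q]
    (ψ : DirichletCharacter ℂ q) (M τ : ℝ) (Z : ℕ), 0 < M → M ≤ Z →
    ‖∑ n ∈ Ioc 0 Z, (w1 (n / M) : ℂ) * (ψ (n : ZMod q) * ex τ (Real.log n))‖ ≤
      C * (q * (1 + |τ|)) ^ (1 / 2 + ε) + if ψ = 1 then C * M / (1 + |τ|) ^ 2 else 0 := by
  obtain ⟨C0, hC0, b0⟩ := mm_bd wt_w1 2
  obtain ⟨C1, hC1, b1⟩ := mm_mix wt_w1 hε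
  obtain ⟨C2, hC2, b2⟩ := MP_2a1a00_nt.card_divisors_le ε hε
  refine ⟨C0 + C1 * C2, by positivity, fun q _ ψ M τ Z hM hZ => ?_⟩
  have hq0 := Nat.pos_of_ne_zero (NeZero.ne q)
  have hq : (0 : ℝ) < q := Nat.cast_pos.2 hq0
  obtain ⟨A, hA⟩ : ∃ A, A = 1 + |τ| := ⟨_, rfl⟩
  have hA0 : 0 < A := by rw [hA]; positivity
  obtain ⟨T, hT⟩ : ∃ T : ℤ → ℂ, T = fun h : ℤ => (M / q : ℝ) * ex τ (Real.log M) * GS ψ q h *
      MM w1 (-(2 * π * M * h / q)) (1 + I * τ) := ⟨_, rfl⟩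
  have nT : ∀ h, ‖T h‖ = M / q * ‖GS ψ q h‖ * ‖MM w1 (-(2 * π * M * h / q)) (1 + I * τ)‖ :=
    fun h => by
      rw [hT, norm_mul, norm_mul, norm_mul, MP_03e5d0_nt.norm_ex, mul_one, norm_real,
        Real.norm_of_nonneg (by positivity)]
  have t0 : ‖T 0‖ ≤ if ψ = 1 then (C0 + C1 * C2) * M / A ^ 2 else 0 := by
    rw [nT]
    split_ifs with h
    · have h1 : ‖GS ψ q 0‖ ≤ q := by
        refine (norm_sum_le _ _).trans ((sum_le_card_nsmul _ _ 1 fun a _ => ?_).trans ?_)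
        · rw [norm_mul, norm_ee, mul_one]
          exact ψ.norm_le_one a
        · rw [card_univ, ZMod.card, nsmul_one]
      have h2 := b0 (-(2 * π * M * (0 : ℤ) / q)) (1 + I * τ) (by simp) (by simp)
      have h3 : (1 + |-(2 * π * M * (0 : ℤ) / q)|) / (1 + |(1 + I * τ).im|) = 1 / A := by
        simp [hA]
      rw [h3] at h2
      refine (mul_le_mul (mul_le_mul_of_nonneg_left h1 (by positivity)) h2 (norm_nonneg _)
        (by positivity)).trans ?_
      rw [div_mul_cancel₀ _ hq.ne', div_pow, one_pow, mul_one_div, ← mul_div_assoc, mul_comm M]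
      gcongr
      exact le_add_of_nonneg_right (by positivity)
    · have h1 : GS ψ q 0 = 0 := by
        simpa [GS, ee] using MulChar.sum_eq_zero_of_ne_one h
      simp [h1]
  have t1 : ∀ h : ℤ, h ≠ 0 → ‖T h‖ ≤ M / q * √q * (C1 * A ^ (ε - 1 / 2)) *
      (Nat.gcd q h.natAbs * min 1 ((A * q / (2 * π * M) / |(h : ℝ)|) ^ 2)) := fun h hh => by
    have h0 : (h : ℝ) ≠ 0 := Int.cast_ne_zero.2 hh
    have h1 := b1 (-(2 * π * M * h / q)) τ (neg_ne_zero.2 (by positivity))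
    have h2 : A / |-(2 * π * M * h / q)| = A * q / (2 * π * M) / |(h : ℝ)| := by
      rw [abs_neg, abs_div, abs_mul, abs_of_pos hq, abs_of_pos (by positivity : 0 < 2 * π * M)]
      field_simp
    rw [← hA, h2] at h1
    rw [nT]
    refine (mul_le_mul (mul_le_mul_of_nonneg_left (kb_gs ψ h) (by positivity)) h1 (norm_nonneg _)
      (by positivity)).trans (le_of_eq (by ring))
  have t2 : M / q * √q * (C1 * A ^ (ε - 1 / 2)) * (6 * q.divisors.card * (A * q / (2 * π * M))) ≤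
      (C0 + C1 * C2) * (q * A) ^ (1 / 2 + ε) := by
    have e1 : (q * A) ^ (1 / 2 + ε) = √q * q ^ ε * (A ^ (ε - 1 / 2) * A) := by
      rw [Real.mul_rpow hq.le hA0.le, Real.rpow_add hq, Real.sqrt_eq_rpow,
        ← Real.rpow_add_one hA0.ne', show ε - 1 / 2 + 1 = 1 / 2 + ε by ring]
    have e2 : M / q * √q * (C1 * A ^ (ε - 1 / 2)) * (6 * q.divisors.card * (A * q / (2 * π * M))) =
        3 / π * q.divisors.card * (C1 * (√q * (A ^ (ε - 1 / 2) * A))) := by
      field_simp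
      ring
    have e3 : 3 / π * q.divisors.card ≤ C2 * q ^ ε :=
      (mul_le_of_le_one_left (Nat.cast_nonneg _)
        ((div_le_one Real.pi_pos).2 Real.pi_gt_three.le)).trans (b2 q)
    rw [e1, e2]
    refine (mul_le_mul_of_nonneg_right e3 (by positivity)).trans ?_
    have e4 : 0 ≤ C0 * (√q * q ^ ε * (A ^ (ε - 1 / 2) * A)) := by positivity
    linarith
  have hs := kb_poisson ψ τ hM hZ
  rw [← hT] at hs
  rw [← hA]
  refine le_of_tendsto' hs.norm fun S => (norm_sum_le _ _).trans ?_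
  have h1 : ∑ h ∈ S, ‖T h‖ ≤ ∑ h ∈ S.erase 0, ‖T h‖ + ‖T 0‖ := by
    by_cases h : 0 ∈ S
    · exact (sum_erase_add _ _ h).ge
    · rw [erase_eq_of_notMem h]
      exact le_add_of_nonneg_right (norm_nonneg _)
  refine h1.trans (add_le_add ((sum_le_sum fun h hh => t1 h (ne_of_mem_erase hh)).trans ?_) t0)
  rw [← mul_sum]
  exact (mul_le_mul_of_nonneg_left (kb_gcd hq0 (by positivity) _ (notMem_erase 0 S))
    (by positivity)).trans t2

end Pool.Agent.Lib.MP_778b46_nt.MB
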