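import Pool.Agent.Lib.MP_778b46_nt.MB.Lc
import Pool.Agent.Lib.MP_778b46_nt.MA.O7
import Pool.Agent.Lib.MP_778b46_nt.MA.O8
import Pool.Agent.Lib.MP_778b46_nt.MA.F2

/-! The fourth moment over the arcs of one denominator. -/

set_option autoImplicit false

noncomputable section

namespace Pool.Agent.Lib.MP_778b46_nt.MB

open Complex Finset MeasureTheory
open scoped Real ComplexConjugate
open Pool.Agent.Lib.MP_03e5d0_nt (Sm ex ft bump)
open Pool.Agent.Lib.MP_778b46_nt.MA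

variable {q : ℕ}

/-- A linear combination of singular integrals. -/
def l4g (A : Finset (Gq q × Gq q)) (d : Gq q × Gq q → ℂ) (ν : ℝ) : ℂ :=
  ∑ p ∈ A, d p * GG w1 (-(I * (ht p.1 : ℂ))) (-(I * (ht p.2 : ℂ))) ν

/-- The coefficients of the square. -/
def l4d [NeZero q] (a : ℕ) (c : Gq q → ℂ) (p : Gq q × Gq q) : ℂ :=
  gc p.1.1 q a * c p.1 * (gc p.2.1 q a * c p.2)

open Classical in
/-- The pairs with a given product of characters. -/
def l4A (W : Finset (Gq q)) (ξ : DirichletCharacter ℂ q) : Finset (Gq q × Gq q) :=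
  (W ×ˢ W).filter fun p => p.1.1 * p.2.1 = ξ

theorem l4_mem {W : Finset (Gq q)} {ξ : DirichletCharacter ℂ q} {p : Gq q × Gq q} :
    p ∈ l4A W ξ ↔ (p.1 ∈ W ∧ p.2 ∈ W) ∧ p.1.1 * p.2.1 = ξ := by
  classical
  unfold l4A
  simp only [mem_filter, mem_product]

theorem l4_fib [NeZero q] (W : Finset (Gq q)) (F : Gq q × Gq q → ℂ) :
    ∑ p ∈ W ×ˢ W, F p = ∑ ξ : DirichletCharacter ℂ q, ∑ p ∈ l4A W ξ, F p := by
  classical
  unfold l4A
  convert (sum_fiberwise (W ×ˢ W) (fun p => p.1.1 * p.2.1) F).symm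

theorem l4_gg_hcs (s s' : ℂ) : HasCompactSupport (GG w1 s s') := by
  rw [o8_conv]
  exact (gs_hcs wt_w1 s).convolution _ (gs_hcs wt_w1 s')

theorem l4_gg_smooth (s s' : ℂ) : ContDiff ℝ (⊤ : ℕ∞) (GG w1 s s') := by
  rw [o8_conv]
  exact (gs_hcs wt_w1 s).contDiff_convolution_left _ (gs_smooth wt_w1 s)
    (o8_int wt_w1 s').locallyIntegrable

theorem l4g_hcs (A : Finset (Gq q × Gq q)) (d : Gq q × Gq q → ℂ) :
    HasCompactSupport (l4g A d) := by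
  refine HasCompactSupport.intro (isCompact_Icc (a := 1 / 2) (b := 7 / 4)) fun x hx => ?_
  rw [Set.mem_Icc, not_and_or, not_le, not_le] at hx
  refine sum_eq_zero fun p _ => ?_
  rw [gg_zero _ _ (hx.imp le_of_lt le_of_lt), mul_zero]

theorem l4g_smooth (A : Finset (Gq q × Gq q)) (d : Gq q × Gq q → ℂ) :
    ContDiff ℝ (⊤ : ℕ∞) (l4g A d) :=
  ContDiff.sum fun _ _ => contDiff_const.mul (l4_gg_smooth _ _)

theorem l4g_int (A : Finset (Gq q × Gq q)) (d : Gq q × Gq q → ℂ) :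
    Integrable fun ν => ‖l4g A d ν‖ ^ 2 := by
  refine Continuous.integrable_of_hasCompactSupport ((l4g_smooth A d).continuous.norm.pow 2) ?_
  exact (l4g_hcs A d).comp_left (g := fun z : ℂ => ‖z‖ ^ 2) (by simp)

theorem l4_sq [NeZero q] (a : ℕ) (W : Finset (Gq q)) (c : Gq q → ℂ) (y : ℝ) :
    FF a W c y ^ 2 = ((2 * π : ℂ)⁻¹) ^ 2 * ∫ ν, l4g (W ×ˢ W) (l4d a c) ν * ex y ν := by
  have hi : ∀ s s' : ℂ, Integrable fun ν => GG w1 s s' ν * ex y ν := fun s s' =>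
    (o8_gg_int wt_w1 s s').mul_bdd (c := 1)
      (MP_03e5d0_nt.continuous_ex.comp (Continuous.prodMk_right y)).aestronglyMeasurable
      (ae_of_all _ fun x => (MP_03e5d0_nt.norm_ex y x).le)
  unfold FF l4g
  rw [mul_pow]
  congr 1
  simp only [sum_mul, mul_assoc]
  rw [integral_finsetSum _ fun p _ => (hi _ _).const_mul _, sq, sum_mul_sum, sum_product]
  refine sum_congr rfl fun w _ => sum_congr rfl fun w' _ => ?_
  rw [integral_const_mul, ← o8_mm wt_w1, l4d]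
  ring

theorem l4_four [NeZero q] (a : ℕ) (W : Finset (Gq q)) (c : Gq q → ℂ) (y : ℝ) :
    ‖FF a W c y‖ ^ 4 = ((2 * π)⁻¹) ^ 4 * ‖∫ ν, l4g (W ×ˢ W) (l4d a c) ν * ex y ν‖ ^ 2 := by
  have h1 : ‖FF a W c y‖ ^ 4 = ‖FF a W c y ^ 2‖ ^ 2 := by
    rw [norm_pow]
    ring
  have h2 : ‖(2 * π : ℂ)‖ = 2 * π := by
    rw [norm_mul, Complex.norm_real, Real.norm_of_nonneg Real.pi_pos.le]
    simp
  rw [h1, l4_sq, norm_mul, norm_pow, norm_inv, h2]
  ring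

open Classical in
theorem l4_orth [NeZero q] (W : Finset (Gq q)) (c : Gq q → ℂ) (ν : ℝ) :
    ∑ a ∈ cop q, ‖l4g (W ×ˢ W) (l4d a c) ν‖ ^ 2 = ∑ ξ : DirichletCharacter ℂ q,
      (Nat.totient q : ℝ) *
        ‖l4g (l4A W ξ) (l4d 1 c) ν‖ ^ 2 := by
  have hN := f2_tot (NeZero.pos q)
  have h2 := MP_c03ca8_nt.Q.lsmul_parseval
    (fun (u : (ZMod q)ˣ) (χ : DirichletCharacter ℂ q) => χ u) (fun _ => (Nat.totient q : ℝ))
    (fun χ χ' => by convert f2_orth χ χ')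
    fun ξ => l4g (l4A W ξ) (l4d 1 c) ν
  have h3 : ∀ u : (ZMod q)ˣ, l4g (W ×ˢ W) (l4d ((u : ZMod q).val % q) c) ν =
      ∑ ξ : DirichletCharacter ℂ q,
        ξ u * l4g (l4A W ξ) (l4d 1 c) ν := fun u => by
    unfold l4g
    rw [l4_fib]
    refine sum_congr rfl fun ξ _ => ?_
    rw [mul_sum]
    refine sum_congr rfl fun p hp => ?_
    rw [← (l4_mem.1 hp).2, l4d, l4d, gc_unit _ dvd_rfl, gc_unit _ dvd_rfl, MulChar.mul_apply]
    ring
  apply Complex.ofReal_injective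
  rw [Complex.ofReal_sum, sum_cop (N := q) dvd_rfl
    fun a => ((‖l4g (W ×ˢ W) (l4d a c) ν‖ ^ 2 : ℝ) : ℂ)]
  simp only [h3]
  rw [← Complex.ofReal_sum, h2, div_self hN, one_mul]

open Classical in
theorem l4_card [NeZero q] (W : Finset (Gq q)) :
    ∑ ξ : DirichletCharacter ℂ q,
      (((l4A W ξ) ×ˢ
        (l4A W ξ)).filter
          fun z => ht z.1.1 + ht z.1.2 = ht z.2.1 + ht z.2.2).card ≤ en W := by
  have e : en W = (((W ×ˢ W) ×ˢ W ×ˢ W).filter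
      fun z : (Gq q × Gq q) × Gq q × Gq q => z.1.1 * z.1.2 = z.2.1 * z.2.2).card := by
    unfold en
    refine (@mulEnergy_eq_card_filter _ (_) _ W W).trans (congrArg card ?_)
    ext z
    simp only [mem_filter]
  rw [e, card_eq_sum_card_fiberwise
    (f := fun z : (Gq q × Gq q) × Gq q × Gq q => z.1.1.1 * z.1.2.1) (t := univ)
    fun _ _ => mem_coe.2 (mem_univ _)]
  refine sum_le_sum fun ξ _ => card_le_card fun z hz => ?_
  obtain ⟨h1, h2⟩ := mem_filter.1 hz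
  obtain ⟨h3, h4⟩ := mem_product.1 h1
  obtain ⟨h5, h6⟩ := l4_mem.1 h3
  obtain ⟨h7, h8⟩ := l4_mem.1 h4
  refine mem_filter.2 ⟨mem_filter.2
    ⟨mem_product.2 ⟨mem_product.2 h5, mem_product.2 h7⟩, Prod.ext ?_ ?_⟩, h6⟩
  · exact h6.trans h8.symm
  · exact h2

theorem l4 : ∃ C : ℝ, 0 ≤ C ∧ ∀ (q : ℕ) [NeZero q] (W : Finset (Gq q)) (c : Gq q → ℂ)
    (B T γ : ℝ), 0 < T → (∀ w ∈ W, T ≤ 1 + |(ht w : ℝ)|) → (∀ w ∈ W, ‖c w‖ ≤ B) →
    (∀ w ∈ W, ‖gc w.1 q 1‖ ≤ γ) →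
    (∀ a, Integrable fun y => ‖FF a W c y‖ ^ 4) ∧
      ∑ a ∈ cop q, ∫ y, ‖FF a W c y‖ ^ 4 ≤ C * Nat.totient q * γ ^ 4 * B ^ 4 * en W / T := by
  obtain ⟨C, hC, H⟩ := l4_core
  refine ⟨((2 * π)⁻¹) ^ 4 * (2 * π) * C, by positivity, fun q _ W c B T γ hT h1 h2 h3 => ?_⟩
  have pl := fun a => o7_planch (l4g_hcs (W ×ˢ W) (l4d a c)) (l4g_smooth (W ×ˢ W) (l4d a c))
  simp only [l4_four]
  refine ⟨fun a => (pl a).1.const_mul _, ?_⟩
  simp only [integral_const_mul, fun a => (pl a).2]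
  rw [← mul_sum, ← mul_sum, ← integral_finsetSum _ fun a _ => l4g_int _ _]
  simp only [l4_orth]
  rw [integral_finsetSum _ fun ξ _ => (l4g_int _ _).const_mul _]
  simp only [integral_const_mul]
  have key : ∀ ξ : DirichletCharacter ℂ q,
      ∫ ν, ‖l4g (l4A W ξ) (l4d 1 c) ν‖ ^ 2 ≤
        C * (γ * B * (γ * B)) ^ 2 / T * ((((l4A W ξ) ×ˢ
          (l4A W ξ)).filter
            fun z => ht z.1.1 + ht z.1.2 = ht z.2.1 + ht z.2.2).card : ℕ) := fun ξ => by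
    unfold l4g
    refine H _ (l4A W ξ) (fun p => ht p.1) (fun p => ht p.2) (l4d 1 c) (γ * B * (γ * B)) T hT
      (fun p hp => h1 _ (l4_mem.1 hp).1.1) fun p hp => ?_
    obtain ⟨k1, k2⟩ := (l4_mem.1 hp).1
    have g0 : 0 ≤ γ := (norm_nonneg _).trans (h3 _ k1)
    have b0 : 0 ≤ B := (norm_nonneg _).trans (h2 _ k1)
    rw [l4d, norm_mul, norm_mul, norm_mul]
    gcongr
    exacts [h3 _ k1, h2 _ k1, h3 _ k2, h2 _ k2]
  have hc : (0 : ℝ) ≤ C * (γ * B * (γ * B)) ^ 2 / T := by positivity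
  have k2 := mul_le_mul_of_nonneg_left (Nat.cast_le (α := ℝ).2 (l4_card W)) hc
  rw [Nat.cast_sum, mul_sum] at k2
  have k3 := (sum_le_sum fun ξ (_ : ξ ∈ univ) => key ξ).trans k2
  rw [← mul_sum]
  refine (mul_le_mul_of_nonneg_left (mul_le_mul_of_nonneg_left
    (mul_le_mul_of_nonneg_left k3 (Nat.cast_nonneg _)) (by positivity)) (by positivity)).trans_eq ?_
  ring

end Pool.Agent.Lib.MP_778b46_nt.MB
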