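import Pool.Agent.Lib.MP_778b46_nt.MB.Gs
import Pool.Agent.Lib.MP_778b46_nt.MA.O4
import Pool.Agent.Lib.MP_ecd12e_nt.GM.Pars

/-! The mean square of a sum of singular integrals. -/

set_option autoImplicit false

noncomputable section

namespace Pool.Agent.Lib.MP_778b46_nt.MB

open Complex Finset MeasureTheory
open scoped Real ComplexConjugate
open Pool.Agent.Lib.MP_03e5d0_nt (Sm ex ft bump)
open Pool.Agent.Lib.MP_778b46_nt.MA

theorem lc_abs {κ : Type} [Countable κ] (μ : Measure ℝ) {u : κ → ℂ} {F : κ → ℝ → ℂ} {f : ℝ → ℂ}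
    {M : κ → ℝ} (hu : Summable fun k => ‖u k‖) (hM : Summable fun k => ‖u k‖ * M k)
    (hF : ∀ k, Integrable (fun ν => ‖F k ν‖ ^ 2) μ) (hFM : ∀ k, ∫ ν, ‖F k ν‖ ^ 2 ∂μ ≤ M k)
    (hf : ∀ᵐ ν ∂μ, HasSum (fun k => u k * F k ν) (f ν)) :
    ∫ ν, ‖f ν‖ ^ 2 ∂μ ≤ (∑' k, ‖u k‖) * ∑' k, ‖u k‖ * M k := by
  have hU : 0 ≤ ∑' k, ‖u k‖ := tsum_nonneg fun _ => norm_nonneg _
  have h0 : ∀ k, 0 ≤ ‖u k‖ * M k := fun k =>
    mul_nonneg (norm_nonneg _) ((integral_nonneg fun _ => sq_nonneg _).trans (hFM k))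
  refine ((Real.le_norm_self _).trans (norm_integral_le_lintegral_norm _)).trans
    (ENNReal.toReal_le_of_le_ofReal (mul_nonneg hU (tsum_nonneg h0)) ?_)
  have h1 : ∀ᵐ ν ∂μ, ENNReal.ofReal ‖‖f ν‖ ^ 2‖ ≤ ENNReal.ofReal (∑' k, ‖u k‖) *
      ∑' k, ENNReal.ofReal (‖u k‖ * ‖F k ν‖ ^ 2) := by
    filter_upwards [hf] with ν hν
    rw [Real.norm_of_nonneg (sq_nonneg _)]
    refine le_of_tendsto' (ENNReal.tendsto_ofReal ((Filter.Tendsto.norm hν).pow 2)) fun s => ?_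
    have h2 : ‖∑ k ∈ s, u k * F k ν‖ ^ 2 ≤ (∑ k ∈ s, ‖u k‖) * ∑ k ∈ s, ‖u k‖ * ‖F k ν‖ ^ 2 :=
      (pow_le_pow_left₀ (norm_nonneg _) (norm_sum_le _ _) 2).trans
        (sum_sq_le_sum_mul_sum_of_sq_le_mul s (fun _ _ => norm_nonneg _)
          (fun _ _ => by positivity) fun k _ => le_of_eq (by rw [norm_mul]; ring))
    refine (ENNReal.ofReal_le_ofReal (h2.trans (mul_le_mul_of_nonneg_right
      (hu.sum_le_tsum s fun _ _ => norm_nonneg _) (by positivity)))).trans ?_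
    rw [ENNReal.ofReal_mul hU, ENNReal.ofReal_sum_of_nonneg fun _ _ => by positivity]
    exact mul_le_mul_right (ENNReal.sum_le_tsum s) _
  refine (lintegral_mono_ae h1).trans ?_
  rw [lintegral_const_mul' _ _ ENNReal.ofReal_ne_top, lintegral_tsum fun k =>
    ((hF k).const_mul ‖u k‖).aemeasurable.ennreal_ofReal, ENNReal.ofReal_mul hU,
    ENNReal.ofReal_tsum_of_nonneg h0 hM]
  refine mul_le_mul_right (ENNReal.tsum_le_tsum fun k => ?_) _
  rw [← ofReal_integral_eq_lintegral_ofReal ((hF k).const_mul ‖u k‖)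
    (ae_of_all _ fun _ => by positivity), integral_const_mul]
  exact ENNReal.ofReal_le_ofReal (mul_le_mul_of_nonneg_left (hFM k) (norm_nonneg _))

theorem lc_tp {ι : Type} (A : Finset ι) (n : ι → ℤ) {γ : ι → ℂ} {G : ℝ} (h : ∀ p ∈ A, ‖γ p‖ ≤ G)
    {x0 x1 : ℝ} (h0 : x0 ≤ x1) (h1 : x1 ≤ x0 + 2 * π) :
    ∫ θ in x0..x1, ‖∑ p ∈ A, γ p * ex (n p) θ‖ ^ 2 ≤
      2 * π * (G ^ 2 * ((A ×ˢ A).filter fun z => n z.1 = n z.2).card) := by
  have e : ∀ θ, ∑ p ∈ A, γ p * ex (n p) θ =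
      MP_ecd12e_nt.GM.tp (A.image n) (fun s => ∑ p ∈ A with n p = s, γ p) θ := fun θ => by
    rw [← sum_fiberwise_of_maps_to (t := A.image n) fun p hp => mem_image_of_mem n hp]
    refine sum_congr rfl fun s _ => ?_
    rw [sum_mul]
    refine sum_congr rfl fun p hp => ?_
    rw [(mem_filter.1 hp).2, ex, MP_ecd12e_nt.Bar.ei]
    congr 2
    push_cast
    ring
  simp only [e]
  refine (MP_ecd12e_nt.GM.int_tp_le _ _ h0 h1).trans
    (mul_le_mul_of_nonneg_left ?_ (by positivity))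
  rw [card_eq_sum_card_fiberwise (f := fun z => n z.1) (t := A.image n) fun z hz =>
    mem_coe.2 (mem_image_of_mem n (mem_product.1 (mem_filter.1 (mem_coe.1 hz)).1).1),
    Nat.cast_sum, mul_sum]
  refine sum_le_sum fun s _ => ?_
  have e2 : ((A ×ˢ A).filter fun z => n z.1 = n z.2).filter (fun z => n z.1 = s) =
      (A.filter fun p => n p = s) ×ˢ (A.filter fun p => n p = s) := by
    ext z
    simp only [mem_filter, mem_product]
    constructor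
    · rintro ⟨⟨⟨a, b⟩, c⟩, d⟩
      exact ⟨⟨a, d⟩, b, c ▸ d⟩
    · rintro ⟨⟨a, b⟩, c, d⟩
      exact ⟨⟨⟨a, c⟩, b.trans d.symm⟩, b⟩
  rw [e2, card_product, Nat.cast_mul]
  refine (pow_le_pow_left₀ (norm_nonneg _) ((norm_sum_le _ _).trans
    (sum_le_card_nsmul _ _ G fun p hp => h p (mem_filter.1 hp).1)) 2).trans (le_of_eq ?_)
  rw [nsmul_eq_mul]
  ring

theorem lc_log {g : ℝ → ℂ} (hg : Continuous g) {D : ℝ}
    (h : ∀ x0 x1 : ℝ, x0 ≤ x1 → x1 ≤ x0 + 2 * π → ∫ θ in x0..x1, ‖g θ‖ ^ 2 ≤ D) :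
    IntegrableOn (fun ν : ℝ => ‖((6 / 5 / ν : ℝ) : ℂ) * g (Real.log (ν / (6 / 5)))‖ ^ 2)
      (Set.Ioc (1 / 2) (7 / 4)) ∧
    ∫ ν in Set.Ioc (1 / 2 : ℝ) (7 / 4),
      ‖((6 / 5 / ν : ℝ) : ℂ) * g (Real.log (ν / (6 / 5)))‖ ^ 2 ≤ 3 * D := by
  have hab : (1 / 2 : ℝ) ≤ 7 / 4 := by norm_num
  have hp : ∀ x ∈ Set.uIcc (1 / 2 : ℝ) (7 / 4), 1 / 2 ≤ x := fun x hx =>
    (Set.uIcc_of_le hab ▸ hx).1
  have c1 : ContinuousOn (fun ν : ℝ => ν⁻¹) (Set.uIcc (1 / 2) (7 / 4)) :=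
    continuousOn_id.inv₀ fun x hx => by linarith [hp x hx] |> fun h : (0 : ℝ) < x => h.ne'
  have c2 : ContinuousOn (fun ν : ℝ => g (Real.log (ν / (6 / 5)))) (Set.uIcc (1 / 2) (7 / 4)) :=
    hg.comp_continuousOn ((continuousOn_id.div_const _).log fun x hx =>
      (div_pos (by linarith [hp x hx] : (0 : ℝ) < x) (by norm_num)).ne')
  have i1 : IntervalIntegrable (fun ν : ℝ =>
      ‖((6 / 5 / ν : ℝ) : ℂ) * g (Real.log (ν / (6 / 5)))‖ ^ 2) volume (1 / 2) (7 / 4) :=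
    (((continuous_ofReal.comp_continuousOn (continuousOn_const.mul c1)).mul c2).norm.pow
      2).intervalIntegrable
  refine ⟨i1.1, ?_⟩
  have e := intervalIntegral.integral_comp_mul_deriv' (a := 1 / 2) (b := 7 / 4)
    (f := fun ν : ℝ => Real.log (ν / (6 / 5))) (f' := fun ν : ℝ => ν⁻¹)
    (g := fun θ => ‖g θ‖ ^ 2) (fun x hx => by
      have h0 : 0 < x := by linarith [hp x hx]
      have h1 := ((hasDerivAt_id' x).div_const (6 / 5)).log (by positivity)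
      rwa [show 1 / (6 / 5) / (x / (6 / 5)) = x⁻¹ by field_simp] at h1) c1
    (hg.norm.pow 2).continuousOn
  have l1 := Real.log_le_sub_one_of_pos (show (0 : ℝ) < 7 / 4 / (6 / 5) by norm_num)
  have l2 := Real.one_sub_inv_le_log_of_pos (show (0 : ℝ) < 1 / 2 / (6 / 5) by norm_num)
  have h2 := h (Real.log (1 / 2 / (6 / 5))) (Real.log (7 / 4 / (6 / 5)))
    (Real.log_le_log (by norm_num) (by norm_num))
    (by norm_num at l1 l2 ⊢; linarith [Real.pi_gt_three])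
  rw [← intervalIntegral.integral_of_le hab]
  refine le_trans ?_ (mul_le_mul_of_nonneg_left (e.trans_le h2) (by norm_num))
  rw [← intervalIntegral.integral_const_mul]
  refine intervalIntegral.integral_mono_on hab i1
    (continuousOn_const.mul ((c2.norm.pow 2).mul c1)).intervalIntegrable fun x hx => ?_
  have h0 : 0 < x := by linarith [hx.1]
  have h3 : x⁻¹ ≤ 2 := by
    rw [inv_le_comm₀ h0 two_pos]
    linarith [hx.1]
  have h4 : 0 < x⁻¹ := inv_pos.2 h0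
  rw [norm_mul, norm_real, Real.norm_of_nonneg (by positivity), mul_pow, Function.comp_apply,
    div_eq_mul_inv _ x, mul_comm _ x⁻¹, mul_comm _ x⁻¹, ← mul_assoc]
  exact mul_le_mul_of_nonneg_right (by nlinarith) (sq_nonneg _)

theorem lc_al : Summable fun k : ℤ => ‖al k‖ * (1 + |(k : ℝ)|) := by
  obtain ⟨C, hC, h⟩ := al_bd 3
  have hs : Summable fun n : ℤ => 1 / (n : ℝ) ^ 2 := Real.summable_one_div_int_pow.2 one_lt_two
  refine (hs.mul_left C).of_norm_bounded_eventually ?_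
  filter_upwards [Filter.eventually_cofinite_ne 0] with n hn
  have h4 : (0 : ℝ) < (n : ℝ) ^ 2 := by positivity
  rw [Real.norm_of_nonneg (by positivity), mul_one_div]
  refine (mul_le_mul_of_nonneg_right (h n) (by positivity)).trans ?_
  rw [show C / (1 + |(n : ℝ)|) ^ 3 * (1 + |(n : ℝ)|) = C / (1 + |(n : ℝ)|) ^ 2 by field_simp]
  refine div_le_div_of_nonneg_left hC h4 ?_
  rw [← sq_abs]
  exact pow_le_pow_left₀ (abs_nonneg _) (by linarith) 2

theorem l4_core : ∃ C : ℝ, 0 ≤ C ∧ ∀ (ι : Type) (A : Finset ι) (t t' : ι → ℤ) (c : ι → ℂ)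
    (B T : ℝ), 0 < T → (∀ p ∈ A, T ≤ 1 + |(t p : ℝ)|) → (∀ p ∈ A, ‖c p‖ ≤ B) →
    ∫ ν : ℝ, ‖∑ p ∈ A, c p * GG w1 (-(I * t p)) (-(I * t' p)) ν‖ ^ 2 ≤
      C * B ^ 2 / T * ((A ×ˢ A).filter fun z => t z.1 + t' z.1 = t z.2 + t' z.2).card := by
  obtain ⟨C, hC, hG⟩ := gg_decay wt_w2
  have s1 : Summable fun k : ℤ => ‖al k‖ := lc_al.of_nonneg_of_le (fun _ => norm_nonneg _)
    fun k => le_mul_of_one_le_right (norm_nonneg _) (le_add_of_nonneg_right (abs_nonneg _))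
  have s2 : Summable fun k : ℤ × ℤ => ‖al k.1 * al k.2‖ := s1.mul_norm s1
  have s3 : Summable fun k : ℤ × ℤ => ‖al k.1 * al k.2‖ * (1 + |(k.1 : ℝ)|) :=
    (lc_al.mul_of_nonneg s1 (fun _ => by positivity) fun _ => norm_nonneg _).congr fun k => by
      rw [norm_mul]; ring
  refine ⟨(∑' k : ℤ × ℤ, ‖al k.1 * al k.2‖) * (∑' k : ℤ × ℤ, ‖al k.1 * al k.2‖ * (1 + |(k.1 : ℝ)|)) *
    (6 * π * C ^ 2), by positivity, fun ι A t t' c B T hT ht hc => ?_⟩
  set N : ℝ := (((A ×ˢ A).filter fun z => t z.1 + t' z.1 = t z.2 + t' z.2).card : ℝ) with hN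
  let β : ℤ × ℤ → ι → ℂ := fun k p =>
    c p * GG w2 (I * (k.1 - t p : ℤ)) (I * (k.2 - t' p : ℤ)) (6 / 5)
  have hβ : ∀ k, ∀ p ∈ A, ‖β k p‖ ≤ B * (C * √((1 + |(k.1 : ℝ)|) / T)) := by
    intro k p hp
    rw [norm_mul]
    refine mul_le_mul (hc p hp) ((hG _ _ _ (by simp) (by simp) (by simp) (by simp)).trans
      (mul_le_mul_of_nonneg_left ?_ hC)) (norm_nonneg _) ((norm_nonneg _).trans (hc p hp))
    have h1 : |(k.1 : ℝ) - t p| ≤ max |(I * ((k.1 - t p : ℤ) : ℂ)).im|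
        |(I * ((k.2 - t' p : ℤ) : ℂ)).im| := le_max_of_le_left (by simp)
    generalize max (_ : ℝ) _ = m at h1 ⊢
    have h2 := abs_nonneg ((k.1 : ℝ) - t p)
    have h3 := abs_nonneg (k.1 : ℝ)
    have h4 := abs_sub_abs_le_abs_sub (t p : ℝ) k.1
    rw [abs_sub_comm] at h4
    rw [Real.rpow_neg (by linarith), ← Real.sqrt_eq_rpow, ← Real.sqrt_inv]
    refine Real.sqrt_le_sqrt ?_
    rw [← one_div, div_le_div_iff₀ (by linarith) hT]
    nlinarith [ht p hp]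
  have key := fun k : ℤ × ℤ => lc_log (g := fun θ => ∑ p ∈ A, β k p *
      ex ((k.1 + k.2 - (t p + t' p) : ℤ) : ℝ) θ) (by unfold ex; fun_prop)
    fun x0 x1 h0 h1 => lc_tp A (fun p => k.1 + k.2 - (t p + t' p)) (hβ k) h0 h1
  simp only [sub_right_inj, ← hN] at key
  rw [← setIntegral_eq_integral_of_forall_compl_eq_zero (s := Set.Ioc (1 / 2) (7 / 4))
    fun ν hν => by
      rw [Set.mem_Ioc, not_and_or, not_lt, not_le] at hν
      simp [gg_zero _ _ (hν.imp_right le_of_lt)]]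
  refine (lc_abs _ (M := fun k => (1 + |(k.1 : ℝ)|) * (6 * π * C ^ 2 * B ^ 2 / T * N)) s2
    ((s3.mul_right _).congr fun k => mul_assoc _ _ _) (fun k => (key k).1)
    (fun k => (key k).2.trans (le_of_eq ?_)) ?_).trans (le_of_eq ?_)
  · rw [mul_pow, mul_pow, Real.sq_sqrt (by positivity)]
    ring
  · filter_upwards [ae_restrict_mem measurableSet_Ioc] with ν hν
    refine (hasSum_sum fun p _ => (gg_series hν.1.le hν.2 (t p) (t' p)).mul_left (c p)).congr_fun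
      fun k => ?_
    rw [mul_sum, mul_sum]
    exact sum_congr rfl fun p _ => by simp only [β]; ring
  · simp only [← mul_assoc ‖_‖]
    rw [tsum_mul_right]
    ring

end Pool.Agent.Lib.MP_778b46_nt.MB
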