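import Pool.Agent.Lib.MP_778b46_nt.MB.Defs
import Pool.Agent.Lib.MP_778b46_nt.MA.O4

/-! More bounds for the Mellin transform of `v x * exp (i y x)`. -/

set_option autoImplicit false

noncomputable section

namespace Pool.Agent.Lib.MP_778b46_nt.MB

open Complex Finset MeasureTheory
open scoped Real ComplexConjugate
open Pool.Agent.Lib.MP_03e5d0_nt (Sm ex ft bump)
open Pool.Agent.Lib.MP_778b46_nt.MA

variable {v : ℝ → ℝ}

theorem my_pow {s z : ℂ} (h0 : 0 ≤ s.re) (h2 : s.re ≤ 2) (e1 : 1 / 8 < z.re) (e2 : z.re < 2)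
    (e3 : |z.im| * (8 * (1 + |s.im|)) < 1) : ‖cexp ((s - 1) * log z)‖ ≤ Real.exp 9 := by
  have a0 := abs_nonneg z.im
  have a1 := abs_nonneg s.im
  have n1 : 1 / 8 < ‖z‖ := e1.trans_le (re_le_norm z)
  have n0 : 0 < ‖z‖ := by linarith
  have n2 : ‖z‖ ≤ 3 := by
    have := norm_le_abs_re_add_abs_im z
    rw [abs_of_pos (by linarith : 0 < z.re)] at this
    nlinarith
  have l1 : Real.log ‖z‖ ≤ 2 := by linarith [Real.log_le_sub_one_of_pos n0]
  have l2 : -7 ≤ Real.log ‖z‖ := by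
    have k1 := Real.one_sub_inv_le_log_of_pos n0
    have k2 : ‖z‖⁻¹ ≤ 8 := inv_le_of_inv_le₀ (by norm_num) (by linarith)
    linarith
  have g1 : |arg z| ≤ 16 * |z.im| := by
    have k1 := Real.mul_abs_le_abs_sin (abs_arg_le_pi_div_two_iff.2 (by linarith : 0 ≤ z.re))
    rw [sin_arg, abs_div, abs_of_pos n0, le_div_iff₀ n0] at k1
    have k2 : 1 / 2 ≤ 2 / π := by
      rw [div_le_div_iff₀ two_pos Real.pi_pos]
      linarith [Real.pi_le_four]
    have k3 := mul_le_mul (mul_le_mul_of_nonneg_right k2 (abs_nonneg (arg z))) n1.le (by norm_num)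
      (by positivity)
    linarith
  rw [norm_exp, mul_re, log_re, log_im, sub_re, sub_im, one_re, one_im, sub_zero, Real.exp_le_exp]
  have g2 : -(s.im * arg z) ≤ 2 := by
    refine (neg_le_abs _).trans ?_
    rw [abs_mul]
    nlinarith [mul_le_mul_of_nonneg_left g1 a1]
  nlinarith [mul_nonneg h0 (sub_nonneg.2 l1), mul_nonneg (sub_nonneg.2 h2) (sub_nonneg.2 l2),
    mul_nonneg h0 (sub_nonneg.2 l2), mul_nonneg (sub_nonneg.2 h2) (sub_nonneg.2 l1)]

theorem my_sm (hv : Wt v) (j : ℕ) : ∃ C : ℝ, 0 ≤ C ∧ ∀ s : ℂ, 0 ≤ s.re → s.re ≤ 2 →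
    Sm j (1 / 4) 1 (C * (1 + |s.im|) ^ j) (gs v s) := by
  obtain ⟨B, hB⟩ := MP_03e5d0_nt.exists_sm (a := 1 / 4) (b := 1) j (W := fun u => (v u : ℂ))
    (ofRealCLM.contDiff.comp hv.smooth) fun u hu => by
      rw [hv.supp _ (hu.imp le_of_lt le_of_lt), ofReal_zero]
  obtain ⟨C, hC0, hC⟩ := Sm.mul_holo j
  have hB0 := hB.nonneg
  refine ⟨C * B * Real.exp 9 * 8 ^ j, by positivity, fun s h0 h2 => ?_⟩
  have hy : 0 < 8 * (1 + |s.im|) := by positivity
  have hd : 1 / (8 * (1 + |s.im|)) ≤ 1 / 8 :=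
    one_div_le_one_div_of_le (by norm_num) (by linarith [abs_nonneg s.im])
  have := hC (1 / 4) 1 B (Real.exp 9) (1 / (8 * (1 + |s.im|))) _
    (fun z => cexp ((s - 1) * log z)) hB (by positivity) (by linarith) (by positivity)
    (fun z hz => (((differentiableAt_id.clog (Or.inl (by
      change 0 < z.re
      linarith [hz.1]))).const_mul (s - 1)).cexp).differentiableWithinAt)
    fun z e1 e2 e3 => my_pow h0 h2 (by linarith) (by linarith) ((lt_div_iff₀ hy).1 e3)
  have e1 : gs v s = fun y : ℝ => (v y : ℂ) * cexp ((s - 1) * log y) := funext fun y => by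
    by_cases hy : y ≤ 1 / 4
    · rw [gs_zero hv s (Or.inl hy), hv.supp y (Or.inl hy), ofReal_zero, zero_mul]
    · rw [gs, ofReal_log (by linarith)]
  have e2 : C * B * Real.exp 9 * 8 ^ j * (1 + |s.im|) ^ j =
      C * B * Real.exp 9 / (1 / (8 * (1 + |s.im|))) ^ j := by
    rw [one_div, inv_pow, div_inv_eq_mul, mul_pow, ← mul_assoc]
  rw [e1, e2]
  exact this

theorem mm_y (hv : Wt v) (j : ℕ) : ∃ C : ℝ, 0 ≤ C ∧ ∀ (y : ℝ) (s : ℂ), 0 ≤ s.re → s.re ≤ 2 →
    ‖MM v y s‖ ≤ C * ((1 + |s.im|) / (1 + |y|)) ^ j := by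
  obtain ⟨C, hC0, hC⟩ := my_sm hv j
  obtain ⟨D, hD0, hD⟩ := Sm.ft_le j 1
  refine ⟨2 * π * (D * C), by positivity, fun y s h0 h2 => ?_⟩
  have h1 := hD _ _ _ _ (by norm_num) (hC s h0 h2) (-y)
  have hp : (0 : ℝ) < 2 * π := by positivity
  rw [ft, neg_neg, norm_mul, norm_inv, show (2 * π : ℂ) = ((2 * π : ℝ) : ℂ) by push_cast; rfl,
    norm_real, Real.norm_eq_abs, abs_of_pos hp, abs_neg, inv_mul_le_iff₀ hp] at h1
  refine h1.trans (le_of_eq ?_)
  rw [div_pow]
  ring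

open Pool.Agent.Lib.MP_ecd12e_nt.Bar (ei) in
theorem my_int (hv : Wt v) (y τ : ℝ) : MM v y (1 + I * τ) = ∫ u in Real.log (1 / 4)..0,
    ((v (Real.exp u) * Real.exp u * 1 : ℝ) : ℂ) * ei (τ * u + y * Real.exp u) := by
  have h1 := mm_ft hv y 1 (-τ)
  rw [ft, neg_neg] at h1
  have h2 := mul_left_cancel₀ (inv_ne_zero (mul_ne_zero two_ne_zero
    (ofReal_ne_zero.2 Real.pi_ne_zero))) h1
  rw [show ((1 : ℝ) : ℂ) - I * ((-τ : ℝ) : ℂ) = 1 + I * τ by push_cast; ring] at h2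
  rw [← h2, intervalIntegral.integral_of_le (Real.log_nonpos (by norm_num) (by norm_num)),
    setIntegral_eq_integral_of_forall_compl_eq_zero fun u hu => ?_]
  · refine integral_congr_ae (ae_of_all _ fun u => ?_)
    have e : cexp (((τ * u + y * Real.exp u : ℝ) : ℂ) * I) =
        cexp (I * y * (Real.exp u : ℝ)) * cexp (I * τ * u) := by
      rw [← Complex.exp_add]
      congr 1
      push_cast
      ring
    simp only [ei, ex]
    rw [e]
    push_cast
    rw [one_mul]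
    ring
  · rw [Set.mem_Ioc, not_and_or, not_lt, not_le] at hu
    rw [hv.supp _ (hu.imp (fun e => (Real.le_log_iff_exp_le (by norm_num)).1 e)
      fun e => Real.one_le_exp e.le), zero_mul, zero_mul, ofReal_zero, zero_mul]

theorem mm_vdc (hv : Wt v) : ∃ C : ℝ, 0 ≤ C ∧ ∀ y τ : ℝ,
    ‖MM v y (1 + I * τ)‖ ≤ C * (1 + |τ|) ^ (-(1 / 2 : ℝ)) := by
  obtain ⟨C, hC, h0, h1⟩ := hv.bdd
  refine ⟨56 * C, by positivity, fun y τ => ?_⟩
  have hτ : 0 < 1 + |τ| := by positivity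
  rw [Real.rpow_neg hτ.le, ← Real.sqrt_eq_rpow, ← div_eq_mul_inv,
    le_div_iff₀ (Real.sqrt_pos.2 hτ), my_int hv]
  have hu : Real.log (1 / 4) ≤ 0 := Real.log_nonpos (by norm_num) (by norm_num)
  have hl : 0 - Real.log (1 / 4) ≤ 3 := by
    have := Real.one_sub_inv_le_log_of_pos (show (0 : ℝ) < 1 / 4 by norm_num)
    norm_num at this ⊢
    linarith
  have he : Real.exp (Real.log (1 / 4)) = 1 / 4 := Real.exp_log (by norm_num)
  generalize Real.log (1 / 4) = u0 at hu hl he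
  have dv : ∀ x, HasDerivAt v (deriv v x) x := fun x =>
    (hv.smooth.differentiable (by simp) x).hasDerivAt
  have cv : Continuous v := hv.smooth.continuous
  have cv' : Continuous (deriv v) := hv.smooth.continuous_deriv (by simp)
  have hφ : ∀ u ∈ Set.Icc u0 0, HasDerivAt (fun u => τ * u + y * Real.exp u)
      ((y * Real.exp u + τ) * 1) u := fun u _ =>
    (((hasDerivAt_id u).const_mul τ).add ((Real.hasDerivAt_exp u).const_mul y)).congr_deriv
      (by ring)
  have hb : ∀ u ∈ Set.Icc u0 0, HasDerivAt (fun u => v (Real.exp u) * Real.exp u)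
      (deriv v (Real.exp u) * Real.exp u * Real.exp u + v (Real.exp u) * Real.exp u) u :=
    fun u _ => ((dv _).comp u (Real.hasDerivAt_exp u)).mul (Real.hasDerivAt_exp u)
  have cb' : ContinuousOn (fun u => deriv v (Real.exp u) * Real.exp u * Real.exp u +
      v (Real.exp u) * Real.exp u) (Set.Icc u0 0) := by fun_prop
  have two : ∀ u ∈ Set.Icc u0 0, ∀ x : ℝ, |x| ≤ C → |x * Real.exp u| ≤ C := fun u hu x hx => by
    rw [abs_mul, abs_of_pos (Real.exp_pos u)]
    exact (mul_le_of_le_one_right (abs_nonneg x) (Real.exp_le_one_iff.2 hu.2)).trans hx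
  have β0 : ∀ u ∈ Set.Icc u0 0, |v (Real.exp u) * Real.exp u| ≤ C := fun u hu => two u hu _ (h0 _)
  have β1 : ∀ u ∈ Set.Icc u0 0, |deriv v (Real.exp u) * Real.exp u * Real.exp u +
      v (Real.exp u) * Real.exp u| ≤ 2 * C := fun u hu => by
    refine (abs_add_le _ _).trans ?_
    linarith [two u hu _ (two u hu _ (h1 (Real.exp u))), β0 u hu]
  have κ0 : ∀ u ∈ Set.Icc u0 0, |v (Real.exp u) * Real.exp u * 1| ≤ C := fun u hu => by
    rw [mul_one]
    exact β0 u hu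
  rcases le_total |τ| 1 with k | k
  · have e1 : √(1 + |τ|) ≤ 2 := Real.sqrt_le_iff.2 ⟨by norm_num, by linarith⟩
    refine (mul_le_mul ((intervalIntegral.norm_integral_le_of_norm_le_const (C := C)
      fun u hu' => ?_).trans (mul_le_mul_of_nonneg_left (c := 3) ?_ hC)) e1
      (Real.sqrt_nonneg _) (by positivity)).trans (by linarith)
    · rw [Set.uIoc_of_le hu] at hu'
      rw [norm_mul, MP_ecd12e_nt.Bar.norm_ei, mul_one, Complex.norm_real, Real.norm_eq_abs]
      exact κ0 u (Set.Ioc_subset_Icc_self hu')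
    · rwa [abs_of_nonneg (sub_nonneg.2 hu)]
  obtain ⟨r, hr, e0⟩ : ∃ r : ℝ, 1 ≤ r ∧ |τ| = r ^ 2 :=
    ⟨√|τ|, Real.one_le_sqrt.2 k, (Real.sq_sqrt (abs_nonneg τ)).symm⟩
  have r0 : 0 < r := by linarith
  have e1 : √(1 + |τ|) ≤ 2 * r := Real.sqrt_le_iff.2 ⟨by linarith, by nlinarith⟩
  refine (mul_le_mul (b := 28 * C / r) ?_ e1 (Real.sqrt_nonneg _) (by positivity)).trans_eq
    (by field_simp; ring)
  have hl' : 2 * C * (0 - u0) ≤ 6 * C := by nlinarith
  rcases le_or_gt |y| (r ^ 2 / 2) with k' | k'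
  · refine (MP_ecd12e_nt.GM.vdc1 (k := fun _ => 1) (η := r ^ 2 / 2) hu (by positivity) hφ
      continuousOn_const hb cb' β0 β1 fun u hu' => ?_).trans ?_
    · have e2 := abs_add_le (y * Real.exp u + τ) (-(y * Real.exp u))
      rw [add_neg_cancel_comm, abs_neg, abs_mul, abs_of_pos (Real.exp_pos u)] at e2
      linarith [mul_le_of_le_one_right (abs_nonneg y) (Real.exp_le_one_iff.2 hu'.2)]
    · rw [div_le_div_iff₀ (by positivity) r0]
      have q1 : (3 * C + 2 * C * (0 - u0)) * r ≤ 9 * C * r :=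
        mul_le_mul_of_nonneg_right (by linarith) r0.le
      have q2 : C * r ≤ C * r ^ 2 := mul_le_mul_of_nonneg_left (by nlinarith) hC
      have q3 : 0 ≤ C * r := by positivity
      linarith
  · have hA0 : 0 < |y| := lt_trans (by positivity) k'
    refine (MP_ecd12e_nt.GM.vdc2 (k := fun _ => 1) (η := r) hu r0 (abs_pos.1 hA0) hφ
      continuousOn_const hb cb' β0 β1 κ0).trans ?_
    have q1 : (6 * C + 2 * C * (0 - u0)) / r ≤ 12 * C / r :=
      div_le_div_of_nonneg_right (by linarith) r0.le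
    have q2 : 2 * r / (|y| * Real.exp u0) ≤ 16 / r := by
      rw [div_le_div_iff₀ (by positivity) r0, he]
      nlinarith
    have q3 := mul_le_mul_of_nonneg_left q2 hC
    have q4 : 12 * C / r + C * (16 / r) = 28 * C / r := by ring
    linarith

theorem mm_mix (hv : Wt v) {η : ℝ} (hη : 0 < η) : ∃ C : ℝ, 0 ≤ C ∧ ∀ y τ : ℝ, y ≠ 0 →
    ‖MM v y (1 + I * τ)‖ ≤ C * (1 + |τ|) ^ (η - 1 / 2) * min 1 (((1 + |τ|) / |y|) ^ 2) := by
  obtain ⟨C, hC0, hC⟩ := mm_vdc hv
  obtain ⟨k, hk⟩ := exists_nat_ge (1 / η)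
  obtain ⟨D, hD0, hD⟩ := mm_y hv (2 * k + 2)
  refine ⟨C + D, by positivity, fun y τ hy => ?_⟩
  have h1 := hD y (1 + I * τ) (by simp) (by simp)
  have h2 := hC y τ
  rw [show (1 + I * τ : ℂ).im = τ by simp] at h1
  have hA : 1 ≤ 1 + |τ| := le_add_of_nonneg_right (abs_nonneg τ)
  have hy' := abs_pos.2 hy
  generalize 1 + |τ| = A at h1 h2 hA ⊢
  have A0 : 0 < A := by linarith
  have p0 : 0 ≤ A ^ (η - 1 / 2) * min 1 ((A / |y|) ^ 2) := by positivity
  rw [mul_assoc, add_mul]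
  rcases le_or_gt (A ^ (-η)) (min 1 ((A / |y|) ^ 2)) with l | l
  · refine h2.trans (le_add_of_le_of_nonneg (mul_le_mul_of_nonneg_left ?_ hC0) (by positivity))
    refine le_trans (le_of_eq ?_) (mul_le_mul_of_nonneg_left l (by positivity))
    rw [← Real.rpow_add A0]
    congr 1
    ring
  · have l1 : A ^ (-η) ≤ 1 := Real.rpow_le_one_of_one_le_of_nonpos hA (by linarith)
    have l2 : (A / |y|) ^ 2 < A ^ (-η) := (min_lt_iff.1 l).resolve_left (not_lt.2 l1)
    refine h1.trans (le_add_of_nonneg_of_le (by positivity) (mul_le_mul_of_nonneg_left ?_ hD0))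
    refine (pow_le_pow_left₀ (by positivity)
      (div_le_div_of_nonneg_left A0.le hy' (by linarith)) _).trans ?_
    rw [min_eq_right (l2.le.trans l1), pow_add, pow_mul]
    refine mul_le_mul_of_nonneg_right ((pow_le_pow_left₀ (by positivity) l2.le k).trans ?_)
      (by positivity)
    rw [← Real.rpow_mul_natCast A0.le]
    refine Real.rpow_le_rpow_of_exponent_le hA ?_
    rw [div_le_iff₀ hη] at hk
    linarith

end Pool.Agent.Lib.MP_778b46_nt.MB
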