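import Pool.Agent.Lib.MP_778b46_nt.MB.My
import Pool.Agent.Lib.MP_778b46_nt.MA.O6
import Pool.Agent.Lib.MP_778b46_nt.MA.F2

/-! Expansion of the trilinear sum in characters and powers. -/

set_option autoImplicit false

noncomputable section

namespace Pool.Agent.Lib.MP_778b46_nt.MB

open Complex Finset MeasureTheory
open scoped Real ComplexConjugate
open Pool.Agent.Lib.MP_03e5d0_nt (Sm ex ft bump)
open Pool.Agent.Lib.MP_778b46_nt.MA

theorem ta_pp (B : Tr) {q : ℕ} (w : Gq q) : pp B w =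
    ∑ d ∈ dy B.M1, ∑ c ∈ dy B.M2, ∑ n ∈ dy B.M3, B.b1 d * B.b2 c * B.b3 n * ev w (d * c * n) := by
  rw [pp, dp, dp, dp, sum_mul_sum, sum_mul]
  refine sum_congr rfl fun d _ => ?_
  rw [sum_mul]
  refine sum_congr rfl fun c _ => ?_
  rw [mul_sum]
  refine sum_congr rfl fun n _ => ?_
  rw [ev_mul, ev_mul]
  ring

theorem ta_log {x : ℝ} (h1 : 1 / 32 ≤ x) (h2 : x ≤ 32) : |Real.log x| ≤ 4 := by
  have h3 : Real.log 32 ≤ 4 := by
    rw [show (32 : ℝ) = 2 ^ 5 by norm_num, Real.log_pow]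
    have := Real.log_two_lt_d9
    push_cast
    linarith
  have h4 := Real.log_le_log (by norm_num) h1
  have h5 := Real.log_le_log (by linarith) h2
  rw [one_div, Real.log_inv] at h4
  rw [abs_le]
  constructor <;> linarith

theorem ta_one {X : ℝ} (hX : 0 < X) {q : ℕ} [NeZero q] (a : ℕ) (y : ℝ) (z : ℂ) {m : ℕ}
    (h1 : 1 / 32 ≤ m / X) (h2 : m / X ≤ 32) :
    HasSum (fun t : ℤ => (2 * π : ℂ)⁻¹ * ∑ χ : DirichletCharacter ℂ q,
      gc χ q a * (ex (-(t : ℝ)) (Real.log X) * (z * ev ((χ, Multiplicative.ofAdd t) : Gq q) m)) *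
        MM w1 y (-(I * t)))
      (if Nat.Coprime m q then z * ((w1 (m / X) : ℂ) * ac q a m * ex y (m / X)) else 0) := by
  have h0 : 0 < m / X := by linarith
  have hm : (0 : ℝ) < m := (div_pos_iff_of_pos_right hX).1 h0
  have hm' : m ≠ 0 := (Nat.cast_pos.1 hm).ne'
  have h3 := (mm_series wt_w1 y h0 (ta_log h1 h2)).mul_left
    (z * ∑ χ : DirichletCharacter ℂ q, gc χ q a * cf χ m)
  refine Eq.mp (congrArg₂ (HasSum · ·) (funext fun t => ?_) ?_) h3
  · have e : ex t (Real.log (m / X)) = ex t (Real.log m) * ex (-(t : ℝ)) (Real.log X) := by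
      rw [Real.log_div hm.ne' hX.ne']
      simp only [ex, ← Complex.exp_add]
      congr 1
      push_cast
      ring
    rw [e, mul_sum, mul_sum, sum_mul]
    refine sum_congr rfl fun χ _ => ?_
    simp only [ev, if_neg hm', ht, toAdd_ofAdd, cf]
    ring
  · split_ifs with h
    · rw [expand dvd_rfl a h]
      ring
    · rw [sum_eq_zero fun χ _ => ?_, mul_zero, zero_mul]
      rw [cf, MulChar.map_nonunit _ fun h' => h ((ZMod.isUnit_iff_coprime m q).1 h'), mul_zero]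

theorem ta_dy {M n : ℕ} (h : n ∈ dy M) : M ≤ n ∧ (n : ℝ) ≤ 2 * M := by
  have := mem_Ico.1 h
  exact ⟨this.1, by exact_mod_cast this.2.le⟩

theorem tri_series {X P : ℝ} {B : Tr} (hX : 0 < X) (hB : B.Ok X P) {q : ℕ} [NeZero q] (a : ℕ)
    (y : ℝ) : HasSum (fun t : ℤ => (2 * π : ℂ)⁻¹ * ∑ χ : DirichletCharacter ℂ q,
      gc χ q a * cw X B ((χ, Multiplicative.ofAdd t) : Gq q) * MM w1 y (-(I * t)))
      (tri X B q a y) := by
  have h := hasSum_sum (s := dy B.M1) fun d hd => hasSum_sum (s := dy B.M2) fun c hc =>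
    hasSum_sum (s := dy B.M3) fun n hn =>
      ta_one hX (q := q) a y (B.b1 d * B.b2 c * B.b3 n) (m := d * c * n) (by
        rw [le_div_iff₀ hX]
        have h1 : (B.M1 : ℝ) * B.M2 * B.M3 ≤ d * c * n := by
          gcongr
          exacts [(ta_dy hd).1, (ta_dy hc).1, (ta_dy hn).1]
        have := hB.lo
        push_cast
        linarith) (by
        rw [div_le_iff₀ hX]
        have h1 : (d : ℝ) * c * n ≤ 2 * B.M1 * (2 * B.M2) * (2 * B.M3) := by
          gcongr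
          exacts [(ta_dy hd).2, (ta_dy hc).2, (ta_dy hn).2]
        have := hB.up
        push_cast
        linarith)
  refine Eq.mp (congrArg₂ (HasSum · ·) (funext fun t => ?_) rfl) h
  simp only [← mul_sum, cw, ta_pp, ht, toAdd_ofAdd]
  congr 1
  simp only [mul_sum, sum_mul]
  symm
  rw [sum_comm]
  refine sum_congr rfl fun d _ => ?_
  rw [sum_comm]
  refine sum_congr rfl fun c _ => ?_
  rw [sum_comm]

theorem ta_gc {q : ℕ} [NeZero q] (a : ℕ) :
    ∑ χ : DirichletCharacter ℂ q, ‖gc χ q a‖ ≤ q := by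
  have hq : (0 : ℝ) < Nat.totient q := Nat.cast_pos.2 (Nat.totient_pos.2 (NeZero.pos q))
  refine (sum_le_card_nsmul _ _ ((Nat.totient q : ℝ)⁻¹ * q) fun χ _ => ?_).trans (le_of_eq ?_)
  · rw [gc, norm_mul, norm_inv, Complex.norm_natCast, GS]
    refine mul_le_mul_of_nonneg_left ((norm_sum_le _ _).trans
      ((sum_le_card_nsmul _ _ 1 fun u _ => ?_).trans (le_of_eq ?_))) (by positivity)
    · rw [norm_mul, norm_ee, mul_one]
      exact DirichletCharacter.norm_le_one _ _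
    · rw [card_univ, ZMod.card, nsmul_one]
  · rw [card_univ, ← Nat.card_eq_fintype_card,
      DirichletCharacter.card_eq_totient_of_hasEnoughRootsOfUnity, nsmul_eq_mul,
      mul_inv_cancel_left₀ hq.ne']

theorem ta_cw {X P : ℝ} {B : Tr} (hB : B.Ok X P) {q : ℕ} (w : Gq q) : ‖cw X B w‖ ≤ X := by
  rw [cw, norm_mul, MP_03e5d0_nt.norm_ex, one_mul, pp, norm_mul, norm_mul]
  refine le_trans ?_ hB.up
  gcongr
  exacts [norm_dp hB.n1 w, norm_dp hB.n2 w, norm_dp hB.n3 w]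

theorem ta_sum : Summable fun t : ℤ => 1 / (1 + |(t : ℝ)|) ^ 2 := by
  refine Summable.of_nonneg_of_le (fun t => by positivity) (fun t => ?_)
    ((Real.summable_one_div_int_add_rpow (1 / 2) 2).2 one_lt_two)
  have h1 : (t : ℝ) + 1 / 2 ≠ 0 := fun h => by
    have h2 : ((2 * t + 1 : ℤ) : ℝ) = 0 := by
      push_cast
      linarith
    have := Int.cast_eq_zero.1 h2
    omega
  rw [Real.rpow_two]
  refine one_div_le_one_div_of_le (by positivity) (pow_le_pow_left₀ (abs_nonneg _) ?_ 2)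
  refine (abs_add_le _ _).trans ?_
  rw [abs_of_pos (by norm_num : (0 : ℝ) < 1 / 2)]
  linarith

theorem ta_mm {κ : ℝ} (hκ : 0 < κ) : ∃ C : ℝ, 0 ≤ C ∧ ∀ X P q y t : ℝ, 1 ≤ X → 1 ≤ P → P ≤ X →
    1 ≤ q → q ≤ √X → |y| ≤ 7 * √X / q → (q ≤ P → P < q * |y|) →
    (X ^ (1 / 2 + κ) / q < |t| ∨ 1 + |t| < P * X ^ (-κ) / q) →
    X * X * ‖MM w1 y (-(I * t))‖ ≤ C * (1 / (1 + |t|) ^ 2) := by
  obtain ⟨k, hk⟩ := exists_nat_ge (4 / κ)
  obtain ⟨C, hC, h⟩ := mm_bd wt_w1 (k + 2)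
  obtain ⟨D, hD, h'⟩ := mm_y wt_w1 k
  refine ⟨64 * 8 ^ k * C + D, by positivity, fun X P q y t hX hP hPX hq hqX hy hy' ht => ?_⟩
  have hX0 : 0 < X := by linarith
  have hq0 : 0 < q := by linarith
  have hu : 1 ≤ X ^ κ := Real.one_le_rpow hX hκ.le
  have hu' : X ^ 4 ≤ (X ^ κ) ^ k := by
    rw [← Real.rpow_natCast, ← Real.rpow_natCast, ← Real.rpow_mul hX0.le]
    refine Real.rpow_le_rpow_of_exponent_le hX ?_
    rw [div_le_iff₀ hκ] at hk
    push_cast
    linarith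
  have a6 : |(-(I * (t : ℂ))).im| = |t| := by simp
  have t0 : 0 < 1 + |t| := by positivity
  have y0 : 0 < 1 + |y| := by positivity
  rcases ht with ht | ht
  · have a5 := h y (-(I * t)) (by simp) (by simp)
    rw [a6] at a5
    rw [Real.rpow_add hX0, ← Real.sqrt_eq_rpow, mul_div_right_comm] at ht
    have b1 : 1 ≤ √X / q := (one_le_div hq0).2 hqX
    have b2 : √X / q ≤ X :=
      (div_le_self (Real.sqrt_nonneg X) hq).trans (Real.sqrt_le_self_iff.2 (Or.inr hX))
    rw [mul_div_assoc] at hy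
    have a2 : (1 + |y|) / (1 + |t|) ≤ 8 / X ^ κ := by
      rw [div_le_div_iff₀ t0 (by linarith)]
      nlinarith
    have a3 : (1 + |y|) / (1 + |t|) ≤ 8 * X / (1 + |t|) := by
      gcongr
      linarith
    have a4 : ((1 + |y|) / (1 + |t|)) ^ (k + 2) ≤ 8 ^ k / X ^ 4 * (8 * X / (1 + |t|)) ^ 2 := by
      rw [pow_add]
      refine mul_le_mul ((pow_le_pow_left₀ (by positivity) a2 k).trans ?_)
        (pow_le_pow_left₀ (by positivity) a3 2) (by positivity) (by positivity)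
      rw [div_pow]
      gcongr
    calc _ ≤ X * X * (C * (8 ^ k / X ^ 4 * (8 * X / (1 + |t|)) ^ 2)) :=
          mul_le_mul_of_nonneg_left (a5.trans (mul_le_mul_of_nonneg_left a4 hC)) (by positivity)
      _ = 64 * 8 ^ k * C * (1 / (1 + |t|) ^ 2) := by
          field_simp
          norm_num
      _ ≤ _ := by
          gcongr
          linarith
  · have a5 := h' y (-(I * t)) (by simp) (by simp)
    rw [a6] at a5
    rw [Real.rpow_neg hX0.le, ← div_eq_mul_inv, div_div, lt_div_iff₀ (by positivity)] at ht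
    have b0 := abs_nonneg t
    have b1 : 1 + |t| ≤ (1 + |t|) * (X ^ κ * q) :=
      le_mul_of_one_le_right t0.le (one_le_mul_of_one_le_of_one_le hu hq)
    have b2 : q ≤ (1 + |t|) * (X ^ κ * q) := by
      rw [← mul_assoc]
      exact le_mul_of_one_le_left hq0.le (one_le_mul_of_one_le_of_one_le (by linarith) hu)
    have b3 := hy' (by linarith)
    have a2 : (1 + |t|) / (1 + |y|) ≤ 1 / X ^ κ := by
      rw [div_le_div_iff₀ y0 (by linarith)]
      refine le_of_mul_le_mul_right ?_ hq0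
      nlinarith
    have a4 : ((1 + |t|) / (1 + |y|)) ^ k ≤ 1 / X ^ 4 := by
      refine (pow_le_pow_left₀ (by positivity) a2 k).trans ?_
      rw [div_pow, one_pow]
      gcongr
    calc _ ≤ X * X * (D * (1 / X ^ 4)) :=
          mul_le_mul_of_nonneg_left (a5.trans (mul_le_mul_of_nonneg_left a4 hD)) (by positivity)
      _ = D * (1 / X ^ 2) := by field_simp
      _ ≤ _ := by
          gcongr
          · exact le_add_of_nonneg_left (by positivity)
          · linarith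

theorem tri_trunc {κ : ℝ} (hκ : 0 < κ) : ∃ C : ℝ, 0 ≤ C ∧ ∀ (X P : ℝ) (B : Tr) (q : ℕ) [NeZero q]
    (a : ℕ) (y : ℝ), 1 ≤ X → 1 ≤ P → P ≤ X → B.Ok X P → (q : ℝ) ≤ √X → a ∈ cop q →
    y ∈ arc X P q →
    ‖tri X B q a y - FF a (W0 q (P * X ^ (-κ) / q) (X ^ (1 / 2 + κ) / q)) (cw X B) y‖ ≤ C := by
  obtain ⟨C, hC, h⟩ := ta_mm hκ
  have hZ : 0 ≤ ∑' t : ℤ, 1 / (1 + |(t : ℝ)|) ^ 2 := tsum_nonneg fun t => by positivity
  refine ⟨C * ∑' t : ℤ, 1 / (1 + |(t : ℝ)|) ^ 2, by positivity,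
    fun X P B q _ a y hX hP hPX hB hq _ hy => ?_⟩
  have hX0 : 0 < X := by linarith
  have hq1 : (1 : ℝ) ≤ q := by exact_mod_cast NeZero.pos q
  have e : FF a (W0 q (P * X ^ (-κ) / q) (X ^ (1 / 2 + κ) / q)) (cw X B) y =
      ∑ t ∈ (II (X ^ (1 / 2 + κ) / q)).filter fun t : ℤ => P * X ^ (-κ) / q ≤ 1 + |(t : ℝ)|,
        (2 * π : ℂ)⁻¹ * ∑ χ : DirichletCharacter ℂ q,
          gc χ q a * cw X B ((χ, Multiplicative.ofAdd t) : Gq q) * MM w1 y (-(I * t)) := by
    rw [FF, W0, sum_filter, sum_box, sum_comm, sum_filter, mul_sum]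
    refine sum_congr rfl fun t _ => ?_
    split_ifs with ht
    · exact congrArg _ (sum_congr rfl fun χ _ => if_pos ht)
    · exact mul_eq_zero_of_right _ (sum_eq_zero fun χ _ => if_neg ht)
  rw [e]
  refine o6_tail (tri_series hX0 hB a y) _ (ta_sum.hasSum.mul_left C) (fun t => by positivity)
    fun t ht => ?_
  rw [mem_filter, mem_II (by positivity), not_and_or, not_le, not_le] at ht
  refine le_trans ?_ (h X P q y t hX hP hPX hq1 hq hy.1 hy.2 ht)
  have a7 : ‖(2 * π : ℂ)⁻¹‖ ≤ 1 := by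
    rw [norm_inv, norm_mul, norm_real, Real.norm_of_nonneg Real.pi_pos.le, Complex.norm_two]
    exact inv_le_one_of_one_le₀ (by linarith [Real.pi_gt_three])
  rw [norm_mul, ← sum_mul, norm_mul, ofReal_intCast]
  refine (mul_le_of_le_one_left (by positivity) a7).trans
    (mul_le_mul_of_nonneg_right ((norm_sum_le _ _).trans ?_) (norm_nonneg _))
  calc _ ≤ ∑ χ : DirichletCharacter ℂ q, ‖gc χ q a‖ * X := sum_le_sum fun χ _ => by
        rw [norm_mul]
        exact mul_le_mul_of_nonneg_left (ta_cw hB _) (norm_nonneg _)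
    _ ≤ X * X := by
        rw [← sum_mul]
        exact mul_le_mul_of_nonneg_right ((ta_gc a).trans
          (hq.trans (Real.sqrt_le_self_iff.2 (Or.inr hX)))) hX0.le

end Pool.Agent.Lib.MP_778b46_nt.MB
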