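import Pool.Agent.Lib.MP_778b46_nt.MB.Er
import Pool.Agent.Lib.MP_778b46_nt.MB.L4

/-! Level sets. -/

set_option autoImplicit false

noncomputable section

namespace Pool.Agent.Lib.MP_778b46_nt.MB

open Complex Finset MeasureTheory
open scoped Real ComplexConjugate
open Pool.Agent.Lib.MP_03e5d0_nt (Sm ex ft bump)
open Pool.Agent.Lib.MP_778b46_nt.MA

/-- The dyadic level of a real number. -/
def tbLg (x : ℝ) : ℕ := Nat.log 2 ⌊x⌋₊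

theorem tb_le {x : ℝ} (hx : 1 ≤ x) : (2 : ℝ) ^ tbLg x ≤ x := by
  have h1 : ⌊x⌋₊ ≠ 0 := (Nat.floor_pos.2 hx).ne'
  refine le_trans ?_ (Nat.floor_le (zero_le_one.trans hx))
  exact_mod_cast Nat.pow_log_le_self 2 h1

theorem tb_ge (x : ℝ) : x ≤ 2 * 2 ^ tbLg x := by
  have h1 : ⌊x⌋₊ + 1 ≤ 2 ^ (tbLg x + 1) := Nat.lt_pow_succ_log_self one_lt_two _
  have h2 : ((⌊x⌋₊ : ℝ) + 1) ≤ 2 ^ (tbLg x + 1) := by exact_mod_cast h1
  rw [pow_succ'] at h2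
  exact (Nat.lt_floor_add_one x).le.trans h2

theorem tb_L {ε X : ℝ} (hε : 0 < ε) (hX : 1 ≤ X) :
    ((tbLg (X ^ 3) + 1 : ℕ) : ℝ) ≤ (6 / ε + 1) * X ^ ε := by
  have h1 := Real.log_le_log (by positivity) (tb_le (one_le_pow₀ hX : 1 ≤ X ^ 3))
  rw [Real.log_pow, Real.log_pow] at h1
  have h2 := Real.log_le_rpow_div (zero_le_one.trans hX) hε
  have h3 := Real.log_two_gt_d9
  have h4 := Real.one_le_rpow hX hε.le
  have h5 : (0 : ℝ) ≤ tbLg (X ^ 3) := Nat.cast_nonneg _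
  rw [show (6 / ε + 1) * X ^ ε = 6 * (X ^ ε / ε) + X ^ ε by ring]
  push_cast at h1 ⊢
  nlinarith

theorem tb_mem {x y : ℝ} (h : x ≤ y) : tbLg x ∈ range (tbLg y + 1) :=
  mem_range.2 (Nat.lt_succ_of_le (Nat.log_mono_right (Nat.floor_le_floor h)))

theorem tb_phi (q : ℕ) [NeZero q] : (q : ℝ) / Nat.totient q ≤ q.divisors.card := by
  have h0 := Nat.totient_pos.2 (NeZero.pos q)
  have h1 : q ≤ q.divisors.card * Nat.totient q := by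
    conv_lhs => rw [← Nat.sum_totient q]
    exact sum_le_card_nsmul _ _ _ fun d hd =>
      Nat.le_of_dvd h0 (Nat.totient_dvd_of_dvd (Nat.dvd_of_mem_divisors hd))
  rw [div_le_iff₀ (Nat.cast_pos.2 h0)]
  exact_mod_cast h1

theorem tb_split {q : ℕ} [NeZero q] {ι : Type} [DecidableEq ι] (W : Finset (Gq q)) (c : Gq q → ℂ)
    (cl : Gq q → ι) (S : Finset ι) (h : ∀ w ∈ W, cl w ∈ S)
    (hi : ∀ s a, Integrable fun y => ‖FF a (W.filter fun w => cl w = s) c y‖ ^ 4) :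
    ∑ a ∈ cop q, ∫ y, ‖FF a W c y‖ ^ 4 ≤ (S.card : ℝ) ^ 3 *
      ∑ s ∈ S, ∑ a ∈ cop q, ∫ y, ‖FF a (W.filter fun w => cl w = s) c y‖ ^ 4 := by
  rw [sum_comm, mul_sum]
  refine sum_le_sum fun a _ => ?_
  rw [← integral_finsetSum _ fun s _ => hi s a, ← integral_const_mul]
  refine integral_mono_of_nonneg (.of_forall fun y => by positivity)
    ((integrable_finsetSum _ fun s _ => hi s a).const_mul _) (.of_forall fun y => ?_)
  have e : FF a W c y = ∑ s ∈ S, FF a (W.filter fun w => cl w = s) c y := by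
    simp only [FF]
    rw [← mul_sum, sum_fiberwise_of_maps_to h]
  refine le_trans ?_ (pow_sum_le_card_mul_sum_pow (fun _ _ => norm_nonneg _) 3)
  simp only [e]
  exact pow_le_pow_left₀ (norm_nonneg _) (norm_sum_le _ _) _

theorem tb_one {a b c m n X : ℝ} (ha : 0 ≤ a) (hc : 0 ≤ c) (hm : 0 ≤ m) (h1 : b ≤ m) (h2 : c ≤ n)
    (h3 : m * n ≤ X) (h4 : 1 ≤ a * (b * c)) : 1 ≤ X * a :=
  h4.trans ((mul_le_mul_of_nonneg_left ((mul_le_mul h1 h2 hc hm).trans h3) ha).trans_eq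
    (mul_comm _ _))

theorem tb_ok {X P : ℝ} {B : Tr} (hB : B.Ok X P) :
    (B.M2 : ℝ) * B.M3 ≤ X ∧ (B.M1 : ℝ) * B.M3 ≤ X ∧ (B.M1 : ℝ) * B.M2 ≤ X ∧
      (B.M1 : ℝ) ≤ X ∧ (B.M2 : ℝ) ≤ X ∧ (B.M3 : ℝ) ≤ X := by
  have p1 : (1 : ℝ) ≤ B.M1 := by exact_mod_cast hB.p1
  have p2 : (1 : ℝ) ≤ B.M2 := by exact_mod_cast hB.p2
  have p3 : (1 : ℝ) ≤ B.M3 := by exact_mod_cast hB.p3
  have h := hB.up
  have a1 : (B.M2 : ℝ) * B.M3 ≤ X := by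
    nlinarith [mul_pos (zero_lt_one.trans_le p2) (zero_lt_one.trans_le p3)]
  have a2 : (B.M1 : ℝ) * B.M3 ≤ X := by
    nlinarith [mul_pos (zero_lt_one.trans_le p1) (zero_lt_one.trans_le p3)]
  have a3 : (B.M1 : ℝ) * B.M2 ≤ X := by
    nlinarith [mul_pos (zero_lt_one.trans_le p1) (zero_lt_one.trans_le p2)]
  exact ⟨a1, a2, a3, by nlinarith, by nlinarith, by nlinarith⟩

open Classical in
/-- The class of a pair. -/
def tbCl (X : ℝ) (B : Tr) {q : ℕ} (w : Gq q) : ℕ × ℕ × ℕ × ℕ × ℕ × ℕ :=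
  (tbLg (1 + |(ht w : ℝ)|), w.1.conductor, tbLg (X * ‖dp (dy B.M1) B.b1 w‖),
    tbLg (X * ‖dp (dy B.M2) B.b2 w‖), tbLg (X * ‖dp (dy B.M3) B.b3 w‖),
    if ‖pp B w‖ ≤ √X then 0 else 1)

theorem tb_cw (X : ℝ) (B : Tr) {q : ℕ} (w : Gq q) : ‖cw X B w‖ = ‖pp B w‖ := by
  rw [cw, norm_mul, MP_03e5d0_nt.norm_ex, one_mul]

theorem tb_class {κ : ℝ} (hκ : 0 < κ) : ∃ C : ℝ, 0 ≤ C ∧ ∀ (X P : ℝ) (B : Tr) (q : ℕ) [NeZero q]
    (W : Finset (Gq q)) (s : ℕ × ℕ × ℕ × ℕ × ℕ × ℕ),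
    2 ≤ X → 1 ≤ P → P ≤ X ^ (5 / 12 : ℝ) → B.Ok X P → (q : ℝ) ≤ √X →
    W ⊆ W0 q (P * X ^ (-κ) / q) (X ^ (1 / 2 + κ) / q) → (∀ w ∈ W, tbCl X B w = s) →
    (∀ a, Integrable fun y => ‖FF a W (cw X B) y‖ ^ 4) ∧
    ∑ a ∈ cop q, ∫ y, ‖FF a W (cw X B) y‖ ^ 4 ≤
      C * ((q : ℝ) / Nat.totient q) ^ 3 * X ^ (30 * κ) *
        (X ^ 2 / P * ∑ w ∈ W, ((w.1.conductor : ℝ) / q) ^ 2 * ‖pp B w‖ ^ 2 +
          X ^ (7 / 2 : ℝ) / q) := by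
  obtain ⟨C4, hC4, h4⟩ := l4
  obtain ⟨Ce, hCe, he⟩ := er hκ
  refine ⟨C4 * (27 + 4096 * Ce), by positivity, fun X P B q _ W s hX hP hPX hB hq hW hs => ?_⟩
  have hX1 : 1 ≤ X := one_le_two.trans hX
  have hX0 : 0 < X := zero_lt_one.trans_le hX1
  have hP0 : 0 < P := zero_lt_one.trans_le hP
  have hq0 : (0 : ℝ) < q := Nat.cast_pos.2 (NeZero.pos q)
  have hφ : (0 : ℝ) < Nat.totient q := Nat.cast_pos.2 (Nat.totient_pos.2 (NeZero.pos q))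
  have hqX : (q : ℝ) ≤ X ^ (1 / 2 + κ) := by
    rw [Real.sqrt_eq_rpow] at hq
    exact hq.trans (Real.rpow_le_rpow_of_exponent_le hX1 (by linarith))
  have hT2 : 0 ≤ X ^ (1 / 2 + κ) / q := by positivity
  have hG : 0 ≤ ∑ w ∈ W, ((w.1.conductor : ℝ) / q) ^ 2 * ‖pp B w‖ ^ 2 :=
    sum_nonneg fun _ _ => by positivity
  obtain ⟨j, r, j1, j2, j3, b⟩ := s
  simp only [tbCl, Prod.mk.injEq] at hs
  by_cases hb : ∀ w ∈ W, ‖pp B w‖ ≤ √X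
  · obtain ⟨k1, k2⟩ := h4 q W (cw X B) √X 1 (√q / Nat.totient q) one_pos
      (fun w _ => le_add_of_nonneg_right (abs_nonneg _))
      (fun w hw => (tb_cw X B w).trans_le (hb w hw))
      fun w _ => (gc_bd w.1 dvd_rfl).1.trans (by
        have : (w.1.conductor : ℝ) ≤ q :=
          Nat.cast_le.2 (Nat.le_of_dvd (NeZero.pos q) w.1.conductor_dvd_level)
        gcongr)
    refine ⟨k1, k2.trans ?_⟩
    have hR : (W.card : ℝ) ≤ 3 * X ^ (1 / 2 + κ) := by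
      have e1 : (W.card : ℝ) ≤ (box q (X ^ (1 / 2 + κ) / q)).card :=
        Nat.cast_le.2 (card_le_card (hW.trans (filter_subset _ _)))
      have e2 := card_box (q := q) hT2
      rw [mul_add, mul_left_comm, mul_div_cancel₀ _ hq0.ne'] at e2
      linarith
    have hE : (en W : ℝ) ≤ (3 * X ^ (1 / 2 + κ)) ^ 3 := by
      refine le_trans ?_ (pow_le_pow_left₀ (Nat.cast_nonneg _) hR 3)
      exact_mod_cast en_le W
    have e3 : X ^ 2 * (X ^ (1 / 2 + κ)) ^ 3 ≤ X ^ (30 * κ) * X ^ (7 / 2 : ℝ) := by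
      rw [← Real.rpow_natCast, ← Real.rpow_natCast, ← Real.rpow_mul hX0.le, ← Real.rpow_add hX0,
        ← Real.rpow_add hX0]
      refine Real.rpow_le_rpow_of_exponent_le hX1 ?_
      push_cast
      linarith
    calc _ ≤ C4 * Nat.totient q * (√q / Nat.totient q) ^ 4 * √X ^ 4 *
          (3 * X ^ (1 / 2 + κ)) ^ 3 / 1 := by gcongr
      _ = C4 * 27 * ((q : ℝ) / Nat.totient q) ^ 3 * (X ^ 2 * (X ^ (1 / 2 + κ)) ^ 3) / q := by
        rw [div_pow, show √(q : ℝ) ^ 4 = (√(q : ℝ) ^ 2) ^ 2 by ring,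
          show √X ^ 4 = (√X ^ 2) ^ 2 by ring, Real.sq_sqrt hq0.le, Real.sq_sqrt hX0.le]
        field_simp
        ring
      _ ≤ C4 * 27 * ((q : ℝ) / Nat.totient q) ^ 3 * (X ^ (30 * κ) * X ^ (7 / 2 : ℝ)) / q := by
        gcongr
      _ = C4 * 27 * ((q : ℝ) / Nat.totient q) ^ 3 * X ^ (30 * κ) * (0 + X ^ (7 / 2 : ℝ) / q) := by
        ring
      _ ≤ _ := by
        gcongr
        · exact le_add_of_nonneg_right (by positivity)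
        · positivity
  push Not at hb
  obtain ⟨w0, hw0, hb⟩ := hb
  obtain ⟨o1, o2, o3, -⟩ := tb_ok hB
  have hbig : ∀ w ∈ W, 1 ≤ ‖dp (dy B.M1) B.b1 w‖ * ‖dp (dy B.M2) B.b2 w‖ *
      ‖dp (dy B.M3) B.b3 w‖ := by
    intro w hw
    have e1 := (hs w hw).2.2.2.2.2
    rw [← (hs w0 hw0).2.2.2.2.2, if_neg hb.not_ge] at e1
    have e2 : ¬ ‖pp B w‖ ≤ √X := fun k => by simp [k] at e1
    rw [← norm_mul, ← norm_mul]
    exact (Real.one_le_sqrt.2 hX1).trans (not_le.1 e2).le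
  have hU : ∀ {x : ℝ} {i : ℕ}, 1 ≤ X * x → tbLg (X * x) = i →
      2 ^ i / X ≤ x ∧ x ≤ 2 * (2 ^ i / X) := by
    rintro x i h1 rfl
    rw [← mul_div_assoc, div_le_iff₀' hX0, le_div_iff₀' hX0]
    exact ⟨tb_le h1, tb_ge _⟩
  have u1 := fun w hw => hU (tb_one (norm_nonneg _) (norm_nonneg _) (Nat.cast_nonneg _)
    (norm_dp hB.n2 w) (norm_dp hB.n3 w) o1 ((hbig w hw).trans_eq (by ring))) (hs w hw).2.2.1
  have u2 := fun w hw => hU (tb_one (norm_nonneg _) (norm_nonneg _) (Nat.cast_nonneg _)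
    (norm_dp hB.n1 w) (norm_dp hB.n3 w) o2 ((hbig w hw).trans_eq (by ring))) (hs w hw).2.2.2.1
  have u3 := fun w hw => hU (tb_one (norm_nonneg _) (norm_nonneg _) (Nat.cast_nonneg _)
    (norm_dp hB.n1 w) (norm_dp hB.n2 w) o3 ((hbig w hw).trans_eq (by ring))) (hs w hw).2.2.2.2.1
  have hT : ∀ w ∈ W, 2 ^ j ≤ 1 + |(ht w : ℝ)| ∧ 1 + |(ht w : ℝ)| ≤ 2 * 2 ^ j := fun w hw =>
    (hs w hw).1 ▸ ⟨tb_le (le_add_of_nonneg_right (abs_nonneg _)), tb_ge _⟩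
  have p1 : 0 < (2 : ℝ) ^ j1 / X := by positivity
  have p2 : 0 < (2 : ℝ) ^ j2 / X := by positivity
  have p3 : 0 < (2 : ℝ) ^ j3 / X := by positivity
  have hT1 : (1 : ℝ) ≤ 2 ^ j := one_le_pow₀ one_le_two
  generalize (2 : ℝ) ^ j1 / X = U1 at *
  generalize (2 : ℝ) ^ j2 / X = U2 at *
  generalize (2 : ℝ) ^ j3 / X = U3 at *
  generalize (2 : ℝ) ^ j = T at *
  have hT0 : 0 < T := zero_lt_one.trans_le hT1
  obtain ⟨m1, m2⟩ := mem_filter.1 (hW hw0)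
  rw [mem_box hT2, le_div_iff₀ hq0] at m1
  rw [div_le_iff₀ hq0] at m2
  have k3 := he X P T U1 U2 U3 B q W hX1 hP hPX hB hT1 (by nlinarith [(hT w0 hw0).2])
    (by nlinarith [(hT w0 hw0).1])
    (fun w hw => (mem_box (by positivity)).2 (by linarith [(hT w hw).2])) p1 p2 p3
    (fun w hw => (u1 w hw).1) (fun w hw => (u2 w hw).1) fun w hw => (u3 w hw).1
  obtain ⟨k1, k2⟩ := h4 q W (cw X B) (2 * U1 * (2 * U2) * (2 * U3)) T (√r / Nat.totient q) hT0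
    (fun w hw => (hT w hw).1) (fun w hw => by
      rw [tb_cw, pp, norm_mul, norm_mul]
      gcongr
      exacts [(u1 w hw).2, (u2 w hw).2, (u3 w hw).2])
    fun w hw => (hs w hw).2.1 ▸ (gc_bd w.1 dvd_rfl).1
  refine ⟨k1, k2.trans ?_⟩
  have k4 : W.card * (((r : ℝ) / q) ^ 2 * (U1 * U2 * U3) ^ 2) ≤
      ∑ w ∈ W, ((w.1.conductor : ℝ) / q) ^ 2 * ‖pp B w‖ ^ 2 := by
    rw [← nsmul_eq_mul]
    refine card_nsmul_le_sum _ _ _ fun w hw => ?_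
    rw [(hs w hw).2.1, pp, norm_mul, norm_mul]
    gcongr
    exacts [(u1 w hw).1, (u2 w hw).1, (u3 w hw).1]
  calc _ = C4 * 4096 * r ^ 2 / Nat.totient q ^ 3 * (U1 * U2 * U3) ^ 2 / T *
        (en W * (U1 * U2 * U3) ^ 2) := by
        rw [div_pow, show √(r : ℝ) ^ 4 = (√(r : ℝ) ^ 2) ^ 2 by ring,
          Real.sq_sqrt (Nat.cast_nonneg r)]
        field_simp
        ring
    _ ≤ C4 * 4096 * r ^ 2 / Nat.totient q ^ 3 * (U1 * U2 * U3) ^ 2 / T *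
        (Ce * X ^ (30 * κ) * W.card * (q * T) * X ^ 2 / P) := by gcongr
    _ = C4 * (4096 * Ce) * ((q : ℝ) / Nat.totient q) ^ 3 * X ^ (30 * κ) *
        (X ^ 2 / P * (W.card * (((r : ℝ) / q) ^ 2 * (U1 * U2 * U3) ^ 2)) + 0) := by
        field_simp
        ring
    _ ≤ _ := by
        gcongr
        · exact le_add_of_nonneg_left (by norm_num)
        · positivity

theorem ff_cls {κ : ℝ} (hκ : 0 < κ) : ∃ C : ℝ, 0 ≤ C ∧ ∀ (X P : ℝ) (B : Tr) (q : ℕ) [NeZero q],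
    2 ≤ X → 1 ≤ P → P ≤ X ^ (5 / 12 : ℝ) → B.Ok X P → (q : ℝ) ≤ √X → κ ≤ 1 →
    ∑ a ∈ cop q, ∫ y, ‖FF a (W0 q (P * X ^ (-κ) / q) (X ^ (1 / 2 + κ) / q)) (cw X B) y‖ ^ 4 ≤
      C * X ^ (40 * κ) * (X ^ 2 / P * ms B q (X ^ (1 / 2 + κ) / q) + X ^ (7 / 2 : ℝ) / q) := by
  obtain ⟨C0, hC0, h0⟩ := tb_class hκ
  have hε : 0 < κ / 3 := by positivity
  obtain ⟨C1, hC1, h1⟩ := MP_2a1a00_nt.card_divisors_le _ hε
  refine ⟨(2 * C1 * (6 / (κ / 3) + 1) ^ 4) ^ 4 * C1 ^ 3 * C0, by positivity,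
    fun X P B q _ hX hP hPX hB hq hκ1 => ?_⟩
  have hX1 : 1 ≤ X := one_le_two.trans hX
  have hX0 : 0 < X := zero_lt_one.trans_le hX1
  have hq1 : (1 : ℝ) ≤ q := Nat.one_le_cast.2 (NeZero.pos q)
  have hL := tb_L hε hX1
  have hY := Real.one_le_rpow hX1 hε.le
  have hτ : (q.divisors.card : ℝ) ≤ C1 * X ^ (κ / 3) := (h1 q).trans (by
    have : (q : ℝ) ≤ X := hq.trans (Real.sqrt_le_self_iff.2 (Or.inr hX1))
    gcongr)
  have hφ := (tb_phi q).trans hτ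
  have hY' : (X ^ (κ / 3)) ^ 23 * X ^ (30 * κ) ≤ X ^ (40 * κ) := by
    rw [← Real.rpow_natCast, ← Real.rpow_mul hX0.le, ← Real.rpow_add hX0]
    refine Real.rpow_le_rpow_of_exponent_le hX1 ?_
    push_cast
    linarith
  obtain ⟨-, -, -, o1, o2, o3⟩ := tb_ok hB
  obtain ⟨R, hR⟩ : ∃ R, R = range (tbLg (X ^ 3) + 1) := ⟨_, rfl⟩
  obtain ⟨S, hS⟩ : ∃ S, S = R ×ˢ q.divisors ×ˢ R ×ˢ R ×ˢ R ×ˢ range 2 := ⟨_, rfl⟩
  obtain ⟨W, hW⟩ : ∃ W, W = W0 q (P * X ^ (-κ) / q) (X ^ (1 / 2 + κ) / q) := ⟨_, rfl⟩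
  have hc := fun s => h0 X P B q (W.filter fun w => tbCl X B w = s) s hX hP hPX hB hq
    (hW ▸ filter_subset _ _) fun w hw => (mem_filter.1 hw).2
  have hd : ∀ {x m : ℝ}, x ≤ m → m ≤ X → tbLg (X * x) ∈ R := fun k1 k2 =>
    hR ▸ tb_mem (by nlinarith [mul_le_mul_of_nonneg_left (k1.trans k2) hX0.le, mul_pos hX0 hX0])
  have hm : ∀ w ∈ W, tbCl X B w ∈ S := by
    intro w hw
    simp only [hS, tbCl, mem_product]
    refine ⟨hR ▸ tb_mem ?_, Nat.mem_divisors.2 ⟨w.1.conductor_dvd_level, NeZero.ne q⟩,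
      hd (norm_dp hB.n1 w) o1, hd (norm_dp hB.n2 w) o2, hd (norm_dp hB.n3 w) o3, ?_⟩
    · have e1 := (mem_box (by positivity)).1 (mem_filter.1 (hW ▸ hw)).1
      have e2 : X ^ (1 / 2 + κ) ≤ X ^ 2 := by
        rw [← Real.rpow_natCast]
        refine Real.rpow_le_rpow_of_exponent_le hX1 ?_
        push_cast
        linarith
      have e3 := div_le_self (Real.rpow_nonneg hX0.le (1 / 2 + κ)) hq1
      nlinarith [mul_pos hX0 hX0]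
    · split_ifs <;> simp
  have hn : (S.card : ℝ) ≤ 2 * C1 * (6 / (κ / 3) + 1) ^ 4 * (X ^ (κ / 3)) ^ 5 := by
    have e : (S.card : ℝ) = 2 * q.divisors.card * ((tbLg (X ^ 3) + 1 : ℕ) : ℝ) ^ 4 := by
      simp only [hS, hR, card_product, card_range]
      push_cast
      ring
    rw [e]
    calc _ ≤ 2 * (C1 * X ^ (κ / 3)) * ((6 / (κ / 3) + 1) * X ^ (κ / 3)) ^ 4 := by gcongr
      _ = _ := by ring
  have hms : ∑ w ∈ W, ((w.1.conductor : ℝ) / q) ^ 2 * ‖pp B w‖ ^ 2 ≤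
      ms B q (X ^ (1 / 2 + κ) / q) :=
    sum_le_sum_of_subset_of_nonneg (hW ▸ filter_subset _ _) fun _ _ _ => by positivity
  have hms0 : 0 ≤ ms B q (X ^ (1 / 2 + κ) / q) := sum_nonneg fun _ _ => by positivity
  rw [← hW]
  refine (tb_split W _ (tbCl X B) S hm fun s => (hc s).1).trans ?_
  calc _ ≤ (S.card : ℝ) ^ 3 * ∑ _s ∈ S, C0 * (C1 * X ^ (κ / 3)) ^ 3 * X ^ (30 * κ) *
        (X ^ 2 / P * ms B q (X ^ (1 / 2 + κ) / q) + X ^ (7 / 2 : ℝ) / q) := by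
        refine mul_le_mul_of_nonneg_left (sum_le_sum fun s _ => (hc s).2.trans ?_) (by positivity)
        have := (sum_le_sum_of_subset_of_nonneg (filter_subset (fun w => tbCl X B w = s) W)
          fun _ _ _ => by positivity).trans hms
        have := sum_nonneg (s := W.filter fun w => tbCl X B w = s)
          (f := fun w => ((w.1.conductor : ℝ) / q) ^ 2 * ‖pp B w‖ ^ 2) fun _ _ => by positivity
        gcongr
    _ = (S.card : ℝ) ^ 4 * (C0 * (C1 * X ^ (κ / 3)) ^ 3 * X ^ (30 * κ) *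
        (X ^ 2 / P * ms B q (X ^ (1 / 2 + κ) / q) + X ^ (7 / 2 : ℝ) / q)) := by
        rw [sum_const, nsmul_eq_mul]
        ring
    _ ≤ (2 * C1 * (6 / (κ / 3) + 1) ^ 4 * (X ^ (κ / 3)) ^ 5) ^ 4 *
        (C0 * (C1 * X ^ (κ / 3)) ^ 3 * X ^ (30 * κ) *
        (X ^ 2 / P * ms B q (X ^ (1 / 2 + κ) / q) + X ^ (7 / 2 : ℝ) / q)) := by gcongr
    _ = (2 * C1 * (6 / (κ / 3) + 1) ^ 4) ^ 4 * C1 ^ 3 * C0 * ((X ^ (κ / 3)) ^ 23 * X ^ (30 * κ)) *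
        (X ^ 2 / P * ms B q (X ^ (1 / 2 + κ) / q) + X ^ (7 / 2 : ℝ) / q) := by
        generalize 6 / (κ / 3) + 1 = c
        ring
    _ ≤ _ := by gcongr

end Pool.Agent.Lib.MP_778b46_nt.MB
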