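import Pool.Agent.Lib.MP_778b46_nt.MB.Defs
import Pool.Agent.Lib.MP_778b46_nt.MA.LVe
import Pool.Agent.Lib.MP_778b46_nt.GX.Z4c
import Pool.Agent.Lib.MP_c03ca8_nt.Q.Char
import Pool.Agent.Lib.MP_2a1a00_nt.Div

/-! The hybrid large sieve for all levels. -/

set_option autoImplicit false

noncomputable section

namespace Pool.Agent.Lib.MP_778b46_nt.MB

open Complex Finset MeasureTheory
open scoped Real ComplexConjugate
open Pool.Agent.Lib.MP_03e5d0_nt (Sm ex ft bump)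
open Pool.Agent.Lib.MP_778b46_nt.MA

/-- The product of the three polynomials is one Dirichlet polynomial. -/
theorem tc_pp {X P : ℝ} {B : Tr} (h : B.Ok X P) {U : ℕ} (hU : U + 1 = B.M1 * B.M2 * B.M3) :
    ∃ β : ℕ → ℂ, (∀ m, 0 < m → ‖β m‖ ≤ (m.divisors.card : ℝ) ^ 2) ∧
      ∀ (q : ℕ) (w : Gq q), pp B w = ∑ m ∈ Ioc U (8 * (U + 1)), β m * ev w m := by
  refine ⟨GX.cv (Icc (B.M1 * B.M2) (4 * (B.M1 * B.M2))) (dy B.M3)
    (GX.cv (dy B.M1) (dy B.M2) B.b1 B.b2) B.b3, fun m hm => ?_, fun q w => ?_⟩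
  · exact GX.cv_le _ _ _ _ 1 0 (fun n hn => GX.cv_le _ _ _ _ 0 0
      (fun n _ => by simpa using h.n1 n) (fun n _ => by simpa using h.n2 n) n hn)
      (fun n _ => by simpa using h.n3 n) m hm
  · rw [pp, dp, dp, dp, GX.cv_sum _ _ (Icc (B.M1 * B.M2) (4 * (B.M1 * B.M2))) _ _ _ (ev_mul w)
      fun m hm n hn => ?_, GX.cv_sum _ _ (Ioc U (8 * (U + 1))) _ _ _ (ev_mul w)
      fun m hm n hn => ?_]
    · rw [dy, mem_Ico] at hn
      rw [mem_Icc] at hm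
      have k1 := Nat.mul_le_mul hm.1 hn.1
      have k2 := Nat.mul_le_mul hm.2 hn.2.le
      rw [mem_Ioc, hU]
      exact ⟨by omega, k2.trans (le_of_eq (by ring))⟩
    · rw [dy, mem_Ico] at hm hn
      exact mem_Icc.2 ⟨Nat.mul_le_mul hm.1 hn.1,
        (Nat.mul_le_mul hm.2.le hn.2.le).trans (le_of_eq (by ring))⟩

/-- The polynomial over the integers coprime to `k`, at a primitive character. -/
def tc_a (J : Finset ℕ) (β : ℕ → ℂ) (k c : ℕ) (ψ : DirichletCharacter ℂ c) (t : ℤ) : ℂ :=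
  ∑ m ∈ J, (if Nat.Coprime m k then β m else 0) * fz ⟨⟨c, ψ⟩, t⟩ m

theorem tc_ev {q : ℕ} (χ : DirichletCharacter ℂ q) (t : ℤ) {m : ℕ} (hm : 0 < m) (b : ℂ) :
    b * ev (χ, Multiplicative.ofAdd t) m = (if Nat.Coprime m (q / χ.conductor) then b else 0) *
      fz ⟨⟨χ.conductor, χ.primitiveCharacter⟩, t⟩ m := by
  have e : (m : ℂ) ^ (-(-(((t : ℝ) : ℂ) * I))) = ex t (Real.log m) := by
    rw [neg_neg, cpow_def_of_ne_zero (by exact_mod_cast hm.ne'), ← natCast_log, ex]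
    congr 1
    ring
  have hq := Nat.div_mul_cancel χ.conductor_dvd_level
  simp only [ev, fz, if_neg hm.ne', e, ht, toAdd_ofAdd, MP_c03ca8_nt.Q.char_eq_prim χ m]
  by_cases h1 : Nat.Coprime m q
  · rw [if_pos h1, if_pos (h1.coprime_dvd_right (Nat.div_dvd_of_dvd χ.conductor_dvd_level))]
  · rw [if_neg h1]
    by_cases h2 : Nat.Coprime m (q / χ.conductor)
    · rw [MulChar.map_nonunit χ.primitiveCharacter fun hu => h1 (by
        rw [← hq]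
        exact h2.mul_right ((ZMod.isUnit_iff_coprime m _).1 hu))]
      simp
    · rw [if_neg h2]
      simp

theorem tc_level (B : Tr) {U W : ℕ} {β : ℕ → ℂ}
    (h : ∀ (q : ℕ) (w : Gq q), pp B w = ∑ m ∈ Ioc U W, β m * ev w m) {H : ℝ} (hH : 0 ≤ H)
    {q : ℕ} (hq : 1 ≤ q) :
    ms B q (H / q) ≤ ∑ x ∈ q.divisorsAntidiagonal, ((x.2 : ℝ) ^ 2)⁻¹ *
      ∑ ψ ∈ MP_c03ca8_nt.Q.prim x.1, ∑ t ∈ II (H / x.1), ‖tc_a (Ioc U W) β x.2 x.1 ψ t‖ ^ 2 := by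
  rw [Nat.sum_divisorsAntidiagonal fun c k => ((k : ℝ) ^ 2)⁻¹ *
      ∑ ψ ∈ MP_c03ca8_nt.Q.prim c, ∑ t ∈ II (H / c), ‖tc_a (Ioc U W) β k c ψ t‖ ^ 2, ms, sum_box]
  refine le_trans (le_of_eq (sum_congr rfl fun χ _ => ?_)) ((MP_c03ca8_nt.Q.sum_char_le hq
    (fun c ψ => ((c : ℝ) / q) ^ 2 * ∑ t ∈ II (H / q), ‖tc_a (Ioc U W) β (q / c) c ψ t‖ ^ 2)
    fun c ψ => by positivity).trans (sum_le_sum fun c hc => ?_))
  · rw [mul_sum]
    refine sum_congr rfl fun t _ => ?_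
    rw [h, tc_a, sum_congr rfl fun m hm => tc_ev χ t ((Nat.zero_le _).trans_lt (mem_Ioc.1 hm).1) _]
  · obtain ⟨k, rfl⟩ := Nat.dvd_of_mem_divisors hc
    have hc0 : 0 < c := Nat.pos_of_mem_divisors hc
    have hk0 : 0 < k := Nat.pos_of_mul_pos_left hq
    have c0 : (0 : ℝ) < c := by exact_mod_cast hc0
    have k1 : (1 : ℝ) ≤ k := by exact_mod_cast hk0
    rw [← mul_sum, Nat.mul_div_cancel_left _ hc0, Nat.cast_mul]
    refine mul_le_mul (le_of_eq (by field_simp)) (sum_le_sum fun ψ _ =>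
      sum_le_sum_of_subset_of_nonneg (II_mono ?_) fun _ _ _ => by positivity)
      (by positivity) (by positivity)
    exact div_le_div_of_nonneg_left hH c0 (le_mul_of_one_le_right c0.le k1)

theorem tc_swap (N : ℕ) (f : ℕ → ℕ → ℝ) (hf : ∀ c k, 0 ≤ f c k) :
    ∑ q ∈ Icc 1 N, ∑ x ∈ q.divisorsAntidiagonal, f x.1 x.2 ≤
      ∑ k ∈ Icc 1 N, ∑ c ∈ Icc 1 N, f c k := by
  rw [sum_comm (s := Icc 1 N) (t := Icc 1 N) (f := fun k c => f c k), ← sum_product']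
  refine le_trans (sum_le_sum fun q hq => sum_le_sum_of_subset_of_nonneg (fun x hx => ?_)
    fun _ _ _ => hf _ _) (sum_fiberwise_le_sum_of_sum_fiber_nonneg
      (g := fun x : ℕ × ℕ => x.1 * x.2) fun _ _ => sum_nonneg fun _ _ => hf _ _)
  obtain ⟨k1, k2⟩ := Nat.mem_divisorsAntidiagonal.1 hx
  have k3 := mem_Icc.1 hq
  have d1 : x.1 ∣ q := ⟨_, k1.symm⟩
  have d2 : x.2 ∣ q := Dvd.intro_left _ k1
  exact mem_filter.2 ⟨mem_product.2 ⟨mem_Icc.2 ⟨Nat.pos_of_dvd_of_pos d1 k3.1,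
    (Nat.le_of_dvd k3.1 d1).trans k3.2⟩, mem_Icc.2 ⟨Nat.pos_of_dvd_of_pos d2 k3.1,
    (Nat.le_of_dvd k3.1 d2).trans k3.2⟩⟩, k1⟩

theorem tc_inv (N : ℕ) : ∑ k ∈ Icc 1 N, ((k : ℝ) ^ 2)⁻¹ ≤ 2 := by
  have h := sum_Ioo_inv_sq_le (α := ℝ) 0 (N + 1)
  rw [show Ioo 0 (N + 1) = Icc 1 N by ext; simp only [mem_Ioo, mem_Icc]; omega] at h
  simpa using h

theorem tc_mass : ∃ C : ℝ, 0 ≤ C ∧ ∀ (P H G : ℝ) (U k : ℕ) (β : ℕ → ℂ), 1 ≤ P → P ≤ H → 1 ≤ U →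
    (∀ m ∈ Ioc U (8 * (U + 1)), ‖β m‖ ^ 2 ≤ G) →
    mass P H (tc_a (Ioc U (8 * (U + 1))) β k) ≤ 2 * (1 + Real.log (2 * H)) *
      (C * (U + 4 * H * H * (1 + Real.log (2 * H))) * (8 * (U + 1) * G)) := by
  obtain ⟨C0, hC, h⟩ := fam_IB
  refine ⟨C0, hC, fun P H G U k β hP hPH hU hβ => ?_⟩
  have hH : 1 ≤ H := hP.trans hPH
  have hl : 0 ≤ Real.log (2 * H) := Real.log_nonneg (by linarith)
  have hG : 0 ≤ G := (sq_nonneg _).trans (hβ (U + 1) (mem_Ioc.2 ⟨by omega, by omega⟩))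
  have hU1 : (1 : ℝ) ≤ U := by exact_mod_cast hU
  refine (mass_blocks (B := C0 * (U + 4 * H * H * (1 + Real.log (2 * H))) * (8 * (U + 1) * G))
    hP hPH (by positivity) _ fun R A hR hRH hA => ?_).trans ?_
  · have hR1 : (1 : ℝ) ≤ R := by exact_mod_cast hR
    have k0 := h R A H (1 + Real.log (2 * H)) (-1) hR hRH hA
      (by linarith [Real.log_le_log (by linarith) (show 2 * (R : ℝ) ≤ 2 * H by linarith)])
      _ Subset.rfl fun i _ _ => by linarith [abs_nonneg (i.2 : ℝ)]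
    have k1 := k0.ls U (8 * (U + 1)) hU (by
      push_cast
      nlinarith [Real.add_one_le_exp 40]) fun m => if Nat.Coprime m k then β m else 0
    refine k1.trans (mul_le_mul (by gcongr) ?_ (by positivity) (by positivity))
    refine (sum_le_card_nsmul _ _ G fun m hm => ?_).trans ?_
    · split_ifs
      · exact hβ m hm
      · simpa using hG
    · rw [nsmul_eq_mul, Nat.card_Ioc]
      refine mul_le_mul_of_nonneg_right ?_ hG
      exact_mod_cast Nat.sub_le _ _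
  · refine mul_le_mul_of_nonneg_right ?_ (by positivity)
    linarith [Real.log_le_log (by linarith) (show H ≤ 2 * H by linarith)]

theorem ms_sum {κ : ℝ} (hκ : 0 < κ) : ∃ C : ℝ, 0 ≤ C ∧ ∀ (X P : ℝ) (B : Tr), 64 ≤ X → B.Ok X P →
    ∑ q ∈ Icc 1 ⌊√X⌋₊, ms B q (X ^ (1 / 2 + κ) / q) ≤ C * X ^ (2 + 4 * κ) := by
  obtain ⟨C0, hC0, h0⟩ := tc_mass
  obtain ⟨C1, hC1, h1⟩ := MP_2a1a00_nt.card_divisors_le (κ / 4) (by positivity)
  obtain ⟨L, hL⟩ : ∃ L : ℝ, L = 2 + (1 / 2 + κ) / (κ / 2) := ⟨_, rfl⟩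
  have hL2 : 2 ≤ L := hL ▸ le_add_of_nonneg_right (by positivity)
  refine ⟨2 * (2 * L * (C0 * (5 * L) * (8 * (C1 ^ 4 * 8 ^ κ)))), by positivity,
    fun X P B hX hB => ?_⟩
  have hX0 : 0 < X := by linarith
  have hX1 : 1 ≤ X := by linarith
  obtain ⟨U, hU⟩ : ∃ U, U + 1 = B.M1 * B.M2 * B.M3 :=
    ⟨_, Nat.succ_pred_eq_of_pos (Nat.mul_pos (Nat.mul_pos hB.p1 hB.p2) hB.p3)⟩
  have hUr : (U : ℝ) + 1 = B.M1 * B.M2 * B.M3 := by exact_mod_cast hU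
  have hUX : (U : ℝ) + 1 ≤ X := hUr ▸ hB.up
  have hU1 : 1 ≤ U := by
    have := hB.lo
    rw [← hUr] at this
    exact_mod_cast (show (1 : ℝ) ≤ U by linarith)
  obtain ⟨β, hβ, hpp⟩ := tc_pp hB hU
  obtain ⟨u, hu⟩ : ∃ u : ℝ, u = X ^ (κ / 2) := ⟨_, rfl⟩
  have hu1 : 1 ≤ u := hu ▸ Real.one_le_rpow hX1 (by positivity)
  have hun : ∀ n : ℕ, u ^ n = X ^ (κ / 2 * n) := fun n => by
    rw [hu, Real.rpow_mul_natCast hX0.le]
  obtain ⟨H, hH⟩ : ∃ H : ℝ, H = X ^ (1 / 2 + κ) := ⟨_, rfl⟩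
  have hs1 : 1 ≤ √X := Real.one_le_sqrt.2 hX1
  have hsH : √X ≤ H := by
    rw [hH, Real.sqrt_eq_rpow]
    exact Real.rpow_le_rpow_of_exponent_le hX1 (by linarith)
  have hH0 : 0 < H := by linarith
  have hHH : H * H = X * u ^ 4 := by
    rw [hH, hun, ← Real.rpow_add hX0, ← Real.rpow_one_add' hX0.le (by positivity)]
    congr 1
    push_cast
    ring
  have hX8 : X ^ (2 + 4 * κ) = X ^ 2 * u ^ 8 := by
    rw [hun, ← Real.rpow_natCast X 2, ← Real.rpow_add hX0]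
    congr 1
    push_cast
    ring
  have hl0 : 0 ≤ Real.log (2 * H) := Real.log_nonneg (by linarith)
  have hl : 1 + Real.log (2 * H) ≤ L * u := by
    have k1 := Real.log_le_rpow_div hX0.le (show 0 < κ / 2 by positivity)
    have k2 := mul_le_mul_of_nonneg_left k1 (show 0 ≤ 1 / 2 + κ by positivity)
    have k3 : L * u = 2 * u + (1 / 2 + κ) * (u / (κ / 2)) := by rw [hL]; ring
    rw [← hu] at k2
    rw [Real.log_mul two_ne_zero hH0.ne', hH, Real.log_rpow hX0, k3]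
    linarith [Real.log_two_lt_d9]
  have hG : ∀ m ∈ Ioc U (8 * (U + 1)), ‖β m‖ ^ 2 ≤ C1 ^ 4 * 8 ^ κ * u ^ 2 := fun m hm => by
    have k1 : (m : ℝ) ≤ 8 * X :=
      le_trans (by exact_mod_cast (mem_Ioc.1 hm).2) (show 8 * ((U : ℝ) + 1) ≤ _ by linarith)
    have k2 : (m.divisors.card : ℝ) ≤ C1 * (8 * X) ^ (κ / 4) :=
      (h1 m).trans (by gcongr)
    calc _ ≤ ((C1 * (8 * X) ^ (κ / 4)) ^ 2) ^ 2 := by
          gcongr
          exact (hβ m ((Nat.zero_le _).trans_lt (mem_Ioc.1 hm).1)).trans (by gcongr)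
      _ = _ := by
          rw [← pow_mul, mul_pow, ← Real.rpow_mul_natCast (by positivity), hun, mul_assoc,
            show κ / 4 * ((2 * 2 : ℕ) : ℝ) = κ by push_cast; ring,
            show κ / 2 * ((2 : ℕ) : ℝ) = κ by push_cast; ring, Real.mul_rpow (by norm_num) hX0.le]
  rw [← hH, hX8]
  refine (sum_le_sum fun q hq => tc_level B hpp hH0.le (mem_Icc.1 hq).1).trans
    ((tc_swap _ (fun c k => ((k : ℝ) ^ 2)⁻¹ * ∑ ψ ∈ MP_c03ca8_nt.Q.prim c, ∑ t ∈ II (H / c),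
      ‖tc_a (Ioc U (8 * (U + 1))) β k c ψ t‖ ^ 2) fun c k => by positivity).trans ?_)
  have key : ∀ k : ℕ, mass (√X) H (tc_a (Ioc U (8 * (U + 1))) β k) ≤
      2 * L * (C0 * (5 * L) * (8 * (C1 ^ 4 * 8 ^ κ))) * (X ^ 2 * u ^ 8) := fun k => by
    refine (h0 _ H _ U k β hs1 hsH hU1 hG).trans ?_
    have k1 : U + 4 * H * H * (1 + Real.log (2 * H)) ≤ 5 * L * (X * u ^ 5) := by
      have k2 : X * 1 * 1 ≤ X * u ^ 4 * (L * u) := by
        gcongr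
        · exact one_le_pow₀ hu1
        · linarith
      calc _ ≤ X * u ^ 4 * (L * u) + 4 * (X * u ^ 4) * (L * u) := by
            rw [mul_assoc 4, hHH]
            gcongr
            linarith
        _ = _ := by ring
    calc _ ≤ 2 * (L * u) * (C0 * (5 * L * (X * u ^ 5)) * (8 * X * (C1 ^ 4 * 8 ^ κ * u ^ 2))) := by
          gcongr
      _ = _ := by ring
  refine (sum_le_sum fun k _ => (le_of_eq (mul_sum _ _ _).symm).trans
    (mul_le_mul_of_nonneg_left (key k) (by positivity))).trans ?_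
  rw [← sum_mul]
  exact (mul_le_mul_of_nonneg_right (tc_inv _) (by positivity)).trans_eq (by ring)

end Pool.Agent.Lib.MP_778b46_nt.MB
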