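import Pool.Agent.Lib.MP_778b46_nt.MB.Ta
import Pool.Agent.Lib.MP_778b46_nt.MB.Tb
import Pool.Agent.Lib.MP_778b46_nt.MB.Tc

/-! The fourth moment of the trilinear sum on the minor arcs. -/

set_option autoImplicit false

noncomputable section

namespace Pool.Agent.Lib.MP_778b46_nt.MB

open Complex Finset MeasureTheory
open scoped Real ComplexConjugate
open Pool.Agent.Lib.MP_03e5d0_nt (Sm ex ft bump)
open Pool.Agent.Lib.MP_778b46_nt.MA

theorem tri_cont (X : ℝ) (B : Tr) (q a : ℕ) : Continuous (tri X B q a) := by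
  unfold tri
  refine continuous_finsetSum _ fun d _ => continuous_finsetSum _ fun c _ =>
    continuous_finsetSum _ fun n _ => ?_
  split_ifs
  · unfold ex
    fun_prop
  · exact continuous_const

theorem arc_meas (X P : ℝ) (q : ℕ) : MeasurableSet (arc X P q) := by
  refine (isClosed_le continuous_abs continuous_const).measurableSet.inter ?_
  by_cases h : (q : ℝ) ≤ P
  · simp only [h, true_imp_iff]
    exact (isOpen_lt continuous_const (continuous_const.mul continuous_abs)).measurableSet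
  · simp only [h, false_imp_iff]
    exact MeasurableSet.univ

theorem td_sub (X P : ℝ) (q : ℕ) : arc X P q ⊆ Set.Icc (-(7 * √X / q)) (7 * √X / q) :=
  fun _ hy => abs_le.1 hy.1

theorem arc_int (X P : ℝ) (q : ℕ) {g : ℝ → ℝ} (hg : Continuous g) :
    IntegrableOn g (arc X P q) := by
  exact hg.integrableOn_Icc.mono_set (td_sub X P q)

theorem td_vol (X P : ℝ) (q : ℕ) : volume.real (arc X P q) ≤ 14 * √X / q := by
  refine (measureReal_mono (td_sub X P q) measure_Icc_lt_top.ne).trans_eq ?_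
  have h : 0 ≤ 7 * √X / q := by positivity
  rw [Real.volume_real_Icc_of_le (by linarith)]
  ring

theorem td_int {q : ℕ} [NeZero q] (a : ℕ) (W : Finset (Gq q)) (c : Gq q → ℂ) :
    Integrable fun y => ‖FF a W c y‖ ^ 4 := by
  obtain ⟨C, -, h⟩ := l4
  exact (h q W c (∑ w ∈ W, ‖c w‖) 1 (∑ w ∈ W, ‖gc w.1 q 1‖) one_pos
    (fun w _ => le_add_of_nonneg_right (abs_nonneg _))
    (fun w hw => single_le_sum (f := fun w => ‖c w‖) (fun _ _ => norm_nonneg _) hw)
    fun w hw => single_le_sum (f := fun w : Gq q => ‖gc w.1 q 1‖) (fun _ _ => norm_nonneg _) hw).1 a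

theorem td_arc {X P C : ℝ} {q : ℕ} {f g : ℝ → ℂ} (hC : 0 ≤ C) (hf : Continuous f)
    (hg : Integrable fun y => ‖g y‖ ^ 4) (h : ∀ y ∈ arc X P q, ‖f y - g y‖ ≤ C) :
    ∫ y in arc X P q, ‖f y‖ ^ 4 ≤ 8 * (∫ y, ‖g y‖ ^ 4) + 8 * C ^ 4 * (14 * √X / q) := by
  have h1 : IntegrableOn (fun y => 8 * ‖g y‖ ^ 4) (arc X P q) := (hg.const_mul 8).integrableOn
  have h2 : IntegrableOn (fun _ : ℝ => 8 * C ^ 4) (arc X P q) := arc_int X P q continuous_const
  refine (setIntegral_mono_on (arc_int X P q (hf.norm.pow 4)) (h1.add h2) (arc_meas X P q)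
    fun y hy => ?_).trans ?_
  · have h3 : ‖f y‖ ≤ ‖g y‖ + C := (norm_le_insert' (f y) (g y)).trans (by linarith [h y hy])
    have h4 := add_pow_le (norm_nonneg (g y)) hC 4
    have h5 := pow_le_pow_left₀ (norm_nonneg _) h3 4
    norm_num at h4
    simp only [Pi.add_apply, Pi.pow_apply]
    linarith
  · simp only [Pi.add_apply]
    rw [integral_add h1 h2, integral_const_mul, setIntegral_const, smul_eq_mul, mul_comm _ (8 * _)]
    exact add_le_add (mul_le_mul_of_nonneg_left (setIntegral_le_integral hg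
      (Filter.Eventually.of_forall fun y => by positivity)) (by norm_num))
      (mul_le_mul_of_nonneg_left (td_vol X P q) (by positivity))

theorem td_harm {X : ℝ} (hX : 1 ≤ X) :
    ∑ q ∈ Icc 1 ⌊√X⌋₊, ((q : ℝ))⁻¹ ≤ 13 * X ^ (1 / 12 : ℝ) := by
  have h1 := harmonic_le_one_add_log ⌊√X⌋₊
  rw [harmonic_eq_sum_Icc] at h1
  push_cast at h1
  have h2 : 1 ≤ √X := Real.one_le_sqrt.2 hX
  have h3 : √X ≤ X := Real.sqrt_le_iff.2 ⟨by linarith, by nlinarith⟩
  have h4 : Real.log ⌊√X⌋₊ ≤ Real.log X :=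
    Real.log_le_log (Nat.cast_pos.2 (Nat.floor_pos.2 h2)) ((Nat.floor_le (by linarith)).trans h3)
  have h5 := Real.log_le_rpow_div (by linarith : 0 ≤ X) (by norm_num : (0 : ℝ) < 1 / 12)
  have h6 := Real.one_le_rpow hX (by norm_num : (0 : ℝ) ≤ 1 / 12)
  linarith

theorem tri_all {ε : ℝ} (hε : 0 < ε) : ∃ C : ℝ, 0 ≤ C ∧ ∀ (X P : ℝ) (B : Tr), 64 ≤ X → 1 ≤ P →
    P ≤ X ^ (5 / 12 : ℝ) → B.Ok X P →
    ∑ q ∈ Icc 1 ⌊√X⌋₊, ∑ a ∈ cop q, ∫ y in arc X P q, ‖tri X B q a y‖ ^ 4 ≤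
      C * X ^ (4 + ε) / P := by
  have hκ : 0 < min 1 (ε / 44) := lt_min one_pos (by positivity)
  have k1 : min 1 (ε / 44) ≤ 1 := min_le_left _ _
  have k2 : min 1 (ε / 44) ≤ ε / 44 := min_le_right _ _
  generalize min 1 (ε / 44) = κ at hκ k1 k2
  obtain ⟨C1, c1, h1⟩ := tri_trunc hκ
  obtain ⟨C2, c2, h2⟩ := ff_cls hκ
  obtain ⟨C3, c3, h3⟩ := ms_sum hκ
  refine ⟨8 * C2 * (C3 + 13) + 112 * C1 ^ 4, by positivity, fun X P B hX hP hPX hB => ?_⟩
  have x1 : 1 ≤ X := by linarith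
  have x0 : 0 < X := by linarith
  have p0 : 0 < P := by linarith
  have px : P ≤ X := hPX.trans (by
    simpa only [Real.rpow_one] using Real.rpow_le_rpow_of_exponent_le x1 (y := 5 / 12) (z := 1)
      (by norm_num))
  have key : ∀ q ∈ Icc 1 ⌊√X⌋₊, ∑ a ∈ cop q, ∫ y in arc X P q, ‖tri X B q a y‖ ^ 4 ≤
      8 * C2 * X ^ (40 * κ) * (X ^ 2 / P * ms B q (X ^ (1 / 2 + κ) / q) +
        X ^ (7 / 2 : ℝ) * (q : ℝ)⁻¹) + 112 * C1 ^ 4 * √X := by
    intro q hq
    obtain ⟨q1, q2⟩ := mem_Icc.1 hq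
    have : NeZero q := ⟨by omega⟩
    have q0 : (0 : ℝ) < q := Nat.cast_pos.2 q1
    have q3 : (q : ℝ) ≤ √X := (Nat.le_floor_iff (Real.sqrt_nonneg X)).1 q2
    have q4 : ((cop q).card : ℝ) ≤ q := by
      exact_mod_cast (card_filter_le _ _).trans_eq (card_range q)
    refine (sum_le_sum fun a ha => td_arc c1 (tri_cont X B q a) (td_int a _ _)
      fun y hy => h1 X P B q a y x1 hP px hB q3 ha hy).trans ?_
    rw [sum_add_distrib, ← mul_sum, sum_const, nsmul_eq_mul]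
    have e1 := h2 X P B q (by linarith) hP hPX hB q3 k1
    have e2 : ((cop q).card : ℝ) * (8 * C1 ^ 4 * (14 * √X / q)) ≤ 112 * C1 ^ 4 * √X :=
      (mul_le_mul_of_nonneg_right q4 (by positivity)).trans_eq (by field_simp; ring)
    rw [← div_eq_mul_inv]
    linarith
  refine (sum_le_sum key).trans ?_
  rw [sum_add_distrib, ← mul_sum, sum_add_distrib, ← mul_sum, ← mul_sum, sum_const, nsmul_eq_mul,
    Nat.card_Icc, Nat.add_sub_cancel, le_div_iff₀ p0]
  have up : ∀ {s : ℝ}, s ≤ 4 + ε → X ^ s ≤ X ^ (4 + ε) := Real.rpow_le_rpow_of_exponent_le x1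
  have a1 : X ^ (40 * κ) * (X ^ 2 / P * ∑ q ∈ Icc 1 ⌊√X⌋₊, ms B q (X ^ (1 / 2 + κ) / q)) * P ≤
      C3 * X ^ (4 + ε) := by
    calc _ ≤ X ^ (40 * κ) * (X ^ 2 / P * (C3 * X ^ (2 + 4 * κ))) * P := by
          gcongr
          exact h3 X P B hX hB
      _ = C3 * X ^ (40 * κ + 2 + (2 + 4 * κ)) := by
          rw [Real.rpow_add x0 (40 * κ + 2), Real.rpow_add x0 (40 * κ), Real.rpow_two]
          field_simp
      _ ≤ _ := mul_le_mul_of_nonneg_left (up (by linarith)) c3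
  have a2 : X ^ (40 * κ) * (X ^ (7 / 2 : ℝ) * ∑ q ∈ Icc 1 ⌊√X⌋₊, ((q : ℝ))⁻¹) * P ≤
      13 * X ^ (4 + ε) := by
    calc _ ≤ X ^ (40 * κ) * (X ^ (7 / 2 : ℝ) * (13 * X ^ (1 / 12 : ℝ))) * X ^ (5 / 12 : ℝ) := by
          gcongr
          exact td_harm x1
      _ = 13 * X ^ (40 * κ + 7 / 2 + 1 / 12 + 5 / 12) := by
          rw [Real.rpow_add x0, Real.rpow_add x0, Real.rpow_add x0]
          ring
      _ ≤ _ := mul_le_mul_of_nonneg_left (up (by linarith)) (by norm_num)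
  have a3 : (⌊√X⌋₊ : ℝ) * √X * P ≤ X ^ (4 + ε) := by
    calc _ ≤ √X * √X * X := by
          gcongr
          exact Nat.floor_le (Real.sqrt_nonneg X)
      _ = X ^ (2 : ℝ) := by rw [Real.mul_self_sqrt x0.le, Real.rpow_two, sq]
      _ ≤ _ := up (by linarith)
  have b1 := mul_le_mul_of_nonneg_left (add_le_add a1 a2) (by positivity : 0 ≤ 8 * C2)
  have b2 := mul_le_mul_of_nonneg_left a3 (by positivity : 0 ≤ 112 * C1 ^ 4)
  linarith

end Pool.Agent.Lib.MP_778b46_nt.MB
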