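import Pool.Agent.Lib.MP_778b46_nt.MB.Defs
import Pool.Agent.Lib.MP_778b46_nt.VA.Arc
import Pool.Agent.Lib.MP_c03ca8_nt.Q.Char

/-! Sums of type one over the integers coprime to a modulus. -/

set_option autoImplicit false

noncomputable section

namespace Pool.Agent.Lib.MP_778b46_nt.MB

open Complex Finset MeasureTheory
open scoped Real ComplexConjugate
open Pool.Agent.Lib.MP_03e5d0_nt (Sm ex ft bump)
open Pool.Agent.Lib.MP_778b46_nt.MA

theorem mn_approx {X P x : ℝ} (hP : 1 ≤ P) (hPX : P ≤ X) (h : Mn X P x) {e : ℕ} (he : 0 < e) :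
    ∃ (b : ℤ) (r : ℕ), 0 < r ∧ P < r * e ∧ (r : ℝ) ≤ 7 * X / P ∧ IsCoprime b (r : ℤ) ∧
      |x * e - b / r| ≤ 1 / (r : ℝ) ^ 2 := by
  have hP0 : 0 < P := by linarith
  have hX0 : 0 < X := by linarith
  have hpi := Real.pi_gt_three
  have hpi' := Real.pi_lt_d2
  have hQ : 1 ≤ 2 * π * X / P := by
    rw [le_div_iff₀ hP0]
    nlinarith
  obtain ⟨b, r, hr, hrQ, hc, hb⟩ := VA.dirichlet (x * e) hQ
  have hr' : (0 : ℝ) < r := by exact_mod_cast hr
  have he' : (0 : ℝ) < e := by exact_mod_cast he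
  refine ⟨b, r, hr, ?_, hrQ.trans ?_, hc, hb.trans ?_⟩
  · by_contra hlt
    have h1 := h (r * e) b (Nat.mul_pos hr he) (by push_cast; linarith)
    have e1 : x - b / ((r * e : ℕ) : ℝ) = (x * e - b / r) / e := by
      push_cast
      field_simp
    rw [e1, abs_div, abs_of_pos he'] at h1
    have e2 : 2 * π * X * ((r * e : ℕ) : ℝ) * (|x * e - b / r| / e) =
        2 * π * X * r * |x * e - b / r| := by
      push_cast
      field_simp
    have e3 : 2 * π * X * r * (1 / (r * (2 * π * X / P))) = P := by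
      field_simp
    have h2 := mul_le_mul_of_nonneg_left hb (show 0 ≤ 2 * π * X * r by positivity)
    linarith
  · exact div_le_div_of_nonneg_right (by nlinarith) hP0.le
  · exact one_div_le_one_div_of_le (by positivity) (by nlinarith)

theorem va_gen {X P x E W c : ℝ} (hP : 1 ≤ P) (hPX : P ≤ X) (h : Mn X P x) {q k : ℕ} (hq : 1 ≤ q)
    (hk : (k : ℝ) ≤ X) (hE : 7 * X / P ≤ E) (t : ℕ → ℝ) (h1 : ∀ d ∈ Ioc 0 k, |t d| ≤ W)
    (hW : 0 ≤ W) (h0 : ∀ d : ℕ, E < d → t d = 0) (g : ℕ → ℂ) (hc : 0 ≤ c)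
    (hg : ∀ (e K : ℕ) (y Y : ℝ), 0 < e → e * K ≤ k → (K : ℝ) ≤ Y →
      ‖∑ m ∈ Ioc 0 K, g (e * m) * VA.ee (m * y)‖ ≤ c * VA.mb Y y) :
    ‖∑ d ∈ Ioc 0 k, (t d : ℂ) * ∑ n ∈ (Ioc 0 (k / d)).filter (fun n => Nat.Coprime n q),
      g n * ee ((d * n : ℕ) * x)‖ ≤
      2 ^ q.primeFactors.card * (88 * (W * c) * E * (3 + Real.log X)) := by
  have hP0 : 0 < P := by linarith
  have hX0 : 0 < X := by linarith
  have hlX : 0 ≤ Real.log X := Real.log_nonneg (by linarith)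
  have hE0 : 0 ≤ E := le_trans (by positivity) hE
  simp_rw [MP_c03ca8_nt.Q.char_sum_ie hq, mul_sum]
  rw [sum_comm]
  refine (norm_sum_le _ _).trans ((sum_le_card_nsmul _ _
    (88 * (W * c) * E * (3 + Real.log X)) fun S hS => ?_).trans (le_of_eq ?_))
  swap
  · rw [card_powerset, nsmul_eq_mul]
    push_cast
    rfl
  have he : 0 < ∏ p ∈ S, p := prod_pos fun p hp =>
    (Nat.prime_of_mem_primeFactors (mem_powerset.1 hS hp)).pos
  generalize ∏ p ∈ S, p = e at he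
  have he' : (0 : ℝ) < e := by exact_mod_cast he
  set u : ℕ → ℂ := fun d => (t d : ℂ) * (-1) ^ S.card *
    ∑ m ∈ Ioc 0 (k / e / d), g (e * m) * VA.ee (m * (d * (x * e))) with hu
  have e1 : ∀ d ∈ Ioc 0 k, ∑ m ∈ Ioc (0 / e) (k / d / e),
      (t d : ℂ) * ((-1) ^ S.card * (g (e * m) * ee ((d * (e * m) : ℕ) * x))) = u d := by
    intro d _
    rw [hu, Nat.zero_div, Nat.div_div_eq_div_mul, mul_comm d e, ← Nat.div_div_eq_div_mul]
    simp only [mul_sum]
    refine sum_congr rfl fun m _ => ?_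
    have : ee ((d * (e * m) : ℕ) * x) = VA.ee (m * (d * (x * e))) := by
      change VA.ee _ = _
      congr 1
      push_cast
      ring
    rw [this]
    ring
  have e2 : ∑ d ∈ Ioc 0 k, u d = ∑ d ∈ Ioc 0 (k / e), u d := by
    symm
    refine sum_subset (Ioc_subset_Ioc_right (Nat.div_le_self _ _)) fun d hd hd' => ?_
    simp only [mem_Ioc] at hd hd'
    rw [hu]
    simp only [Nat.div_eq_of_lt (show k / e < d by omega), Ioc_self, sum_empty, mul_zero]
  rw [sum_congr rfl e1, e2]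
  rcases Nat.eq_zero_or_pos (k / e) with hN | hN
  · rw [hN, Ioc_self, sum_empty, norm_zero]
    positivity
  obtain ⟨b, r, hr, hPr, hr7, hcop, hb⟩ := mn_approx hP hPX h he
  have hr' : (0 : ℝ) < r := by exact_mod_cast hr
  have hNe : ((k / e : ℕ) : ℝ) * e ≤ X :=
    le_trans (by exact_mod_cast Nat.div_mul_le_self k e) hk
  have hN1 : (1 : ℝ) ≤ (k / e : ℕ) := by exact_mod_cast hN
  have hNX : ((k / e : ℕ) : ℝ) ≤ X := le_trans (by exact_mod_cast Nat.div_le_self k e) hk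
  refine VA.typeOne_le hr hcop hb hN (mul_nonneg hW hc) (le_trans ?_ hE) (hr7.trans hE) ?_ ?_ u
    (fun d hd => by simp [hu, h0 d hd]) fun d hd => ?_
  · rw [div_le_div_iff₀ hr' hP0]
    nlinarith [mul_le_mul_of_nonneg_left hPr.le (show (0 : ℝ) ≤ (k / e : ℕ) by positivity),
      mul_le_mul_of_nonneg_left hNe hr'.le, mul_pos hX0 hr']
  · linarith [Real.log_le_log (by linarith) hNX]
  · have h7 : (r : ℝ) ≤ 7 * X := hr7.trans (div_le_self (by positivity) hP)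
    have h8 := Real.log_le_log hr' h7
    rw [Real.log_mul (by norm_num) hX0.ne'] at h8
    have h9 : Real.log 7 ≤ 2 := by
      rw [Real.log_le_iff_le_exp (by norm_num), show (2 : ℝ) = 1 + 1 by norm_num, Real.exp_add]
      nlinarith [Real.exp_one_gt_d9]
    linarith
  · have hd0 := (mem_Ioc.1 hd).1
    have h2 := hg e (k / e / d) (d * (x * e)) (((k / e : ℕ) : ℝ) / d) he
      ((Nat.mul_le_mul_left e (Nat.div_le_self _ _)).trans (Nat.mul_div_le k e)) Nat.cast_div_le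
    have h3 := h1 d (Ioc_subset_Ioc_right (Nat.div_le_self _ _) hd)
    rw [hu]
    simp only [norm_mul, norm_pow, norm_neg, norm_one, one_pow, mul_one, Complex.norm_real,
      Real.norm_eq_abs]
    rw [mul_assoc]
    exact mul_le_mul h3 h2 (norm_nonneg _) hW

theorem one_cop {X P x E W : ℝ} (hP : 1 ≤ P) (hPX : P ≤ X) (h : Mn X P x) {q k : ℕ} (hq : 1 ≤ q)
    (hk : (k : ℝ) ≤ X) (hE : 7 * X / P ≤ E) (t : ℕ → ℝ) (h1 : ∀ d ∈ Ioc 0 k, |t d| ≤ W)
    (hW : 0 ≤ W) (h0 : ∀ d : ℕ, E < d → t d = 0) :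
    ‖∑ d ∈ Ioc 0 k, (t d : ℂ) * ∑ n ∈ (Ioc 0 (k / d)).filter (fun n => Nat.Coprime n q),
      ee ((d * n : ℕ) * x)‖ ≤ 88 * 2 ^ q.primeFactors.card * W * E * (3 + Real.log X) := by
  have := va_gen hP hPX h hq hk hE t h1 hW h0 (fun _ => 1) zero_le_one fun e K y Y _ _ hY => by
    simp only [one_mul]
    exact VA.geom_Ioc_le 0 K y Y ((Nat.cast_nonneg K).trans hY) (by simpa using hY)
  simp only [one_mul] at this
  exact this.trans (le_of_eq (by ring))

theorem one_cop_log {X P x E W : ℝ} (hP : 1 ≤ P) (hPX : P ≤ X) (h : Mn X P x) {q k : ℕ}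
    (hq : 1 ≤ q) (hk : (k : ℝ) ≤ X) (hE : 7 * X / P ≤ E) (t : ℕ → ℝ)
    (h1 : ∀ d ∈ Ioc 0 k, |t d| ≤ W) (hW : 0 ≤ W) (h0 : ∀ d : ℕ, E < d → t d = 0) :
    ‖∑ d ∈ Ioc 0 k, (t d : ℂ) * ∑ n ∈ (Ioc 0 (k / d)).filter (fun n => Nat.Coprime n q),
      ((Real.log n : ℝ) : ℂ) * ee ((d * n : ℕ) * x)‖ ≤
      264 * 2 ^ q.primeFactors.card * W * E * (3 + Real.log X) ^ 2 := by
  have hlX : 0 ≤ Real.log X := Real.log_nonneg (by linarith)
  refine (va_gen (c := 3 * (3 + Real.log X)) hP hPX h hq hk hE t h1 hW h0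
    (fun n => ((Real.log n : ℝ) : ℂ)) (by positivity) fun e K y Y he heK hY => ?_).trans
    (le_of_eq (by ring))
  have hY0 : 0 ≤ Y := (Nat.cast_nonneg K).trans hY
  have hm := VA.mb_nonneg hY0 y
  rcases Nat.eq_zero_or_pos K with rfl | hK
  · rw [Ioc_self, sum_empty, norm_zero]
    positivity
  have he' : (0 : ℝ) < e := by exact_mod_cast he
  have hK' : (0 : ℝ) < K := by exact_mod_cast hK
  have h2 : Real.log e ≤ Real.log X := Real.log_le_log he'
    (le_trans (by exact_mod_cast (Nat.le_mul_of_pos_right e hK).trans heK) hk)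
  have h3 : Real.log K ≤ Real.log X := Real.log_le_log hK'
    (le_trans (by exact_mod_cast (Nat.le_mul_of_pos_left K he).trans heK) hk)
  have e1 : ∑ m ∈ Ioc 0 K, ((Real.log (e * m : ℕ) : ℝ) : ℂ) * VA.ee (m * y) =
      ((Real.log e : ℝ) : ℂ) * ∑ m ∈ Ioc 0 K, VA.ee (m * y) +
        ∑ m ∈ Ioc 0 K, ((Real.log m : ℝ) : ℂ) * VA.ee (m * y) := by
    rw [mul_sum, ← sum_add_distrib]
    refine sum_congr rfl fun m hm => ?_
    have hm0 : (0 : ℝ) < m := by exact_mod_cast (mem_Ioc.1 hm).1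
    rw [Nat.cast_mul, Real.log_mul he'.ne' hm0.ne']
    push_cast
    ring
  rw [e1]
  refine (norm_add_le _ _).trans ?_
  have h4 := VA.log_geom_le K y Y hY
  have h5 := VA.geom_Ioc_le 0 K y Y hY0 (by simpa using hY)
  have h6 := Real.log_natCast_nonneg e
  rw [norm_mul, Complex.norm_real, Real.norm_of_nonneg h6]
  nlinarith [mul_le_mul_of_nonneg_left h5 h6, mul_le_mul_of_nonneg_right h2 hm,
    mul_le_mul_of_nonneg_right h3 hm]

end Pool.Agent.Lib.MP_778b46_nt.MB
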