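import Pool.Agent.Lib.MP_778b46_nt.MB.Defs
import Pool.Agent.Lib.MP_778b46_nt.MA.LWa

/-! Large values of the polynomial over the primes: the middle range. -/

set_option autoImplicit false

noncomputable section

namespace Pool.Agent.Lib.MP_778b46_nt.MB

open Complex Finset MeasureTheory
open scoped Real ComplexConjugate
open Pool.Agent.Lib.MP_03e5d0_nt (Sm ex ft bump)
open Pool.Agent.Lib.MP_778b46_nt.MA
open Pool.Agent.Lib.MP_778b46_nt.GX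
open ArithmeticFunction (moebius vonMangoldt zeta)

/-- In the range not covered by the large sieve or by the bound for plain sums some power of the
short polynomial leaves a sparse set. -/
def Mid (k : ℕ) (X D β κ δ : ℝ) (V : ℕ) : Prop :=
  ∀ M : ℝ, 0 < M → M ≤ D → δ ^ 4 * X ^ 2 ≤ D * β ^ 2 * (V : ℝ) ^ 2 * M → ∃ j ≤ k,
    D * (6 * M) ^ (j + 1) ≤ X ^ (j + 1) ∧ D ^ (j + 1) * κ ≤ δ ^ (4 * (j + 1)) * M ^ (j + 2)

theorem prod2 (k : ℕ) (C0 C1 C2 : ℝ) (hC1 : 0 ≤ C1) (hC2 : 0 ≤ C2) : ∃ C : ℝ, 0 ≤ C ∧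
    ∀ (ι : Type) (I : Finset ι) (f : ι → ℕ → ℂ) (η : ι → ℝ) (w : ℝ → ℝ) (X D β κ δ E L y : ℝ)
      (V a a' Z : ℕ), Fam I f η C0 D β → (∀ U W : ℕ, 1 ≤ U → (W : ℝ) ≤ U * 6 ^ (k + 1) →
        LSP I (Ioc U W) f (C1 * (U + D))) → Hm I f C2 κ → 0 ≤ κ → Wg w L → 1 ≤ X → 1 ≤ V →
      V ≤ a → a ≤ a' → a' ≤ 6 * a → (a : ℝ) ≤ y → y ≤ 6 * a → 0 < δ → δ ≤ 1 →
      1 + Real.log X ≤ E → 1 + Real.log V ≤ E →
      (∀ n : ℕ, n ≤ a' ^ (k + 1) → (n.divisors.card : ℝ) ^ (2 * (k + 1)) ≤ E) →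
      ∑ i ∈ I, η i ^ 2 ≤ δ ^ 4 → Mid k X D β κ δ V → ∀ S ⊆ I,
      (∀ i ∈ S, ‖∑ n ∈ Ioc a a', bV V n * f i n‖ ≤ δ ^ 2 * a) →
      ∑ i ∈ S, ‖(∑ n ∈ Ioc a a', bV V n * f i n) *
        ∑ l ∈ Ioc 0 Z, ((vonMangoldt l * w (y * l / X) : ℝ) : ℂ) * f i l‖ ^ 2 ≤
        C * δ ^ 4 * X ^ 2 * E ^ 4 := by
  classical
  refine ⟨8 * |C0| + 2 + C2 * (1 + 2 * C1 * 6 ^ (k + 1)), by positivity, ?_⟩
  intro ι I f η w X D β κ δ E L y V a a' Z h hls hHm hκ hw hX hV hVa haa ha' hay hya hδ hδ1 hE hVE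
    hτ hη hMid S hS hS'
  have hX0 : 0 < X := by linarith
  have ha0 : 1 ≤ a := hV.trans hVa
  have ha1 : (1 : ℝ) ≤ a := by exact_mod_cast ha0
  have hy0 : 0 < y := by linarith
  have hE1 : 1 ≤ E := by linarith [Real.log_nonneg hX]
  have hC := h.C00
  have hD := h.D1
  rw [abs_of_nonneg hC]
  obtain ⟨M, hM⟩ : ∃ M, M = X / y := ⟨_, rfl⟩
  have hM0 : 0 < M := by rw [hM]; positivity
  have hMy : M * y = X := by rw [hM]; field_simp
  have hMX : M ≤ X := by nlinarith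
  have s1 : ∀ l ∈ Ioc 0 Z, ((vonMangoldt l * w (y * l / X) : ℝ) : ℂ) ≠ 0 →
      2 ≤ l ∧ M / 16 < l ∧ (l : ℝ) ≤ M := by
    intro l hl h0
    have k1 : w (y * l / X) ≠ 0 := fun e => h0 (by rw [e]; simp)
    have k2 := mt (hw.zero (y * l / X)) k1
    rw [not_or, not_le, not_le, lt_div_iff₀ hX0, div_lt_iff₀ hX0] at k2
    refine ⟨?_, by nlinarith [k2.1], by nlinarith [k2.2]⟩
    by_contra hc
    have : l = 1 := by have := (mem_Ioc.1 hl).1; omega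
    exact h0 (by simp [this])
  have s2 : ∀ l ∈ Ioc 0 Z, ‖((vonMangoldt l * w (y * l / X) : ℝ) : ℂ)‖ ≤ E := by
    intro l hl
    by_cases h0 : ((vonMangoldt l * w (y * l / X) : ℝ) : ℂ) = 0
    · rw [h0, norm_zero]; linarith
    rw [norm_real, Real.norm_eq_abs, abs_mul, abs_of_nonneg ArithmeticFunction.vonMangoldt_nonneg]
    refine (mul_le_of_le_one_right ArithmeticFunction.vonMangoldt_nonneg (hw.le _)).trans
      (ArithmeticFunction.vonMangoldt_le_log.trans ?_)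
    have := Real.log_le_log (by exact_mod_cast (mem_Ioc.1 hl).1) ((s1 l hl h0).2.2.trans hMX)
    linarith
  have s3 := ls_smooth h.ls hC hD hM0 Z _ s1 s2
  have s4 : ∀ i, ‖∑ l ∈ Ioc 0 Z, ((vonMangoldt l * w (y * l / X) : ℝ) : ℂ) * f i l‖ ≤ M * E := by
    intro i
    refine (norm_sum_le_of_le _ (n := fun l => if l ∈ Ioc 0 ⌊M⌋₊ then E else 0)
      fun l hl => ?_).trans ?_
    · split_ifs with h1
      · rw [norm_mul]
        exact (mul_le_of_le_one_right (norm_nonneg _) (h.le i l (mem_Ioc.1 hl).1)).trans (s2 l hl)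
      · by_contra hc
        refine h1 (mem_Ioc.2 ⟨(mem_Ioc.1 hl).1, Nat.le_floor (s1 l hl fun e => hc ?_).2.2⟩)
        rw [e]; simp
    · rw [← sum_filter, sum_const, nsmul_eq_mul]
      refine mul_le_mul_of_nonneg_right (le_trans ?_ (Nat.floor_le hM0.le)) (by linarith)
      exact_mod_cast (card_le_card fun l hl => (mem_filter.1 hl).2).trans (by simp)
  have s6 := fun (T : Finset ι) (hT : T ⊆ I) =>
    hHm T hT M E Z _ hM0 (fun l hl h0 => (s1 l hl h0).2) s2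
  generalize hA : (fun i => ‖∑ l ∈ Ioc 0 Z,
    ((vonMangoldt l * w (y * l / X) : ℝ) : ℂ) * f i l‖) = A
  have hA' : ∀ i, ‖∑ l ∈ Ioc 0 Z, ((vonMangoldt l * w (y * l / X) : ℝ) : ℂ) * f i l‖ = A i :=
    fun i => congrFun hA i
  simp only [norm_mul, mul_pow, hA'] at s3 s4 s6 ⊢
  have hA0 : ∀ i, 0 ≤ A i := fun i => hA' i ▸ norm_nonneg _
  have s5 : ∀ T ⊆ I, ∑ i ∈ T, A i ^ 2 ≤ 2 * C0 * (M + D) * M * E ^ 2 := fun T hT =>
    (sum_le_sum_of_subset_of_nonneg hT fun _ _ _ => by positivity).trans s3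
  have hE2 : E ^ 2 ≤ E ^ 4 := pow_le_pow_right₀ hE1 (by norm_num)
  have t0 : 0 ≤ δ ^ 4 * X ^ 2 := by positivity
  have t1 : 0 ≤ C2 * (1 + 2 * C1 * 6 ^ (k + 1)) := by positivity
  have s7 : ∀ (T : Finset ι) (c : ℝ), 0 ≤ c →
      (∀ i ∈ T, ‖∑ n ∈ Ioc a a', bV V n * f i n‖ ≤ c * a) →
      ∑ i ∈ T, ‖∑ n ∈ Ioc a a', bV V n * f i n‖ ^ 2 * A i ^ 2 ≤
        (c * y) ^ 2 * ∑ i ∈ T, A i ^ 2 := by
    intro T c hc hT
    rw [mul_sum]
    exact sum_le_sum fun i hi => mul_le_mul_of_nonneg_right (pow_le_pow_left₀ (norm_nonneg _)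
      ((hT i hi).trans (mul_le_mul_of_nonneg_left hay hc)) 2) (by positivity)
  rcases le_total D M with hc | hc
  · calc _ ≤ (δ ^ 2 * y) ^ 2 * ∑ i ∈ S, A i ^ 2 := s7 S _ (by positivity) hS'
      _ ≤ (δ ^ 2 * y) ^ 2 * (2 * C0 * (M + M) * M * E ^ 2) := by
          refine mul_le_mul_of_nonneg_left ((s5 S hS).trans ?_) (by positivity)
          gcongr
      _ = 4 * C0 * (δ ^ 4 * X ^ 2) * E ^ 2 := by rw [← hMy]; ring
      _ ≤ (8 * C0 + 2 + C2 * (1 + 2 * C1 * 6 ^ (k + 1))) * (δ ^ 4 * X ^ 2) * E ^ 4 := by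
          gcongr; linarith
      _ = _ := by ring
  rcases le_total (D * β ^ 2 * (V : ℝ) ^ 2 * M) (δ ^ 4 * X ^ 2) with hβ | hβ
  · calc _ ≤ ∑ i ∈ S, (2 * (V * β) ^ 2 * A i ^ 2 + 2 * (y * E) ^ 2 * (M * E) ^ 2 * η i ^ 2) := by
          refine sum_le_sum fun i hi => ?_
          have k0 := h.η0 i
          have k1 : ‖∑ n ∈ Ioc a a', bV V n * f i n‖ ≤ V * β + y * E * η i := by
            refine (h.bpoint (hS hi) hV hVa haa ha').trans (add_le_add le_rfl ?_)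
            rw [mul_right_comm]
            have : 0 ≤ 1 + Real.log V := by positivity
            gcongr
          have k2 : ‖∑ n ∈ Ioc a a', bV V n * f i n‖ ^ 2 ≤
              2 * (V * β) ^ 2 + 2 * (y * E * η i) ^ 2 :=
            (pow_le_pow_left₀ (norm_nonneg _) k1 2).trans
              (by nlinarith [sq_nonneg (V * β - y * E * η i)])
          have k3 : A i ^ 2 ≤ (M * E) ^ 2 := pow_le_pow_left₀ (hA0 i) (s4 i) 2
          have k4 := mul_le_mul_of_nonneg_left k3 (show 0 ≤ 2 * (y * E * η i) ^ 2 by positivity)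
          have k5 := mul_le_mul_of_nonneg_right k2 (sq_nonneg (A i))
          nlinarith
      _ ≤ 2 * (V * β) ^ 2 * (2 * C0 * (D + D) * M * E ^ 2) +
          2 * (y * E) ^ 2 * (M * E) ^ 2 * δ ^ 4 := by
          rw [sum_add_distrib, ← mul_sum, ← mul_sum]
          refine add_le_add (mul_le_mul_of_nonneg_left ((s5 S hS).trans ?_) (by positivity))
            (mul_le_mul_of_nonneg_left (le_trans (sum_le_sum_of_subset_of_nonneg hS
              fun _ _ _ => by positivity) hη) (by positivity))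
          gcongr
      _ = 8 * C0 * (D * β ^ 2 * (V : ℝ) ^ 2 * M) * E ^ 2 + 2 * (δ ^ 4 * X ^ 2) * E ^ 4 := by
          rw [← hMy]; ring
      _ ≤ 8 * C0 * (δ ^ 4 * X ^ 2) * E ^ 4 + 2 * (δ ^ 4 * X ^ 2) * E ^ 4 := by gcongr
      _ = (8 * C0 + 2) * (δ ^ 4 * X ^ 2) * E ^ 4 := by ring
      _ ≤ (8 * C0 + 2 + C2 * (1 + 2 * C1 * 6 ^ (k + 1))) * (δ ^ 4 * X ^ 2) * E ^ 4 :=
          mul_le_mul_of_nonneg_right (mul_le_mul_of_nonneg_right (by linarith) t0) (by positivity)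
      _ = _ := by ring
  obtain ⟨j, hjk, m1, m2⟩ := hMid M hM0 hc hβ
  have hD0 : 0 < D := by linarith
  have u1 : D ≤ (a : ℝ) ^ (j + 1) := by
    refine le_of_mul_le_mul_right (m1.trans ?_) (show 0 < (6 * M) ^ (j + 1) by positivity)
    rw [← mul_pow]
    exact pow_le_pow_left₀ hX0.le (by nlinarith) _
  have u6 : (6 : ℝ) ^ (j + 1) ≤ 6 ^ (k + 1) := pow_le_pow_right₀ (by norm_num) (by omega)
  obtain ⟨lam, hlam⟩ : ∃ lam, lam = δ ^ 2 * √(M / D) := ⟨_, rfl⟩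
  have l0 : 0 < lam := by rw [hlam]; positivity
  have l2 : lam ^ 2 * D = δ ^ 4 * M := by
    rw [hlam, mul_pow, Real.sq_sqrt (by positivity)]; field_simp
  obtain ⟨T, hT⟩ : ∃ T, T = S.filter fun i => lam * a ≤ ‖∑ n ∈ Ioc a a', bV V n * f i n‖ :=
    ⟨_, rfl⟩
  have hT' : ∀ i, i ∈ T ↔ i ∈ S ∧ lam * a ≤ ‖∑ n ∈ Ioc a a', bV V n * f i n‖ := fun i => by
    rw [hT, mem_filter]
  have hTS : T ⊆ S := fun i hi => ((hT' i).1 hi).1
  have u2 : (T.card : ℝ) ≤ 2 * C1 * 6 ^ (j + 1) * E ^ 2 / lam ^ (2 * (j + 1)) := by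
    refine lw_bad h.mul hC1 j (fun U W hU hW => hls U W hU (hW.trans
      (mul_le_mul_of_nonneg_left u6 (Nat.cast_nonneg _)))) V ha0 ha' u1 l0 (fun n hn => ?_) T
      (hTS.trans hS) fun i hi => ((hT' i).1 hi).2
    rcases Nat.eq_zero_or_pos n.divisors.card with h0 | h0
    · rw [h0, Nat.cast_zero, zero_pow (by omega)]; linarith
    · exact (pow_le_pow_right₀ (by exact_mod_cast h0) (by omega)).trans
        (hτ n (hn.trans (Nat.pow_le_pow_right (ha0.trans haa) (by omega))))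
  have u3 : κ ≤ lam ^ (2 * (j + 1)) * M := by
    refine le_of_mul_le_mul_left (m2.trans (le_of_eq ?_)) (show 0 < D ^ (j + 1) by positivity)
    rw [pow_mul, pow_mul, ← mul_assoc, ← mul_pow, mul_comm D, l2, mul_pow]
    ring
  have u4 : (T.card : ℝ) * κ ≤ 2 * C1 * 6 ^ (k + 1) * E ^ 2 * M := by
    rw [le_div_iff₀ (by positivity)] at u2
    calc _ ≤ (T.card : ℝ) * (lam ^ (2 * (j + 1)) * M) :=
          mul_le_mul_of_nonneg_left u3 (Nat.cast_nonneg _)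
      _ = (T.card : ℝ) * lam ^ (2 * (j + 1)) * M := by ring
      _ ≤ 2 * C1 * 6 ^ (j + 1) * E ^ 2 * M := mul_le_mul_of_nonneg_right u2 hM0.le
      _ ≤ _ := by gcongr
  have hE3 : 1 ≤ E ^ 2 := one_le_pow₀ hE1
  have v1 : ∑ i ∈ T, ‖∑ n ∈ Ioc a a', bV V n * f i n‖ ^ 2 * A i ^ 2 ≤
      C2 * (1 + 2 * C1 * 6 ^ (k + 1)) * (δ ^ 4 * X ^ 2) * E ^ 4 := by
    calc _ ≤ (δ ^ 2 * y) ^ 2 * ∑ i ∈ T, A i ^ 2 :=
          s7 T _ (by positivity) fun i hi => hS' i (hTS hi)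
      _ ≤ (δ ^ 2 * y) ^ 2 * (C2 * (E ^ 2 * M + 2 * C1 * 6 ^ (k + 1) * E ^ 2 * M) * M * E ^ 2) := by
          refine mul_le_mul_of_nonneg_left ((s6 T (hTS.trans hS)).trans ?_) (by positivity)
          have : M ≤ E ^ 2 * M := le_mul_of_one_le_left hM0.le hE3
          gcongr
      _ = _ := by rw [← hMy]; ring
  have v2 : ∑ i ∈ S \ T, ‖∑ n ∈ Ioc a a', bV V n * f i n‖ ^ 2 * A i ^ 2 ≤
      (8 * C0 + 2) * (δ ^ 4 * X ^ 2) * E ^ 4 := by
    calc _ ≤ (lam * y) ^ 2 * ∑ i ∈ S \ T, A i ^ 2 := by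
          refine s7 _ _ l0.le fun i hi => ?_
          obtain ⟨k1, k2⟩ := mem_sdiff.1 hi
          by_contra k3
          exact k2 ((hT' i).2 ⟨k1, (not_le.1 k3).le⟩)
      _ ≤ (lam * y) ^ 2 * (2 * C0 * (D + D) * M * E ^ 2) := by
          refine mul_le_mul_of_nonneg_left ((s5 _ (sdiff_subset.trans hS)).trans ?_) (by positivity)
          gcongr
      _ = 4 * C0 * (lam ^ 2 * D) * M * y ^ 2 * E ^ 2 := by ring
      _ = 4 * C0 * (δ ^ 4 * X ^ 2) * E ^ 2 := by rw [l2, ← hMy]; ring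
      _ ≤ _ := by gcongr; linarith
  rw [← sum_sdiff hTS]
  linarith

end Pool.Agent.Lib.MP_778b46_nt.MB
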